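import Pool.Agent.Run7.h105.Obs
import Pool.Agent.H754R3.PR.Traj

/-!
# From uniqueness of the velocity to one determining functional of the pressure
-/

set_option autoImplicit false

namespace Run7.h105

open Set Filter Topology MeasureTheory Pool.Agent.H754R3.PR

/-- square integrable functions on `Ω` -/
abbrev L2 (Ω : Set P2) : Type := Lp ℝ 2 (volume.restrict Ω)

/-- a triple `(u1, u2, p)` of functions of `(t, x)` -/
abbrev Fld : Type := (P3 → ℝ) × (P3 → ℝ) × (P3 → ℝ)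

/-- the curve `P` in `L²(Ω)` is the class of `t ↦ p (t, ·)` -/
def Rep (Ω : Set P2) (P : ℝ → L2 Ω) (p : P3 → ℝ) : Prop :=
  ∀ t, (P t : P2 → ℝ) =ᵐ[volume.restrict Ω] fun x => p (t, x)

/-- time shift -/
def sh (s : ℝ) (F : P3 → ℝ) : P3 → ℝ := fun z => F (z.1 + s, z.2)

/-- the pressure curves of a family -/
def pressCurves (Ω : Set P2) (A : Set Fld) : Set C(ℝ, L2 Ω) := {P | ∃ a ∈ A, Rep Ω P a.2.2}

/-- `(U1, U2)` with pressure `Q`, curves in `L²(Ω)`, is attracted by the family `A`: from every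
sequence of times tending to infinity one can extract a subsequence along which the translates of
`Q` converge pointwise in time to the pressure curve of a member of `A`, and `(U1, U2)` converges
to the velocity of this member at time `0`. -/
def Attracted (Ω : Set P2) (A : Set Fld) (U1 U2 Q : ℝ → L2 Ω) : Prop :=
  ∀ τ : ℕ → ℝ, Tendsto τ atTop atTop → ∃ φ : ℕ → ℕ, StrictMono φ ∧ ∃ a ∈ A,
    ∃ (P : C(ℝ, L2 Ω)) (V1 V2 : L2 Ω), Rep Ω P a.2.2 ∧
      ((V1 : P2 → ℝ) =ᵐ[volume.restrict Ω] fun x => a.1 (0, x)) ∧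
      ((V2 : P2 → ℝ) =ᵐ[volume.restrict Ω] fun x => a.2.1 (0, x)) ∧
      (∀ s, Tendsto (fun n => Q (τ (φ n) + s)) atTop (𝓝 (P s))) ∧
      Tendsto (fun n => U1 (τ (φ n))) atTop (𝓝 V1) ∧
      Tendsto (fun n => U2 (τ (φ n))) atTop (𝓝 V2)

/-- two continuous functions on an open set which represent the same class coincide -/
lemma eq_of_rep {Ω : Set P2} (hΩ : IsOpen Ω) {y : L2 Ω} {f g : P2 → ℝ} (hf : ContinuousOn f Ω)
    (hg : ContinuousOn g Ω) (h1 : (y : P2 → ℝ) =ᵐ[volume.restrict Ω] f)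
    (h2 : (y : P2 → ℝ) =ᵐ[volume.restrict Ω] g) : ∀ x ∈ Ω, f x = g x := by
  have h3 : f =ᵐ[volume.restrict Ω] g := h1.symm.trans h2
  have h4 := Measure.eqOn_open_of_ae_eq (μ := volume) h3 hΩ hf hg
  exact fun x hx => h4 hx

section

variable {Ω : Set P2} (hΩ : IsOpen Ω) {A : Set Fld}
  (hpress : ∀ a ∈ A, ∀ t, ContinuousOn (sl a.2.2 t) Ω)
  (huniq : ∀ a ∈ A, ∀ b ∈ A, (∀ t, ∀ x ∈ Ω, a.2.2 (t, x) = b.2.2 (t, x)) →
    ∀ t, ∀ x ∈ Ω, a.1 (t, x) = b.1 (t, x) ∧ a.2.1 (t, x) = b.2.1 (t, x))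

include hΩ hpress huniq in
lemma eq_of_curve {a b : Fld} (ha : a ∈ A) (hb : b ∈ A) {P : C(ℝ, L2 Ω)} (hPa : Rep Ω P a.2.2)
    (hPb : Rep Ω P b.2.2) :
    ∀ t, ∀ x ∈ Ω, a.1 (t, x) = b.1 (t, x) ∧ a.2.1 (t, x) = b.2.1 (t, x) :=
  huniq a ha b hb (fun t => eq_of_rep hΩ (hpress a ha t) (hpress b hb t) (hPa t) (hPb t))

include hΩ hpress huniq in
/-- the functional is asymptotically determining -/
lemma asymp {F : BoundedContinuousFunction (L2 Ω) ℝ}
    (hF : ∀ P ∈ pressCurves Ω A, ∀ Q ∈ pressCurves Ω A, (∀ t, F (P t) = F (Q t)) → P = Q)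
    {U1 U2 Q U1' U2' Q' : ℝ → L2 Ω} (hU : Attracted Ω A U1 U2 Q) (hU' : Attracted Ω A U1' U2' Q')
    (hlim : Tendsto (fun t => F (Q t) - F (Q' t)) atTop (𝓝 0)) :
    Tendsto (fun t => ‖U1 t - U1' t‖) atTop (𝓝 0) ∧
      Tendsto (fun t => ‖U2 t - U2' t‖) atTop (𝓝 0) := by
  have key : ∀ τ : ℕ → ℝ, Tendsto τ atTop atTop → ∃ φ : ℕ → ℕ,
      Tendsto (fun n => ‖U1 (τ (φ n)) - U1' (τ (φ n))‖) atTop (𝓝 0) ∧
      Tendsto (fun n => ‖U2 (τ (φ n)) - U2' (τ (φ n))‖) atTop (𝓝 0) := by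
    intro τ hτ
    obtain ⟨φ, hφ, a, ha, P, V1, V2, hP, hV1, hV2, hQ, hU1, hU2⟩ := hU τ hτ
    obtain ⟨ψ, hψ, b, hb, P', V1', V2', hP', hV1', hV2', hQ', hU1', hU2'⟩ :=
      hU' (fun n => τ (φ n)) (hτ.comp hφ.tendsto_atTop)
    have hψt := hψ.tendsto_atTop
    have hPP : P = P' := by
      refine hF P ⟨a, ha, hP⟩ P' ⟨b, hb, hP'⟩ (fun s => ?_)
      have l1 : Tendsto (fun n => F (Q (τ (φ (ψ n)) + s))) atTop (𝓝 (F (P s))) :=
        (F.continuous.tendsto _).comp ((hQ s).comp hψt)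
      have l2 : Tendsto (fun n => F (Q' (τ (φ (ψ n)) + s))) atTop (𝓝 (F (P' s))) :=
        (F.continuous.tendsto _).comp (hQ' s)
      have l3 := l1.sub l2
      have l4 : Tendsto (fun n => τ (φ (ψ n)) + s) atTop atTop :=
        tendsto_atTop_add_const_right _ _ ((hτ.comp hφ.tendsto_atTop).comp hψt)
      have l5 := hlim.comp l4
      have l6 := tendsto_nhds_unique l3 l5
      linarith
    subst hPP
    have hab := eq_of_curve hΩ hpress huniq ha hb hP hP'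
    have e1 : V1 = V1' := by
      refine Lp.ext ?_
      filter_upwards [hV1, hV1', ae_restrict_mem hΩ.measurableSet] with x h1 h2 hx
      rw [h1, h2]; exact (hab 0 x hx).1
    have e2 : V2 = V2' := by
      refine Lp.ext ?_
      filter_upwards [hV2, hV2', ae_restrict_mem hΩ.measurableSet] with x h1 h2 hx
      rw [h1, h2]; exact (hab 0 x hx).2
    subst e1 e2
    refine ⟨fun n => φ (ψ n), ?_, ?_⟩
    · have := ((hU1.comp hψt).sub hU1').norm
      rw [sub_self, norm_zero] at this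
      exact this
    · have := ((hU2.comp hψt).sub hU2').norm
      rw [sub_self, norm_zero] at this
      exact this
  constructor
  · refine tendsto_of_subseq_tendsto fun ns hns => ?_
    obtain ⟨φ, h1, -⟩ := key ns hns
    exact ⟨φ, h1⟩
  · refine tendsto_of_subseq_tendsto fun ns hns => ?_
    obtain ⟨φ, -, h2⟩ := key ns hns
    exact ⟨φ, h2⟩

include hΩ hpress huniq in
/-- the constant pressure curves come from steady states -/
lemma const_steady (hshift : ∀ a ∈ A, ∀ s, (sh s a.1, sh s a.2.1, sh s a.2.2) ∈ A)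
    {a : Fld} (ha : a ∈ A) {y : L2 Ω} (hy : Rep Ω (ContinuousMap.const ℝ y) a.2.2) :
    ∀ t, ∀ x ∈ Ω, a.1 (t, x) = a.1 (0, x) ∧ a.2.1 (t, x) = a.2.1 (0, x) := by
  intro t x hx
  have h1 : Rep Ω (ContinuousMap.const ℝ y) (sh t a.2.2) := fun s => hy (s + t)
  have h2 := eq_of_curve hΩ hpress huniq (hshift a ha t) ha h1 hy 0 x hx
  simpa [sh] using h2

end

end Run7.h105
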