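import Mathlib

/-!
# One scalar observable separates a compact set of curves

Let `K` be a compact set of continuous curves `ℝ → Y` in a separable metric space, only countably
many of which are constant. Then one continuous bounded function `f : Y → ℝ` separates the curves:
`f ∘ p = f ∘ q` with `p, q ∈ K` implies `p = q`.
-/

set_option autoImplicit false

namespace Run7.h105

open Set Filter Topology

variable {Y : Type*} [MetricSpace Y]

/-- the value map on `C(ℝ, Y)` -/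
lemma cont_val : Continuous (fun x : C(ℝ, Y) × ℝ => x.1 x.2) := by
  exact continuous_eval

/-- common modulus of continuity of `f ∘ p` on `[a, b]`, `p` in a compact set -/
lemma modulus {K : Set C(ℝ, Y)} (hK : IsCompact K) {f : Y → ℝ} (hf : Continuous f) (a b : ℝ)
    {η : ℝ} (hη : 0 < η) : ∃ δ > 0, ∀ p ∈ K, ∀ s ∈ Icc a b, ∀ t ∈ Icc a b, |s - t| < δ →
      |f (p s) - f (p t)| < η := by
  by_contra hcon
  push Not at hcon
  set W : ℕ → Set (C(ℝ, Y) × ℝ × ℝ) := fun n =>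
    (K ×ˢ (Icc a b ×ˢ Icc a b)) ∩ ({x | |x.2.1 - x.2.2| ≤ 1 / ((n : ℝ) + 1)} ∩
      {x | η ≤ |f (x.1 x.2.1) - f (x.1 x.2.2)|}) with hW
  have c1 : Continuous (fun x : C(ℝ, Y) × ℝ × ℝ => f (x.1 x.2.1)) :=
    hf.comp (cont_val.comp (by fun_prop : Continuous fun x : C(ℝ, Y) × ℝ × ℝ => (x.1, x.2.1)))
  have c2 : Continuous (fun x : C(ℝ, Y) × ℝ × ℝ => f (x.1 x.2.2)) :=
    hf.comp (cont_val.comp (by fun_prop : Continuous fun x : C(ℝ, Y) × ℝ × ℝ => (x.1, x.2.2)))
  have hcl : ∀ n, IsClosed ({x : C(ℝ, Y) × ℝ × ℝ | |x.2.1 - x.2.2| ≤ 1 / ((n : ℝ) + 1)} ∩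
      {x | η ≤ |f (x.1 x.2.1) - f (x.1 x.2.2)|}) := fun n =>
    (isClosed_le (by fun_prop) continuous_const).inter
      (isClosed_le continuous_const ((c1.sub c2).abs))
  have hcomp : ∀ n, IsCompact (W n) := fun n =>
    (hK.prod (isCompact_Icc.prod isCompact_Icc)).inter_right (hcl n)
  have hne : ∀ n, (W n).Nonempty := by
    intro n
    obtain ⟨p, hp, s, hs, t, ht, h1, h2⟩ := hcon (1 / ((n : ℝ) + 1)) (by positivity)
    exact ⟨(p, s, t), ⟨hp, hs, ht⟩, h1.le, h2⟩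
  have hanti : ∀ n, W (n + 1) ⊆ W n := by
    intro n x hx
    refine ⟨hx.1, ?_, hx.2.2⟩
    have h1 := hx.2.1
    simp only [Set.mem_ofPred_eq] at h1 ⊢
    refine h1.trans ?_
    apply one_div_le_one_div_of_le (by positivity)
    push_cast; linarith
  obtain ⟨x, hx⟩ := IsCompact.nonempty_iInter_of_sequence_nonempty_isCompact_isClosed W hanti hne
    (hcomp 0) (fun n => (hcomp n).isClosed)
  rw [mem_iInter] at hx
  have h0 : |x.2.1 - x.2.2| ≤ 0 := by
    refine ge_of_tendsto' tendsto_one_div_add_atTop_nhds_zero_nat (fun n => ?_)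
    exact (hx n).2.1
  have h1 : x.2.1 = x.2.2 := by
    have := abs_nonpos_iff.1 h0
    linarith
  have h2 := (hx 0).2.2
  simp only [Set.mem_ofPred_eq, h1, sub_self, abs_zero] at h2
  linarith

/-- chaining -/
lemma chain {γ : ℝ → ℝ} {a b δ μ : ℝ} {n : ℕ} (hn : 0 < n) (hδ : b - a < n * δ)
    (h : ∀ s ∈ Icc a b, ∀ t ∈ Icc a b, |s - t| < δ → |γ s - γ t| ≤ μ) :
    ∀ s ∈ Icc a b, ∀ t ∈ Icc a b, |γ s - γ t| ≤ n * μ := by
  intro s hs t ht
  have hn' : (0 : ℝ) < n := by exact_mod_cast hn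
  set x : ℕ → ℝ := fun i => s + (i / n) * (t - s) with hx
  have hx0 : x 0 = s := by simp [hx]
  have hxn : x n = t := by simp only [hx]; field_simp; ring
  have hmem : ∀ i, i ≤ n → x i ∈ Icc a b := by
    intro i hi
    have h1 : (0 : ℝ) ≤ (i : ℝ) / n := by positivity
    have h2 : (i : ℝ) / n ≤ 1 := by
      rw [div_le_one hn']; exact_mod_cast hi
    have h3 := hs.1
    have h4 := hs.2
    have h5 := ht.1
    have h6 := ht.2
    constructor
    · simp only [hx]; nlinarith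
    · simp only [hx]; nlinarith
  have hstep : ∀ i, i < n → dist (γ (x i)) (γ (x (i + 1))) ≤ μ := by
    intro i hi
    rw [Real.dist_eq]
    refine h _ (hmem i hi.le) _ (hmem (i + 1) hi) ?_
    have e1 : x i - x (i + 1) = - ((t - s) / n) := by
      simp only [hx]; push_cast; field_simp; ring
    rw [e1, abs_neg, abs_div, abs_of_pos hn', div_lt_iff₀ hn']
    have h3 : |t - s| ≤ b - a := by
      rw [abs_le]; constructor <;> linarith [hs.1, hs.2, ht.1, ht.2]
    linarith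
  have h1 := dist_le_range_sum_dist (fun i => γ (x i)) n
  rw [hx0, hxn, Real.dist_eq] at h1
  refine h1.trans ?_
  refine (Finset.sum_le_sum (fun i hi => hstep i (Finset.mem_range.1 hi))).trans ?_
  simp

/-- an interval of length more than one period contains the maximum and the minimum of the sine -/
lemma sin_values {ω u v : ℝ} (hω : 0 < ω) (h : 2 * Real.pi < ω * (v - u)) :
    (∃ x ∈ Icc u v, Real.sin (ω * x) = 1) ∧ (∃ x ∈ Icc u v, Real.sin (ω * x) = -1) := by
  have hpi := Real.pi_pos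
  have key : ∀ θ : ℝ, ∃ m : ℤ, ω * u ≤ θ + m * (2 * Real.pi) ∧
      θ + m * (2 * Real.pi) ≤ ω * v := by
    intro θ
    refine ⟨⌈(ω * u - θ) / (2 * Real.pi)⌉, ?_, ?_⟩
    · have h1 := Int.le_ceil ((ω * u - θ) / (2 * Real.pi))
      rw [div_le_iff₀ (by positivity)] at h1
      linarith
    · have h1 := (Int.ceil_lt_add_one ((ω * u - θ) / (2 * Real.pi))).le
      have h2 : (⌈(ω * u - θ) / (2 * Real.pi)⌉ : ℝ) * (2 * Real.pi) ≤
          ((ω * u - θ) / (2 * Real.pi) + 1) * (2 * Real.pi) :=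
        mul_le_mul_of_nonneg_right h1 (by positivity)
      rw [add_mul, div_mul_cancel₀ _ (by positivity)] at h2
      nlinarith
  constructor
  · obtain ⟨m, h1, h2⟩ := key (Real.pi / 2)
    refine ⟨(Real.pi / 2 + m * (2 * Real.pi)) / ω, ⟨?_, ?_⟩, ?_⟩
    · rw [le_div_iff₀ hω]; linarith
    · rw [div_le_iff₀ hω]; linarith
    · rw [mul_div_cancel₀ _ hω.ne', Real.sin_add_int_mul_two_pi, Real.sin_pi_div_two]
  · obtain ⟨m, h1, h2⟩ := key (-(Real.pi / 2))
    refine ⟨(-(Real.pi / 2) + m * (2 * Real.pi)) / ω, ⟨?_, ?_⟩, ?_⟩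
    · rw [le_div_iff₀ hω]; linarith
    · rw [div_le_iff₀ hω]; linarith
    · rw [mul_div_cancel₀ _ hω.ne', Real.sin_add_int_mul_two_pi, Real.sin_neg,
        Real.sin_pi_div_two]

/-- the pairs of curves treated by one perturbation -/
def Bx (K : Set C(ℝ, Y)) (c : Y) (a b α β r : ℝ) : Set (C(ℝ, Y) × C(ℝ, Y)) :=
  {x | (x.1 ∈ K ∧ x.2 ∈ K) ∧ (∀ t ∈ Icc a b, r ≤ dist (x.2 t) c) ∧
    (∃ t ∈ Icc a b, dist (x.1 t) c ≤ α) ∧ (∃ t ∈ Icc a b, β ≤ dist (x.1 t) c)}

lemma closed_ex {X : Type*} [TopologicalSpace X] {a b : ℝ} {F : X → ℝ → ℝ}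
    (hF : Continuous (fun z : X × ℝ => F z.1 z.2)) : IsClosed {x | ∃ t ∈ Icc a b, 0 ≤ F x t} := by
  have h1 : IsClosed {z : X × Icc a b | 0 ≤ F z.1 z.2} :=
    isClosed_le continuous_const (hF.comp (by fun_prop : Continuous fun z : X × Icc a b =>
      ((z.1, (z.2 : ℝ)) : X × ℝ)))
  have h2 := isClosedMap_fst_of_compactSpace (X := X) (Y := Icc a b) _ h1
  convert h2 using 1
  ext x
  constructor
  · rintro ⟨t, ht, h⟩
    exact ⟨(x, ⟨t, ht⟩), h, rfl⟩
  · rintro ⟨⟨y, t⟩, h, rfl⟩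
    exact ⟨t, t.2, h⟩

lemma Bx_compact {K : Set C(ℝ, Y)} (hK : IsCompact K) (c : Y) (a b α β r : ℝ) :
    IsCompact (Bx K c a b α β r) := by
  have hv1 : Continuous (fun z : (C(ℝ, Y) × C(ℝ, Y)) × ℝ => z.1.1 z.2) :=
    cont_val.comp (by fun_prop : Continuous fun z : (C(ℝ, Y) × C(ℝ, Y)) × ℝ => (z.1.1, z.2))
  have hv2 : Continuous (fun z : (C(ℝ, Y) × C(ℝ, Y)) × ℝ => z.1.2 z.2) :=
    cont_val.comp (by fun_prop : Continuous fun z : (C(ℝ, Y) × C(ℝ, Y)) × ℝ => (z.1.2, z.2))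
  have hd1 : Continuous (fun z : (C(ℝ, Y) × C(ℝ, Y)) × ℝ => dist (z.1.1 z.2) c) :=
    hv1.dist continuous_const
  have h1 : IsClosed {x : C(ℝ, Y) × C(ℝ, Y) | ∀ t ∈ Icc a b, r ≤ dist (x.2 t) c} := by
    simp only [Set.ofPred_forall]
    refine isClosed_iInter fun t => isClosed_iInter fun _ => ?_
    have : Continuous (fun x : C(ℝ, Y) × C(ℝ, Y) => dist (x.2 t) c) :=
      ((hv2.comp (by fun_prop : Continuous fun x : C(ℝ, Y) × C(ℝ, Y) =>
        ((x, t) : (C(ℝ, Y) × C(ℝ, Y)) × ℝ)))).dist continuous_const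
    exact isClosed_le continuous_const this
  have h2 : IsClosed {x : C(ℝ, Y) × C(ℝ, Y) | ∃ t ∈ Icc a b, dist (x.1 t) c ≤ α} := by
    have := closed_ex (a := a) (b := b) (F := fun (x : C(ℝ, Y) × C(ℝ, Y)) t =>
      α - dist (x.1 t) c) (continuous_const.sub hd1)
    simpa only [sub_nonneg] using this
  have h3 : IsClosed {x : C(ℝ, Y) × C(ℝ, Y) | ∃ t ∈ Icc a b, β ≤ dist (x.1 t) c} := by
    have := closed_ex (a := a) (b := b) (F := fun (x : C(ℝ, Y) × C(ℝ, Y)) t =>
      dist (x.1 t) c - β) (hd1.sub continuous_const)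
    simpa only [sub_nonneg] using this
  exact (hK.prod hK).inter_right (h1.inter (h2.inter h3))

/-- joint continuity of the evaluation of bounded continuous functions -/
lemma cont_bcf : Continuous (fun x : BoundedContinuousFunction Y ℝ × Y => x.1 x.2) := by
  exact continuous_eval

/-- the functions that see all the pairs of a set form an open set -/
lemma good_open {B : Set (C(ℝ, Y) × C(ℝ, Y))} (hB : IsCompact B) (a b : ℝ) :
    IsOpen {f : BoundedContinuousFunction Y ℝ | ∀ x ∈ B, ∃ t ∈ Icc a b, f (x.1 t) ≠ f (x.2 t)} := by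
  have hv1 : Continuous (fun z : (C(ℝ, Y) × C(ℝ, Y)) × ℝ => z.1.1 z.2) :=
    cont_val.comp (by fun_prop : Continuous fun z : (C(ℝ, Y) × C(ℝ, Y)) × ℝ => (z.1.1, z.2))
  have hv2 : Continuous (fun z : (C(ℝ, Y) × C(ℝ, Y)) × ℝ => z.1.2 z.2) :=
    cont_val.comp (by fun_prop : Continuous fun z : (C(ℝ, Y) × C(ℝ, Y)) × ℝ => (z.1.2, z.2))
  have : CompactSpace B := isCompact_iff_compactSpace.1 hB
  have h1 : IsClosed {z : BoundedContinuousFunction Y ℝ × B |
      ∀ t ∈ Icc a b, z.1 ((z.2 : C(ℝ, Y) × C(ℝ, Y)).1 t) = z.1 ((z.2 : C(ℝ, Y) × C(ℝ, Y)).2 t)} := by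
    simp only [Set.ofPred_forall]
    refine isClosed_iInter fun t => isClosed_iInter fun _ => ?_
    have e1 : Continuous (fun z : BoundedContinuousFunction Y ℝ × B =>
        z.1 ((z.2 : C(ℝ, Y) × C(ℝ, Y)).1 t)) := by
      have k1 : Continuous (fun z : BoundedContinuousFunction Y ℝ × B =>
        (z.1, (z.2 : C(ℝ, Y) × C(ℝ, Y)).1 t)) :=
        continuous_fst.prodMk (hv1.comp (by fun_prop : Continuous
          fun z : BoundedContinuousFunction Y ℝ × B => ((z.2 : C(ℝ, Y) × C(ℝ, Y)), t)))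
      exact (cont_bcf).comp k1
    have e2 : Continuous (fun z : BoundedContinuousFunction Y ℝ × B =>
        z.1 ((z.2 : C(ℝ, Y) × C(ℝ, Y)).2 t)) := by
      have k1 : Continuous (fun z : BoundedContinuousFunction Y ℝ × B =>
        (z.1, (z.2 : C(ℝ, Y) × C(ℝ, Y)).2 t)) :=
        continuous_fst.prodMk (hv2.comp (by fun_prop : Continuous
          fun z : BoundedContinuousFunction Y ℝ × B => ((z.2 : C(ℝ, Y) × C(ℝ, Y)), t)))
      exact (cont_bcf).comp k1
    exact isClosed_eq e1 e2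
  have h2 := isClosedMap_fst_of_compactSpace _ h1
  rw [← isClosed_compl_iff]
  convert h2 using 1
  ext f
  constructor
  · intro hf
    have hf' : ¬ (∀ x ∈ B, ∃ t ∈ Icc a b, f (x.1 t) ≠ f (x.2 t)) := hf
    push Not at hf'
    obtain ⟨x, hx, h⟩ := hf'
    exact ⟨(f, ⟨x, hx⟩), h, rfl⟩
  · rintro ⟨⟨g, ⟨x, hx⟩⟩, h, rfl⟩
    intro hf
    obtain ⟨t, ht, h'⟩ := hf x hx
    exact h' (h t ht)

/-- the functions that see all the pairs of `Bx` form a dense set -/
lemma good_dense {K : Set C(ℝ, Y)} (hK : IsCompact K) (c : Y) {a b α β r : ℝ}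
    (hαβ : α < β) (hα : 0 < α) (hβr : β < r) :
    Dense {f : BoundedContinuousFunction Y ℝ | ∀ x ∈ Bx K c a b α β r,
      ∃ t ∈ Icc a b, f (x.1 t) ≠ f (x.2 t)} := by
  rw [Metric.dense_iff]
  intro f ε hε
  have hr : 0 < r := by linarith
  obtain ⟨η, hη⟩ : ∃ η : ℝ, η = ε / 2 := ⟨_, rfl⟩
  have hη0 : 0 < η := by rw [hη]; positivity
  obtain ⟨δ, hδ, hmod⟩ := modulus hK f.continuous a b (η := η / 4) (by positivity)
  obtain ⟨n, hn⟩ := exists_nat_gt (max ((b - a) / δ) 0)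
  have hn0 : 0 < n := by
    have := (le_max_right ((b - a) / δ) 0).trans_lt hn
    exact_mod_cast this
  have hnδ : b - a < n * δ := by
    have := (le_max_left ((b - a) / δ) 0).trans_lt hn
    rwa [div_lt_iff₀ hδ] at this
  obtain ⟨k, hk⟩ := exists_nat_gt (2 * r * n / (β - α))
  have hk0 : (0 : ℝ) < k := lt_of_le_of_lt (by
    have : 0 < β - α := by linarith
    positivity) hk
  have hkμ : n * (2 * r / k) < β - α := by
    rw [div_lt_iff₀ (by linarith)] at hk
    rw [← mul_div_assoc, div_lt_iff₀ hk0]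
    linarith
  have hpi := Real.pi_pos
  obtain ⟨ω, hω⟩ : ∃ ω : ℝ, ω = k * Real.pi / r := ⟨_, rfl⟩
  have hω0 : 0 < ω := by rw [hω]; positivity
  -- the perturbation
  have hcont : Continuous (fun y : Y => η * Real.sin (ω * min (dist y c) r)) := by fun_prop
  obtain ⟨H, hH⟩ : ∃ H : BoundedContinuousFunction Y ℝ, ∀ y, H y =
      η * Real.sin (ω * min (dist y c) r) :=
    ⟨BoundedContinuousFunction.ofNormedAddCommGroup _ hcont η (fun y => by
      rw [norm_mul, Real.norm_eq_abs, Real.norm_eq_abs, abs_of_pos hη0]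
      have := Real.abs_sin_le_one (ω * min (dist y c) r)
      nlinarith [abs_nonneg (Real.sin (ω * min (dist y c) r))]), fun y => rfl⟩
  have hHn : ‖H‖ ≤ η := by
    rw [BoundedContinuousFunction.norm_le hη0.le]
    intro y
    rw [hH, norm_mul, Real.norm_eq_abs, Real.norm_eq_abs, abs_of_pos hη0]
    have := Real.abs_sin_le_one (ω * min (dist y c) r)
    nlinarith [abs_nonneg (Real.sin (ω * min (dist y c) r))]
  refine ⟨f + H, ?_, ?_⟩
  · rw [Metric.mem_ball, dist_eq_norm, add_sub_cancel_left]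
    linarith
  rintro ⟨p, q⟩ ⟨⟨hp, hq⟩, hfar, ⟨tα, htα, hα'⟩, ⟨tβ, htβ, hβ'⟩⟩
  simp only at hp hq hfar htα hα' htβ hβ' ⊢
  by_contra hcon
  push Not at hcon
  -- values of H along p
  have hHp : ∀ t ∈ Icc a b, H (p t) = f (q t) - f (p t) := by
    intro t ht
    have h1 := hcon t ht
    simp only [BoundedContinuousFunction.coe_add, Pi.add_apply] at h1
    have h2 : H (q t) = 0 := by
      rw [hH, min_eq_right (hfar t ht), hω, div_mul_cancel₀ _ hr.ne', Real.sin_nat_mul_pi,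
        mul_zero]
    linarith
  have hHosc : ∀ s ∈ Icc a b, ∀ t ∈ Icc a b, |s - t| < δ → |H (p s) - H (p t)| < η / 2 := by
    intro s hs t ht hst
    rw [hHp s hs, hHp t ht]
    have h1 := hmod p hp s hs t ht hst
    have h2 := hmod q hq s hs t ht hst
    have e : f (q s) - f (p s) - (f (q t) - f (p t)) =
      (f (q s) - f (q t)) - (f (p s) - f (p t)) := by ring
    rw [e]
    refine (abs_sub _ _).trans_lt ?_
    linarith
  obtain ⟨γ, hγ⟩ : ∃ γ : ℝ → ℝ, γ = fun t => min (dist (p t) c) r := ⟨_, rfl⟩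
  have hγc : Continuous γ := by
    rw [hγ]
    exact (((map_continuous p).dist continuous_const)).min continuous_const
  have hosc : ∀ s ∈ Icc a b, ∀ t ∈ Icc a b, |s - t| < δ → |γ s - γ t| ≤ 2 * r / k := by
    -- symmetric reduction
    have key : ∀ s ∈ Icc a b, ∀ t ∈ Icc a b, |s - t| < δ → γ t - γ s ≤ 2 * r / k := by
      intro s hs t ht hst
      by_contra hlt
      push Not at hlt
      have h1 : 2 * Real.pi < ω * (γ t - γ s) := by
        have h2 : ω * (2 * r / k) < ω * (γ t - γ s) := mul_lt_mul_of_pos_left hlt hω0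
        have h3 : ω * (2 * r / k) = 2 * Real.pi := by
          rw [hω]; field_simp
        linarith
      obtain ⟨⟨v, hv, hv1⟩, ⟨v', hv', hv1'⟩⟩ := sin_values hω0 h1
      have hsub : uIcc s t ⊆ Icc a b := uIcc_subset_Icc hs ht
      have hivt := intermediate_value_uIcc (a := s) (b := t) hγc.continuousOn
      have hIu : Icc (γ s) (γ t) ⊆ uIcc (γ s) (γ t) := Icc_subset_uIcc
      obtain ⟨x, hx, hxv⟩ := hivt (hIu hv)
      obtain ⟨x', hx', hxv'⟩ := hivt (hIu hv')
      have hd : |x - x'| < δ := by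
        refine lt_of_le_of_lt ?_ hst
        have := Real.dist_le_of_mem_uIcc hx hx'
        rwa [Real.dist_eq, Real.dist_eq] at this
      have h4 := hHosc x (hsub hx) x' (hsub hx') hd
      have h5 : H (p x) = η := by
        rw [hH]
        have : min (dist (p x) c) r = v := by rw [← hxv, hγ]
        rw [this, hv1, mul_one]
      have h6 : H (p x') = -η := by
        rw [hH]
        have : min (dist (p x') c) r = v' := by rw [← hxv', hγ]
        rw [this, hv1']; ring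
      rw [h5, h6, sub_neg_eq_add, abs_of_pos (by linarith)] at h4
      linarith
    intro s hs t ht hst
    rw [abs_le]
    have h1 := key s hs t ht hst
    have h2 := key t ht s hs (by rwa [abs_sub_comm])
    constructor <;> linarith
  have h1 := chain hn0 hnδ hosc tβ htβ tα htα
  have h2 : β ≤ γ tβ := by rw [hγ]; exact le_min hβ' hβr.le
  have h3 : γ tα ≤ α := by rw [hγ]; exact (min_le_left _ _).trans hα'
  have h4 := le_abs_self (γ tβ - γ tα)
  linarith

/-- the case of a curve that is not locally constant at a time where the curves differ -/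
lemma sees_pair {K : Set C(ℝ, Y)} {c : ℕ → Y} (hc : DenseRange c)
    {f : BoundedContinuousFunction Y ℝ}
    (hf : ∀ (i : ℕ) (a b α β r : ℚ), (0 : ℝ) < α → (α : ℝ) < β → (β : ℝ) < r →
      ∀ x ∈ Bx K (c i) a b α β r, ∃ t ∈ Icc (a : ℝ) b, f (x.1 t) ≠ f (x.2 t))
    {p q : C(ℝ, Y)} (hp : p ∈ K) (hq : q ∈ K) {t₁ : ℝ} (hne : p t₁ ≠ q t₁)
    (hloc : ∀ ε > 0, ∃ s, |s - t₁| < ε ∧ p s ≠ p t₁) : ∃ t, f (p t) ≠ f (q t) := by
  obtain ⟨η, hη⟩ : ∃ η : ℝ, η = dist (p t₁) (q t₁) := ⟨_, rfl⟩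
  have hη0 : 0 < η := by rw [hη]; exact dist_pos.2 hne
  obtain ⟨δ₁, hδ₁, h₁⟩ := Metric.continuousAt_iff.1 ((map_continuous p).continuousAt (x := t₁)) (η / 8)
    (by positivity)
  obtain ⟨δ₂, hδ₂, h₂⟩ := Metric.continuousAt_iff.1 ((map_continuous q).continuousAt (x := t₁)) (η / 8)
    (by positivity)
  obtain ⟨δ, hδ⟩ : ∃ δ : ℝ, δ = min δ₁ δ₂ := ⟨_, rfl⟩
  have hδ0 : 0 < δ := by rw [hδ]; exact lt_min hδ₁ hδ₂
  have hδl : δ ≤ δ₁ := by rw [hδ]; exact min_le_left _ _
  have hδr : δ ≤ δ₂ := by rw [hδ]; exact min_le_right _ _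
  obtain ⟨a, ha1, ha2⟩ := exists_rat_btwn (show t₁ - δ < t₁ by linarith)
  obtain ⟨b, hb1, hb2⟩ := exists_rat_btwn (show t₁ < t₁ + δ by linarith)
  obtain ⟨t₂, ht₂, hne₂⟩ := hloc (min (t₁ - a) (b - t₁)) (lt_min (by linarith) (by linarith))
  have ht₂' := abs_lt.1 ht₂
  have ht₂a : (a : ℝ) < t₂ := by linarith [min_le_left (t₁ - (a : ℝ)) (b - t₁)]
  have ht₂b : t₂ < (b : ℝ) := by linarith [min_le_right (t₁ - (a : ℝ)) (b - t₁)]
  obtain ⟨ρ, hρ⟩ : ∃ ρ : ℝ, ρ = dist (p t₂) (p t₁) := ⟨_, rfl⟩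
  have hρ0 : 0 < ρ := by rw [hρ]; exact dist_pos.2 hne₂
  have hw : ∀ t ∈ Icc (a : ℝ) b, dist t t₁ < δ := by
    intro t ht
    rw [Real.dist_eq, abs_lt]
    constructor <;> linarith [ht.1, ht.2]
  have hρη : ρ < η / 8 := by
    rw [hρ]
    exact h₁ ((hw t₂ ⟨ht₂a.le, ht₂b.le⟩).trans_le hδl)
  obtain ⟨α, hα1, hα2⟩ := exists_rat_btwn (show ρ / 4 < ρ / 2 by linarith)
  obtain ⟨β, hβ1, hβ2⟩ := exists_rat_btwn (show ρ / 2 < 3 * ρ / 4 by linarith)
  obtain ⟨r, hr1, hr2⟩ := exists_rat_btwn (show 3 * ρ / 4 < η / 2 by linarith)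
  obtain ⟨i, hi⟩ := hc.exists_dist_lt (p t₁) (show 0 < ρ / 4 by positivity)
  suffices hmem : (p, q) ∈ Bx K (c i) a b α β r by
    obtain ⟨t, ht, h⟩ := hf i a b α β r (by linarith) (by linarith) (by linarith) (p, q) hmem
    exact ⟨t, h⟩
  refine ⟨⟨hp, hq⟩, ?_, ⟨t₁, ⟨ha2.le, hb1.le⟩, ?_⟩, ⟨t₂, ⟨ht₂a.le, ht₂b.le⟩, ?_⟩⟩
  · intro t ht
    simp only
    have e1 := h₂ ((hw t ht).trans_le hδr)
    have e2 := dist_triangle4 (q t₁) (q t) (c i) (p t₁)
    rw [dist_comm (q t₁) (p t₁), ← hη, dist_comm (q t₁) (q t), dist_comm (c i) (p t₁)] at e2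
    linarith
  · simp only
    linarith
  · simp only
    have e2 := dist_triangle (p t₂) (c i) (p t₁)
    rw [← hρ, dist_comm (c i) (p t₁)] at e2
    linarith

/-- One bounded continuous function separates the curves of a compact set with countably many
constant curves. -/
theorem exists_observable [SecondCountableTopology Y] {K : Set C(ℝ, Y)} (hK : IsCompact K)
    (hcount : {y : Y | ContinuousMap.const ℝ y ∈ K}.Countable) :
    ∃ f : BoundedContinuousFunction Y ℝ, ∀ p ∈ K, ∀ q ∈ K, (∀ t, f (p t) = f (q t)) → p = q := by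
  rcases isEmpty_or_nonempty Y with hY | hY
  · exact ⟨0, fun p _ => (hY.false (p 0)).elim⟩
  set c : ℕ → Y := TopologicalSpace.denseSeq Y with hc
  have hcd : DenseRange c := TopologicalSpace.denseRange_denseSeq Y
  -- first family of open dense sets
  set U : ℕ × ℚ × ℚ × ℚ × ℚ × ℚ → Set (BoundedContinuousFunction Y ℝ) := fun j =>
    {f | (0 : ℝ) < j.2.2.2.1 → (j.2.2.2.1 : ℝ) < j.2.2.2.2.1 → (j.2.2.2.2.1 : ℝ) < j.2.2.2.2.2 →
      ∀ x ∈ Bx K (c j.1) j.2.1 j.2.2.1 j.2.2.2.1 j.2.2.2.2.1 j.2.2.2.2.2,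
        ∃ t ∈ Icc (j.2.1 : ℝ) j.2.2.1, f (x.1 t) ≠ f (x.2 t)} with hU
  have hUo : ∀ j, IsOpen (U j) ∧ Dense (U j) := by
    intro j
    by_cases hj : (0 : ℝ) < j.2.2.2.1 ∧ (j.2.2.2.1 : ℝ) < j.2.2.2.2.1 ∧
        (j.2.2.2.2.1 : ℝ) < j.2.2.2.2.2
    · have e : U j = {f | ∀ x ∈ Bx K (c j.1) j.2.1 j.2.2.1 j.2.2.2.1 j.2.2.2.2.1 j.2.2.2.2.2,
          ∃ t ∈ Icc (j.2.1 : ℝ) j.2.2.1, f (x.1 t) ≠ f (x.2 t)} := by
        ext f
        exact ⟨fun h => h hj.1 hj.2.1 hj.2.2, fun h _ _ _ => h⟩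
      rw [e]
      exact ⟨good_open (Bx_compact hK _ _ _ _ _ _) _ _,
        good_dense hK _ hj.2.1 hj.1 hj.2.2⟩
    · have e : U j = univ := by
        rw [eq_univ_iff_forall]
        intro f h1 h2 h3
        exact (hj ⟨h1, h2, h3⟩).elim
      rw [e]
      exact ⟨isOpen_univ, dense_univ⟩
  -- second family
  set C : Set Y := {y : Y | ContinuousMap.const ℝ y ∈ K} with hC
  have : Countable C := hcount.to_subtype
  set V : C × C → Set (BoundedContinuousFunction Y ℝ) := fun j =>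
    {f | (j.1 : Y) ≠ j.2 → f j.1 ≠ f j.2} with hV
  have hVo : ∀ j, IsOpen (V j) ∧ Dense (V j) := by
    intro j
    by_cases hj : (j.1 : Y) ≠ j.2
    · have e : V j = {f | f (j.1 : Y) ≠ f j.2} := by
        ext f
        exact ⟨fun h => h hj, fun h _ => h⟩
      rw [e]
      constructor
      · exact isOpen_ne_fun
          (cont_bcf.comp (by fun_prop : Continuous fun f : BoundedContinuousFunction Y ℝ =>
            (f, (j.1 : Y))))
          (cont_bcf.comp (by fun_prop : Continuous fun f : BoundedContinuousFunction Y ℝ =>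
            (f, (j.2 : Y))))
      · rw [Metric.dense_iff]
        intro f ε hε
        by_cases hf : f (j.1 : Y) ≠ f j.2
        · exact ⟨f, Metric.mem_ball_self hε, hf⟩
        push Not at hf
        obtain ⟨H, hH⟩ : ∃ H : BoundedContinuousFunction Y ℝ, ∀ y, H y =
            (ε / 2) * (min (dist y (j.1 : Y)) 1) :=
          ⟨BoundedContinuousFunction.ofNormedAddCommGroup
            (fun y => (ε / 2) * (min (dist y (j.1 : Y)) 1)) (by fun_prop) (ε / 2) (fun y => by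
            rw [norm_mul, Real.norm_eq_abs, Real.norm_eq_abs, abs_of_pos (by positivity),
              abs_of_nonneg (le_min dist_nonneg zero_le_one)]
            have := min_le_right (dist y (j.1 : Y)) 1
            nlinarith), fun y => rfl⟩
        refine ⟨f + H, ?_, ?_⟩
        · rw [Metric.mem_ball, dist_eq_norm, add_sub_cancel_left]
          refine lt_of_le_of_lt (b := ε / 2) ?_ (by linarith)
          rw [BoundedContinuousFunction.norm_le (by positivity)]
          intro y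
          rw [hH, norm_mul, Real.norm_eq_abs, Real.norm_eq_abs, abs_of_pos (by positivity),
              abs_of_nonneg (le_min dist_nonneg zero_le_one)]
          have := min_le_right (dist y (j.1 : Y)) 1
          nlinarith
        · simp only [Set.mem_ofPred_eq, BoundedContinuousFunction.coe_add, Pi.add_apply, hH,
            dist_self, ne_eq]
          rw [hf]
          intro h
          have h1 : ε / 2 * min (dist (j.2 : Y) j.1) 1 = ε / 2 * min (0 : ℝ) 1 := by linarith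
          have h2 : min (dist (j.2 : Y) j.1) 1 > 0 :=
            lt_min (dist_pos.2 (Ne.symm hj)) one_pos
          rw [min_eq_left (zero_le_one : (0 : ℝ) ≤ 1), mul_zero] at h1
          nlinarith
    · have e : V j = univ := by
        rw [eq_univ_iff_forall]
        intro f h1
        exact (hj h1).elim
      rw [e]
      exact ⟨isOpen_univ, dense_univ⟩
  have hd := dense_iInter_of_isOpen (f := fun j : (ℕ × ℚ × ℚ × ℚ × ℚ × ℚ) ⊕ (C × C) =>
    Sum.elim U V j) (by rintro (j | j); exacts [(hUo j).1, (hVo j).1])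
    (by rintro (j | j); exacts [(hUo j).2, (hVo j).2])
  obtain ⟨f, hf⟩ := hd.nonempty
  rw [mem_iInter] at hf
  have hf1 : ∀ (i : ℕ) (a b α β r : ℚ), (0 : ℝ) < α → (α : ℝ) < β → (β : ℝ) < r →
      ∀ x ∈ Bx K (c i) a b α β r, ∃ t ∈ Icc (a : ℝ) b, f (x.1 t) ≠ f (x.2 t) :=
    fun i a b α β r => hf (Sum.inl (i, a, b, α, β, r))
  have hf2 : ∀ y z : C, (y : Y) ≠ z → f y ≠ f z := fun y z => hf (Sum.inr (y, z))
  refine ⟨f, fun p hp q hq h => ?_⟩
  by_contra hpq
  have hex : ∃ t₀, p t₀ ≠ q t₀ := by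
    by_contra hcon
    push Not at hcon
    exact hpq (ContinuousMap.ext hcon)
  obtain ⟨t₀, ht₀⟩ := hex
  have hloc : ∀ t, p t ≠ q t → (∃ ε > 0, ∀ s, |s - t| < ε → p s = p t) ∧
      (∃ ε > 0, ∀ s, |s - t| < ε → q s = q t) := by
    intro t ht
    constructor
    · by_contra hcon
      push Not at hcon
      obtain ⟨s, hs⟩ := sees_pair hcd hf1 hp hq ht hcon
      exact hs (h s)
    · by_contra hcon
      push Not at hcon
      obtain ⟨s, hs⟩ := sees_pair hcd hf1 hq hp ht.symm hcon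
      exact hs (h s).symm
  have hS : IsClopen {t : ℝ | p t = p t₀ ∧ q t = q t₀} := by
    constructor
    · exact (isClosed_eq (map_continuous p) continuous_const).inter
        (isClosed_eq (map_continuous q) continuous_const)
    · rw [Metric.isOpen_iff]
      rintro t ⟨h1, h2⟩
      obtain ⟨⟨ε₁, hε₁, k₁⟩, ⟨ε₂, hε₂, k₂⟩⟩ := hloc t (by rw [h1, h2]; exact ht₀)
      refine ⟨min ε₁ ε₂, lt_min hε₁ hε₂, fun s hs => ?_⟩
      rw [Metric.mem_ball, Real.dist_eq] at hs
      exact ⟨(k₁ s (hs.trans_le (min_le_left _ _))).trans h1,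
        (k₂ s (hs.trans_le (min_le_right _ _))).trans h2⟩
  have hSu := hS.eq_univ ⟨t₀, rfl, rfl⟩
  have hpc : p = ContinuousMap.const ℝ (p t₀) := by
    ext t
    have : t ∈ {t : ℝ | p t = p t₀ ∧ q t = q t₀} := by rw [hSu]; trivial
    exact this.1
  have hqc : q = ContinuousMap.const ℝ (q t₀) := by
    ext t
    have : t ∈ {t : ℝ | p t = p t₀ ∧ q t = q t₀} := by rw [hSu]; trivial
    exact this.2
  exact hf2 ⟨p t₀, by rw [hC]; exact hpc ▸ hp⟩ ⟨q t₀, by rw [hC]; exact hqc ▸ hq⟩ ht₀ (h t₀)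

end Run7.h105
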