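import Pool.Agent.Run7.h105.Core
import Pool.Agent.Run7.h105.Obs

/-!
# Trajectories of the planar Navier-Stokes equations and their pressure
-/

set_option autoImplicit false

namespace Run7.h105

open Set Filter Topology MeasureTheory Pool.Agent.H754R3.PR

/-- `(u1, u2)` with pressure `p` (functions of `(t, x)`) is a complete bounded trajectory in `Ω`
with time-independent force `(g1, g2)`, viscosity `ν` and no slip on the frontier, real-analytic
in `x` inside `Ω` at each time. `sl F t = F (t, ·)`, `Dt` is the time derivative, `d1`, `d2` are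
the space derivatives. -/
structure IsTraj (Ω : Set P2) (ν : ℝ) (g1 g2 : P2 → ℝ) (u1 u2 p : P3 → ℝ) : Prop where
  smooth1 : ContDiff ℝ 3 u1
  smooth2 : ContDiff ℝ 3 u2
  press : ∀ t, DifferentiableOn ℝ (sl p t) Ω
  mom1 : ∀ t, ∀ x ∈ Ω, Dt u1 (t, x) + u1 (t, x) * d1 (sl u1 t) x + u2 (t, x) * d2 (sl u1 t) x
    + d1 (sl p t) x = ν * (d1 (d1 (sl u1 t)) x + d2 (d2 (sl u1 t)) x) + g1 x
  mom2 : ∀ t, ∀ x ∈ Ω, Dt u2 (t, x) + u1 (t, x) * d1 (sl u2 t) x + u2 (t, x) * d2 (sl u2 t) x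
    + d2 (sl p t) x = ν * (d1 (d1 (sl u2 t)) x + d2 (d2 (sl u2 t)) x) + g2 x
  div : ∀ t, ∀ x ∈ Ω, d1 (sl u1 t) x + d2 (sl u2 t) x = 0
  noslip : ∀ t, ∀ x ∈ frontier Ω, u1 (t, x) = 0 ∧ u2 (t, x) = 0
  bounded : ∃ B : ℝ, ∀ t, ∀ x ∈ Ω, |u1 (t, x)| ≤ B ∧ |u2 (t, x)| ≤ B
  analytic1 : ∀ t, AnalyticOnNhd ℝ (sl u1 t) Ω
  analytic2 : ∀ t, AnalyticOnNhd ℝ (sl u2 t) Ω

theorem traj_uniq {Ω : Set P2} (hΩ : IsOpen Ω) (hconn : IsPreconnected Ω)
    (hb : Bornology.IsBounded Ω) (hbd : BdryClass 2 Ω) {ν : ℝ} (hν : 0 < ν)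
    {g1 g2 : P2 → ℝ} {u1 u2 p v1 v2 q : P3 → ℝ}
    (hu : IsTraj Ω ν g1 g2 u1 u2 p) (hv : IsTraj Ω ν g1 g2 v1 v2 q)
    (hpq : ∃ k : ℝ → ℝ, ∀ t, ∀ x ∈ Ω, p (t, x) = q (t, x) + k t) :
    ∀ t, ∀ x ∈ Ω, u1 (t, x) = v1 (t, x) ∧ u2 (t, x) = v2 (t, x) := by
  obtain ⟨k, hk⟩ := hpq
  have hp : ∀ t, ∀ x ∈ Ω, d1 (sl p t) x = d1 (sl q t) x ∧ d2 (sl p t) x = d2 (sl q t) x := by
    intro t x hx
    have h1 : sl p t =ᶠ[nhds x] fun y => sl q t y + k t := by
      filter_upwards [hΩ.mem_nhds hx] with y hy using hk t y hy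
    have h2 : fderiv ℝ (sl p t) x = fderiv ℝ (sl q t) x := by
      rw [h1.fderiv_eq, fderiv_add_const]
    exact ⟨by rw [d1, d1, h2], by rw [d2, d2, h2]⟩
  have S3 : ∀ {F : P3 → ℝ}, ContDiff ℝ 3 F → ∀ t, ContDiff ℝ 3 (sl F t) := fun hF t =>
    sl_contDiff (n := 3) hF t
  have D : ∀ {F : P2 → ℝ}, ContDiff ℝ 3 F → Differentiable ℝ F := fun h =>
    h.differentiable (by norm_num)
  have D1 : ∀ {F : P2 → ℝ}, ContDiff ℝ 3 F → Differentiable ℝ (d1 F) := fun h =>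
    (d1_contDiff (m := 2) (n := 3) h (by norm_num)).differentiable (by norm_num)
  have D2 : ∀ {F : P2 → ℝ}, ContDiff ℝ 3 F → Differentiable ℝ (d2 F) := fun h =>
    (d2_contDiff (m := 2) (n := 3) h (by norm_num)).differentiable (by norm_num)
  have DT : ∀ {F : P3 → ℝ}, ContDiff ℝ 3 F → Differentiable ℝ F := fun h =>
    h.differentiable (by norm_num)
  have s1 : ∀ {F G : P3 → ℝ}, ContDiff ℝ 3 F → ContDiff ℝ 3 G → ∀ t,
      d1 (sl (fun z => F z - G z) t) = fun y => d1 (sl F t) y - d1 (sl G t) y :=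
    fun hF hG t => funext fun y => d1_sub (D (S3 hF t)) (D (S3 hG t)) y
  have s2 : ∀ {F G : P3 → ℝ}, ContDiff ℝ 3 F → ContDiff ℝ 3 G → ∀ t,
      d2 (sl (fun z => F z - G z) t) = fun y => d2 (sl F t) y - d2 (sl G t) y :=
    fun hF hG t => funext fun y => d2_sub (D (S3 hF t)) (D (S3 hG t)) y
  have st : ∀ {F G : P3 → ℝ}, ContDiff ℝ 3 F → ContDiff ℝ 3 G → ∀ z,
      Dt (fun z => F z - G z) z = Dt F z - Dt G z := fun hF hG z => by
    have h := ((DT hF z).hasFDerivAt.fun_sub (DT hG z).hasFDerivAt).fderiv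
    rw [Dt, h]; rfl
  have m1 : ∀ {F G : P3 → ℝ}, ContDiff ℝ 3 F → ContDiff ℝ 3 G → ∀ t y,
      d1 (sl (fun z => 1 / 2 * (F z + G z)) t) y = 1 / 2 * (d1 (sl F t) y + d1 (sl G t) y) :=
    @fun F G hF hG t y => by
    have h1 := d1_cmul (f := fun y => sl F t y + sl G t y) ((D (S3 hF t)).add (D (S3 hG t)))
      (1 / 2) y
    rw [d1_add (D (S3 hF t)) (D (S3 hG t))] at h1
    exact h1
  have m2 : ∀ {F G : P3 → ℝ}, ContDiff ℝ 3 F → ContDiff ℝ 3 G → ∀ t y,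
      d2 (sl (fun z => 1 / 2 * (F z + G z)) t) y = 1 / 2 * (d2 (sl F t) y + d2 (sl G t) y) :=
    @fun F G hF hG t y => by
    have h1 := d2_cmul (f := fun y => sl F t y + sl G t y) ((D (S3 hF t)).add (D (S3 hG t)))
      (1 / 2) y
    rw [d2_add (D (S3 hF t)) (D (S3 hG t))] at h1
    exact h1
  have hu1 := hu.smooth1
  have hu2 := hu.smooth2
  have hv1 := hv.smooth1
  have hv2 := hv.smooth2
  obtain ⟨Bu, hBu⟩ := hu.bounded
  obtain ⟨Bv, hBv⟩ := hv.bounded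
  have key := uniq_core hΩ hconn hb hbd hν (B := Bu + Bv)
    (w1 := fun z => u1 z - v1 z) (w2 := fun z => u2 z - v2 z)
    (a1 := fun z => 1 / 2 * (u1 z + v1 z)) (a2 := fun z => 1 / 2 * (u2 z + v2 z))
    (hu1.sub hv1) (hu2.sub hv2) (contDiff_const.mul (hu1.add hv1))
    (contDiff_const.mul (hu2.add hv2))
    (by
      intro t x hx
      rw [s1 hu1 hv1, s2 hu2 hv2]
      have e1 := hu.div t x hx
      have e2 := hv.div t x hx
      linarith)
    (by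
      intro t x hx
      rw [m1 hu1 hv1, m2 hu2 hv2]
      have e1 := hu.div t x hx
      have e2 := hv.div t x hx
      linarith)
    (by
      intro t x hx
      have e1 := hu.noslip t x hx
      have e2 := hv.noslip t x hx
      simp [e1.1, e1.2, e2.1, e2.2])
    (by
      intro t x hx
      have e1 := hu.noslip t x hx
      have e2 := hv.noslip t x hx
      simp [e1.1, e1.2, e2.1, e2.2])
    (by
      intro t x hx
      have e1 := hu.mom1 t x hx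
      have e2 := hv.mom1 t x hx
      rw [(hp t x hx).1] at e1
      rw [m1 hu1 hv1, m2 hu1 hv1, s1 hu1 hv1, s2 hu1 hv1, st hu1 hv1,
        d1_sub (D1 (S3 hu1 t)) (D1 (S3 hv1 t)), d2_sub (D2 (S3 hu1 t)) (D2 (S3 hv1 t))]
      linarith)
    (by
      intro t x hx
      have e1 := hu.mom2 t x hx
      have e2 := hv.mom2 t x hx
      rw [(hp t x hx).2] at e1
      rw [m1 hu2 hv2, m2 hu2 hv2, s1 hu2 hv2, s2 hu2 hv2, st hu2 hv2,
        d1_sub (D1 (S3 hu2 t)) (D1 (S3 hv2 t)), d2_sub (D2 (S3 hu2 t)) (D2 (S3 hv2 t))]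
      linarith)
    (fun t => (hu.analytic1 t).sub (hv.analytic1 t))
    (fun t => (hu.analytic2 t).sub (hv.analytic2 t))
    (fun t => analyticOnNhd_const.mul ((hu.analytic1 t).add (hv.analytic1 t)))
    (fun t => analyticOnNhd_const.mul ((hu.analytic2 t).add (hv.analytic2 t)))
    (by
      intro t x hx
      have e1 := hBu t x hx
      have e2 := hBv t x hx
      exact ⟨(abs_sub _ _).trans (add_le_add e1.1 e2.1),
        (abs_sub _ _).trans (add_le_add e1.2 e2.2)⟩)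
  intro t x hx
  have := key t x hx
  exact ⟨by linarith [this.1], by linarith [this.2]⟩

end Run7.h105
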