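import Pool.Agent.Run7.h105.Gr

/-!
# A Carleman identity for the heat operator with a radial weight
-/

set_option autoImplicit false

namespace Run7.h105

open Set Filter Topology MeasureTheory Pool.Agent.H754R3.PR

/-- squared distance to `O` -/
def R2 (O z : P2) : ℝ := (z.1 - O.1) * (z.1 - O.1) + (z.2 - O.2) * (z.2 - O.2)

/-- the weight -/
noncomputable def Ee (τ : ℝ) (O z : P2) : ℝ := Real.exp (τ * R2 O z)

/-- conjugated derivative -/
noncomputable def PP (τ : ℝ) (O : P2) (f : P2 → ℝ) (z : P2) : ℝ :=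
  d1 f z + τ * ((z.1 - O.1) * f z)

/-- conjugated derivative -/
noncomputable def QQ (τ : ℝ) (O : P2) (f : P2 → ℝ) (z : P2) : ℝ :=
  d2 f z + τ * ((z.2 - O.2) * f z)

/-- first component of the field -/
noncomputable def W1 (ν τ : ℝ) (O : P2) (f k : P2 → ℝ) (z : P2) : ℝ :=
  Ee τ O z * ((-4 * ν ^ 2 * τ) * (((PP τ O f z * ((z.1 - O.1) * PP τ O f z
    + (z.2 - O.2) * QQ τ O f z) - (1 / 2) * ((z.1 - O.1) * (PP τ O f z * PP τ O f z
    + QQ τ O f z * QQ τ O f z))) + f z * PP τ O f z)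
    + (τ ^ 2 / 2) * (R2 O z * ((z.1 - O.1) * (f z * f z)))) - (2 * ν) * (k z * PP τ O f z))

/-- second component of the field -/
noncomputable def W2 (ν τ : ℝ) (O : P2) (f k : P2 → ℝ) (z : P2) : ℝ :=
  Ee τ O z * ((-4 * ν ^ 2 * τ) * (((QQ τ O f z * ((z.1 - O.1) * PP τ O f z
    + (z.2 - O.2) * QQ τ O f z) - (1 / 2) * ((z.2 - O.2) * (PP τ O f z * PP τ O f z
    + QQ τ O f z * QQ τ O f z))) + f z * QQ τ O f z)
    + (τ ^ 2 / 2) * (R2 O z * ((z.2 - O.2) * (f z * f z)))) - (2 * ν) * (k z * QQ τ O f z))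

lemma R2_contDiff (O : P2) {n : WithTop ℕ∞} : ContDiff ℝ n (R2 O) := by
  have h1 : ContDiff ℝ n (fun z : P2 => z.1 - O.1) := contDiff_fst.sub contDiff_const
  have h2 : ContDiff ℝ n (fun z : P2 => z.2 - O.2) := contDiff_snd.sub contDiff_const
  exact (h1.mul h1).add (h2.mul h2)

lemma Ee_contDiff (τ : ℝ) (O : P2) {n : WithTop ℕ∞} : ContDiff ℝ n (Ee τ O) :=
  Real.contDiff_exp.comp (contDiff_const.mul (R2_contDiff O))

section

variable {f k : P2 → ℝ} (hf : ContDiff ℝ 2 f) (hk : ContDiff ℝ 1 k) (ν τ : ℝ) (O : P2)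

include hf in
lemma PP_contDiff : ContDiff ℝ 1 (PP τ O f) := by
  have h1 : ContDiff ℝ 1 (fun z : P2 => z.1 - O.1) := contDiff_fst.sub contDiff_const
  exact (d1_contDiff (m := 1) (n := 2) hf (by norm_num)).add
    (contDiff_const.mul (h1.mul (hf.of_le (by norm_num))))

include hf in
lemma QQ_contDiff : ContDiff ℝ 1 (QQ τ O f) := by
  have h1 : ContDiff ℝ 1 (fun z : P2 => z.2 - O.2) := contDiff_snd.sub contDiff_const
  exact (d2_contDiff (m := 1) (n := 2) hf (by norm_num)).add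
    (contDiff_const.mul (h1.mul (hf.of_le (by norm_num))))

include hf hk in
lemma W1_contDiff : ContDiff ℝ 1 (W1 ν τ O f k) := by
  have hX : ContDiff ℝ 1 (fun z : P2 => z.1 - O.1) := contDiff_fst.sub contDiff_const
  have hY : ContDiff ℝ 1 (fun z : P2 => z.2 - O.2) := contDiff_snd.sub contDiff_const
  have hP := PP_contDiff hf τ O
  have hQ := QQ_contDiff hf τ O
  have hf1 : ContDiff ℝ 1 f := hf.of_le (by norm_num)
  have hE : ContDiff ℝ 1 (Ee τ O) := Ee_contDiff τ O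
  have hR : ContDiff ℝ 1 (R2 O) := R2_contDiff O
  exact hE.mul ((contDiff_const.mul ((((hP.mul ((hX.mul hP).add (hY.mul hQ))).sub
    (contDiff_const.mul (hX.mul ((hP.mul hP).add (hQ.mul hQ))))).add (hf1.mul hP)).add
    (contDiff_const.mul (hR.mul (hX.mul (hf1.mul hf1)))))).sub (contDiff_const.mul (hk.mul hP)))

include hf hk in
lemma W2_contDiff : ContDiff ℝ 1 (W2 ν τ O f k) := by
  have hX : ContDiff ℝ 1 (fun z : P2 => z.1 - O.1) := contDiff_fst.sub contDiff_const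
  have hY : ContDiff ℝ 1 (fun z : P2 => z.2 - O.2) := contDiff_snd.sub contDiff_const
  have hP := PP_contDiff hf τ O
  have hQ := QQ_contDiff hf τ O
  have hf1 : ContDiff ℝ 1 f := hf.of_le (by norm_num)
  have hE : ContDiff ℝ 1 (Ee τ O) := Ee_contDiff τ O
  have hR : ContDiff ℝ 1 (R2 O) := R2_contDiff O
  exact hE.mul ((contDiff_const.mul ((((hQ.mul ((hX.mul hP).add (hY.mul hQ))).sub
    (contDiff_const.mul (hY.mul ((hP.mul hP).add (hQ.mul hQ))))).add (hf1.mul hQ)).add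
    (contDiff_const.mul (hR.mul (hY.mul (hf1.mul hf1)))))).sub (contDiff_const.mul (hk.mul hQ)))

include hf hk in
/-- the pointwise identity -/
lemma carl_id (z : P2) :
    d1 (W1 ν τ O f k) z + d2 (W2 ν τ O f k) z =
      2 * (Ee τ O z * ((ν * (d1 (d1 f) z + d2 (d2 f) z + 2 * τ * ((z.1 - O.1) * d1 f z
        + (z.2 - O.2) * d2 f z) + (2 * τ + 2 * τ ^ 2 * R2 O z) * f z))
        * (-ν * (2 * τ * ((z.1 - O.1) * d1 f z + (z.2 - O.2) * d2 f z + τ * R2 O z * f z)
          + 2 * τ * f z) - k z)))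
      - 4 * ν ^ 2 * τ * (Ee τ O z * (PP τ O f z ^ 2 + QQ τ O f z ^ 2
        + τ ^ 2 * (R2 O z * f z ^ 2)))
      - 2 * ν * (Ee τ O z * (PP τ O f z * (d1 k z + τ * ((z.1 - O.1) * k z))
        + QQ τ O f z * (d2 k z + τ * ((z.2 - O.2) * k z)) - τ ^ 2 * (R2 O z * (f z * k z)))) := by
  have hfd : Differentiable ℝ f := hf.differentiable (by norm_num)
  have hkd : Differentiable ℝ k := hk.differentiable (by norm_num)
  have hf1 : Differentiable ℝ (d1 f) :=
    (d1_contDiff (m := 1) (n := 2) hf (by norm_num)).differentiable (by norm_num)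
  have hf2 : Differentiable ℝ (d2 f) :=
    (d2_contDiff (m := 1) (n := 2) hf (by norm_num)).differentiable (by norm_num)
  have gX : Gr (fun y : P2 => y.1 - O.1) 1 0 z := (Gr.fst.sub (Gr.const O.1)).eq (by ring) (by ring)
  have gY : Gr (fun y : P2 => y.2 - O.2) 0 1 z := (Gr.snd.sub (Gr.const O.2)).eq (by ring) (by ring)
  have gR : Gr (R2 O) (2 * (z.1 - O.1)) (2 * (z.2 - O.2)) z :=
    ((gX.mul gX).add (gY.mul gY)).eq (by ring) (by ring)
  have gE : Gr (Ee τ O) (2 * τ * (z.1 - O.1) * Ee τ O z) (2 * τ * (z.2 - O.2) * Ee τ O z) z := by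
    have h1 := Gr.comp1 (f := fun y => τ * R2 O y) (Real.hasDerivAt_exp (τ * R2 O z)) (gR.cmul τ)
    exact (Gr.ev h1 (f' := Ee τ O) (by ext y; rfl)).eq (by rw [Ee]; ring) (by rw [Ee]; ring)
  have gf : Gr f (d1 f z) (d2 f z) z := Gr.of (hfd z)
  have gk : Gr k (d1 k z) (d2 k z) z := Gr.of (hkd z)
  have gf1 : Gr (d1 f) (d1 (d1 f) z) (d2 (d1 f) z) z := Gr.of (hf1 z)
  have gf2 : Gr (d2 f) (d2 (d1 f) z) (d2 (d2 f) z) z := by
    rw [← d_comm hf]; exact Gr.of (hf2 z)
  have gP : Gr (PP τ O f) (d1 (d1 f) z + τ * ((z.1 - O.1) * d1 f z + 1 * f z))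
      (d2 (d1 f) z + τ * ((z.1 - O.1) * d2 f z + 0 * f z)) z := gf1.add ((gX.mul gf).cmul τ)
  have gQ : Gr (QQ τ O f) (d2 (d1 f) z + τ * ((z.2 - O.2) * d1 f z + 0 * f z))
      (d2 (d2 f) z + τ * ((z.2 - O.2) * d2 f z + 1 * f z)) z := gf2.add ((gY.mul gf).cmul τ)
  have g1 := gE.mul ((((((gP.mul ((gX.mul gP).add (gY.mul gQ))).sub
    ((gX.mul ((gP.mul gP).add (gQ.mul gQ))).cmul (1 / 2))).add (gf.mul gP)).add
    ((gR.mul (gX.mul (gf.mul gf))).cmul (τ ^ 2 / 2))).cmul (-4 * ν ^ 2 * τ)).sub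
    ((gk.mul gP).cmul (2 * ν)))
  have g2 := gE.mul ((((((gQ.mul ((gX.mul gP).add (gY.mul gQ))).sub
    ((gY.mul ((gP.mul gP).add (gQ.mul gQ))).cmul (1 / 2))).add (gf.mul gQ)).add
    ((gR.mul (gY.mul (gf.mul gf))).cmul (τ ^ 2 / 2))).cmul (-4 * ν ^ 2 * τ)).sub
    ((gk.mul gQ).cmul (2 * ν)))
  have e1 := (Gr.ev g1 (f' := W1 ν τ O f k) (by ext y; rfl)).d1
  have e2 := (Gr.ev g2 (f' := W2 ν τ O f k) (by ext y; rfl)).d2
  rw [e1, e2]
  simp only [PP, QQ, R2]
  ring

/-- the quadratic form in the lower bound -/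
noncomputable def NN (τ : ℝ) (O : P2) (f : P2 → ℝ) (z : P2) : ℝ :=
  Ee τ O z * (PP τ O f z ^ 2 + QQ τ O f z ^ 2 + τ ^ 2 * (R2 O z * f z ^ 2))

/-- half of the time derivative of the energy -/
noncomputable def qt (τ : ℝ) (O : P2) (f k : P2 → ℝ) (z : P2) : ℝ :=
  Ee τ O z * (PP τ O f z * PP τ O k z + QQ τ O f z * QQ τ O k z
    - τ ^ 2 * (R2 O z * (f z * k z)))

include hf in
lemma NN_cont : Continuous (NN τ O f) := by
  have hP := (PP_contDiff hf τ O).continuous
  have hQ := (QQ_contDiff hf τ O).continuous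
  have hE : Continuous (Ee τ O) := (Ee_contDiff τ O (n := 0)).continuous
  have hR : Continuous (R2 O) := (R2_contDiff O (n := 0)).continuous
  have h0 := hf.continuous
  unfold NN
  fun_prop

include hf hk in
lemma qt_cont : Continuous (qt τ O f k) := by
  have hP := (PP_contDiff hf τ O).continuous
  have hQ := (QQ_contDiff hf τ O).continuous
  have hP' : Continuous (PP τ O k) := by
    have h1 := (d1_contDiff (m := 0) (n := 1) hk (by norm_num)).continuous
    have h2 := hk.continuous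
    unfold PP
    fun_prop
  have hQ' : Continuous (QQ τ O k) := by
    have h1 := (d2_contDiff (m := 0) (n := 1) hk (by norm_num)).continuous
    have h2 := hk.continuous
    unfold QQ
    fun_prop
  have hE : Continuous (Ee τ O) := (Ee_contDiff τ O (n := 0)).continuous
  have hR : Continuous (R2 O) := (R2_contDiff O (n := 0)).continuous
  have h0 := hf.continuous
  have h1 := hk.continuous
  unfold qt
  fun_prop

include hf hk in
/-- the Carleman inequality at a fixed time -/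
lemma carl_slice {Ω : Set P2} (hΩ : IsOpen Ω) (hb : Bornology.IsBounded Ω)
    (h0 : ∀ z ∈ frontier Ω, f z = 0 ∧ d1 f z = 0 ∧ d2 f z = 0) :
    4 * ν ^ 2 * τ * (∫ z in Ω, NN τ O f z) + 2 * ν * (∫ z in Ω, qt τ O f k z) ≤
      ∫ z in Ω, Ee τ O z * (ν * (d1 (d1 f) z + d2 (d2 f) z) - k z) ^ 2 := by
  have hE : Continuous (Ee τ O) := (Ee_contDiff τ O (n := 0)).continuous
  have hz : ∀ z ∈ frontier Ω, PP τ O f z = 0 ∧ QQ τ O f z = 0 := by
    intro z hz
    obtain ⟨a, b, c⟩ := h0 z hz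
    simp [PP, QQ, a, b, c]
  have key := gauss_div hΩ hb (W1_contDiff hf hk ν τ O) (W2_contDiff hf hk ν τ O)
    (by
      intro z hz'
      obtain ⟨a, b⟩ := hz z hz'
      simp [W1, a, b, (h0 z hz').1])
    (by
      intro z hz'
      obtain ⟨a, b⟩ := hz z hz'
      simp [W2, a, b, (h0 z hz').1])
    (fun z _ => carl_id hf hk ν τ O z)
  have hint : ∀ {g : P2 → ℝ}, Continuous g → IntegrableOn g Ω := fun hg =>
    (hg.continuousOn.integrableOn_compact hb.isCompact_closure).mono_set subset_closure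
  have c1 : Continuous (d1 (d1 f)) := (d1_contDiff (m := 0) (n := 1)
    (d1_contDiff (m := 1) (n := 2) hf (by norm_num)) (by norm_num)).continuous
  have c2 : Continuous (d2 (d2 f)) := (d2_contDiff (m := 0) (n := 1)
    (d2_contDiff (m := 1) (n := 2) hf (by norm_num)) (by norm_num)).continuous
  have c3 := hk.continuous
  have c4 := NN_cont hf τ O
  have c5 := qt_cont hf hk τ O
  have c6 : Continuous fun z => 4 * ν ^ 2 * τ * NN τ O f z + 2 * ν * qt τ O f k z :=
    (continuous_const.mul c4).add (continuous_const.mul c5)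
  rw [← integral_const_mul, ← integral_const_mul,
    ← integral_add ((hint c4).const_mul _) ((hint c5).const_mul _), ← sub_nonneg,
    ← integral_sub (hint (by fun_prop)) (hint c6), ← key]
  refine setIntegral_mono_on ?_ ?_ hΩ.measurableSet ?_
  · have h1 : Continuous (fun z => d1 (W1 ν τ O f k) z + d2 (W2 ν τ O f k) z) :=
      ((d1_contDiff (m := 0) (n := 1) (W1_contDiff hf hk ν τ O) (by norm_num)).continuous).add
        ((d2_contDiff (m := 0) (n := 1) (W2_contDiff hf hk ν τ O) (by norm_num)).continuous)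
    have h2 := hint h1
    refine h2.congr_fun (fun z _ => carl_id hf hk ν τ O z) hΩ.measurableSet
  · exact (hint (by fun_prop)).sub (hint c6)
  · intro z _
    have hEp : 0 < Ee τ O z := Real.exp_pos _
    simp only [NN, qt]
    obtain ⟨S, hS⟩ : ∃ S : ℝ, S = ν * (d1 (d1 f) z + d2 (d2 f) z + 2 * τ * ((z.1 - O.1) * d1 f z
        + (z.2 - O.2) * d2 f z) + (2 * τ + 2 * τ ^ 2 * R2 O z) * f z) := ⟨_, rfl⟩
    obtain ⟨A, hA⟩ : ∃ A : ℝ, A = -ν * (2 * τ * ((z.1 - O.1) * d1 f z + (z.2 - O.2) * d2 f z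
        + τ * R2 O z * f z) + 2 * τ * f z) - k z := ⟨_, rfl⟩
    have hSA : ν * (d1 (d1 f) z + d2 (d2 f) z) - k z = S + A := by rw [hS, hA]; ring
    have h2 : 2 * (Ee τ O z * (S * A)) ≤ Ee τ O z * (S + A) ^ 2 := by
      have h3 : 2 * (S * A) ≤ (S + A) ^ 2 := by nlinarith [sq_nonneg S, sq_nonneg A]
      have := mul_le_mul_of_nonneg_left h3 hEp.le
      linarith
    rw [hSA, ← hS, ← hA]
    have e1 : d1 k z + τ * ((z.1 - O.1) * k z) = PP τ O k z := rfl
    have e2 : d2 k z + τ * ((z.2 - O.2) * k z) = QQ τ O k z := rfl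
    rw [e1, e2]
    nlinarith [h2]

end

end Run7.h105
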