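import Pool.Agent.Run7.h105.LocD

/-!
# A Carleman identity for the heat operator with a convexified decreasing radial weight
-/

set_option autoImplicit false

namespace Run7.h105

open Set Filter Topology MeasureTheory Pool.Agent.H754R3.PR

/-- derivative of the weight with respect to the squared distance -/
def pf (O : P2) (s₀ lam : ℝ) (z : P2) : ℝ := lam * (R2 O z - s₀) - 1

/-- the weight -/
noncomputable def ph (O : P2) (s₀ lam : ℝ) (z : P2) : ℝ :=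
  (lam / 2) * ((R2 O z - s₀) * (R2 O z - s₀)) - (R2 O z - s₀)

/-- exponential of the weight -/
noncomputable def Eb (τ : ℝ) (O : P2) (s₀ lam : ℝ) (z : P2) : ℝ :=
  Real.exp (2 * τ * ph O s₀ lam z)

/-- conjugated derivative -/
noncomputable def Pb (τ : ℝ) (O : P2) (s₀ lam : ℝ) (f : P2 → ℝ) (z : P2) : ℝ :=
  d1 f z + (2 * τ) * ((pf O s₀ lam z * (z.1 - O.1)) * f z)

/-- conjugated derivative -/
noncomputable def Qb (τ : ℝ) (O : P2) (s₀ lam : ℝ) (f : P2 → ℝ) (z : P2) : ℝ :=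
  d2 f z + (2 * τ) * ((pf O s₀ lam z * (z.2 - O.2)) * f z)

/-- first component of the field -/
noncomputable def V1b (ν τ β : ℝ) (O : P2) (s₀ lam : ℝ) (f k : P2 → ℝ) (z : P2) : ℝ :=
  Eb τ O s₀ lam z * (((((-8 * ν ^ 2 * τ) * (pf O s₀ lam z * (Pb τ O s₀ lam f z *
    ((z.1 - O.1) * Pb τ O s₀ lam f z + (z.2 - O.2) * Qb τ O s₀ lam f z)
    - (1 / 2) * ((z.1 - O.1) * (Pb τ O s₀ lam f z * Pb τ O s₀ lam f z
      + Qb τ O s₀ lam f z * Qb τ O s₀ lam f z))))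
    - (2 * ν ^ 2 * τ) * ((8 * lam * R2 O z + (2 - 4 * lam * s₀)) * (f z * Pb τ O s₀ lam f z)))
    + (16 * ν ^ 2 * τ * lam) * ((z.1 - O.1) * (f z * f z)))
    - (16 * ν ^ 2 * τ ^ 3) * (((pf O s₀ lam z * pf O s₀ lam z) * pf O s₀ lam z) *
      (R2 O z * ((z.1 - O.1) * (f z * f z)))))
    - (2 * ν) * (k z * Pb τ O s₀ lam f z)
    - (4 * ν * τ ^ 2 * β) * ((pf O s₀ lam z * (z.1 - O.1)) * (f z * f z)))

/-- second component of the field -/
noncomputable def V2b (ν τ β : ℝ) (O : P2) (s₀ lam : ℝ) (f k : P2 → ℝ) (z : P2) : ℝ :=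
  Eb τ O s₀ lam z * (((((-8 * ν ^ 2 * τ) * (pf O s₀ lam z * (Qb τ O s₀ lam f z *
    ((z.1 - O.1) * Pb τ O s₀ lam f z + (z.2 - O.2) * Qb τ O s₀ lam f z)
    - (1 / 2) * ((z.2 - O.2) * (Pb τ O s₀ lam f z * Pb τ O s₀ lam f z
      + Qb τ O s₀ lam f z * Qb τ O s₀ lam f z))))
    - (2 * ν ^ 2 * τ) * ((8 * lam * R2 O z + (2 - 4 * lam * s₀)) * (f z * Qb τ O s₀ lam f z)))
    + (16 * ν ^ 2 * τ * lam) * ((z.2 - O.2) * (f z * f z)))
    - (16 * ν ^ 2 * τ ^ 3) * (((pf O s₀ lam z * pf O s₀ lam z) * pf O s₀ lam z) *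
      (R2 O z * ((z.2 - O.2) * (f z * f z)))))
    - (2 * ν) * (k z * Qb τ O s₀ lam f z)
    - (4 * ν * τ ^ 2 * β) * ((pf O s₀ lam z * (z.2 - O.2)) * (f z * f z)))

lemma pf_contDiff (O : P2) (s₀ lam : ℝ) {n : WithTop ℕ∞} : ContDiff ℝ n (pf O s₀ lam) :=
  (contDiff_const.mul ((R2_contDiff O).sub contDiff_const)).sub contDiff_const

lemma ph_contDiff (O : P2) (s₀ lam : ℝ) {n : WithTop ℕ∞} : ContDiff ℝ n (ph O s₀ lam) :=
  (contDiff_const.mul (((R2_contDiff O).sub contDiff_const).mul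
    ((R2_contDiff O).sub contDiff_const))).sub ((R2_contDiff O).sub contDiff_const)

lemma Eb_contDiff (τ : ℝ) (O : P2) (s₀ lam : ℝ) {n : WithTop ℕ∞} :
    ContDiff ℝ n (Eb τ O s₀ lam) :=
  Real.contDiff_exp.comp (contDiff_const.mul (ph_contDiff O s₀ lam))

section

variable {f k : P2 → ℝ} (hf : ContDiff ℝ 2 f) (hk : ContDiff ℝ 1 k) (ν τ β : ℝ) (O : P2)
  (s₀ lam : ℝ)

include hf in
lemma Pb_contDiff : ContDiff ℝ 1 (Pb τ O s₀ lam f) := by
  have h1 : ContDiff ℝ 1 (fun z : P2 => z.1 - O.1) := contDiff_fst.sub contDiff_const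
  exact (d1_contDiff (m := 1) (n := 2) hf (by norm_num)).add
    (contDiff_const.mul (((pf_contDiff O s₀ lam).mul h1).mul (hf.of_le (by norm_num))))

include hf in
lemma Qb_contDiff : ContDiff ℝ 1 (Qb τ O s₀ lam f) := by
  have h1 : ContDiff ℝ 1 (fun z : P2 => z.2 - O.2) := contDiff_snd.sub contDiff_const
  exact (d2_contDiff (m := 1) (n := 2) hf (by norm_num)).add
    (contDiff_const.mul (((pf_contDiff O s₀ lam).mul h1).mul (hf.of_le (by norm_num))))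

include hf hk in
lemma V1b_contDiff : ContDiff ℝ 1 (V1b ν τ β O s₀ lam f k) := by
  have hX : ContDiff ℝ 1 (fun z : P2 => z.1 - O.1) := contDiff_fst.sub contDiff_const
  have hY : ContDiff ℝ 1 (fun z : P2 => z.2 - O.2) := contDiff_snd.sub contDiff_const
  have hP := Pb_contDiff hf τ O s₀ lam
  have hQ := Qb_contDiff hf τ O s₀ lam
  have hf1 : ContDiff ℝ 1 f := hf.of_le (by norm_num)
  have hE : ContDiff ℝ 1 (Eb τ O s₀ lam) := Eb_contDiff τ O s₀ lam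
  have hR : ContDiff ℝ 1 (R2 O) := R2_contDiff O
  have hp : ContDiff ℝ 1 (pf O s₀ lam) := pf_contDiff O s₀ lam
  exact hE.mul (((((((contDiff_const.mul (hp.mul ((hP.mul ((hX.mul hP).add (hY.mul hQ))).sub
    (contDiff_const.mul (hX.mul ((hP.mul hP).add (hQ.mul hQ))))))).sub
    (contDiff_const.mul (((contDiff_const.mul hR).add contDiff_const).mul (hf1.mul hP)))).add
    (contDiff_const.mul (hX.mul (hf1.mul hf1)))).sub
    (contDiff_const.mul (((hp.mul hp).mul hp).mul (hR.mul (hX.mul (hf1.mul hf1)))))).sub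
    (contDiff_const.mul (hk.mul hP)))).sub (contDiff_const.mul ((hp.mul hX).mul (hf1.mul hf1))))

include hf hk in
lemma V2b_contDiff : ContDiff ℝ 1 (V2b ν τ β O s₀ lam f k) := by
  have hX : ContDiff ℝ 1 (fun z : P2 => z.1 - O.1) := contDiff_fst.sub contDiff_const
  have hY : ContDiff ℝ 1 (fun z : P2 => z.2 - O.2) := contDiff_snd.sub contDiff_const
  have hP := Pb_contDiff hf τ O s₀ lam
  have hQ := Qb_contDiff hf τ O s₀ lam
  have hf1 : ContDiff ℝ 1 f := hf.of_le (by norm_num)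
  have hE : ContDiff ℝ 1 (Eb τ O s₀ lam) := Eb_contDiff τ O s₀ lam
  have hR : ContDiff ℝ 1 (R2 O) := R2_contDiff O
  have hp : ContDiff ℝ 1 (pf O s₀ lam) := pf_contDiff O s₀ lam
  exact hE.mul (((((((contDiff_const.mul (hp.mul ((hQ.mul ((hX.mul hP).add (hY.mul hQ))).sub
    (contDiff_const.mul (hY.mul ((hP.mul hP).add (hQ.mul hQ))))))).sub
    (contDiff_const.mul (((contDiff_const.mul hR).add contDiff_const).mul (hf1.mul hQ)))).add
    (contDiff_const.mul (hY.mul (hf1.mul hf1)))).sub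
    (contDiff_const.mul (((hp.mul hp).mul hp).mul (hR.mul (hY.mul (hf1.mul hf1)))))).sub
    (contDiff_const.mul (hk.mul hQ)))).sub (contDiff_const.mul ((hp.mul hY).mul (hf1.mul hf1))))

/-- symmetric part -/
noncomputable def Sb (z : P2) : ℝ :=
  ν * (d1 (d1 f) z + d2 (d2 f) z + 4 * τ * (pf O s₀ lam z * ((z.1 - O.1) * d1 f z
    + (z.2 - O.2) * d2 f z)) + (τ * (8 * lam * R2 O z - 4 - 4 * lam * s₀)
    + 8 * τ ^ 2 * (pf O s₀ lam z ^ 2 * R2 O z)) * f z) + τ * β * f z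

/-- antisymmetric part -/
noncomputable def Ab (z : P2) : ℝ :=
  -ν * (4 * τ * (pf O s₀ lam z * ((z.1 - O.1) * Pb τ O s₀ lam f z
    + (z.2 - O.2) * Qb τ O s₀ lam f z)) + τ * (8 * lam * R2 O z + (2 - 4 * lam * s₀)) * f z) - k z

include hf hk in
/-- the pointwise identity -/
lemma carlB_id (z : P2) :
    d1 (V1b ν τ β O s₀ lam f k) z + d2 (V2b ν τ β O s₀ lam f k) z =
      Eb τ O s₀ lam z * (2 * (Sb (f := f) ν τ β O s₀ lam z * Ab (f := f) (k := k) ν τ O s₀ lam z)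
      - ν ^ 2 * τ * ((12 + 8 * pf O s₀ lam z) * (Pb τ O s₀ lam f z ^ 2 + Qb τ O s₀ lam f z ^ 2)
        + 16 * lam * ((z.1 - O.1) * Pb τ O s₀ lam f z + (z.2 - O.2) * Qb τ O s₀ lam f z) ^ 2)
      - (ν ^ 2 * τ ^ 3 * (16 * (pf O s₀ lam z ^ 2 * R2 O z *
          (2 * pf O s₀ lam z + 4 * lam * R2 O z - 3)))
        - 32 * ν ^ 2 * τ * lam - 12 * ν * τ ^ 2 * β) * f z ^ 2
      - 2 * ν * (Pb τ O s₀ lam f z * Pb τ O s₀ lam k z + Qb τ O s₀ lam f z * Qb τ O s₀ lam k z)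
      + 8 * ν * τ ^ 2 * (pf O s₀ lam z ^ 2 * R2 O z) * (f z * k z) + 2 * τ * β * (f z * k z)) := by
  have hfd : Differentiable ℝ f := hf.differentiable (by norm_num)
  have hkd : Differentiable ℝ k := hk.differentiable (by norm_num)
  have hf1 : Differentiable ℝ (d1 f) :=
    (d1_contDiff (m := 1) (n := 2) hf (by norm_num)).differentiable (by norm_num)
  have hf2 : Differentiable ℝ (d2 f) :=
    (d2_contDiff (m := 1) (n := 2) hf (by norm_num)).differentiable (by norm_num)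
  have gX : Gr (fun y : P2 => y.1 - O.1) 1 0 z := (Gr.fst.sub (Gr.const O.1)).eq (by ring) (by ring)
  have gY : Gr (fun y : P2 => y.2 - O.2) 0 1 z := (Gr.snd.sub (Gr.const O.2)).eq (by ring) (by ring)
  have gR : Gr (R2 O) (2 * (z.1 - O.1)) (2 * (z.2 - O.2)) z := R2_Gr O z
  have gs : Gr (fun y => R2 O y - s₀) (2 * (z.1 - O.1)) (2 * (z.2 - O.2)) z :=
    (gR.sub (Gr.const s₀)).eq (by ring) (by ring)
  have gp : Gr (pf O s₀ lam) (2 * lam * (z.1 - O.1)) (2 * lam * (z.2 - O.2)) z :=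
    ((gs.cmul lam).sub (Gr.const 1)).eq (by ring) (by ring)
  have gφ : Gr (ph O s₀ lam) (2 * pf O s₀ lam z * (z.1 - O.1)) (2 * pf O s₀ lam z * (z.2 - O.2)) z :=
    (((gs.mul gs).cmul (lam / 2)).sub gs).eq (by simp only [pf]; ring) (by simp only [pf]; ring)
  have gE : Gr (Eb τ O s₀ lam) (4 * τ * (pf O s₀ lam z * (z.1 - O.1)) * Eb τ O s₀ lam z)
      (4 * τ * (pf O s₀ lam z * (z.2 - O.2)) * Eb τ O s₀ lam z) z := by
    have h1 := Gr.comp1 (f := fun y => 2 * τ * ph O s₀ lam y)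
      (Real.hasDerivAt_exp (2 * τ * ph O s₀ lam z)) (gφ.cmul (2 * τ))
    exact (Gr.ev h1 (f' := Eb τ O s₀ lam) (by ext y; rfl)).eq (by rw [Eb]; ring) (by rw [Eb]; ring)
  have gf : Gr f (d1 f z) (d2 f z) z := Gr.of (hfd z)
  have gk : Gr k (d1 k z) (d2 k z) z := Gr.of (hkd z)
  have gf1 : Gr (d1 f) (d1 (d1 f) z) (d2 (d1 f) z) z := Gr.of (hf1 z)
  have gf2 : Gr (d2 f) (d2 (d1 f) z) (d2 (d2 f) z) z := by
    rw [← d_comm hf]; exact Gr.of (hf2 z)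
  have gP := Gr.ev (gf1.add (((gp.mul gX).mul gf).cmul (2 * τ))) (f' := Pb τ O s₀ lam f)
    (by ext y; rfl)
  have gQ := Gr.ev (gf2.add (((gp.mul gY).mul gf).cmul (2 * τ))) (f' := Qb τ O s₀ lam f)
    (by ext y; rfl)
  have gD : Gr (fun y => 8 * lam * R2 O y + (2 - 4 * lam * s₀)) (16 * lam * (z.1 - O.1))
      (16 * lam * (z.2 - O.2)) z :=
    ((gR.cmul (8 * lam)).add (Gr.const (2 - 4 * lam * s₀))).eq (by ring) (by ring)
  have g1 := gE.mul (((((((gp.mul ((gP.mul ((gX.mul gP).add (gY.mul gQ))).sub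
    ((gX.mul ((gP.mul gP).add (gQ.mul gQ))).cmul (1 / 2)))).cmul (-8 * ν ^ 2 * τ)).sub
    ((gD.mul (gf.mul gP)).cmul (2 * ν ^ 2 * τ))).add
    ((gX.mul (gf.mul gf)).cmul (16 * ν ^ 2 * τ * lam))).sub
    ((((gp.mul gp).mul gp).mul (gR.mul (gX.mul (gf.mul gf)))).cmul (16 * ν ^ 2 * τ ^ 3))).sub
    ((gk.mul gP).cmul (2 * ν))).sub (((gp.mul gX).mul (gf.mul gf)).cmul (4 * ν * τ ^ 2 * β)))
  have g2 := gE.mul (((((((gp.mul ((gQ.mul ((gX.mul gP).add (gY.mul gQ))).sub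
    ((gY.mul ((gP.mul gP).add (gQ.mul gQ))).cmul (1 / 2)))).cmul (-8 * ν ^ 2 * τ)).sub
    ((gD.mul (gf.mul gQ)).cmul (2 * ν ^ 2 * τ))).add
    ((gY.mul (gf.mul gf)).cmul (16 * ν ^ 2 * τ * lam))).sub
    ((((gp.mul gp).mul gp).mul (gR.mul (gY.mul (gf.mul gf)))).cmul (16 * ν ^ 2 * τ ^ 3))).sub
    ((gk.mul gQ).cmul (2 * ν))).sub (((gp.mul gY).mul (gf.mul gf)).cmul (4 * ν * τ ^ 2 * β)))
  have e1 := (Gr.ev g1 (f' := V1b ν τ β O s₀ lam f k) (by ext y; rfl)).d1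
  have e2 := (Gr.ev g2 (f' := V2b ν τ β O s₀ lam f k) (by ext y; rfl)).d2
  rw [e1, e2]
  simp only [Sb, Ab, Pb, Qb]
  obtain ⟨X, hX⟩ : ∃ X : ℝ, X = z.1 - O.1 := ⟨_, rfl⟩
  obtain ⟨Y, hY⟩ : ∃ Y : ℝ, Y = z.2 - O.2 := ⟨_, rfl⟩
  have hR : R2 O z = X * X + Y * Y := by rw [hX, hY]; rfl
  have hpf : pf O s₀ lam z = lam * (X * X + Y * Y - s₀) - 1 := by rw [pf, hR]
  rw [hpf, hR, ← hX, ← hY]
  ring

end

end Run7.h105
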