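import Pool.Agent.Run7.h105.CarlB

/-!
# The Carleman inequality at a fixed time (decreasing radial weight)
-/

set_option autoImplicit false

namespace Run7.h105

open Set Filter Topology MeasureTheory Pool.Agent.H754R3.PR

/-- gradient part -/
noncomputable def Gb (τ : ℝ) (O : P2) (s₀ lam : ℝ) (f : P2 → ℝ) (z : P2) : ℝ :=
  Eb τ O s₀ lam z * (Pb τ O s₀ lam f z ^ 2 + Qb τ O s₀ lam f z ^ 2)

/-- function part -/
noncomputable def Fb (τ : ℝ) (O : P2) (s₀ lam : ℝ) (f : P2 → ℝ) (z : P2) : ℝ :=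
  Eb τ O s₀ lam z * f z ^ 2

/-- time part -/
noncomputable def Tb (ν τ β : ℝ) (O : P2) (s₀ lam : ℝ) (f k : P2 → ℝ) (z : P2) : ℝ :=
  Eb τ O s₀ lam z * (2 * ν * (Pb τ O s₀ lam f z * Pb τ O s₀ lam k z
    + Qb τ O s₀ lam f z * Qb τ O s₀ lam k z)
    - 8 * ν * τ ^ 2 * (pf O s₀ lam z ^ 2 * R2 O z) * (f z * k z) - 2 * τ * β * (f z * k z))

/-- real-number part -/
lemma slice_real {E ν τ β lam p s sm L S A P Q XPQ f T1 : ℝ} (hE : 0 ≤ E) (hν : 0 < ν)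
    (hτ : 0 < τ) (hs : sm ≤ s) (hsm : 0 ≤ sm) (hp1 : -(5 / 4) ≤ p) (hp2 : p ≤ -(3 / 4))
    (hls : 2 ≤ lam * s) (hlam : 0 ≤ lam) (hSA : S + A = L - 6 * ν * τ * f) :
    E * (2 * (S * A) - ν ^ 2 * τ * ((12 + 8 * p) * (P ^ 2 + Q ^ 2) + 16 * lam * XPQ ^ 2)
      - (ν ^ 2 * τ ^ 3 * (16 * (p ^ 2 * s * (2 * p + 4 * lam * s - 3)))
        - 32 * ν ^ 2 * τ * lam - 12 * ν * τ ^ 2 * β) * f ^ 2 + T1) ≤
      2 * (E * L ^ 2) - 2 * ν ^ 2 * τ * (E * (P ^ 2 + Q ^ 2))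
      - (9 * ν ^ 2 * τ ^ 3 * sm - 32 * ν ^ 2 * τ * lam - 12 * ν * τ ^ 2 * |β| - 72 * ν ^ 2 * τ ^ 2)
        * (E * f ^ 2) + E * T1 := by
  have h1 : 2 * (S * A) ≤ 2 * L ^ 2 + 72 * ν ^ 2 * τ ^ 2 * f ^ 2 := by
    have e1 : 2 * (S * A) ≤ (S + A) ^ 2 := by nlinarith [sq_nonneg S, sq_nonneg A]
    rw [hSA] at e1
    nlinarith [sq_nonneg (L + 6 * ν * τ * f)]
  have h2 : 2 * (P ^ 2 + Q ^ 2) ≤ (12 + 8 * p) * (P ^ 2 + Q ^ 2) + 16 * lam * XPQ ^ 2 := by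
    have e1 : 0 ≤ 16 * lam * XPQ ^ 2 := by positivity
    have e2 : 0 ≤ (10 + 8 * p) * (P ^ 2 + Q ^ 2) := by
      apply mul_nonneg _ (by positivity); linarith
    linarith
  have h3 : 9 * sm ≤ 16 * (p ^ 2 * s * (2 * p + 4 * lam * s - 3)) := by
    have e1 : (9 : ℝ) / 16 ≤ p ^ 2 := by nlinarith
    have e2 : (9 : ℝ) / 16 * sm ≤ p ^ 2 * s := mul_le_mul e1 hs hsm (sq_nonneg p)
    have e3 : (1 : ℝ) ≤ 2 * p + 4 * lam * s - 3 := by nlinarith
    have e4 : (9 : ℝ) / 16 * sm * 1 ≤ p ^ 2 * s * (2 * p + 4 * lam * s - 3) :=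
      mul_le_mul e2 e3 zero_le_one (by have := hsm.trans hs; positivity)
    linarith
  have h4 : -(ν * τ ^ 2 * β) ≥ -(ν * τ ^ 2 * |β|) := by
    have := le_abs_self β
    have : ν * τ ^ 2 * β ≤ ν * τ ^ 2 * |β| := by gcongr
    linarith
  have h4' : ν * τ ^ 2 * β ≤ ν * τ ^ 2 * |β| := by linarith
  have hf : 0 ≤ f ^ 2 := sq_nonneg f
  have h5 : 2 * (S * A) - ν ^ 2 * τ * ((12 + 8 * p) * (P ^ 2 + Q ^ 2) + 16 * lam * XPQ ^ 2)
      - (ν ^ 2 * τ ^ 3 * (16 * (p ^ 2 * s * (2 * p + 4 * lam * s - 3)))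
        - 32 * ν ^ 2 * τ * lam - 12 * ν * τ ^ 2 * β) * f ^ 2 ≤
      2 * L ^ 2 - 2 * ν ^ 2 * τ * (P ^ 2 + Q ^ 2)
      - (9 * ν ^ 2 * τ ^ 3 * sm - 32 * ν ^ 2 * τ * lam - 12 * ν * τ ^ 2 * |β|
        - 72 * ν ^ 2 * τ ^ 2) * f ^ 2 := by
    have k2 := mul_le_mul_of_nonneg_left h2 (by positivity : 0 ≤ ν ^ 2 * τ)
    have k3 := mul_le_mul_of_nonneg_left h3 (by positivity : 0 ≤ ν ^ 2 * τ ^ 3)
    have k3' := mul_le_mul_of_nonneg_right k3 hf
    have k4 := mul_le_mul_of_nonneg_right h4' hf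
    nlinarith
  have h6 := mul_le_mul_of_nonneg_left h5 hE
  nlinarith

section

variable {f k : P2 → ℝ} (hf : ContDiff ℝ 2 f) (hk : ContDiff ℝ 1 k) (ν τ β : ℝ) (O : P2)
  (s₀ lam : ℝ)

include hf in
lemma Gb_cont : Continuous (Gb τ O s₀ lam f) := by
  have hP := (Pb_contDiff hf τ O s₀ lam).continuous
  have hQ := (Qb_contDiff hf τ O s₀ lam).continuous
  have hE : Continuous (Eb τ O s₀ lam) := (Eb_contDiff τ O s₀ lam (n := 0)).continuous
  unfold Gb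
  fun_prop

include hf in
lemma Fb_cont : Continuous (Fb τ O s₀ lam f) := by
  have hE : Continuous (Eb τ O s₀ lam) := (Eb_contDiff τ O s₀ lam (n := 0)).continuous
  have h0 := hf.continuous
  unfold Fb
  fun_prop

include hf hk in
lemma Tb_cont : Continuous (Tb ν τ β O s₀ lam f k) := by
  have hP := (Pb_contDiff hf τ O s₀ lam).continuous
  have hQ := (Qb_contDiff hf τ O s₀ lam).continuous
  have hE : Continuous (Eb τ O s₀ lam) := (Eb_contDiff τ O s₀ lam (n := 0)).continuous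
  have hp : Continuous (pf O s₀ lam) := (pf_contDiff O s₀ lam (n := 0)).continuous
  have hR : Continuous (R2 O) := (R2_contDiff O (n := 0)).continuous
  have h0 := hf.continuous
  have h1 := hk.continuous
  have hP' : Continuous (Pb τ O s₀ lam k) := by
    have h1 := (d1_contDiff (m := 0) (n := 1) hk (by norm_num)).continuous
    unfold Pb
    fun_prop
  have hQ' : Continuous (Qb τ O s₀ lam k) := by
    have h1 := (d2_contDiff (m := 0) (n := 1) hk (by norm_num)).continuous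
    unfold Qb
    fun_prop
  unfold Tb
  fun_prop

include hf hk in
/-- the Carleman inequality at a fixed time -/
lemma carlB_slice {Ω : Set P2} (hΩ : IsOpen Ω) (hb : Bornology.IsBounded Ω) {sm : ℝ}
    (hν : 0 < ν) (hτ : 0 < τ) (hlam : 0 ≤ lam) (hsm : 0 ≤ sm)
    (hreg : ∀ z ∈ Ω, sm ≤ R2 O z ∧ |lam * (R2 O z - s₀)| ≤ 1 / 4 ∧ 2 ≤ lam * R2 O z)
    (h0 : ∀ z ∈ frontier Ω, f z = 0 ∧ d1 f z = 0 ∧ d2 f z = 0) :
    2 * ν ^ 2 * τ * (∫ z in Ω, Gb τ O s₀ lam f z)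
      + (9 * ν ^ 2 * τ ^ 3 * sm - 32 * ν ^ 2 * τ * lam - 12 * ν * τ ^ 2 * |β| - 72 * ν ^ 2 * τ ^ 2)
        * (∫ z in Ω, Fb τ O s₀ lam f z) + (∫ z in Ω, Tb ν τ β O s₀ lam f k z) ≤
      2 * ∫ z in Ω, Eb τ O s₀ lam z * (ν * (d1 (d1 f) z + d2 (d2 f) z) + τ * β * f z - k z) ^ 2 := by
  have hE : Continuous (Eb τ O s₀ lam) := (Eb_contDiff τ O s₀ lam (n := 0)).continuous
  have hz : ∀ z ∈ frontier Ω, Pb τ O s₀ lam f z = 0 ∧ Qb τ O s₀ lam f z = 0 := by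
    intro z hz
    obtain ⟨a, b, c⟩ := h0 z hz
    simp [Pb, Qb, a, b, c]
  have key := gauss_div hΩ hb (V1b_contDiff hf hk ν τ β O s₀ lam)
    (V2b_contDiff hf hk ν τ β O s₀ lam)
    (by
      intro z hz'
      obtain ⟨a, b⟩ := hz z hz'
      simp [V1b, a, b, (h0 z hz').1])
    (by
      intro z hz'
      obtain ⟨a, b⟩ := hz z hz'
      simp [V2b, a, b, (h0 z hz').1])
    (fun z _ => rfl)
  have hint : ∀ {g : P2 → ℝ}, Continuous g → IntegrableOn g Ω := fun hg =>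
    (hg.continuousOn.integrableOn_compact hb.isCompact_closure).mono_set subset_closure
  have c1 : Continuous (d1 (d1 f)) := (d1_contDiff (m := 0) (n := 1)
    (d1_contDiff (m := 1) (n := 2) hf (by norm_num)) (by norm_num)).continuous
  have c2 : Continuous (d2 (d2 f)) := (d2_contDiff (m := 0) (n := 1)
    (d2_contDiff (m := 1) (n := 2) hf (by norm_num)) (by norm_num)).continuous
  have c3 := hk.continuous
  have c0 := hf.continuous
  have c4 := Gb_cont hf τ O s₀ lam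
  have c5 := Fb_cont hf τ O s₀ lam
  have c6 := Tb_cont hf hk ν τ β O s₀ lam
  have c7 : Continuous (fun z => d1 (V1b ν τ β O s₀ lam f k) z + d2 (V2b ν τ β O s₀ lam f k) z) :=
    ((d1_contDiff (m := 0) (n := 1) (V1b_contDiff hf hk ν τ β O s₀ lam) (by norm_num)).continuous).add
    ((d2_contDiff (m := 0) (n := 1) (V2b_contDiff hf hk ν τ β O s₀ lam) (by norm_num)).continuous)
  obtain ⟨cτ, hcτ⟩ : ∃ cτ : ℝ, cτ = 9 * ν ^ 2 * τ ^ 3 * sm - 32 * ν ^ 2 * τ * lam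
    - 12 * ν * τ ^ 2 * |β| - 72 * ν ^ 2 * τ ^ 2 := ⟨_, rfl⟩
  rw [← hcτ, ← sub_nonneg]
  have hc8 : Continuous fun z => Eb τ O s₀ lam z * (ν * (d1 (d1 f) z + d2 (d2 f) z)
      + τ * β * f z - k z) ^ 2 := by fun_prop
  have hmono : ∫ z in Ω, (d1 (V1b ν τ β O s₀ lam f k) z + d2 (V2b ν τ β O s₀ lam f k) z) ≤
      ∫ z in Ω, (2 * (Eb τ O s₀ lam z * (ν * (d1 (d1 f) z + d2 (d2 f) z)
        + τ * β * f z - k z) ^ 2) - 2 * ν ^ 2 * τ * Gb τ O s₀ lam f z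
        - cτ * Fb τ O s₀ lam f z - Tb ν τ β O s₀ lam f k z) := by
    refine setIntegral_mono_on (hint c7) (hint (by fun_prop)) hΩ.measurableSet ?_
    intro z hzΩ
    have hEp : 0 < Eb τ O s₀ lam z := Real.exp_pos _
    obtain ⟨r1, r2, r3⟩ := hreg z hzΩ
    have r4 := abs_le.1 r2
    have hp1 : -(5 / 4) ≤ pf O s₀ lam z := by unfold pf; linarith [r4.1]
    have hp2 : pf O s₀ lam z ≤ -(3 / 4) := by unfold pf; linarith [r4.2]
    rw [carlB_id hf hk ν τ β O s₀ lam z]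
    have hSA : Sb (f := f) ν τ β O s₀ lam z + Ab (f := f) (k := k) ν τ O s₀ lam z =
        (ν * (d1 (d1 f) z + d2 (d2 f) z) + τ * β * f z - k z) - 6 * ν * τ * f z := by
      simp only [Sb, Ab, Pb, Qb, R2]
      ring
    have := slice_real (E := Eb τ O s₀ lam z) (ν := ν) (τ := τ) (β := β) (lam := lam)
      (p := pf O s₀ lam z) (s := R2 O z) (sm := sm)
      (L := ν * (d1 (d1 f) z + d2 (d2 f) z) + τ * β * f z - k z)
      (S := Sb (f := f) ν τ β O s₀ lam z) (A := Ab (f := f) (k := k) ν τ O s₀ lam z)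
      (P := Pb τ O s₀ lam f z) (Q := Qb τ O s₀ lam f z)
      (XPQ := (z.1 - O.1) * Pb τ O s₀ lam f z + (z.2 - O.2) * Qb τ O s₀ lam f z) (f := f z)
      (T1 := -(2 * ν * (Pb τ O s₀ lam f z * Pb τ O s₀ lam k z + Qb τ O s₀ lam f z
        * Qb τ O s₀ lam k z)) + 8 * ν * τ ^ 2 * (pf O s₀ lam z ^ 2 * R2 O z) * (f z * k z)
        + 2 * τ * β * (f z * k z)) hEp.le hν hτ r1 hsm hp1 hp2 r3 hlam hSA
    rw [← hcτ] at this
    simp only [Gb, Fb, Tb]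
    linarith
  rw [key, integral_sub (hint (by fun_prop)) (hint c6), integral_sub (hint (by fun_prop))
    (hint (by fun_prop)), integral_sub (hint (by fun_prop)) (hint (by fun_prop)),
    integral_const_mul, integral_const_mul, integral_const_mul] at hmono
  linarith

end

end Run7.h105
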