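import Pool.Agent.H754R3.PR.Stamp
import Pool.Agent.H754R3.PR.Steady

/-!
# Finitely many averages control the `L²` norm by the norm of the gradient

For functions vanishing on the frontier of a bounded open set of the plane.
-/

set_option autoImplicit false

namespace Run7.h105

open Set Filter Topology MeasureTheory Pool.Agent.H754R3.PR

lemma cs_int {ψ : ℝ → ℝ} (hψ : Continuous ψ) {a b : ℝ} (hab : a < b) :
    (∫ x in a..b, ψ x) ^ 2 ≤ (b - a) * ∫ x in a..b, ψ x ^ 2 := by
  obtain ⟨c, hc⟩ : ∃ c : ℝ, c = (b - a)⁻¹ * ∫ x in a..b, ψ x := ⟨_, rfl⟩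
  have hL : 0 < b - a := by linarith
  have h0 : 0 ≤ ∫ x in a..b, (ψ x - c) ^ 2 :=
    intervalIntegral.integral_nonneg hab.le (fun x _ => sq_nonneg _)
  have h1 : ∫ x in a..b, (ψ x - c) ^ 2 =
      (∫ x in a..b, ψ x ^ 2) - 2 * c * (∫ x in a..b, ψ x) + (b - a) * c ^ 2 := by
    have e : ∀ x, (ψ x - c) ^ 2 = (ψ x ^ 2 - 2 * c * ψ x) + c ^ 2 := fun x => by ring
    simp only [e]
    rw [intervalIntegral.integral_add (by exact ((hψ.pow 2).sub (continuous_const.mul hψ)).intervalIntegrable _ _)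
      (by exact continuous_const.intervalIntegrable _ _),
      intervalIntegral.integral_sub (by exact (hψ.pow 2).intervalIntegrable _ _)
      (by exact (continuous_const.mul hψ).intervalIntegrable _ _),
      intervalIntegral.integral_const_mul, intervalIntegral.integral_const, smul_eq_mul]
  have h2 : (∫ x in a..b, ψ x) = (b - a) * c := by
    rw [hc, ← mul_assoc, mul_inv_cancel₀ hL.ne', one_mul]
  rw [h1, h2] at h0
  rw [h2]
  nlinarith

lemma wirt {φ φ' : ℝ → ℝ} (hφ : ∀ x, HasDerivAt φ (φ' x) x) (hc : Continuous φ') {a h : ℝ}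
    (hh : 0 < h) : ∫ x in a..a + h, φ x ^ 2 ≤
      h⁻¹ * (∫ x in a..a + h, φ x) ^ 2 + h ^ 2 * ∫ x in a..a + h, φ' x ^ 2 := by
  have hφc : Continuous φ := continuous_iff_continuousAt.2 fun x => (hφ x).continuousAt
  obtain ⟨c, hc'⟩ : ∃ c : ℝ, c = h⁻¹ * ∫ x in a..a + h, φ x := ⟨_, rfl⟩
  -- a point where the mean is attained
  obtain ⟨x₀, hx₀, hx₀'⟩ : ∃ x₀ ∈ Ioo a (a + h), φ x₀ = c := by
    have hd : ∀ x, HasDerivAt (fun y => ∫ s in a..y, φ s) (φ x) x := fun x =>
      intervalIntegral.integral_hasDerivAt_right (hφc.intervalIntegrable _ _)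
        (hφc.stronglyMeasurableAtFilter _ _) hφc.continuousAt
    obtain ⟨x₀, hx₀, he⟩ := exists_hasDerivAt_eq_slope (fun y => ∫ s in a..y, φ s) φ
      (show a < a + h by linarith)
      (fun x _ => (hd x).continuousAt.continuousWithinAt) (fun x _ => hd x)
    refine ⟨x₀, hx₀, ?_⟩
    rw [he, hc', intervalIntegral.integral_same, sub_zero, add_sub_cancel_left, div_eq_inv_mul]
  have hL : a ≤ a + h := by linarith
  have hdiff : ∀ x ∈ Icc a (a + h), (φ x - c) ^ 2 ≤ h * ∫ s in a..a + h, φ' s ^ 2 := by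
    intro x hx
    have h1 : ∫ s in x₀..x, φ' s = φ x - φ x₀ :=
      intervalIntegral.integral_eq_sub_of_hasDerivAt (fun s _ => hφ s)
        (hc.intervalIntegrable _ _)
    have h2 : |φ x - φ x₀| ≤ ∫ s in a..a + h, |φ' s| := by
      rw [← h1, ← Real.norm_eq_abs]
      refine (intervalIntegral.norm_integral_le_integral_norm_uIoc).trans ?_
      rw [intervalIntegral.integral_of_le hL]
      simp only [Real.norm_eq_abs]
      refine setIntegral_mono_set ?_ (ae_of_all _ fun s => abs_nonneg _) ?_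
      · exact (hc.abs.continuousOn.integrableOn_Icc).mono_set Ioc_subset_Icc_self
      · have hsub : uIoc x₀ x ⊆ Ioc a (a + h) := by
          rw [uIoc]
          exact Ioc_subset_Ioc (le_min hx₀.1.le hx.1) (max_le hx₀.2.le hx.2)
        exact Eventually.of_forall fun s hs => hsub hs
    have h3 := cs_int hc.abs (show a < a + h by linarith)
    simp only [sq_abs, add_sub_cancel_left] at h3
    rw [hx₀'] at h2
    calc (φ x - c) ^ 2 = |φ x - c| ^ 2 := (sq_abs _).symm
      _ ≤ (∫ s in a..a + h, |φ' s|) ^ 2 := pow_le_pow_left₀ (abs_nonneg _) h2 2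
      _ ≤ _ := h3
  have h4 : ∫ x in a..a + h, (φ x - c) ^ 2 ≤ h * (h * ∫ s in a..a + h, φ' s ^ 2) := by
    have := intervalIntegral.integral_mono_on (μ := volume) hL
      (f := fun x => (φ x - c) ^ 2) (g := fun _ => h * ∫ s in a..a + h, φ' s ^ 2)
      ((hφc.sub continuous_const).pow 2 |>.intervalIntegrable _ _)
      (continuous_const.intervalIntegrable _ _) hdiff
    rw [intervalIntegral.integral_const, smul_eq_mul, add_sub_cancel_left] at this
    exact this
  have h5 : ∫ x in a..a + h, (φ x - c) ^ 2 =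
      (∫ x in a..a + h, φ x ^ 2) - 2 * c * (∫ x in a..a + h, φ x) + h * c ^ 2 := by
    have e : ∀ x, (φ x - c) ^ 2 = (φ x ^ 2 - 2 * c * φ x) + c ^ 2 := fun x => by ring
    simp only [e]
    rw [intervalIntegral.integral_add (by exact ((hφc.pow 2).sub (continuous_const.mul hφc)).intervalIntegrable _ _)
      (by exact continuous_const.intervalIntegrable _ _),
      intervalIntegral.integral_sub (by exact (hφc.pow 2).intervalIntegrable _ _)
      (by exact (continuous_const.mul hφc).intervalIntegrable _ _),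
      intervalIntegral.integral_const_mul, intervalIntegral.integral_const, smul_eq_mul,
      add_sub_cancel_left]
  obtain ⟨I, hI⟩ : ∃ I : ℝ, I = ∫ x in a..a + h, φ x := ⟨_, rfl⟩
  rw [← hI] at h5 hc' ⊢
  rw [h5, hc'] at h4
  have h6 : h * (h⁻¹ * I) ^ 2 = h⁻¹ * I ^ 2 := by
    field_simp
  nlinarith

/-- the inequality on one cell for continuously differentiable functions -/
lemma cell {G : P2 → ℝ} (hG : ContDiff ℝ 1 G) {a b h : ℝ} (hh : 0 < h) :
    ∫ x in a..a + h, ∫ y in b..b + h, G (x, y) ^ 2 ≤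
      (h⁻¹) ^ 2 * (∫ x in a..a + h, ∫ y in b..b + h, G (x, y)) ^ 2 +
      h ^ 2 * ∫ x in a..a + h, ∫ y in b..b + h, (d1 G (x, y) ^ 2 + d2 G (x, y) ^ 2) := by
  have hGd : Differentiable ℝ G := hG.differentiable (by norm_num)
  have hGc : Continuous G := hG.continuous
  have c1 : Continuous (d1 G) :=
    (hG.continuous_fderiv (by norm_num)).clm_apply continuous_const
  have c2 : Continuous (d2 G) :=
    (hG.continuous_fderiv (by norm_num)).clm_apply continuous_const
  have hy : ∀ x y, HasDerivAt (fun t => G (x, t)) (d2 G (x, y)) y := by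
    intro x y
    have h1 : HasDerivAt (fun t : ℝ => ((x, t) : P2)) ((0 : ℝ), (1 : ℝ)) y :=
      (hasDerivAt_const y x).prodMk (hasDerivAt_id y)
    exact (hGd (x, y)).hasFDerivAt.comp_hasDerivAt y h1
  have hx : ∀ x y, HasDerivAt (fun t => G (t, y)) (d1 G (x, y)) x := by
    intro x y
    have h1 : HasDerivAt (fun t : ℝ => ((t, y) : P2)) ((1 : ℝ), (0 : ℝ)) x :=
      (hasDerivAt_id x).prodMk (hasDerivAt_const x y)
    exact (hGd (x, y)).hasFDerivAt.comp_hasDerivAt x h1
  have hL : a ≤ a + h := by linarith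
  -- parametric integrals are continuous
  have pc : ∀ {k : P2 → ℝ}, Continuous k → Continuous (fun x => ∫ y in b..b + h, k (x, y)) := by
    intro k hk
    exact intervalIntegral.continuous_parametric_intervalIntegral_of_continuous'
      (f := fun x y => k (x, y)) hk b (b + h)
  -- the derivative of the inner mean
  have hm : ∀ x, HasDerivAt (fun x => ∫ y in b..b + h, G (x, y))
      (∫ y in b..b + h, d1 G (x, y)) x := by
    intro x
    obtain ⟨C, hC⟩ := ((isCompact_Icc (a := x - 1) (b := x + 1)).prod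
      (isCompact_uIcc (a := b) (b := b + h))).exists_bound_of_continuousOn c1.continuousOn
    refine (intervalIntegral.hasDerivAt_integral_of_dominated_loc_of_deriv_le
      (F := fun x y => G (x, y)) (F' := fun x y => d1 G (x, y)) (bound := fun _ => C)
      (s := Metric.ball x 1) (Metric.ball_mem_nhds x one_pos)
      (Eventually.of_forall fun t => ?_) ?_ ?_ ?_ ?_ ?_).2
    · exact (hGc.comp (continuous_const.prodMk continuous_id)).aestronglyMeasurable
    · exact (hGc.comp (continuous_const.prodMk continuous_id)).intervalIntegrable _ _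
    · exact (c1.comp (continuous_const.prodMk continuous_id)).aestronglyMeasurable
    · refine Eventually.of_forall fun y hy' t ht => ?_
      refine hC (t, y) ⟨?_, uIoc_subset_uIcc hy'⟩
      rw [Real.ball_eq_Ioo] at ht
      exact ⟨ht.1.le, ht.2.le⟩
    · exact continuous_const.intervalIntegrable _ _
    · exact Eventually.of_forall fun y _ t _ => hx t y
  have s1 : ∀ x, ∫ y in b..b + h, G (x, y) ^ 2 ≤
      h⁻¹ * (∫ y in b..b + h, G (x, y)) ^ 2 + h ^ 2 * ∫ y in b..b + h, d2 G (x, y) ^ 2 :=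
    fun x => wirt (hy x) (c2.comp (continuous_const.prodMk continuous_id)) hh
  have s2 := wirt (a := a) hm (pc c1) hh
  have s3 : ∀ x, (∫ y in b..b + h, d1 G (x, y)) ^ 2 ≤ h * ∫ y in b..b + h, d1 G (x, y) ^ 2 := by
    intro x
    have := cs_int (c1.comp (continuous_const.prodMk continuous_id : Continuous fun y => (x, y)))
      (show b < b + h by linarith)
    simpa [add_sub_cancel_left] using this
  have i1 := intervalIntegral.integral_mono_on (μ := volume) hL
    (f := fun x => ∫ y in b..b + h, G (x, y) ^ 2)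
    (g := fun x => h⁻¹ * (∫ y in b..b + h, G (x, y)) ^ 2 + h ^ 2 * ∫ y in b..b + h, d2 G (x, y) ^ 2)
    ((pc (hGc.pow 2)).intervalIntegrable _ _)
    (((continuous_const.mul ((pc hGc).pow 2)).add
      (continuous_const.mul (pc (c2.pow 2)))).intervalIntegrable _ _) (fun x _ => s1 x)
  have i2 := intervalIntegral.integral_mono_on (μ := volume) hL
    (f := fun x => (∫ y in b..b + h, d1 G (x, y)) ^ 2)
    (g := fun x => h * ∫ y in b..b + h, d1 G (x, y) ^ 2)
    (((pc c1).pow 2).intervalIntegrable _ _)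
    ((continuous_const.mul (pc (c1.pow 2))).intervalIntegrable _ _) (fun x _ => s3 x)
  rw [intervalIntegral.integral_add (by exact (continuous_const.mul ((pc hGc).pow 2)).intervalIntegrable _ _)
    (by exact (continuous_const.mul (pc (c2.pow 2))).intervalIntegrable _ _),
    intervalIntegral.integral_const_mul, intervalIntegral.integral_const_mul] at i1
  rw [intervalIntegral.integral_const_mul] at i2
  have i3 : ∫ x in a..a + h, ∫ y in b..b + h, (d1 G (x, y) ^ 2 + d2 G (x, y) ^ 2) =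
      (∫ x in a..a + h, ∫ y in b..b + h, d1 G (x, y) ^ 2) +
      ∫ x in a..a + h, ∫ y in b..b + h, d2 G (x, y) ^ 2 := by
    rw [← intervalIntegral.integral_add (f := fun x => ∫ y in b..b + h, d1 G (x, y) ^ 2)
      (g := fun x => ∫ y in b..b + h, d2 G (x, y) ^ 2) ((pc (c1.pow 2)).intervalIntegrable _ _)
      ((pc (c2.pow 2)).intervalIntegrable _ _)]
    refine intervalIntegral.integral_congr fun x _ => ?_
    exact intervalIntegral.integral_add
      (((c1.pow 2).comp (continuous_const.prodMk continuous_id)).intervalIntegrable _ _)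
      (((c2.pow 2).comp (continuous_const.prodMk continuous_id)).intervalIntegrable _ _)
  rw [i3]
  obtain ⟨A, hA⟩ : ∃ A : ℝ, A = ∫ x in a..a + h, ∫ y in b..b + h, d1 G (x, y) ^ 2 := ⟨_, rfl⟩
  obtain ⟨B, hB⟩ : ∃ B : ℝ, B = ∫ x in a..a + h, ∫ y in b..b + h, d2 G (x, y) ^ 2 := ⟨_, rfl⟩
  rw [← hA] at i2 ⊢
  rw [← hB] at i1 ⊢
  have hi : 0 < h⁻¹ := inv_pos.2 hh
  have j1 := mul_le_mul_of_nonneg_left s2 hi.le
  have j2 := mul_le_mul_of_nonneg_left i2 (show 0 ≤ h⁻¹ * h ^ 2 by positivity)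
  have e1 : h⁻¹ * h ^ 2 * (h * A) = h ^ 2 * A := by field_simp
  rw [e1] at j2
  nlinarith


/-- a cell of the grid of side `h` -/
def cl (h : ℝ) (j : ℤ × ℤ) : Set P2 :=
  Ioc (j.1 * h) (j.1 * h + h) ×ˢ Ioc (j.2 * h) (j.2 * h + h)

lemma cl_meas (h : ℝ) (j : ℤ × ℤ) : MeasurableSet (cl h j) :=
  measurableSet_Ioc.prod measurableSet_Ioc

lemma cl_mem {h : ℝ} (hh : 0 < h) (p : P2) : p ∈ cl h (⌈p.1 / h⌉ - 1, ⌈p.2 / h⌉ - 1) := by
  have key : ∀ x : ℝ, x ∈ Ioc ((((⌈x / h⌉ - 1 : ℤ)) : ℝ) * h)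
      ((((⌈x / h⌉ - 1 : ℤ)) : ℝ) * h + h) := by
    intro x
    have h1 := Int.le_ceil (x / h)
    have h2 := Int.ceil_lt_add_one (x / h)
    rw [div_le_iff₀ hh] at h1
    have h3 : ((⌈x / h⌉ : ℝ) - 1) * h < x := by
      rw [← lt_div_iff₀ hh]; linarith
    push_cast
    constructor
    · linarith
    · linarith
  exact ⟨key p.1, key p.2⟩

lemma cl_eq {h : ℝ} (hh : 0 < h) {p : P2} {j : ℤ × ℤ} (hp : p ∈ cl h j) :
    j = (⌈p.1 / h⌉ - 1, ⌈p.2 / h⌉ - 1) := by
  have key : ∀ (x : ℝ) (m : ℤ), x ∈ Ioc ((m : ℝ) * h) (m * h + h) → m = ⌈x / h⌉ - 1 := by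
    intro x m hx
    have h1 : (m : ℝ) < x / h := by rw [lt_div_iff₀ hh]; exact hx.1
    have h2 : x / h ≤ m + 1 := by rw [div_le_iff₀ hh]; linarith [hx.2]
    have h3 : ⌈x / h⌉ = m + 1 := by
      rw [Int.ceil_eq_iff]
      push_cast
      constructor <;> linarith
    omega
  exact Prod.ext (key _ _ hp.1) (key _ _ hp.2)

lemma cl_disj {h : ℝ} (hh : 0 < h) {i j : ℤ × ℤ} (hij : i ≠ j) : Disjoint (cl h i) (cl h j) := by
  rw [Set.disjoint_left]
  intro p h1 h2
  exact hij ((cl_eq hh h1).trans (cl_eq hh h2).symm)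

lemma cl_int {k : P2 → ℝ} (hk : Continuous k) {h : ℝ} (hh : 0 < h) (j : ℤ × ℤ) :
    ∫ p in cl h j, k p = ∫ x in (j.1 * h : ℝ)..(j.1 * h + h), ∫ y in (j.2 * h : ℝ)..(j.2 * h + h),
      k (x, y) := by
  have hi : IntegrableOn k (Ioc (j.1 * h : ℝ) (j.1 * h + h) ×ˢ Ioc (j.2 * h : ℝ) (j.2 * h + h))
      ((volume : Measure ℝ).prod (volume : Measure ℝ)) := by
    rw [← Measure.volume_eq_prod]
    exact (hk.continuousOn.integrableOn_compact
      ((isCompact_Icc (a := (j.1 * h : ℝ)) (b := j.1 * h + h)).prod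
        (isCompact_Icc (a := (j.2 * h : ℝ)) (b := j.2 * h + h)))).mono_set
      (Set.prod_mono Ioc_subset_Icc_self Ioc_subset_Icc_self)
  rw [cl, Measure.volume_eq_prod, setIntegral_prod _ hi,
    intervalIntegral.integral_of_le (by linarith)]
  refine integral_congr_ae (Eventually.of_forall fun x => ?_)
  simp only
  rw [intervalIntegral.integral_of_le (by linarith)]

lemma cl_fin (h : ℝ) (j : ℤ × ℤ) : volume (cl h j) ≠ ⊤ := by
  have : cl h j ⊆ Icc (j.1 * h : ℝ) (j.1 * h + h) ×ˢ Icc (j.2 * h : ℝ) (j.2 * h + h) :=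
    Set.prod_mono Ioc_subset_Icc_self Ioc_subset_Icc_self
  exact (lt_of_le_of_lt (measure_mono this)
    ((isCompact_Icc.prod isCompact_Icc).measure_lt_top)).ne

/-- the inequality on a cell for functions vanishing on the frontier, extended by zero -/
lemma cellF {Ω : Set P2} (hΩ : IsOpen Ω) (hb : Bornology.IsBounded Ω) {f : P2 → ℝ}
    (hf : ContDiff ℝ 1 f) (h0 : ∀ x ∈ frontier Ω, f x = 0) {h : ℝ} (hh : 0 < h) (j : ℤ × ℤ) :
    ∫ p in cl h j, (Ω.indicator f p) ^ 2 ≤
      (h⁻¹) ^ 2 * (∫ p in cl h j, Ω.indicator f p) ^ 2 +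
      9 * h ^ 2 * ∫ p in cl h j, Ω.indicator (fun x => d1 f x ^ 2 + d2 f x ^ 2) p := by
  have hfd : Differentiable ℝ f := hf.differentiable (by norm_num)
  have c1 : Continuous (d1 f) :=
    (hf.continuous_fderiv (by norm_num)).clm_apply continuous_const
  have c2 : Continuous (d2 f) :=
    (hf.continuous_fderiv (by norm_num)).clm_apply continuous_const
  set ep : ℕ → ℝ := fun n => 1 / ((n : ℝ) + 1) with hep
  have hep0 : ∀ n, 0 < ep n := fun n => by simp only [hep]; positivity
  have hden : ∀ n x, f x ^ 2 + ep n ≠ 0 := fun n x => by have := hep0 n; positivity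
  set V : ℕ → P2 → ℝ := fun n x => f x * (f x ^ 2 / (f x ^ 2 + ep n)) with hV
  set cc : ℕ → P2 → ℝ := fun n x =>
    f x * (ep n / (f x ^ 2 + ep n) ^ 2) * (2 * f x) + f x ^ 2 / (f x ^ 2 + ep n) with hcc
  have hder : ∀ n x, HasFDerivAt (V n) (cc n x • fderiv ℝ f x) x := by
    intro n x
    have a0 : HasFDerivAt (fun x => f x ^ 2) ((2 * f x) • fderiv ℝ f x) x := by
      have := (hfd x).hasFDerivAt.pow 2
      simp only [Nat.add_one_sub_one, pow_one, nsmul_eq_mul, Nat.cast_ofNat] at this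
      exact this
    have a1 := (theta_deriv (hden n x)).comp_hasFDerivAt x a0
    have a2 := (hfd x).hasFDerivAt.fun_mul a1
    rw [smul_smul, smul_smul, ← add_smul] at a2
    exact a2
  have hVc : ∀ n, ContDiff ℝ 1 (V n) := fun n =>
    hf.mul ((hf.pow 2).div ((hf.pow 2).add contDiff_const) (hden n))
  have hV0 : ∀ n, ∀ x ∈ frontier Ω, V n x = 0 ∧ fderiv ℝ (V n) x = 0 := by
    intro n x hx
    have h1 := h0 x hx
    refine ⟨by simp [hV, h1], ?_⟩
    rw [(hder n x).fderiv]; simp [hcc, h1]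
  have hccb : ∀ n x, 0 ≤ cc n x ∧ cc n x ≤ 3 := by
    intro n x
    have hp : 0 < f x ^ 2 + ep n := by have := hep0 n; positivity
    have hpe := hep0 n
    have b1 : f x * (ep n / (f x ^ 2 + ep n) ^ 2) * (2 * f x) =
        2 * (f x ^ 2 * ep n / (f x ^ 2 + ep n) ^ 2) := by ring
    have b2 : f x ^ 2 * ep n / (f x ^ 2 + ep n) ^ 2 ≤ 1 := by
      rw [div_le_one (by positivity)]
      nlinarith [sq_nonneg (f x), mul_nonneg (sq_nonneg (f x)) hpe.le,
        sq_nonneg (f x ^ 2)]
    have b3 : f x ^ 2 / (f x ^ 2 + ep n) ≤ 1 := by rw [div_le_one hp]; linarith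
    have b4 : 0 ≤ f x ^ 2 * ep n / (f x ^ 2 + ep n) ^ 2 := by positivity
    have b5 : 0 ≤ f x ^ 2 / (f x ^ 2 + ep n) := by positivity
    simp only [hcc]
    rw [b1]
    constructor <;> linarith
  set G : ℕ → P2 → ℝ := fun n => Ω.indicator (V n) with hG
  have hGd : ∀ n x, HasFDerivAt (G n) (Ω.indicator (fderiv ℝ (V n)) x) x := fun n =>
    ind_hasFDerivAt hΩ (hVc n) (hV0 n)
  have hGfd : ∀ n, fderiv ℝ (G n) = Ω.indicator (fderiv ℝ (V n)) := fun n =>
    funext fun x => (hGd n x).fderiv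
  have hG1 : ∀ n, ContDiff ℝ 1 (G n) := by
    intro n
    rw [contDiff_one_iff_fderiv]
    refine ⟨fun x => (hGd n x).differentiableAt, ?_⟩
    rw [hGfd]
    exact continuous_indicator (fun a ha => (hV0 n a ha).2)
      ((hVc n).continuous_fderiv (by norm_num)).continuousOn
  have hGb : ∀ n p, d1 (G n) p ^ 2 + d2 (G n) p ^ 2 ≤
      9 * Ω.indicator (fun x => d1 f x ^ 2 + d2 f x ^ 2) p := by
    intro n p
    rw [d1, d2, hGfd]
    by_cases hp : p ∈ Ω
    · rw [indicator_of_mem hp, indicator_of_mem hp, (hder n p).fderiv]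
      have e1 : (cc n p • fderiv ℝ f p) (1, 0) = cc n p * d1 f p := rfl
      have e2 : (cc n p • fderiv ℝ f p) (0, 1) = cc n p * d2 f p := rfl
      rw [e1, e2]
      obtain ⟨b1, b2⟩ := hccb n p
      have b3 : cc n p ^ 2 ≤ 9 := by nlinarith
      nlinarith [sq_nonneg (d1 f p), sq_nonneg (d2 f p)]
    · rw [indicator_of_notMem hp, indicator_of_notMem hp]
      simp
  have hcell : ∀ n, ∫ p in cl h j, (G n p) ^ 2 ≤
      (h⁻¹) ^ 2 * (∫ p in cl h j, G n p) ^ 2 +
      9 * h ^ 2 * ∫ p in cl h j, Ω.indicator (fun x => d1 f x ^ 2 + d2 f x ^ 2) p := by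
    intro n
    have k1 : Continuous (d1 (G n)) :=
      ((hG1 n).continuous_fderiv (by norm_num)).clm_apply continuous_const
    have k2 : Continuous (d2 (G n)) :=
      ((hG1 n).continuous_fderiv (by norm_num)).clm_apply continuous_const
    have h1 := cell (hG1 n) (a := j.1 * h) (b := j.2 * h) hh
    rw [cl_int (k := fun p => G n p ^ 2) ((hG1 n).continuous.pow 2) hh,
      cl_int (hG1 n).continuous hh]
    refine h1.trans (add_le_add le_rfl ?_)
    rw [← cl_int (k := fun p => d1 (G n) p ^ 2 + d2 (G n) p ^ 2) ((k1.pow 2).add (k2.pow 2)) hh]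
    rw [mul_comm (9 : ℝ), mul_assoc, ← integral_const_mul (9 : ℝ)]
    refine mul_le_mul_of_nonneg_left ?_ (sq_nonneg h)
    refine integral_mono_of_nonneg (Eventually.of_forall fun p => by positivity) ?_
      (Eventually.of_forall fun p => hGb n p)
    refine Integrable.const_mul ?_ 9
    refine IntegrableOn.indicator ?_ hΩ.measurableSet |>.integrable
    have : IntegrableOn (fun x => d1 f x ^ 2 + d2 f x ^ 2)
        (Icc (j.1 * h : ℝ) (j.1 * h + h) ×ˢ Icc (j.2 * h : ℝ) (j.2 * h + h)) :=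
      ((c1.pow 2).add (c2.pow 2)).continuousOn.integrableOn_compact
        (isCompact_Icc.prod isCompact_Icc)
    exact this.mono_set (Set.prod_mono Ioc_subset_Icc_self Ioc_subset_Icc_self)
  -- limits
  have hGle : ∀ n p, |G n p| ≤ |Ω.indicator f p| := by
    intro n p
    simp only [hG]
    by_cases hp : p ∈ Ω
    · rw [indicator_of_mem hp, indicator_of_mem hp]
      simp only [hV]
      rw [abs_mul]
      have hp : 0 < f p ^ 2 + ep n := by have := hep0 n; positivity
      have b3 : f p ^ 2 / (f p ^ 2 + ep n) ≤ 1 := by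
        rw [div_le_one hp]; linarith [hep0 n]
      have b5 : 0 ≤ f p ^ 2 / (f p ^ 2 + ep n) := by positivity
      rw [abs_of_nonneg b5]
      exact mul_le_of_le_one_right (abs_nonneg _) b3
    · rw [indicator_of_notMem hp, indicator_of_notMem hp]
  have hGlim : ∀ p, Tendsto (fun n => G n p) atTop (𝓝 (Ω.indicator f p)) := by
    intro p
    simp only [hG]
    by_cases hp : p ∈ Ω
    · simp only [indicator_of_mem hp, hV]
      by_cases hv : f p = 0
      · simp [hv]
      · have hv2 : f p ^ 2 ≠ 0 := pow_ne_zero 2 hv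
        have hεl : Tendsto ep atTop (𝓝 0) := tendsto_one_div_add_atTop_nhds_zero_nat
        have l1 : Tendsto (fun n => f p ^ 2 + ep n) atTop (𝓝 (f p ^ 2)) := by
          simpa using hεl.const_add (f p ^ 2)
        have l2 : Tendsto (fun n => f p ^ 2 / (f p ^ 2 + ep n)) atTop (𝓝 1) := by
          have := (tendsto_const_nhds (x := f p ^ 2)).div l1 hv2
          rwa [div_self hv2] at this
        simpa using l2.const_mul (f p)
    · simp only [indicator_of_notMem hp]
      exact tendsto_const_nhds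
  obtain ⟨C, hC⟩ := hb.isCompact_closure.exists_bound_of_continuousOn hf.continuous.continuousOn
  have hC' : ∀ p, |Ω.indicator f p| ≤ |C| := by
    intro p
    by_cases hp : p ∈ Ω
    · rw [indicator_of_mem hp]
      exact (hC p (subset_closure hp)).trans (le_abs_self C)
    · rw [indicator_of_notMem hp]; simp
  have hfin : IsFiniteMeasure (volume.restrict (cl h j)) :=
    ⟨by rw [Measure.restrict_apply_univ]; exact (cl_fin h j).lt_top⟩
  have t1 : Tendsto (fun n => ∫ p in cl h j, (G n p) ^ 2) atTop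
      (𝓝 (∫ p in cl h j, (Ω.indicator f p) ^ 2)) := by
    refine tendsto_integral_of_dominated_convergence (fun _ => |C| ^ 2)
      (fun n => ((hG1 n).continuous.pow 2).aestronglyMeasurable) (integrable_const _)
      (fun n => Eventually.of_forall fun p => ?_) (Eventually.of_forall fun p => (hGlim p).pow 2)
    rw [Real.norm_eq_abs, abs_pow]
    exact pow_le_pow_left₀ (abs_nonneg _) ((hGle n p).trans (hC' p)) 2
  have t2 : Tendsto (fun n => ∫ p in cl h j, G n p) atTop
      (𝓝 (∫ p in cl h j, Ω.indicator f p)) := by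
    refine tendsto_integral_of_dominated_convergence (fun _ => |C|)
      (fun n => (hG1 n).continuous.aestronglyMeasurable) (integrable_const _)
      (fun n => Eventually.of_forall fun p => ?_) (Eventually.of_forall fun p => hGlim p)
    rw [Real.norm_eq_abs]
    exact (hGle n p).trans (hC' p)
  exact le_of_tendsto_of_tendsto' t1 (((t2.pow 2).const_mul _).add_const _) hcell

/-- finitely many averages control the `L²` norm by the norm of the gradient -/
theorem modes {Ω : Set P2} (hΩ : IsOpen Ω) (hb : Bornology.IsBounded Ω) {Λ : ℝ} (hΛ : 0 < Λ) :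
    ∃ (S : Finset (ℤ × ℤ)) (h : ℝ), ∀ f : P2 → ℝ, ContDiff ℝ 1 f →
      (∀ x ∈ frontier Ω, f x = 0) → (∀ j ∈ S, ∫ x in Ω ∩ cl h j, f x = 0) →
      Λ * ∫ x in Ω, f x ^ 2 ≤ ∫ x in Ω, (d1 f x ^ 2 + d2 f x ^ 2) := by
  obtain ⟨h, hh⟩ : ∃ h : ℝ, h = 1 / (3 * (1 + Λ)) := ⟨_, rfl⟩
  have hh0 : 0 < h := by rw [hh]; positivity
  have hΛh : Λ * (9 * h ^ 2) ≤ 1 := by
    rw [hh]
    have : Λ * (9 * (1 / (3 * (1 + Λ))) ^ 2) = Λ / (1 + Λ) ^ 2 := by field_simp; ring
    rw [this, div_le_one (by positivity)]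
    nlinarith
  obtain ⟨R, hR⟩ := hb.subset_closedBall (0 : P2)
  obtain ⟨N, hN⟩ := exists_nat_gt (|R| / h + 2)
  refine ⟨Finset.Icc (-(N : ℤ)) N ×ˢ Finset.Icc (-(N : ℤ)) N, h, fun f hf h0 hS => ?_⟩
  set S := Finset.Icc (-(N : ℤ)) N ×ˢ Finset.Icc (-(N : ℤ)) N with hSdef
  have hcov : Ω ⊆ ⋃ j ∈ S, cl h j := by
    intro p hp
    have hpR : dist p 0 ≤ |R| := (Metric.mem_closedBall.1 (hR hp)).trans (le_abs_self R)
    rw [dist_zero_right, Prod.norm_def] at hpR
    have h1 : |p.1| ≤ |R| := (le_max_left _ _).trans hpR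
    have h2 : |p.2| ≤ |R| := (le_max_right _ _).trans hpR
    have key : ∀ x : ℝ, |x| ≤ |R| → ⌈x / h⌉ - 1 ∈ Finset.Icc (-(N : ℤ)) N := by
      intro x hx
      have e1 := Int.le_ceil (x / h)
      have e2 := Int.ceil_lt_add_one (x / h)
      have e3 : |x / h| ≤ |R| / h := by
        rw [abs_div, abs_of_pos hh0]; exact div_le_div_of_nonneg_right hx hh0.le
      have e4 := abs_le.1 e3
      rw [Finset.mem_Icc]
      constructor
      · have : (-(N : ℝ)) ≤ (⌈x / h⌉ : ℝ) - 1 := by linarith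
        exact_mod_cast this
      · have : (⌈x / h⌉ : ℝ) - 1 ≤ N := by linarith
        exact_mod_cast this
    rw [mem_iUnion₂]
    exact ⟨_, Finset.mem_product.2 ⟨key _ h1, key _ h2⟩, cl_mem hh0 p⟩
  have hdisj : (S : Set (ℤ × ℤ)).Pairwise (Function.onFun Disjoint (cl h)) :=
    fun i _ j _ hij => cl_disj hh0 hij
  have c1 : Continuous (d1 f) :=
    (hf.continuous_fderiv (by norm_num)).clm_apply continuous_const
  have c2 : Continuous (d2 f) :=
    (hf.continuous_fderiv (by norm_num)).clm_apply continuous_const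
  have hint : ∀ {k : P2 → ℝ}, Continuous k → ∀ j, IntegrableOn (Ω.indicator k) (cl h j) := by
    intro k hk j
    have h1 : IntegrableOn k Ω :=
      (hk.continuousOn.integrableOn_compact hb.isCompact_closure).mono_set subset_closure
    exact ((integrable_indicator_iff hΩ.measurableSet).2 h1).integrableOn
  have hsum : ∀ {k : P2 → ℝ}, Continuous k →
      ∫ p in Ω, k p = ∑ j ∈ S, ∫ p in cl h j, Ω.indicator k p := by
    intro k hk
    rw [← integral_biUnion_finset S (fun j _ => cl_meas h j) hdisj (fun j _ => hint hk j),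
      setIntegral_indicator hΩ.measurableSet]
    congr 2
    rw [inter_eq_right.2 hcov]
  have e1 : ∫ x in Ω, f x ^ 2 = ∑ j ∈ S, ∫ p in cl h j, (Ω.indicator f p) ^ 2 := by
    rw [hsum (k := fun x => f x ^ 2) (hf.continuous.pow 2)]
    refine Finset.sum_congr rfl fun j _ => ?_
    refine integral_congr_ae (Eventually.of_forall fun p => ?_)
    simp only
    by_cases hp : p ∈ Ω
    · rw [indicator_of_mem hp, indicator_of_mem hp]
    · rw [indicator_of_notMem hp, indicator_of_notMem hp]; simp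
  rw [e1, hsum (k := fun x => d1 f x ^ 2 + d2 f x ^ 2) ((c1.pow 2).add (c2.pow 2)),
    Finset.mul_sum]
  refine Finset.sum_le_sum fun j hj => ?_
  have h1 := cellF hΩ hb hf h0 hh0 j
  have h2 : ∫ p in cl h j, Ω.indicator f p = 0 := by
    rw [setIntegral_indicator hΩ.measurableSet, inter_comm]
    exact hS j hj
  rw [h2] at h1
  obtain ⟨I, hI⟩ : ∃ I : ℝ, I = ∫ p in cl h j, Ω.indicator (fun x => d1 f x ^ 2 + d2 f x ^ 2) p :=
    ⟨_, rfl⟩
  have hI0 : 0 ≤ I := by
    rw [hI]
    refine integral_nonneg fun p => ?_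
    refine indicator_nonneg (fun x _ => by positivity) p
  rw [← hI] at h1 ⊢
  have h3 := mul_le_mul_of_nonneg_left h1 hΛ.le
  have h4 := mul_le_mul_of_nonneg_right hΛh hI0
  linarith

end Run7.h105
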