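import Pool.Agent.Run7.h105.Uniq

/-!
# Two complete bounded trajectories with the same pressure coincide (analytic case)
-/

set_option autoImplicit false

namespace Run7.h105

open Set Filter Topology MeasureTheory Pool.Agent.H754R3.PR

lemma int_lap {Ω : Set P2} (hΩ : IsOpen Ω) (hb : Bornology.IsBounded Ω) {f : P2 → ℝ}
    (hf : ContDiff ℝ 2 f) (h0 : ∀ x ∈ frontier Ω, f x = 0) :
    ∫ x in Ω, f x * (d1 (d1 f) x + d2 (d2 f) x) ≤ - ∫ x in Ω, d1 f x ^ 2 := by
  have hint : ∀ {g : P2 → ℝ}, Continuous g → IntegrableOn g Ω := fun hg =>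
    (hg.continuousOn.integrableOn_compact hb.isCompact_closure).mono_set subset_closure
  have r1 : ContDiff ℝ 1 (d1 f) := d1_contDiff (m := 1) (n := 2) hf (by norm_num)
  have r2 : ContDiff ℝ 1 (d2 f) := d2_contDiff (m := 1) (n := 2) hf (by norm_num)
  have hf1 : ContDiff ℝ 1 f := hf.of_le (by norm_num)
  have c11 : Continuous (d1 (d1 f)) := (d1_contDiff (m := 0) (n := 1) r1 (by norm_num)).continuous
  have c22 : Continuous (d2 (d2 f)) := (d2_contDiff (m := 0) (n := 1) r2 (by norm_num)).continuous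
  have c0 := hf.continuous
  have c1 := r1.continuous
  have c2 := r2.continuous
  have h1 := gauss_div hΩ hb (hf1.mul r1) (hf1.mul r2) (fun x hx => by simp [h0 x hx])
    (fun x hx => by simp [h0 x hx])
    (D := fun x => f x * (d1 (d1 f) x + d2 (d2 f) x) + (d1 f x ^ 2 + d2 f x ^ 2)) (fun x _ => by
      rw [d1_mul (hf1.differentiable (by norm_num)) (r1.differentiable (by norm_num)),
        d2_mul (hf1.differentiable (by norm_num)) (r2.differentiable (by norm_num))]
      ring)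
  rw [integral_add (hint (by fun_prop)) (hint (by fun_prop)),
    integral_add (hint (by fun_prop)) (hint (by fun_prop))] at h1
  have h2 : 0 ≤ ∫ x in Ω, d2 f x ^ 2 :=
    setIntegral_nonneg hΩ.measurableSet (fun x _ => sq_nonneg _)
  linarith

theorem uniq_core {Ω : Set P2} (hΩ : IsOpen Ω) (hconn : IsPreconnected Ω)
    (hb : Bornology.IsBounded Ω) (hbd : BdryClass 2 Ω)
    {ν : ℝ} (hν : 0 < ν) {w1 w2 a1 a2 : P3 → ℝ}
    (hw1 : ContDiff ℝ 3 w1) (hw2 : ContDiff ℝ 3 w2) (ha1 : ContDiff ℝ 3 a1) (ha2 : ContDiff ℝ 3 a2)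
    (hdw : ∀ t, ∀ x ∈ Ω, d1 (sl w1 t) x + d2 (sl w2 t) x = 0)
    (hda : ∀ t, ∀ x ∈ Ω, d1 (sl a1 t) x + d2 (sl a2 t) x = 0)
    (hbw : ∀ t, ∀ x ∈ frontier Ω, w1 (t, x) = 0 ∧ w2 (t, x) = 0)
    (hba : ∀ t, ∀ x ∈ frontier Ω, a1 (t, x) = 0 ∧ a2 (t, x) = 0)
    (hm1 : ∀ t, ∀ x ∈ Ω, ν * (d1 (d1 (sl w1 t)) x + d2 (d2 (sl w1 t)) x) = Dt w1 (t, x) +
      (a1 (t, x) * d1 (sl w1 t) x + a2 (t, x) * d2 (sl w1 t) x + w1 (t, x) * d1 (sl a1 t) x
        + w2 (t, x) * d2 (sl a1 t) x))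
    (hm2 : ∀ t, ∀ x ∈ Ω, ν * (d1 (d1 (sl w2 t)) x + d2 (d2 (sl w2 t)) x) = Dt w2 (t, x) +
      (a1 (t, x) * d1 (sl w2 t) x + a2 (t, x) * d2 (sl w2 t) x + w1 (t, x) * d1 (sl a2 t) x
        + w2 (t, x) * d2 (sl a2 t) x))
    (haw1 : ∀ t, AnalyticOnNhd ℝ (sl w1 t) Ω) (haw2 : ∀ t, AnalyticOnNhd ℝ (sl w2 t) Ω)
    (haa1 : ∀ t, AnalyticOnNhd ℝ (sl a1 t) Ω) (haa2 : ∀ t, AnalyticOnNhd ℝ (sl a2 t) Ω)
    {B : ℝ} (hB : ∀ t, ∀ x ∈ Ω, |w1 (t, x)| ≤ B ∧ |w2 (t, x)| ≤ B) :
    ∀ t, ∀ x ∈ Ω, w1 (t, x) = 0 ∧ w2 (t, x) = 0 := by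
  rcases Ω.eq_empty_or_nonempty with he | hne
  · intro t x hx
    rw [he] at hx
    exact hx.elim
  have hdich := dichotomy hΩ hconn hb hne hbd hν hw1 hw2 ha1 ha2 hdw hda hbw hba hm1 hm2 haw1 haw2
    haa1 haa2
  obtain ⟨C, hC, hP⟩ := poincare hΩ hb
  have hint : ∀ {g : P2 → ℝ}, Continuous g → IntegrableOn g Ω := fun hg =>
    (hg.continuousOn.integrableOn_compact hb.isCompact_closure).mono_set subset_closure
  have S2 : ∀ {F : P3 → ℝ}, ContDiff ℝ 3 F → ∀ t, ContDiff ℝ 2 (sl F t) := fun hF t =>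
    (sl_contDiff (n := 3) hF t).of_le (by norm_num)
  have cw1 := hw1.continuous
  have cw2 := hw2.continuous
  have k1 : ContDiff ℝ 2 (Dt w1) := Dt_contDiff (n := 3) (m := 2) hw1 (by norm_num)
  have k2 : ContDiff ℝ 2 (Dt w2) := Dt_contDiff (n := 3) (m := 2) hw2 (by norm_num)
  have ck1 := k1.continuous
  have ck2 := k2.continuous
  have cs1 : ∀ t, Continuous (sl w1 t) := fun t => (S2 hw1 t).continuous
  have cs2 : ∀ t, Continuous (sl w2 t) := fun t => (S2 hw2 t).continuous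
  have hQ : ∀ t, HasDerivAt (fun t => ∫ x in Ω, (w1 (t, x) ^ 2 + w2 (t, x) ^ 2))
      (∫ x in Ω, 2 * (w1 (t, x) * Dt w1 (t, x) + w2 (t, x) * Dt w2 (t, x))) t := by
    intro t
    refine deriv_int hb (F := fun t x => w1 (t, x) ^ 2 + w2 (t, x) ^ 2)
      (F' := fun t x => 2 * (w1 (t, x) * Dt w1 (t, x) + w2 (t, x) * Dt w2 (t, x)))
      (by fun_prop) (by fun_prop) ?_ t
    intro t x
    have h1 := hasDerivAt_time (hw1.differentiable (by norm_num)) t x
    have h2 := hasDerivAt_time (hw2.differentiable (by norm_num)) t x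
    refine ((h1.pow 2).add (h2.pow 2)).congr_deriv ?_
    simp
    ring
  have hQ0 : ∀ t, 0 ≤ ∫ x in Ω, (w1 (t, x) ^ 2 + w2 (t, x) ^ 2) := fun t =>
    setIntegral_nonneg hΩ.measurableSet (fun x _ => by positivity)
  have hzero := ode_zero (c := 2 * ν / C) (K := 2 * B ^ 2 * (volume Ω).toReal) (by positivity) hQ
    (fun t => by
      rw [abs_of_nonneg (hQ0 t)]
      rcases hdich t with h | h
      · -- the mean vanishes
        have e1 : ∀ x ∈ Ω, Dt w1 (t, x) = ν * (d1 (d1 (sl w1 t)) x + d2 (d2 (sl w1 t)) x) := by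
          intro x hx
          have z1 : sl a1 t =ᶠ[𝓝 x] 0 := by
            filter_upwards [hΩ.mem_nhds hx] with y hy using (h y hy).1
          have z2 : fderiv ℝ (sl a1 t) x = 0 := by
            rw [z1.fderiv_eq]; simp
          have z3 : d1 (sl a1 t) x = 0 := by rw [d1, z2]; simp
          have z4 : d2 (sl a1 t) x = 0 := by rw [d2, z2]; simp
          have := hm1 t x hx
          rw [(h x hx).1, (h x hx).2, z3, z4] at this
          linarith
        have e2 : ∀ x ∈ Ω, Dt w2 (t, x) = ν * (d1 (d1 (sl w2 t)) x + d2 (d2 (sl w2 t)) x) := by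
          intro x hx
          have z1 : sl a2 t =ᶠ[𝓝 x] 0 := by
            filter_upwards [hΩ.mem_nhds hx] with y hy using (h y hy).2
          have z2 : fderiv ℝ (sl a2 t) x = 0 := by
            rw [z1.fderiv_eq]; simp
          have z3 : d1 (sl a2 t) x = 0 := by rw [d1, z2]; simp
          have z4 : d2 (sl a2 t) x = 0 := by rw [d2, z2]; simp
          have := hm2 t x hx
          rw [(h x hx).1, (h x hx).2, z3, z4] at this
          linarith
        have e3 : ∫ x in Ω, 2 * (w1 (t, x) * Dt w1 (t, x) + w2 (t, x) * Dt w2 (t, x)) =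
            2 * ν * ((∫ x in Ω, sl w1 t x * (d1 (d1 (sl w1 t)) x + d2 (d2 (sl w1 t)) x))
              + ∫ x in Ω, sl w2 t x * (d1 (d1 (sl w2 t)) x + d2 (d2 (sl w2 t)) x)) := by
          have cc : ∀ {F : P3 → ℝ}, ContDiff ℝ 3 F → Continuous fun x =>
              sl F t x * (d1 (d1 (sl F t)) x + d2 (d2 (sl F t)) x) := by
            intro F hF
            have r1 : ContDiff ℝ 1 (d1 (sl F t)) :=
              d1_contDiff (m := 1) (n := 2) (S2 hF t) (by norm_num)
            have r2 : ContDiff ℝ 1 (d2 (sl F t)) :=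
              d2_contDiff (m := 1) (n := 2) (S2 hF t) (by norm_num)
            have c11 := (d1_contDiff (m := 0) (n := 1) r1 (by norm_num)).continuous
            have c22 := (d2_contDiff (m := 0) (n := 1) r2 (by norm_num)).continuous
            exact (S2 hF t).continuous.mul (c11.add c22)
          rw [← integral_add (hint (cc hw1)) (hint (cc hw2)), ← integral_const_mul]
          refine setIntegral_congr_fun hΩ.measurableSet (fun x hx => ?_)
          simp only [sl] at e1 e2 ⊢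
          rw [e1 x hx, e2 x hx]
          ring
        have i1 := int_lap hΩ hb (S2 hw1 t) (fun x hx => (hbw t x hx).1)
        have i2 := int_lap hΩ hb (S2 hw2 t) (fun x hx => (hbw t x hx).2)
        have p1 := hP (sl w1 t) ((S2 hw1 t).of_le (by norm_num)) (fun x hx => (hbw t x hx).1)
        have p2 := hP (sl w2 t) ((S2 hw2 t).of_le (by norm_num)) (fun x hx => (hbw t x hx).2)
        have e4 : ∫ x in Ω, (w1 (t, x) ^ 2 + w2 (t, x) ^ 2) =
            (∫ x in Ω, sl w1 t x ^ 2) + ∫ x in Ω, sl w2 t x ^ 2 :=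
          integral_add (hint ((cs1 t).pow 2)) (hint ((cs2 t).pow 2))
        rw [e3, e4]
        have e5 : (2 * ν / C) * ((∫ x in Ω, sl w1 t x ^ 2) + ∫ x in Ω, sl w2 t x ^ 2) ≤
            2 * ν * ((∫ x in Ω, d1 (sl w1 t) x ^ 2) + ∫ x in Ω, d1 (sl w2 t) x ^ 2) := by
          rw [div_mul_eq_mul_div, div_le_iff₀ hC]
          have := mul_le_mul_of_nonneg_left (add_le_add p1 p2) (by positivity : 0 ≤ 2 * ν)
          linarith
        have e6 := mul_le_mul_of_nonneg_left (add_le_add i1 i2) (by positivity : 0 ≤ 2 * ν)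
        linarith
      · -- the difference vanishes
        have e1 : ∫ x in Ω, 2 * (w1 (t, x) * Dt w1 (t, x) + w2 (t, x) * Dt w2 (t, x)) = 0 := by
          rw [setIntegral_congr_fun hΩ.measurableSet (g := fun _ => (0 : ℝ)) (fun x hx => by
            beta_reduce
            rw [(h x hx).1, (h x hx).2]; ring)]
          simp
        have e2 : ∫ x in Ω, (w1 (t, x) ^ 2 + w2 (t, x) ^ 2) = 0 := by
          rw [setIntegral_congr_fun hΩ.measurableSet (g := fun _ => (0 : ℝ)) (fun x hx => by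
            beta_reduce
            rw [(h x hx).1, (h x hx).2]; ring)]
          simp
        rw [e1, e2]; simp)
    (fun t => by
      rw [abs_of_nonneg (hQ0 t)]
      have h1 : ∫ x in Ω, (w1 (t, x) ^ 2 + w2 (t, x) ^ 2) ≤ ∫ x in Ω, 2 * B ^ 2 := by
        have c3 : Continuous fun x : P2 => w1 (t, x) ^ 2 + w2 (t, x) ^ 2 := by fun_prop
        refine setIntegral_mono_on (hint c3) (hint continuous_const) hΩ.measurableSet ?_
        intro x hx
        obtain ⟨b1, b2⟩ := hB t x hx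
        have s1 : w1 (t, x) ^ 2 ≤ B ^ 2 := by rw [← sq_abs]; gcongr
        have s2 : w2 (t, x) ^ 2 ≤ B ^ 2 := by rw [← sq_abs (w2 (t, x))]; gcongr
        linarith
      refine h1.trans (le_of_eq ?_)
      rw [setIntegral_const, smul_eq_mul, mul_comm]
      rfl)
  intro t x hx
  have c3 : Continuous fun x : P2 => w1 (t, x) ^ 2 + w2 (t, x) ^ 2 := by fun_prop
  have h1 := zero_of_int hΩ hb c3 (fun x => by positivity) (hzero t).le x hx
  have h2 : w1 (t, x) ^ 2 = 0 := by nlinarith [sq_nonneg (w1 (t, x)), sq_nonneg (w2 (t, x))]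
  have h3 : w2 (t, x) ^ 2 = 0 := by nlinarith [sq_nonneg (w1 (t, x)), sq_nonneg (w2 (t, x))]
  exact ⟨by simpa using h2, by simpa using h3⟩

end Run7.h105
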