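import Pool.Agent.Run7.h105.Obs

/-!
# Separation of curves by finitely many functions with prescribed values on a closed set
-/

set_option autoImplicit false

namespace Run7.h105

open Set Filter Topology

variable {Y : Type*} [MetricSpace Y]

/-- the perturbation used in `good_dense`, with its support recorded -/
lemma good_pert {K : Set C(ℝ, Y)} (hK : IsCompact K) (c : Y) {a b α β r : ℝ}
    (hαβ : α < β) (hα : 0 < α) (hβr : β < r) (f : BoundedContinuousFunction Y ℝ) {ε : ℝ}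
    (hε : 0 < ε) : ∃ H : BoundedContinuousFunction Y ℝ, ‖H‖ < ε ∧ (∀ y, r ≤ dist y c → H y = 0) ∧
      ∀ x ∈ Bx K c a b α β r, ∃ t ∈ Icc a b, (f + H) (x.1 t) ≠ (f + H) (x.2 t) := by
  have hr : 0 < r := by linarith
  obtain ⟨η, hη⟩ : ∃ η : ℝ, η = ε / 2 := ⟨_, rfl⟩
  have hη0 : 0 < η := by rw [hη]; positivity
  obtain ⟨δ, hδ, hmod⟩ := modulus hK f.continuous a b (η := η / 4) (by positivity)
  obtain ⟨n, hn⟩ := exists_nat_gt (max ((b - a) / δ) 0)
  have hn0 : 0 < n := by
    have := (le_max_right ((b - a) / δ) 0).trans_lt hn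
    exact_mod_cast this
  have hnδ : b - a < n * δ := by
    have := (le_max_left ((b - a) / δ) 0).trans_lt hn
    rwa [div_lt_iff₀ hδ] at this
  obtain ⟨k, hk⟩ := exists_nat_gt (2 * r * n / (β - α))
  have hk0 : (0 : ℝ) < k := lt_of_le_of_lt (by
    have : 0 < β - α := by linarith
    positivity) hk
  have hkμ : n * (2 * r / k) < β - α := by
    rw [div_lt_iff₀ (by linarith)] at hk
    rw [← mul_div_assoc, div_lt_iff₀ hk0]
    linarith
  have hpi := Real.pi_pos
  obtain ⟨ω, hω⟩ : ∃ ω : ℝ, ω = k * Real.pi / r := ⟨_, rfl⟩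
  have hω0 : 0 < ω := by rw [hω]; positivity
  -- the perturbation
  have hcont : Continuous (fun y : Y => η * Real.sin (ω * min (dist y c) r)) := by fun_prop
  obtain ⟨H, hH⟩ : ∃ H : BoundedContinuousFunction Y ℝ, ∀ y, H y =
      η * Real.sin (ω * min (dist y c) r) :=
    ⟨BoundedContinuousFunction.ofNormedAddCommGroup _ hcont η (fun y => by
      rw [norm_mul, Real.norm_eq_abs, Real.norm_eq_abs, abs_of_pos hη0]
      have := Real.abs_sin_le_one (ω * min (dist y c) r)
      nlinarith [abs_nonneg (Real.sin (ω * min (dist y c) r))]), fun y => rfl⟩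
  have hHn : ‖H‖ ≤ η := by
    rw [BoundedContinuousFunction.norm_le hη0.le]
    intro y
    rw [hH, norm_mul, Real.norm_eq_abs, Real.norm_eq_abs, abs_of_pos hη0]
    have := Real.abs_sin_le_one (ω * min (dist y c) r)
    nlinarith [abs_nonneg (Real.sin (ω * min (dist y c) r))]
  refine ⟨H, by linarith, fun y hy => ?_, ?_⟩
  · rw [hH, min_eq_right hy, hω, div_mul_cancel₀ _ hr.ne', Real.sin_nat_mul_pi, mul_zero]
  rintro ⟨p, q⟩ ⟨⟨hp, hq⟩, hfar, ⟨tα, htα, hα'⟩, ⟨tβ, htβ, hβ'⟩⟩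
  simp only at hp hq hfar htα hα' htβ hβ' ⊢
  by_contra hcon
  push Not at hcon
  -- values of H along p
  have hHp : ∀ t ∈ Icc a b, H (p t) = f (q t) - f (p t) := by
    intro t ht
    have h1 := hcon t ht
    simp only [BoundedContinuousFunction.coe_add, Pi.add_apply] at h1
    have h2 : H (q t) = 0 := by
      rw [hH, min_eq_right (hfar t ht), hω, div_mul_cancel₀ _ hr.ne', Real.sin_nat_mul_pi,
        mul_zero]
    linarith
  have hHosc : ∀ s ∈ Icc a b, ∀ t ∈ Icc a b, |s - t| < δ → |H (p s) - H (p t)| < η / 2 := by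
    intro s hs t ht hst
    rw [hHp s hs, hHp t ht]
    have h1 := hmod p hp s hs t ht hst
    have h2 := hmod q hq s hs t ht hst
    have e : f (q s) - f (p s) - (f (q t) - f (p t)) =
      (f (q s) - f (q t)) - (f (p s) - f (p t)) := by ring
    rw [e]
    refine (abs_sub _ _).trans_lt ?_
    linarith
  obtain ⟨γ, hγ⟩ : ∃ γ : ℝ → ℝ, γ = fun t => min (dist (p t) c) r := ⟨_, rfl⟩
  have hγc : Continuous γ := by
    rw [hγ]
    exact (((map_continuous p).dist continuous_const)).min continuous_const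
  have hosc : ∀ s ∈ Icc a b, ∀ t ∈ Icc a b, |s - t| < δ → |γ s - γ t| ≤ 2 * r / k := by
    -- symmetric reduction
    have key : ∀ s ∈ Icc a b, ∀ t ∈ Icc a b, |s - t| < δ → γ t - γ s ≤ 2 * r / k := by
      intro s hs t ht hst
      by_contra hlt
      push Not at hlt
      have h1 : 2 * Real.pi < ω * (γ t - γ s) := by
        have h2 : ω * (2 * r / k) < ω * (γ t - γ s) := mul_lt_mul_of_pos_left hlt hω0
        have h3 : ω * (2 * r / k) = 2 * Real.pi := by
          rw [hω]; field_simp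
        linarith
      obtain ⟨⟨v, hv, hv1⟩, ⟨v', hv', hv1'⟩⟩ := sin_values hω0 h1
      have hsub : uIcc s t ⊆ Icc a b := uIcc_subset_Icc hs ht
      have hivt := intermediate_value_uIcc (a := s) (b := t) hγc.continuousOn
      have hIu : Icc (γ s) (γ t) ⊆ uIcc (γ s) (γ t) := Icc_subset_uIcc
      obtain ⟨x, hx, hxv⟩ := hivt (hIu hv)
      obtain ⟨x', hx', hxv'⟩ := hivt (hIu hv')
      have hd : |x - x'| < δ := by
        refine lt_of_le_of_lt ?_ hst
        have := Real.dist_le_of_mem_uIcc hx hx'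
        rwa [Real.dist_eq, Real.dist_eq] at this
      have h4 := hHosc x (hsub hx) x' (hsub hx') hd
      have h5 : H (p x) = η := by
        rw [hH]
        have : min (dist (p x) c) r = v := by rw [← hxv, hγ]
        rw [this, hv1, mul_one]
      have h6 : H (p x') = -η := by
        rw [hH]
        have : min (dist (p x') c) r = v' := by rw [← hxv', hγ]
        rw [this, hv1']; ring
      rw [h5, h6, sub_neg_eq_add, abs_of_pos (by linarith)] at h4
      linarith
    intro s hs t ht hst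
    rw [abs_le]
    have h1 := key s hs t ht hst
    have h2 := key t ht s hs (by rwa [abs_sub_comm])
    constructor <;> linarith
  have h1 := chain hn0 hnδ hosc tβ htβ tα htα
  have h2 : β ≤ γ tβ := by rw [hγ]; exact le_min hβ' hβr.le
  have h3 : γ tα ≤ α := by rw [hγ]; exact (min_le_left _ _).trans hα'
  have h4 := le_abs_self (γ tβ - γ tα)
  linarith


/-- a curve is locally constant where it is off the closed set and differs from the other curve -/
lemma loc_const {K : Set C(ℝ, Y)} {c : ℕ → Y} (hc : DenseRange c) {Z : Set Y} (hZ : IsClosed Z)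
    {f : BoundedContinuousFunction Y ℝ}
    (hf : ∀ (i : ℕ) (a b α β r : ℚ), (0 : ℝ) < α → (α : ℝ) < β → (β : ℝ) < r →
      (∀ y ∈ Z, (r : ℝ) ≤ dist y (c i)) →
      ∀ x ∈ Bx K (c i) a b α β r, ∃ t ∈ Icc (a : ℝ) b, f (x.1 t) ≠ f (x.2 t))
    {p q : C(ℝ, Y)} (hp : p ∈ K) (hq : q ∈ K) (h : ∀ t, f (p t) = f (q t)) {t₁ : ℝ}
    (hne : p t₁ ≠ q t₁) (hpZ : p t₁ ∉ Z) : ∃ ε > 0, ∀ s, |s - t₁| < ε → p s = p t₁ := by
  by_contra hloc
  push Not at hloc
  obtain ⟨d, hd, hdZ⟩ := Metric.isOpen_iff.1 hZ.isOpen_compl (p t₁) hpZ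
  have hdZ' : ∀ y ∈ Z, d ≤ dist y (p t₁) := by
    intro y hy
    by_contra hlt
    push Not at hlt
    exact hdZ (Metric.mem_ball.2 hlt) hy
  obtain ⟨η, hη⟩ : ∃ η : ℝ, η = min (dist (p t₁) (q t₁)) d := ⟨_, rfl⟩
  have hη0 : 0 < η := by rw [hη]; exact lt_min (dist_pos.2 hne) hd
  have hη1 : η ≤ dist (p t₁) (q t₁) := by rw [hη]; exact min_le_left _ _
  have hη2 : η ≤ d := by rw [hη]; exact min_le_right _ _
  obtain ⟨δ₁, hδ₁, h₁⟩ := Metric.continuousAt_iff.1 ((map_continuous p).continuousAt (x := t₁)) (η / 8)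
    (by positivity)
  obtain ⟨δ₂, hδ₂, h₂⟩ := Metric.continuousAt_iff.1 ((map_continuous q).continuousAt (x := t₁)) (η / 8)
    (by positivity)
  obtain ⟨δ, hδ⟩ : ∃ δ : ℝ, δ = min δ₁ δ₂ := ⟨_, rfl⟩
  have hδ0 : 0 < δ := by rw [hδ]; exact lt_min hδ₁ hδ₂
  have hδl : δ ≤ δ₁ := by rw [hδ]; exact min_le_left _ _
  have hδr : δ ≤ δ₂ := by rw [hδ]; exact min_le_right _ _
  obtain ⟨a, ha1, ha2⟩ := exists_rat_btwn (show t₁ - δ < t₁ by linarith)
  obtain ⟨b, hb1, hb2⟩ := exists_rat_btwn (show t₁ < t₁ + δ by linarith)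
  obtain ⟨t₂, ht₂, hne₂⟩ := hloc (min (t₁ - a) (b - t₁)) (lt_min (by linarith) (by linarith))
  have ht₂' := abs_lt.1 ht₂
  have ht₂a : (a : ℝ) < t₂ := by linarith [min_le_left (t₁ - (a : ℝ)) (b - t₁)]
  have ht₂b : t₂ < (b : ℝ) := by linarith [min_le_right (t₁ - (a : ℝ)) (b - t₁)]
  obtain ⟨ρ, hρ⟩ : ∃ ρ : ℝ, ρ = dist (p t₂) (p t₁) := ⟨_, rfl⟩
  have hρ0 : 0 < ρ := by rw [hρ]; exact dist_pos.2 hne₂
  have hw : ∀ t ∈ Icc (a : ℝ) b, dist t t₁ < δ := by
    intro t ht
    rw [Real.dist_eq, abs_lt]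
    constructor <;> linarith [ht.1, ht.2]
  have hρη : ρ < η / 8 := by
    rw [hρ]
    exact h₁ ((hw t₂ ⟨ht₂a.le, ht₂b.le⟩).trans_le hδl)
  obtain ⟨α, hα1, hα2⟩ := exists_rat_btwn (show ρ / 4 < ρ / 2 by linarith)
  obtain ⟨β, hβ1, hβ2⟩ := exists_rat_btwn (show ρ / 2 < 3 * ρ / 4 by linarith)
  obtain ⟨r, hr1, hr2⟩ := exists_rat_btwn (show 3 * ρ / 4 < η / 2 by linarith)
  obtain ⟨i, hi⟩ := hc.exists_dist_lt (p t₁) (show 0 < ρ / 4 by positivity)
  have hrZ : ∀ y ∈ Z, (r : ℝ) ≤ dist y (c i) := by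
    intro y hy
    have e1 := hdZ' y hy
    have e2 := dist_triangle y (c i) (p t₁)
    rw [dist_comm (c i) (p t₁)] at e2
    linarith
  suffices hmem : (p, q) ∈ Bx K (c i) a b α β r by
    obtain ⟨t, ht, h'⟩ := hf i a b α β r (by linarith) (by linarith) (by linarith) hrZ (p, q) hmem
    exact h' (h t)
  refine ⟨⟨hp, hq⟩, ?_, ⟨t₁, ⟨ha2.le, hb1.le⟩, ?_⟩, ⟨t₂, ⟨ht₂a.le, ht₂b.le⟩, ?_⟩⟩
  · intro t ht
    simp only
    have e1 := h₂ ((hw t ht).trans_le hδr)
    have e2 := dist_triangle4 (q t₁) (q t) (c i) (p t₁)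
    rw [dist_comm (q t₁) (p t₁), dist_comm (q t₁) (q t), dist_comm (c i) (p t₁)] at e2
    linarith
  · simp only
    linarith
  · simp only
    have e2 := dist_triangle (p t₂) (c i) (p t₁)
    rw [← hρ, dist_comm (c i) (p t₁)] at e2
    linarith

/-- a generic function with prescribed values on a closed set -/
lemma exists_generic [SecondCountableTopology Y] [Nonempty Y] {K : Set C(ℝ, Y)} (hK : IsCompact K)
    {Z : Set Y} (f₀ : BoundedContinuousFunction Y ℝ) :
    ∃ f : BoundedContinuousFunction Y ℝ, (∀ y ∈ Z, f y = f₀ y) ∧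
      ∀ (i : ℕ) (a b α β r : ℚ), (0 : ℝ) < α → (α : ℝ) < β → (β : ℝ) < r →
      (∀ y ∈ Z, (r : ℝ) ≤ dist y (TopologicalSpace.denseSeq Y i)) →
      ∀ x ∈ Bx K (TopologicalSpace.denseSeq Y i) a b α β r,
        ∃ t ∈ Icc (a : ℝ) b, f (x.1 t) ≠ f (x.2 t) := by
  set c : ℕ → Y := TopologicalSpace.denseSeq Y with hc
  set S : Set (BoundedContinuousFunction Y ℝ) := {f | ∀ y ∈ Z, f y = f₀ y} with hS
  have hSc : IsClosed S := by
    simp only [hS, Set.ofPred_forall]
    refine isClosed_iInter fun y => isClosed_iInter fun _ => ?_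
    exact isClosed_eq (cont_bcf.comp (by fun_prop :
      Continuous fun f : BoundedContinuousFunction Y ℝ => (f, y))) continuous_const
  have : CompleteSpace S := hSc.completeSpace_coe
  have : Nonempty S := ⟨⟨f₀, fun y _ => rfl⟩⟩
  set U : ℕ × ℚ × ℚ × ℚ × ℚ × ℚ → Set S := fun j =>
    {f | (0 : ℝ) < j.2.2.2.1 → (j.2.2.2.1 : ℝ) < j.2.2.2.2.1 → (j.2.2.2.2.1 : ℝ) < j.2.2.2.2.2 →
      (∀ y ∈ Z, (j.2.2.2.2.2 : ℝ) ≤ dist y (c j.1)) →
      ∀ x ∈ Bx K (c j.1) j.2.1 j.2.2.1 j.2.2.2.1 j.2.2.2.2.1 j.2.2.2.2.2,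
        ∃ t ∈ Icc (j.2.1 : ℝ) j.2.2.1,
          (f : BoundedContinuousFunction Y ℝ) (x.1 t) ≠
            (f : BoundedContinuousFunction Y ℝ) (x.2 t)} with hU
  have hUo : ∀ j, IsOpen (U j) ∧ Dense (U j) := by
    intro j
    by_cases hj : ((0 : ℝ) < j.2.2.2.1 ∧ (j.2.2.2.1 : ℝ) < j.2.2.2.2.1 ∧
        (j.2.2.2.2.1 : ℝ) < j.2.2.2.2.2) ∧ (∀ y ∈ Z, (j.2.2.2.2.2 : ℝ) ≤ dist y (c j.1))
    · have e : U j = Subtype.val ⁻¹' {f : BoundedContinuousFunction Y ℝ |
          ∀ x ∈ Bx K (c j.1) j.2.1 j.2.2.1 j.2.2.2.1 j.2.2.2.2.1 j.2.2.2.2.2,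
          ∃ t ∈ Icc (j.2.1 : ℝ) j.2.2.1, f (x.1 t) ≠ f (x.2 t)} := by
        ext f
        exact ⟨fun h => h hj.1.1 hj.1.2.1 hj.1.2.2 hj.2, fun h _ _ _ _ => h⟩
      rw [e]
      refine ⟨(good_open (Bx_compact hK _ _ _ _ _ _) _ _).preimage continuous_subtype_val, ?_⟩
      rw [Metric.dense_iff]
      rintro ⟨f, hf⟩ ε hε
      obtain ⟨H, hH1, hH2, hH3⟩ := good_pert hK (c j.1) (a := j.2.1) (b := j.2.2.1) hj.1.2.1
        hj.1.1 hj.1.2.2 f hε
      have hfS : f + H ∈ S := by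
        intro y hy
        have h1 := hf y hy
        have h2 := hH2 y (hj.2 y hy)
        rw [BoundedContinuousFunction.coe_add, Pi.add_apply, h2, add_zero, h1]
      refine ⟨⟨f + H, hfS⟩, ?_, hH3⟩
      rw [Metric.mem_ball, Subtype.dist_eq, dist_eq_norm]
      simpa using hH1
    · have e : U j = univ := by
        rw [eq_univ_iff_forall]
        intro f h1 h2 h3 h4
        exact (hj ⟨⟨h1, h2, h3⟩, h4⟩).elim
      rw [e]
      exact ⟨isOpen_univ, dense_univ⟩
  have hd := dense_iInter_of_isOpen (f := U) (fun j => (hUo j).1) (fun j => (hUo j).2)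
  obtain ⟨f, hf⟩ := hd.nonempty
  rw [mem_iInter] at hf
  exact ⟨f, f.2, fun i a b α β r => hf (i, a, b, α, β, r)⟩

/-- Finitely many bounded continuous functions which separate the points of a closed set
containing the values of the constant curves can be changed off this set, without increasing their
number, so that they separate all the curves. -/
theorem exists_observable_rel [SecondCountableTopology Y] {K : Set C(ℝ, Y)} (hK : IsCompact K)
    {Z : Set Y} (hZ : IsClosed Z) (hconst : ∀ y : Y, ContinuousMap.const ℝ y ∈ K → y ∈ Z)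
    {M : ℕ} (Φ : Fin (M + 1) → BoundedContinuousFunction Y ℝ)
    (hΦ : ∀ y ∈ Z, ∀ z ∈ Z, (∀ i, Φ i y = Φ i z) → y = z) :
    ∃ Ψ : Fin (M + 1) → BoundedContinuousFunction Y ℝ, (∀ i, ∀ y ∈ Z, Ψ i y = Φ i y) ∧
      ∀ p ∈ K, ∀ q ∈ K, (∀ i t, Ψ i (p t) = Ψ i (q t)) → p = q := by
  rcases isEmpty_or_nonempty Y with hY | hY
  · exact ⟨Φ, fun i y _ => rfl, fun p _ => (hY.false (p 0)).elim⟩
  obtain ⟨f, hf1, hf2⟩ := exists_generic hK (Z := Z) (Φ 0)
  have hcd : DenseRange (TopologicalSpace.denseSeq Y) := TopologicalSpace.denseRange_denseSeq Y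
  obtain ⟨Ψ, hΨ⟩ : ∃ Ψ : Fin (M + 1) → BoundedContinuousFunction Y ℝ,
    Ψ = Function.update Φ 0 f := ⟨_, rfl⟩
  have hΨ0 : Ψ 0 = f := by rw [hΨ, Function.update_self]
  have hΨZ : ∀ i, ∀ y ∈ Z, Ψ i y = Φ i y := by
    intro i y hy
    by_cases hi : i = 0
    · subst hi; rw [hΨ0]; exact hf1 y hy
    · rw [hΨ, Function.update_of_ne hi]
  refine ⟨Ψ, hΨZ, ?_⟩
  have main : ∀ p ∈ K, ∀ q ∈ K, (∀ i t, Ψ i (p t) = Ψ i (q t)) → ∀ t₀, p t₀ ≠ q t₀ →
      p t₀ ∉ Z → False := by
    intro p hp q hq h t₀ ht₀ hpZ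
    have h0 : ∀ t, f (p t) = f (q t) := fun t => by rw [← hΨ0]; exact h 0 t
    have hS : IsClopen {t : ℝ | p t = p t₀ ∧ q t = q t₀} := by
      constructor
      · exact (isClosed_eq (map_continuous p) continuous_const).inter
          (isClosed_eq (map_continuous q) continuous_const)
      · rw [Metric.isOpen_iff]
        rintro t ⟨h1, h2⟩
        have hne : p t ≠ q t := by rw [h1, h2]; exact ht₀
        obtain ⟨ε₁, hε₁, k₁⟩ := loc_const hcd hZ hf2 hp hq h0 hne (by rw [h1]; exact hpZ)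
        have hq' : ∃ ε₂ > 0, ∀ s, |s - t| < ε₂ → q s = q t := by
          by_cases hqZ : q t ∈ Z
          · have hopen : ∀ᶠ s in 𝓝 t, q s ≠ p t :=
              (map_continuous q).continuousAt.eventually_ne hne.symm
            obtain ⟨ε₃, hε₃, k₃⟩ := Metric.eventually_nhds_iff.1 hopen
            refine ⟨min ε₁ ε₃, lt_min hε₁ hε₃, fun s hs => ?_⟩
            have hI : ∀ s, |s - t| < min ε₁ ε₃ → p s = p t ∧ q s ≠ p s := by
              intro s hs
              have e1 := k₁ s (hs.trans_le (min_le_left _ _))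
              refine ⟨e1, ?_⟩
              rw [e1]
              exact k₃ (by rw [Real.dist_eq]; exact hs.trans_le (min_le_right _ _))
            by_contra hne'
            have hsZ : q s ∉ Z := by
              intro hsZ
              refine hne' (hΦ _ hsZ _ hqZ fun i => ?_)
              rw [← hΨZ i _ hsZ, ← hΨZ i _ hqZ, ← h i s, ← h i t, (hI s hs).1]
            have hsub : Metric.ball t (min ε₁ ε₃) ⊆
                {s' | s' ∈ Metric.ball t (min ε₁ ε₃) ∧ q s' = q s} := by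
              refine IsPreconnected.subset_left_of_subset_union (v :=
                {s' | s' ∈ Metric.ball t (min ε₁ ε₃) ∧ q s' ≠ q s}) ?_ ?_ ?_ ?_ ?_ ?_
              · rw [Metric.isOpen_iff]
                rintro s' ⟨hs'1, hs'2⟩
                have hb := Metric.mem_ball.1 hs'1
                rw [Real.dist_eq] at hb
                obtain ⟨ε₄, hε₄, k₄⟩ := loc_const hcd hZ hf2 hq hp (fun t => (h0 t).symm)
                  (hI s' hb).2 (by rw [hs'2]; exact hsZ)
                obtain ⟨ε₅, hε₅, k₅⟩ := Metric.isOpen_iff.1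
                  (Metric.isOpen_ball (x := t) (ε := min ε₁ ε₃)) s' hs'1
                refine ⟨min ε₄ ε₅, lt_min hε₄ hε₅, fun x hx => ?_⟩
                have hx' := Metric.mem_ball.1 hx
                refine ⟨k₅ (Metric.mem_ball.2 (hx'.trans_le (min_le_right _ _))), ?_⟩
                rw [k₄ x (by rw [Real.dist_eq] at hx'; exact hx'.trans_le (min_le_left _ _)),
                  hs'2]
              · exact Metric.isOpen_ball.inter
                  ((isClosed_eq (map_continuous q) continuous_const).isOpen_compl)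
              · rw [Set.disjoint_left]
                rintro x ⟨-, hx⟩ ⟨-, hx'⟩
                exact hx' hx
              · intro x hx
                by_cases e : q x = q s
                · exact Or.inl ⟨hx, e⟩
                · exact Or.inr ⟨hx, e⟩
              · exact ⟨s, by rw [Metric.mem_ball, Real.dist_eq]; exact hs,
                  by rw [Metric.mem_ball, Real.dist_eq]; exact hs, rfl⟩
              · rw [Real.ball_eq_Ioo]; exact isPreconnected_Ioo
            have := (hsub (Metric.mem_ball_self (lt_min hε₁ hε₃))).2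
            exact hne' this.symm
          · exact loc_const hcd hZ hf2 hq hp (fun t => (h0 t).symm) hne.symm hqZ
        obtain ⟨ε₂, hε₂, k₂⟩ := hq'
        refine ⟨min ε₁ ε₂, lt_min hε₁ hε₂, fun s hs => ?_⟩
        rw [Metric.mem_ball, Real.dist_eq] at hs
        exact ⟨(k₁ s (hs.trans_le (min_le_left _ _))).trans h1,
          (k₂ s (hs.trans_le (min_le_right _ _))).trans h2⟩
    have hSu := hS.eq_univ ⟨t₀, rfl, rfl⟩
    have hpc : p = ContinuousMap.const ℝ (p t₀) := by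
      ext t
      have : t ∈ {t : ℝ | p t = p t₀ ∧ q t = q t₀} := by rw [hSu]; trivial
      exact this.1
    exact hpZ (hconst _ (hpc ▸ hp))
  intro p hp q hq h
  by_contra hpq
  have hex : ∃ t₀, p t₀ ≠ q t₀ := by
    by_contra hcon
    push Not at hcon
    exact hpq (ContinuousMap.ext hcon)
  obtain ⟨t₀, ht₀⟩ := hex
  by_cases hpZ : p t₀ ∈ Z
  · by_cases hqZ : q t₀ ∈ Z
    · refine ht₀ (hΦ _ hpZ _ hqZ fun i => ?_)
      rw [← hΨZ i _ hpZ, ← hΨZ i _ hqZ, h i t₀]
    · exact main q hq p hp (fun i t => (h i t).symm) t₀ ht₀.symm hqZ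
  · exact main p hp q hq h t₀ ht₀ hpZ

end Run7.h105
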