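import Pool.Agent.Run7.h105.Cells
import Pool.Agent.H754R3.PR.Par

/-!
# Finitely many averages separate the steady states
-/

set_option autoImplicit false

namespace Run7.h105

open Set Filter Topology MeasureTheory Pool.Agent.H754R3.PR

/-- the energy identity for the difference of two steady states, as an inequality -/
lemma steady_energy {Ω : Set P2} (hΩ : IsOpen Ω) (hb : Bornology.IsBounded Ω) {ν B : ℝ}
    (hν : 0 < ν) {w1 w2 V1 V2 U1 U2 π : P2 → ℝ} (hw1 : ContDiff ℝ 2 w1)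
    (hw2 : ContDiff ℝ 2 w2) (hV1 : ContDiff ℝ 1 V1) (hV2 : ContDiff ℝ 1 V2)
    (hU1 : ContDiff ℝ 1 U1) (hU2 : ContDiff ℝ 1 U2) (hπ : ContDiff ℝ 1 π)
    (e1 : ∀ x ∈ Ω, U1 x * d1 w1 x + U2 x * d2 w1 x + w1 x * d1 V1 x + w2 x * d2 V1 x + d1 π x
      = ν * (d1 (d1 w1) x + d2 (d2 w1) x))
    (e2 : ∀ x ∈ Ω, U1 x * d1 w2 x + U2 x * d2 w2 x + w1 x * d1 V2 x + w2 x * d2 V2 x + d2 π x
      = ν * (d1 (d1 w2) x + d2 (d2 w2) x))
    (hdw : ∀ x ∈ Ω, d1 w1 x + d2 w2 x = 0) (hdU : ∀ x ∈ Ω, d1 U1 x + d2 U2 x = 0)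
    (hw0 : ∀ x ∈ frontier Ω, w1 x = 0 ∧ w2 x = 0)
    (hVB : ∀ x ∈ Ω, |V1 x| ≤ B ∧ |V2 x| ≤ B) :
    (∫ x in Ω, (d1 w1 x ^ 2 + d2 w1 x ^ 2)) + ∫ x in Ω, (d1 w2 x ^ 2 + d2 w2 x ^ 2) ≤
      4 * (B / ν) ^ 2 * ((∫ x in Ω, w1 x ^ 2) + ∫ x in Ω, w2 x ^ 2) := by
  have D : ∀ {f : P2 → ℝ}, ContDiff ℝ 1 f → Differentiable ℝ f := fun h =>
    h.differentiable (by norm_num)
  have w1' : ContDiff ℝ 1 w1 := hw1.of_le (by norm_num)
  have w2' : ContDiff ℝ 1 w2 := hw2.of_le (by norm_num)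
  have a11 : ContDiff ℝ 1 (d1 w1) := d1_contDiff (m := 1) (n := 2) hw1 (by norm_num)
  have a21 : ContDiff ℝ 1 (d2 w1) := d2_contDiff (m := 1) (n := 2) hw1 (by norm_num)
  have a12 : ContDiff ℝ 1 (d1 w2) := d1_contDiff (m := 1) (n := 2) hw2 (by norm_num)
  have a22 : ContDiff ℝ 1 (d2 w2) := d2_contDiff (m := 1) (n := 2) hw2 (by norm_num)
  -- the two components of the flux
  obtain ⟨P, hP⟩ : ∃ P : P2 → ℝ, P = fun x => ((w1 x * w1 x + w2 x * w2 x) * ((1 / 2) * U1 x) +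
    (w1 x * V1 x + w2 x * V2 x) * w1 x + π x * w1 x) -
    ν * (w1 x * d1 w1 x + w2 x * d1 w2 x) := ⟨_, rfl⟩
  obtain ⟨Q, hQ⟩ : ∃ Q : P2 → ℝ, Q = fun x => ((w1 x * w1 x + w2 x * w2 x) * ((1 / 2) * U2 x) +
    (w1 x * V1 x + w2 x * V2 x) * w2 x + π x * w2 x) -
    ν * (w1 x * d2 w1 x + w2 x * d2 w2 x) := ⟨_, rfl⟩
  have sq : ContDiff ℝ 1 (fun x => w1 x * w1 x + w2 x * w2 x) := (w1'.mul w1').add (w2'.mul w2')
  have wv : ContDiff ℝ 1 (fun x => w1 x * V1 x + w2 x * V2 x) := (w1'.mul hV1).add (w2'.mul hV2)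
  have hPc : ContDiff ℝ 1 P := by
    rw [hP]
    exact (((sq.mul (contDiff_const.mul hU1)).add (wv.mul w1')).add (hπ.mul w1')).sub
      (contDiff_const.mul ((w1'.mul a11).add (w2'.mul a12)))
  have hQc : ContDiff ℝ 1 Q := by
    rw [hQ]
    exact (((sq.mul (contDiff_const.mul hU2)).add (wv.mul w2')).add (hπ.mul w2')).sub
      (contDiff_const.mul ((w1'.mul a21).add (w2'.mul a22)))
  have hP0 : ∀ x ∈ frontier Ω, P x = 0 := fun x hx => by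
    rw [hP]; simp [(hw0 x hx).1, (hw0 x hx).2]
  have hQ0 : ∀ x ∈ frontier Ω, Q x = 0 := fun x hx => by
    rw [hQ]; simp [(hw0 x hx).1, (hw0 x hx).2]
  have g1 := gauss_d1 hΩ hb hPc hP0
  have g2 := gauss_d2 hΩ hb hQc hQ0
  have dP : ∀ x, d1 P x = ((w1 x * w1 x + w2 x * w2 x) * ((1 / 2) * d1 U1 x) +
      (w1 x * d1 w1 x + d1 w1 x * w1 x + (w2 x * d1 w2 x + d1 w2 x * w2 x)) * ((1 / 2) * U1 x) +
      ((w1 x * V1 x + w2 x * V2 x) * d1 w1 x +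
        (w1 x * d1 V1 x + d1 w1 x * V1 x + (w2 x * d1 V2 x + d1 w2 x * V2 x)) * w1 x) +
      (π x * d1 w1 x + d1 π x * w1 x)) -
      ν * ((w1 x * d1 (d1 w1) x + d1 w1 x * d1 w1 x) +
        (w2 x * d1 (d1 w2) x + d1 w2 x * d1 w2 x)) := by
    intro x
    rw [hP]
    rw [d1_sub (D (((sq.mul (contDiff_const.mul hU1)).add (wv.mul w1')).add (hπ.mul w1')))
      (D (contDiff_const.mul ((w1'.mul a11).add (w2'.mul a12)))),
      d1_add (D ((sq.mul (contDiff_const.mul hU1)).add (wv.mul w1'))) (D (hπ.mul w1')),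
      d1_add (D (sq.mul (contDiff_const.mul hU1))) (D (wv.mul w1')),
      d1_mul (D sq) (D (contDiff_const.mul hU1)), d1_mul (D wv) (D w1'), d1_mul (D hπ) (D w1'),
      d1_cmul (D hU1), d1_cmul (D ((w1'.mul a11).add (w2'.mul a12))),
      d1_add (D (w1'.mul w1')) (D (w2'.mul w2')), d1_mul (D w1') (D w1'), d1_mul (D w2') (D w2'),
      d1_add (D (w1'.mul hV1)) (D (w2'.mul hV2)), d1_mul (D w1') (D hV1), d1_mul (D w2') (D hV2),
      d1_add (D (w1'.mul a11)) (D (w2'.mul a12)), d1_mul (D w1') (D a11), d1_mul (D w2') (D a12)]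
  have dQ : ∀ x, d2 Q x = ((w1 x * w1 x + w2 x * w2 x) * ((1 / 2) * d2 U2 x) +
      (w1 x * d2 w1 x + d2 w1 x * w1 x + (w2 x * d2 w2 x + d2 w2 x * w2 x)) * ((1 / 2) * U2 x) +
      ((w1 x * V1 x + w2 x * V2 x) * d2 w2 x +
        (w1 x * d2 V1 x + d2 w1 x * V1 x + (w2 x * d2 V2 x + d2 w2 x * V2 x)) * w2 x) +
      (π x * d2 w2 x + d2 π x * w2 x)) -
      ν * ((w1 x * d2 (d2 w1) x + d2 w1 x * d2 w1 x) +
        (w2 x * d2 (d2 w2) x + d2 w2 x * d2 w2 x)) := by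
    intro x
    rw [hQ]
    rw [d2_sub (D (((sq.mul (contDiff_const.mul hU2)).add (wv.mul w2')).add (hπ.mul w2')))
      (D (contDiff_const.mul ((w1'.mul a21).add (w2'.mul a22)))),
      d2_add (D ((sq.mul (contDiff_const.mul hU2)).add (wv.mul w2'))) (D (hπ.mul w2')),
      d2_add (D (sq.mul (contDiff_const.mul hU2))) (D (wv.mul w2')),
      d2_mul (D sq) (D (contDiff_const.mul hU2)), d2_mul (D wv) (D w2'), d2_mul (D hπ) (D w2'),
      d2_cmul (D hU2), d2_cmul (D ((w1'.mul a21).add (w2'.mul a22))),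
      d2_add (D (w1'.mul w1')) (D (w2'.mul w2')), d2_mul (D w1') (D w1'), d2_mul (D w2') (D w2'),
      d2_add (D (w1'.mul hV1)) (D (w2'.mul hV2)), d2_mul (D w1') (D hV1), d2_mul (D w2') (D hV2),
      d2_add (D (w1'.mul a21)) (D (w2'.mul a22)), d2_mul (D w1') (D a21), d2_mul (D w2') (D a22)]
  -- pointwise identity
  have hpt : ∀ x ∈ Ω, d1 P x + d2 Q x =
      (V1 x * (w1 x * d1 w1 x + w2 x * d2 w1 x) + V2 x * (w1 x * d1 w2 x + w2 x * d2 w2 x)) -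
      ν * ((d1 w1 x ^ 2 + d2 w1 x ^ 2) + (d1 w2 x ^ 2 + d2 w2 x ^ 2)) := by
    intro x hx
    rw [dP, dQ]
    have E1 := e1 x hx
    have E2 := e2 x hx
    have E3 := hdw x hx
    have E4 := hdU x hx
    linear_combination w1 x * E1 + w2 x * E2 + (1 / 2 * (w1 x * w1 x + w2 x * w2 x)) * E4 +
      (w1 x * V1 x + w2 x * V2 x + π x) * E3
  -- pointwise inequality
  have hle : ∀ x ∈ Ω, (d1 w1 x ^ 2 + d2 w1 x ^ 2) + (d1 w2 x ^ 2 + d2 w2 x ^ 2) ≤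
      4 * (B / ν) ^ 2 * (w1 x ^ 2 + w2 x ^ 2) - (2 / ν) * (d1 P x + d2 Q x) := by
    intro x hx
    obtain ⟨b1, b2⟩ := hVB x hx
    rw [hpt x hx]
    have key : ∀ v w d : ℝ, |v| ≤ B → v * (w * d) ≤ B ^ 2 / ν * w ^ 2 + ν / 4 * d ^ 2 := by
      intro v w d hv
      have h1 : v ^ 2 ≤ B ^ 2 := by
        rw [← sq_abs v]; exact pow_le_pow_left₀ (abs_nonneg _) hv 2
      have h2 : v * (w * d) ≤ v ^ 2 / ν * w ^ 2 + ν / 4 * d ^ 2 := by
        have h3 : 0 ≤ (v * w - ν / 2 * d) ^ 2 / ν := by positivity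
        have h4 : (v * w - ν / 2 * d) ^ 2 / ν = v ^ 2 / ν * w ^ 2 - v * (w * d) + ν / 4 * d ^ 2 := by
          field_simp; ring
        linarith
      have h5 : v ^ 2 / ν * w ^ 2 ≤ B ^ 2 / ν * w ^ 2 :=
        mul_le_mul_of_nonneg_right (div_le_div_of_nonneg_right h1 hν.le) (sq_nonneg _)
      linarith
    have k1 := key (V1 x) (w1 x) (d1 w1 x) b1
    have k2 := key (V1 x) (w2 x) (d2 w1 x) b1
    have k3 := key (V2 x) (w1 x) (d1 w2 x) b2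
    have k4 := key (V2 x) (w2 x) (d2 w2 x) b2
    obtain ⟨S, hS⟩ : ∃ S : ℝ, S = (d1 w1 x ^ 2 + d2 w1 x ^ 2) + (d1 w2 x ^ 2 + d2 w2 x ^ 2) :=
      ⟨_, rfl⟩
    obtain ⟨T, hT⟩ : ∃ T : ℝ, T = V1 x * (w1 x * d1 w1 x + w2 x * d2 w1 x) +
      V2 x * (w1 x * d1 w2 x + w2 x * d2 w2 x) := ⟨_, rfl⟩
    have hTS : T ≤ 2 * (B ^ 2 / ν) * (w1 x ^ 2 + w2 x ^ 2) + ν / 4 * S := by
      rw [hT, hS]; nlinarith
    rw [← hS, ← hT]
    have h6 : 2 / ν * (T - ν * S) = 2 / ν * T - 2 * S := by field_simp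
    have h7 : 2 / ν * T ≤ 2 / ν * (2 * (B ^ 2 / ν) * (w1 x ^ 2 + w2 x ^ 2) + ν / 4 * S) :=
      mul_le_mul_of_nonneg_left hTS (by positivity)
    have h8 : 2 / ν * (2 * (B ^ 2 / ν) * (w1 x ^ 2 + w2 x ^ 2) + ν / 4 * S) =
        4 * (B / ν) ^ 2 * (w1 x ^ 2 + w2 x ^ 2) + S / 2 := by field_simp; ring
    have hS0 : 0 ≤ S := by rw [hS]; positivity
    linarith
  have I : ∀ {k : P2 → ℝ}, Continuous k → IntegrableOn k Ω := fun hk =>
    (hk.continuousOn.integrableOn_compact hb.isCompact_closure).mono_set subset_closure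
  have cP : Continuous (d1 P) :=
    (hPc.continuous_fderiv (by norm_num)).clm_apply continuous_const
  have cQ : Continuous (d2 Q) :=
    (hQc.continuous_fderiv (by norm_num)).clm_apply continuous_const
  have m := setIntegral_mono_on (μ := volume)
    (I (((a11.continuous.pow 2).add (a21.continuous.pow 2)).add
      ((a12.continuous.pow 2).add (a22.continuous.pow 2))))
    (I ((continuous_const.mul ((w1'.continuous.pow 2).add (w2'.continuous.pow 2))).sub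
      (continuous_const.mul (cP.add cQ)))) hΩ.measurableSet hle
  have r1 : ∫ x in Ω, ((d1 w1 x ^ 2 + d2 w1 x ^ 2) + (d1 w2 x ^ 2 + d2 w2 x ^ 2)) =
      (∫ x in Ω, (d1 w1 x ^ 2 + d2 w1 x ^ 2)) + ∫ x in Ω, (d1 w2 x ^ 2 + d2 w2 x ^ 2) :=
    integral_add (I ((a11.continuous.pow 2).add (a21.continuous.pow 2)))
      (I ((a12.continuous.pow 2).add (a22.continuous.pow 2)))
  have r2 : ∫ x in Ω, (4 * (B / ν) ^ 2 * (w1 x ^ 2 + w2 x ^ 2) - (2 / ν) * (d1 P x + d2 Q x)) =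
      4 * (B / ν) ^ 2 * ((∫ x in Ω, w1 x ^ 2) + ∫ x in Ω, w2 x ^ 2) := by
    rw [integral_sub
      (by exact I (continuous_const.mul ((w1'.continuous.pow 2).add (w2'.continuous.pow 2))))
      (by exact I (continuous_const.mul (cP.add cQ))), integral_const_mul, integral_const_mul,
      integral_add (by exact I (w1'.continuous.pow 2)) (by exact I (w2'.continuous.pow 2)),
      integral_add (by exact I cP) (by exact I cQ), g1, g2]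
    ring
  rw [← r1, ← r2]
  exact m

/-- the averages over finitely many cells separate bounded steady states -/
theorem steady_modes {Ω : Set P2} (hΩ : IsOpen Ω) (hb : Bornology.IsBounded Ω) {ν : ℝ} (B : ℝ)
    (hν : 0 < ν) :
    ∃ (S : Finset (ℤ × ℤ)) (h : ℝ), ∀ {w1 w2 V1 V2 U1 U2 π : P2 → ℝ}, ContDiff ℝ 2 w1 →
    ContDiff ℝ 2 w2 → ContDiff ℝ 1 V1 → ContDiff ℝ 1 V2 →
    ContDiff ℝ 1 U1 → ContDiff ℝ 1 U2 → ContDiff ℝ 1 π →
    (∀ x ∈ Ω, U1 x * d1 w1 x + U2 x * d2 w1 x + w1 x * d1 V1 x + w2 x * d2 V1 x + d1 π x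
      = ν * (d1 (d1 w1) x + d2 (d2 w1) x)) →
    (∀ x ∈ Ω, U1 x * d1 w2 x + U2 x * d2 w2 x + w1 x * d1 V2 x + w2 x * d2 V2 x + d2 π x
      = ν * (d1 (d1 w2) x + d2 (d2 w2) x)) →
    (∀ x ∈ Ω, d1 w1 x + d2 w2 x = 0) → (∀ x ∈ Ω, d1 U1 x + d2 U2 x = 0) →
    (∀ x ∈ frontier Ω, w1 x = 0 ∧ w2 x = 0) →
    (∀ x ∈ Ω, |V1 x| ≤ B ∧ |V2 x| ≤ B) →
    (∀ j ∈ S, ∫ x in Ω ∩ cl h j, w1 x = 0) → (∀ j ∈ S, ∫ x in Ω ∩ cl h j, w2 x = 0) →
    ∀ x ∈ Ω, w1 x = 0 ∧ w2 x = 0 := by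
  obtain ⟨S, h, hS⟩ := modes hΩ hb (Λ := 4 * (B / ν) ^ 2 + 1) (by positivity)
  refine ⟨S, h, ?_⟩
  intro w1 w2 V1 V2 U1 U2 π hw1 hw2 hV1 hV2 hU1 hU2 hπ e1 e2 hdw hdU hw0 hVB m1 m2
  have E := steady_energy hΩ hb hν hw1 hw2 hV1 hV2 hU1 hU2 hπ e1 e2 hdw hdU hw0 hVB
  have M1 := hS w1 (hw1.of_le (by norm_num)) (fun x hx => (hw0 x hx).1) m1
  have M2 := hS w2 (hw2.of_le (by norm_num)) (fun x hx => (hw0 x hx).2) m2
  have I : ∀ {k : P2 → ℝ}, Continuous k → IntegrableOn k Ω := fun hk =>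
    (hk.continuousOn.integrableOn_compact hb.isCompact_closure).mono_set subset_closure
  have c1 := hw1.continuous
  have c2 := hw2.continuous
  have z := zero_of_int hΩ hb (H := fun x => w1 x ^ 2 + w2 x ^ 2) ((c1.pow 2).add (c2.pow 2))
    (fun x => by positivity) (by
      rw [integral_add (by exact I (c1.pow 2)) (by exact I (c2.pow 2))]
      obtain ⟨A, hA⟩ : ∃ A : ℝ, A = ∫ x in Ω, w1 x ^ 2 := ⟨_, rfl⟩
      obtain ⟨C, hC⟩ : ∃ C : ℝ, C = ∫ x in Ω, w2 x ^ 2 := ⟨_, rfl⟩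
      rw [← hA, ← hC] at E ⊢
      rw [← hA] at M1
      rw [← hC] at M2
      nlinarith)
  intro x hx
  have := z x hx
  have s1 := sq_nonneg (w1 x)
  have s2 := sq_nonneg (w2 x)
  exact ⟨pow_eq_zero_iff two_ne_zero |>.1 (by linarith), pow_eq_zero_iff two_ne_zero |>.1 (by linarith)⟩

end Run7.h105
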