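import Pool.Agent.Run7.h105.Fun
import Pool.Agent.Run7.h105.ObsRel
import Pool.Agent.Run7.h105.SteadyModes

/-!
# The number of pressure functionals needed to determine the velocity
-/

set_option autoImplicit false

namespace Run7.h105

open Set Filter Topology MeasureTheory Pool.Agent.H754R3.PR

/-- `R` admits a continuous injection into `ℝ^M` -/
def Embeds {X : Type*} [TopologicalSpace X] (R : Set X) (M : ℕ) : Prop :=
  ∃ e : X → (Fin M → ℝ), ContinuousOn e R ∧ InjOn e R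

/-- curves in `L²(Ω)³`: velocity components and pressure -/
abbrev Crv (Ω : Set P2) : Type := C(ℝ, L2 Ω × L2 Ω × L2 Ω)

/-- the curve `c` consists of the classes of the velocity and of the pressure of `a` -/
def RepC (Ω : Set P2) (c : Crv Ω) (a : Fld) : Prop :=
  ∀ t, (((c t).1 : P2 → ℝ) =ᵐ[volume.restrict Ω] fun x => a.1 (t, x)) ∧
    (((c t).2.1 : P2 → ℝ) =ᵐ[volume.restrict Ω] fun x => a.2.1 (t, x)) ∧
    (((c t).2.2 : P2 → ℝ) =ᵐ[volume.restrict Ω] fun x => a.2.2 (t, x))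

/-- the curves of a family -/
def curves (Ω : Set P2) (A : Set Fld) : Set (Crv Ω) := {c | ∃ a ∈ A, RepC Ω c a}

/-- a translation invariant family of complete classical trajectories, with uniformly bounded
velocities and pressures of mean zero, `C¹` up to the frontier, whose curves form a compact set -/
structure IsFamilyN (Ω : Set P2) (ν : ℝ) (g1 g2 : P2 → ℝ) (A : Set Fld) : Prop where
  traj : ∀ a ∈ A, IsTrajS Ω ν g1 g2 a.1 a.2.1 a.2.2
  press : ∀ a ∈ A, ∀ t, ContDiff ℝ 1 (sl a.2.2 t)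
  bound : ∃ B : ℝ, ∀ a ∈ A, ∀ t, ∀ x ∈ Ω, |a.1 (t, x)| ≤ B ∧ |a.2.1 (t, x)| ≤ B
  mean : ∀ a ∈ A, ∀ t, ∫ x in Ω, a.2.2 (t, x) = 0
  shift : ∀ a ∈ A, ∀ s, (sh s a.1, sh s a.2.1, sh s a.2.2) ∈ A
  compact : IsCompact (curves Ω A)

/-- `(U1, U2)` with pressure `Q`, curves in `L²(Ω)`, is attracted by the family `A` -/
def AttrN (Ω : Set P2) (A : Set Fld) (U1 U2 Q : ℝ → L2 Ω) : Prop :=
  ∀ τ : ℕ → ℝ, Tendsto τ atTop atTop → ∃ φ : ℕ → ℕ, StrictMono φ ∧ ∃ c ∈ curves Ω A,
    (∀ s, Tendsto (fun n => Q (τ (φ n) + s)) atTop (𝓝 (c s).2.2)) ∧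
    Tendsto (fun n => U1 (τ (φ n))) atTop (𝓝 (c 0).1) ∧
    Tendsto (fun n => U2 (τ (φ n))) atTop (𝓝 (c 0).2.1)

/-- the velocities of the stationary members of the family -/
def steadyVel (Ω : Set P2) (A : Set Fld) : Set (L2 Ω × L2 Ω) :=
  {V | ∃ c ∈ curves Ω A, (∀ t, c t = c 0) ∧ V = ((c 0).1, (c 0).2.1)}

/-- the functionals `Φ` of the pressure separate the members of `A` -/
def Separates {N : ℕ} (Ω : Set P2) (A : Set Fld) (Φ : Fin N → L2 Ω → ℝ) : Prop :=
  ∀ a ∈ A, ∀ b ∈ A, ∀ c d : Crv Ω, RepC Ω c a → RepC Ω d b →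
    (∀ i t, Φ i (c t).2.2 = Φ i (d t).2.2) →
    ∀ t, ∀ x ∈ Ω, a.1 (t, x) = b.1 (t, x) ∧ a.2.1 (t, x) = b.2.1 (t, x)

/-- the functionals `Φ` of the pressure are asymptotically determining for everything that is
attracted by `A` -/
def Determines {N : ℕ} (Ω : Set P2) (A : Set Fld) (Φ : Fin N → L2 Ω → ℝ) : Prop :=
  ∀ U1 U2 Q V1 V2 R : ℝ → L2 Ω, AttrN Ω A U1 U2 Q → AttrN Ω A V1 V2 R →
    (∀ i, Tendsto (fun t => Φ i (Q t) - Φ i (R t)) atTop (𝓝 0)) →
    Tendsto (fun t => ‖U1 t - V1 t‖) atTop (𝓝 0) ∧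
    Tendsto (fun t => ‖U2 t - V2 t‖) atTop (𝓝 0)

lemma d1_dif' {F G : P2 → ℝ} (hF : Differentiable ℝ F) (hG : Differentiable ℝ G) :
    d1 (fun x => F x - G x) = fun x => d1 F x - d1 G x := funext fun x => d1_sub hF hG x

lemma d2_dif' {F G : P2 → ℝ} (hF : Differentiable ℝ F) (hG : Differentiable ℝ G) :
    d2 (fun x => F x - G x) = fun x => d2 F x - d2 G x := funext fun x => d2_sub hF hG x

section

variable {Ω : Set P2} {ν : ℝ} {g1 g2 : P2 → ℝ} {A : Set Fld}

/-- a member with a constant curve satisfies the stationary equations -/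
lemma steady_eq (hΩ : IsOpen Ω) (hA : IsFamilyN Ω ν g1 g2 A) {a : Fld} (ha : a ∈ A) {c : Crv Ω}
    (hc : RepC Ω c a) (hst : ∀ t, c t = c 0) :
    (∀ t, ∀ x ∈ Ω, a.1 (t, x) = a.1 (0, x) ∧ a.2.1 (t, x) = a.2.1 (0, x)) ∧
    (∀ x ∈ Ω, sl a.1 0 x * d1 (sl a.1 0) x + sl a.2.1 0 x * d2 (sl a.1 0) x + d1 (sl a.2.2 0) x
      = ν * (d1 (d1 (sl a.1 0)) x + d2 (d2 (sl a.1 0)) x) + g1 x) ∧
    (∀ x ∈ Ω, sl a.1 0 x * d1 (sl a.2.1 0) x + sl a.2.1 0 x * d2 (sl a.2.1 0) x
      + d2 (sl a.2.2 0) x = ν * (d1 (d1 (sl a.2.1 0)) x + d2 (d2 (sl a.2.1 0)) x) + g2 x) := by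
  have ht := hA.traj a ha
  have c1 : ∀ t, ContinuousOn (sl a.1 t) Ω := fun t =>
    (sl_contDiff (n := 3) ht.smooth1 t).continuous.continuousOn
  have c2 : ∀ t, ContinuousOn (sl a.2.1 t) Ω := fun t =>
    (sl_contDiff (n := 3) ht.smooth2 t).continuous.continuousOn
  have h1 : ∀ t, ∀ x ∈ Ω, a.1 (t, x) = a.1 (0, x) ∧ a.2.1 (t, x) = a.2.1 (0, x) := by
    intro t x hx
    have k := (hc t)
    rw [hst t] at k
    exact ⟨eq_of_rep hΩ (c1 t) (c1 0) k.1 (hc 0).1 x hx,
      eq_of_rep hΩ (c2 t) (c2 0) k.2.1 (hc 0).2.1 x hx⟩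
  have hD : ∀ {F : P3 → ℝ}, ContDiff ℝ 3 F → (∀ t, ∀ x ∈ Ω, F (t, x) = F (0, x)) →
      ∀ x ∈ Ω, Dt F (0, x) = 0 := by
    intro F hF h x hx
    have h1 := hasDerivAt_time (hF.differentiable (by norm_num)) 0 x
    have h2 : (fun s => F (s, x)) = fun _ => F (0, x) := funext fun s => h s x hx
    rw [h2] at h1
    exact h1.unique (hasDerivAt_const (0 : ℝ) (F (0, x)))
  refine ⟨h1, fun x hx => ?_, fun x hx => ?_⟩
  · have h2 := ht.mom1 0 x hx
    rw [hD ht.smooth1 (fun t x hx => (h1 t x hx).1) x hx, zero_add] at h2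
    exact h2
  · have h2 := ht.mom2 0 x hx
    rw [hD ht.smooth2 (fun t x hx => (h1 t x hx).2) x hx, zero_add] at h2
    exact h2

/-- the pressure of a stationary member is determined by the velocity -/
lemma press_of_vel (hΩ : IsOpen Ω) (hconn : IsConnected Ω) (hb : Bornology.IsBounded Ω)
    (hA : IsFamilyN Ω ν g1 g2 A) {a b : Fld} (ha : a ∈ A) (hb' : b ∈ A) {c d : Crv Ω}
    (hc : RepC Ω c a) (hd : RepC Ω d b) (hcs : ∀ t, c t = c 0) (hds : ∀ t, d t = d 0)
    (h1 : ∀ x ∈ Ω, sl a.1 0 x = sl b.1 0 x) (h2 : ∀ x ∈ Ω, sl a.2.1 0 x = sl b.2.1 0 x) :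
    (c 0).2.2 = (d 0).2.2 := by
  have hfin : IsFiniteMeasure (volume.restrict Ω) :=
    ⟨by rw [Measure.restrict_apply_univ]; exact hb.measure_lt_top⟩
  obtain ⟨-, m1, m2⟩ := steady_eq hΩ hA ha hc hcs
  obtain ⟨-, m1', m2'⟩ := steady_eq hΩ hA hb' hd hds
  have hloc : ∀ {f g : P2 → ℝ}, (∀ x ∈ Ω, f x = g x) → ∀ x ∈ Ω,
      d1 f x = d1 g x ∧ d2 f x = d2 g x := by
    intro f g h x hx
    have h1 : f =ᶠ[𝓝 x] g := by
      filter_upwards [hΩ.mem_nhds hx] with z hz using h z hz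
    exact ⟨by rw [d1, d1, h1.fderiv_eq], by rw [d2, d2, h1.fderiv_eq]⟩
  have hp : ∀ x ∈ Ω, d1 (sl a.2.2 0) x = d1 (sl b.2.2 0) x ∧
      d2 (sl a.2.2 0) x = d2 (sl b.2.2 0) x := by
    intro x hx
    have k1 := m1 x hx
    have k1' := m1' x hx
    have k2 := m2 x hx
    have k2' := m2' x hx
    rw [h1 x hx, h2 x hx, (hloc h1 x hx).1, (hloc h1 x hx).2,
      (hloc (fun z hz => (hloc h1 z hz).1) x hx).1,
      (hloc (fun z hz => (hloc h1 z hz).2) x hx).2] at k1
    rw [h1 x hx, h2 x hx, (hloc h2 x hx).1, (hloc h2 x hx).2,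
      (hloc (fun z hz => (hloc h2 z hz).1) x hx).1,
      (hloc (fun z hz => (hloc h2 z hz).2) x hx).2] at k2
    exact ⟨by linarith, by linarith⟩
  obtain ⟨x₀, hx₀⟩ := hconn.nonempty
  have q1 := fun z => ((hA.press a ha 0).differentiable (by norm_num)) z
  have q2 := fun z => ((hA.press b hb' 0).differentiable (by norm_num)) z
  have hdiff : DifferentiableOn ℝ (fun x => sl a.2.2 0 x - sl b.2.2 0 x) Ω := fun z _ =>
    ((q1 z).sub (q2 z)).differentiableWithinAt
  have hconst : ∀ x ∈ Ω, sl a.2.2 0 x - sl b.2.2 0 x = sl a.2.2 0 x₀ - sl b.2.2 0 x₀ := by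
    intro x hx
    refine hΩ.is_const_of_fderiv_eq_zero hconn.isPreconnected hdiff (fun z hz => ?_) hx hx₀
    have q3 := ((q1 z).hasFDerivAt.fun_sub (q2 z).hasFDerivAt).fderiv
    rw [q3]
    refine ContinuousLinearMap.ext fun e => ?_
    have := hp z hz
    have e2 : (fderiv ℝ (sl a.2.2 0) z - fderiv ℝ (sl b.2.2 0) z) e =
        fderiv ℝ (sl a.2.2 0) z e - fderiv ℝ (sl b.2.2 0) z e := rfl
    rw [e2, fderiv_eq_of_d, fderiv_eq_of_d, this.1, this.2, sub_self]
    rfl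
  obtain ⟨κ, hκ⟩ : ∃ κ : ℝ, κ = sl a.2.2 0 x₀ - sl b.2.2 0 x₀ := ⟨_, rfl⟩
  rw [← hκ] at hconst
  have i1 : Integrable (fun x => a.2.2 (0, x)) (volume.restrict Ω) :=
    ((Lp.memLp (c 0).2.2).integrable (by norm_num)).congr (hc 0).2.2
  have i2 : Integrable (fun x => b.2.2 (0, x)) (volume.restrict Ω) :=
    ((Lp.memLp (d 0).2.2).integrable (by norm_num)).congr (hd 0).2.2
  have i3 := integral_sub i1 i2
  have i4 : ∫ x in Ω, (a.2.2 (0, x) - b.2.2 (0, x)) = ∫ _x in Ω, κ :=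
    setIntegral_congr_fun hΩ.measurableSet (fun x hx => hconst x hx)
  rw [hA.mean _ ha 0, hA.mean _ hb' 0, sub_self, i4, setIntegral_const, smul_eq_mul] at i3
  have hvol : volume.real Ω ≠ 0 := by
    rw [Measure.real, ENNReal.toReal_ne_zero]
    exact ⟨(hΩ.measure_pos volume hconn.nonempty).ne', hb.measure_lt_top.ne⟩
  have hκ0 : κ = 0 := (mul_eq_zero.1 i3).resolve_left hvol
  refine Lp.ext ?_
  filter_upwards [(hc 0).2.2, (hd 0).2.2, ae_restrict_mem hΩ.measurableSet] with x h1 h2 hx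
  rw [h1, h2]
  have := hconst x hx
  rw [hκ0] at this
  simp only [sl] at this
  linarith

/-- the average of a class over a cell depends continuously on the class -/
lemma avg_cont (Ω : Set P2) (h : ℝ) (j : ℤ × ℤ) :
    Continuous (fun V : L2 Ω => ∫ x in cl h j, V x ∂(volume.restrict Ω)) := by
  have hμ : (volume.restrict Ω) (cl h j) ≠ ⊤ :=
    ((Measure.restrict_apply_le _ _).trans_lt (cl_fin h j).lt_top).ne
  have e : (fun V : L2 Ω => ∫ x in cl h j, V x ∂(volume.restrict Ω)) =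
      fun V : L2 Ω => inner ℝ (indicatorConstLp 2 (cl_meas h j) hμ (1 : ℝ)) V := by
    funext V
    exact (L2.inner_indicatorConstLp_one (cl_meas h j) hμ V).symm
  rw [e]
  exact continuous_const.inner continuous_id

/-- the stationary members embed into a euclidean space -/
theorem embeds_steady (hΩ : IsOpen Ω) (hb : Bornology.IsBounded Ω) (hν : 0 < ν)
    (hA : IsFamilyN Ω ν g1 g2 A) : ∃ M, Embeds (steadyVel Ω A) M := by
  obtain ⟨B, hB⟩ := hA.bound
  obtain ⟨S, h, hS⟩ := steady_modes hΩ hb B hν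
  refine ⟨Fintype.card (S × Fin 2), fun V k => (fun i : S × Fin 2 => if i.2 = 0 then
    ∫ x in cl h i.1, V.1 x ∂(volume.restrict Ω) else
    ∫ x in cl h i.1, V.2 x ∂(volume.restrict Ω)) ((Fintype.equivFin (S × Fin 2)).symm k), ?_, ?_⟩
  · refine Continuous.continuousOn (continuous_pi fun k => ?_)
    simp only
    split_ifs
    · exact (avg_cont Ω h _).comp continuous_fst
    · exact (avg_cont Ω h _).comp continuous_snd
  · rintro V ⟨c, ⟨a, ha, hc⟩, hcs, rfl⟩ V' ⟨d, ⟨b, hb', hd⟩, hds, rfl⟩ he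
    have he' : ∀ i : S × Fin 2, (if i.2 = 0 then
        ∫ x in cl h i.1, (c 0).1 x ∂(volume.restrict Ω) else
        ∫ x in cl h i.1, (c 0).2.1 x ∂(volume.restrict Ω)) = (if i.2 = 0 then
        ∫ x in cl h i.1, (d 0).1 x ∂(volume.restrict Ω) else
        ∫ x in cl h i.1, (d 0).2.1 x ∂(volume.restrict Ω)) := by
      intro i
      have := congrFun he (Fintype.equivFin (S × Fin 2) i)
      simpa using this
    have ta := hA.traj a ha
    have tb := hA.traj b hb'
    have U1 := sl_contDiff (n := 3) ta.smooth1 0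
    have U2 := sl_contDiff (n := 3) ta.smooth2 0
    have W1 := sl_contDiff (n := 3) tb.smooth1 0
    have W2 := sl_contDiff (n := 3) tb.smooth2 0
    have D : ∀ {f : P2 → ℝ}, ContDiff ℝ 3 f → Differentiable ℝ f ∧ Differentiable ℝ (d1 f) ∧
        Differentiable ℝ (d2 f) := fun h => ⟨h.differentiable (by norm_num),
      (d1_contDiff (m := 2) (n := 3) h (by norm_num)).differentiable (by norm_num),
      (d2_contDiff (m := 2) (n := 3) h (by norm_num)).differentiable (by norm_num)⟩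
    obtain ⟨-, m1, m2⟩ := steady_eq hΩ hA ha hc hcs
    obtain ⟨-, m1', m2'⟩ := steady_eq hΩ hA hb' hd hds
    have e11 := d1_dif' (D U1).1 (D W1).1
    have e12 := d2_dif' (D U1).1 (D W1).1
    have e21 := d1_dif' (D U2).1 (D W2).1
    have e22 := d2_dif' (D U2).1 (D W2).1
    have hmean : ∀ {u v : P2 → ℝ} {y z : L2 Ω}, Continuous u → Continuous v →
        ((y : P2 → ℝ) =ᵐ[volume.restrict Ω] u) → ((z : P2 → ℝ) =ᵐ[volume.restrict Ω] v) →
        ∀ j : ℤ × ℤ, (∫ x in cl h j, y x ∂(volume.restrict Ω) =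
          ∫ x in cl h j, z x ∂(volume.restrict Ω)) → ∫ x in Ω ∩ cl h j, (u x - v x) = 0 := by
      intro u v y z hu hv hy hz j hyz
      have k1 : ∫ x in cl h j, y x ∂(volume.restrict Ω) = ∫ x in Ω ∩ cl h j, u x := by
        rw [Measure.restrict_restrict (cl_meas h j), inter_comm]
        refine integral_congr_ae ?_
        exact ae_restrict_of_ae_restrict_of_subset inter_subset_left hy
      have k2 : ∫ x in cl h j, z x ∂(volume.restrict Ω) = ∫ x in Ω ∩ cl h j, v x := by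
        rw [Measure.restrict_restrict (cl_meas h j), inter_comm]
        refine integral_congr_ae ?_
        exact ae_restrict_of_ae_restrict_of_subset inter_subset_left hz
      have I : ∀ {k : P2 → ℝ}, Continuous k → IntegrableOn k (Ω ∩ cl h j) := fun hk =>
        (hk.continuousOn.integrableOn_compact hb.isCompact_closure).mono_set
          (inter_subset_left.trans subset_closure)
      rw [integral_sub (I hu) (I hv), ← k1, ← k2, hyz, sub_self]
    have key := hS (w1 := fun x => sl a.1 0 x - sl b.1 0 x)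
      (w2 := fun x => sl a.2.1 0 x - sl b.2.1 0 x) (V1 := sl b.1 0) (V2 := sl b.2.1 0)
      (U1 := sl a.1 0) (U2 := sl a.2.1 0) (π := fun x => sl a.2.2 0 x - sl b.2.2 0 x)
      ((U1.sub W1).of_le (by norm_num)) ((U2.sub W2).of_le (by norm_num))
      (W1.of_le (by norm_num)) (W2.of_le (by norm_num)) (U1.of_le (by norm_num))
      (U2.of_le (by norm_num)) ((hA.press a ha 0).sub (hA.press b hb' 0))
      (by
        intro x hx
        rw [e11, e12, d1_dif' ((hA.press a ha 0).differentiable (by norm_num))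
          ((hA.press b hb' 0).differentiable (by norm_num)), d1_dif' (D U1).2.1 (D W1).2.1,
          d2_dif' (D U1).2.2 (D W1).2.2]
        linear_combination m1 x hx - m1' x hx)
      (by
        intro x hx
        rw [e21, e22, d2_dif' ((hA.press a ha 0).differentiable (by norm_num))
          ((hA.press b hb' 0).differentiable (by norm_num)), d1_dif' (D U2).2.1 (D W2).2.1,
          d2_dif' (D U2).2.2 (D W2).2.2]
        linear_combination m2 x hx - m2' x hx)
      (by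
        intro x hx
        rw [e11, e22]
        linear_combination ta.div 0 x hx - tb.div 0 x hx)
      (ta.div 0)
      (by
        intro x hx
        have k1 := ta.noslip 0 x hx
        have k2 := tb.noslip 0 x hx
        simp only [sl]
        rw [k1.1, k1.2, k2.1, k2.2, sub_self]
        exact ⟨rfl, rfl⟩)
      (fun x hx => hB b hb' 0 x hx)
      (fun j hj => hmean U1.continuous W1.continuous (hc 0).1 (hd 0).1 j (by
        have := he' (⟨j, hj⟩, 0)
        simpa using this))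
      (fun j hj => hmean U2.continuous W2.continuous (hc 0).2.1 (hd 0).2.1 j (by
        have := he' (⟨j, hj⟩, 1)
        simpa using this))
    refine Prod.ext (Lp.ext ?_) (Lp.ext ?_)
    · filter_upwards [(hc 0).1, (hd 0).1, ae_restrict_mem hΩ.measurableSet] with x h1 h2 hx
      rw [h1, h2]
      have := (key x hx).1
      simp only [sl] at this
      linarith
    · filter_upwards [(hc 0).2.1, (hd 0).2.1, ae_restrict_mem hΩ.measurableSet] with x h1 h2 hx
      rw [h1, h2]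
      have := (key x hx).2
      simp only [sl] at this
      linarith

/-- pressure component of a curve -/
noncomputable def prc (c : Crv Ω) : C(ℝ, L2 Ω) := ⟨fun t => (c t).2.2, by fun_prop⟩

lemma prc_cont : Continuous (prc : Crv Ω → C(ℝ, L2 Ω)) := by
  have : (prc : Crv Ω → C(ℝ, L2 Ω)) = fun c =>
      (ContinuousMap.mk (fun x : L2 Ω × L2 Ω × L2 Ω => x.2.2) (by fun_prop)).comp c := by
    funext c; ext1 t; rfl
  rw [this]
  exact ContinuousMap.continuous_postcomp _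

variable (hone : ∀ a ∈ A, ∀ b ∈ A, (∀ t, ∀ x ∈ Ω, a.2.2 (t, x) = b.2.2 (t, x)) →
      ∀ t, ∀ x ∈ Ω, a.1 (t, x) = b.1 (t, x) ∧ a.2.1 (t, x) = b.2.1 (t, x))

include hone in
/-- equal pressure curves give equal velocities -/
lemma vel_of_press (hΩ : IsOpen Ω) (hA : IsFamilyN Ω ν g1 g2 A) {a b : Fld} (ha : a ∈ A)
    (hb : b ∈ A) {c d : Crv Ω} (hc : RepC Ω c a) (hd : RepC Ω d b)
    (h : ∀ t, (c t).2.2 = (d t).2.2) :
    ∀ t, ∀ x ∈ Ω, a.1 (t, x) = b.1 (t, x) ∧ a.2.1 (t, x) = b.2.1 (t, x) := by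
  refine hone a ha b hb fun t x hx => ?_
  have h1 := (hd t).2.2
  rw [← h t] at h1
  exact eq_of_rep hΩ (f := sl a.2.2 t) (g := sl b.2.2 t)
    (hA.press a ha t).continuous.continuousOn (hA.press b hb t).continuous.continuousOn
    (hc t).2.2 h1 x hx

/-- equal velocities give equal classes -/
lemma cls_of_vel (hΩ : IsOpen Ω) {a b : Fld} {c d : Crv Ω} (hc : RepC Ω c a) (hd : RepC Ω d b)
    {t : ℝ} (h : ∀ x ∈ Ω, a.1 (t, x) = b.1 (t, x) ∧ a.2.1 (t, x) = b.2.1 (t, x)) :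
    (c t).1 = (d t).1 ∧ (c t).2.1 = (d t).2.1 := by
  refine ⟨Lp.ext ?_, Lp.ext ?_⟩
  · filter_upwards [(hc t).1, (hd t).1, ae_restrict_mem hΩ.measurableSet] with x h1 h2 hx
    rw [h1, h2]; exact (h x hx).1
  · filter_upwards [(hc t).2.1, (hd t).2.1, ae_restrict_mem hΩ.measurableSet] with x h1 h2 hx
    rw [h1, h2]; exact (h x hx).2

include hone in
/-- a curve with constant pressure is constant -/
lemma const_of_press (hΩ : IsOpen Ω) (hA : IsFamilyN Ω ν g1 g2 A) {c : Crv Ω}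
    (hc : c ∈ curves Ω A) (h : ∀ t, (c t).2.2 = (c 0).2.2) : ∀ t, c t = c 0 := by
  obtain ⟨a, ha, hca⟩ := hc
  intro s
  -- the translate of the curve
  obtain ⟨d, hd⟩ : ∃ d : Crv Ω, ∀ t, d t = c (t + s) := ⟨⟨fun t => c (t + s), by fun_prop⟩,
    fun t => rfl⟩
  have hda : RepC Ω d (sh s a.1, sh s a.2.1, sh s a.2.2) := by
    intro t
    rw [hd]
    exact hca (t + s)
  have h1 := vel_of_press hone hΩ hA (hA.shift a ha s) ha hda hca (fun t => by
    rw [hd, h (t + s), h t])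
  have h2 := cls_of_vel hΩ hda hca (h1 0)
  rw [hd, zero_add] at h2
  exact Prod.ext h2.1 (Prod.ext h2.2 (h s))

/-- the set of constant curves of the family -/
def stc (Ω : Set P2) (A : Set Fld) : Set (Crv Ω) := {c | c ∈ curves Ω A ∧ ∀ t, c t = c 0}

lemma stc_compact (hA : IsFamilyN Ω ν g1 g2 A) : IsCompact (stc Ω A) := by
  have h1 : IsClosed {c : Crv Ω | ∀ t, c t = c 0} := by
    simp only [Set.ofPred_forall]
    refine isClosed_iInter fun t => isClosed_eq ?_ ?_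
    · exact continuous_eval_const t
    · exact continuous_eval_const 0
  exact hA.compact.inter_right h1

lemma fV_cont : Continuous (fun c : Crv Ω => ((c 0).1, (c 0).2.1)) := by
  have : Continuous (fun c : Crv Ω => c 0) := continuous_eval_const 0
  fun_prop

lemma fP_cont : Continuous (fun c : Crv Ω => (c 0).2.2) := by
  have : Continuous (fun c : Crv Ω => c 0) := continuous_eval_const 0
  fun_prop

lemma fV_inj (hΩ : IsOpen Ω) (hconn : IsConnected Ω) (hb : Bornology.IsBounded Ω)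
    (hA : IsFamilyN Ω ν g1 g2 A) :
    InjOn (fun c : Crv Ω => ((c 0).1, (c 0).2.1)) (stc Ω A) := by
  rintro c ⟨⟨a, ha, hc⟩, hcs⟩ d ⟨⟨b, hb', hd⟩, hds⟩ he
  have e1 : (c 0).1 = (d 0).1 := (Prod.ext_iff.1 he).1
  have e2 : (c 0).2.1 = (d 0).2.1 := (Prod.ext_iff.1 he).2
  have ta := hA.traj a ha
  have tb := hA.traj b hb'
  have k1 := (hd 0).1
  rw [← e1] at k1
  have k2 := (hd 0).2.1
  rw [← e2] at k2
  have h1 : ∀ x ∈ Ω, sl a.1 0 x = sl b.1 0 x :=
    eq_of_rep hΩ (sl_contDiff (n := 3) ta.smooth1 0).continuous.continuousOn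
      (sl_contDiff (n := 3) tb.smooth1 0).continuous.continuousOn (hc 0).1 k1
  have h2 : ∀ x ∈ Ω, sl a.2.1 0 x = sl b.2.1 0 x :=
    eq_of_rep hΩ (sl_contDiff (n := 3) ta.smooth2 0).continuous.continuousOn
      (sl_contDiff (n := 3) tb.smooth2 0).continuous.continuousOn (hc 0).2.1 k2
  have h3 := press_of_vel hΩ hconn hb hA ha hb' hc hd hcs hds h1 h2
  ext1 t
  rw [hcs t, hds t]
  exact Prod.ext e1 (Prod.ext e2 h3)

include hone in
lemma fP_inj (hΩ : IsOpen Ω) (hA : IsFamilyN Ω ν g1 g2 A) :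
    InjOn (fun c : Crv Ω => (c 0).2.2) (stc Ω A) := by
  rintro c ⟨⟨a, ha, hc⟩, hcs⟩ d ⟨⟨b, hb', hd⟩, hds⟩ he
  have h1 := vel_of_press hone hΩ hA ha hb' hc hd (fun t => by rw [hcs t, hds t]; exact he)
  have h2 := cls_of_vel hΩ hc hd (h1 0)
  ext1 t
  rw [hcs t, hds t]
  exact Prod.ext h2.1 (Prod.ext h2.2 he)

include hone in
/-- sufficiency: as many functionals as dimensions of the euclidean space -/
theorem system_of_embeds (hΩ : IsOpen Ω) (hconn : IsConnected Ω) (hb : Bornology.IsBounded Ω)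
    (hA : IsFamilyN Ω ν g1 g2 A) {M : ℕ} (hM : Embeds (steadyVel Ω A) (M + 1)) :
    ∃ Φ : Fin (M + 1) → BoundedContinuousFunction (L2 Ω) ℝ,
      Separates Ω A (fun i => (Φ i : L2 Ω → ℝ)) ∧ Determines Ω A (fun i => (Φ i : L2 Ω → ℝ)) := by
  obtain ⟨e, hec, hei⟩ := hM
  have hSc := stc_compact hA
  have hcs : CompactSpace (stc Ω A) := isCompact_iff_compactSpace.1 hSc
  have hfPe : IsClosedEmbedding (fun c : stc Ω A => ((c : Crv Ω) 0).2.2) :=
    (fP_cont.comp continuous_subtype_val).isClosedEmbedding (fun c d h =>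
      Subtype.ext (fP_inj hone hΩ hA c.2 d.2 h))
  have hfVm : ∀ c : stc Ω A, (((c : Crv Ω) 0).1, ((c : Crv Ω) 0).2.1) ∈ steadyVel Ω A :=
    fun c => ⟨c, c.2.1, c.2.2, rfl⟩
  -- the prescribed values
  have hfc : ∀ i, Continuous (fun c : stc Ω A =>
      e (((c : Crv Ω) 0).1, ((c : Crv Ω) 0).2.1) i) := by
    intro i
    have h1 : Continuous (fun c : stc Ω A => e (((c : Crv Ω) 0).1, ((c : Crv Ω) 0).2.1)) :=
      hec.comp_continuous (fV_cont.comp continuous_subtype_val) hfVm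
    exact (continuous_apply i).comp h1
  have hext : ∀ i, ∃ g : BoundedContinuousFunction (L2 Ω) ℝ, ∀ c : stc Ω A,
      g (((c : Crv Ω) 0).2.2) = e (((c : Crv Ω) 0).1, ((c : Crv Ω) 0).2.1) i := by
    intro i
    obtain ⟨g, -, hg⟩ := BoundedContinuousFunction.exists_extension_norm_eq_of_isClosedEmbedding
      (BoundedContinuousFunction.mkOfCompact ⟨_, hfc i⟩) hfPe
    exact ⟨g, fun c => congrFun hg c⟩
  choose Φ₀ hΦ₀ using hext
  have : Fact ((2 : ENNReal) ≠ ⊤) := ⟨by norm_num⟩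
  have hKc : IsCompact ((prc : Crv Ω → C(ℝ, L2 Ω)) '' curves Ω A) := hA.compact.image prc_cont
  have hZc : IsClosed ((fun c : Crv Ω => (c 0).2.2) '' stc Ω A) :=
    (hSc.image fP_cont).isClosed
  obtain ⟨Ψ, hΨ1, hΨ2⟩ := exists_observable_rel hKc hZc (by
      rintro y ⟨c, hc, hcy⟩
      have h1 : ∀ t, (c t).2.2 = y := fun t => congrArg (fun f : C(ℝ, L2 Ω) => f t) hcy
      have h2 := const_of_press hone hΩ hA hc (fun t => by rw [h1 t, h1 0])
      exact ⟨c, ⟨hc, h2⟩, h1 0⟩) Φ₀ (by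
      rintro y ⟨c, hc, rfl⟩ z ⟨d, hd, rfl⟩ h
      have h1 : e ((c 0).1, (c 0).2.1) = e ((d 0).1, (d 0).2.1) := by
        funext i
        have k1 := hΦ₀ i ⟨c, hc⟩
        have k2 := hΦ₀ i ⟨d, hd⟩
        simp only at k1 k2 h
        rw [← k1, ← k2]
        exact h i
      have h2 := hei (hfVm ⟨c, hc⟩) (hfVm ⟨d, hd⟩) h1
      have h3 := fV_inj hΩ hconn hb hA hc hd h2
      rw [h3])
  have hcur : ∀ c ∈ curves Ω A, ∀ d ∈ curves Ω A, (∀ i t, Ψ i (c t).2.2 = Ψ i (d t).2.2) →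
      ∀ t, (c t).2.2 = (d t).2.2 := by
    intro c hc d hd h t
    have := hΨ2 (prc c) ⟨c, hc, rfl⟩ (prc d) ⟨d, hd, rfl⟩ h
    exact congrArg (fun f : C(ℝ, L2 Ω) => f t) this
  refine ⟨Ψ, ?_, ?_⟩
  · intro a ha b hb' c d hc hd h
    exact vel_of_press hone hΩ hA ha hb' hc hd (hcur c ⟨a, ha, hc⟩ d ⟨b, hb', hd⟩ h)
  · intro U1 U2 Q V1 V2 R hU hV hlim
    have key : ∀ τ : ℕ → ℝ, Tendsto τ atTop atTop → ∃ φ : ℕ → ℕ,
        Tendsto (fun n => ‖U1 (τ (φ n)) - V1 (τ (φ n))‖) atTop (𝓝 0) ∧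
        Tendsto (fun n => ‖U2 (τ (φ n)) - V2 (τ (φ n))‖) atTop (𝓝 0) := by
      intro τ hτ
      obtain ⟨φ, hφ, c, hc, hQ, hU1, hU2⟩ := hU τ hτ
      obtain ⟨ψ, hψ, d, hd, hR, hV1, hV2⟩ := hV (fun n => τ (φ n)) (hτ.comp hφ.tendsto_atTop)
      have hψt := hψ.tendsto_atTop
      have hP : ∀ t, (c t).2.2 = (d t).2.2 := by
        refine hcur c hc d hd fun i s => ?_
        have l1 : Tendsto (fun n => Ψ i (Q (τ (φ (ψ n)) + s))) atTop (𝓝 (Ψ i (c s).2.2)) :=
          ((Ψ i).continuous.tendsto _).comp ((hQ s).comp hψt)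
        have l2 : Tendsto (fun n => Ψ i (R (τ (φ (ψ n)) + s))) atTop (𝓝 (Ψ i (d s).2.2)) :=
          ((Ψ i).continuous.tendsto _).comp (hR s)
        have l3 := l1.sub l2
        have l4 : Tendsto (fun n => τ (φ (ψ n)) + s) atTop atTop :=
          tendsto_atTop_add_const_right _ _ ((hτ.comp hφ.tendsto_atTop).comp hψt)
        have l5 := (hlim i).comp l4
        have l6 := tendsto_nhds_unique l3 l5
        linarith
      obtain ⟨a, ha, hca⟩ := hc
      obtain ⟨b, hb', hdb⟩ := hd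
      have hvel := vel_of_press hone hΩ hA ha hb' hca hdb hP
      obtain ⟨e1, e2⟩ := cls_of_vel hΩ hca hdb (hvel 0)
      refine ⟨fun n => φ (ψ n), ?_, ?_⟩
      · have := ((hU1.comp hψt).sub hV1).norm
        rw [e1, sub_self, norm_zero] at this
        exact this
      · have := ((hU2.comp hψt).sub hV2).norm
        rw [e2, sub_self, norm_zero] at this
        exact this
    constructor
    · refine tendsto_of_subseq_tendsto fun ns hns => ?_
      obtain ⟨φ, h1, -⟩ := key ns hns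
      exact ⟨φ, h1⟩
    · refine tendsto_of_subseq_tendsto fun ns hns => ?_
      obtain ⟨φ, -, h2⟩ := key ns hns
      exact ⟨φ, h2⟩

/-- necessity: a determining system of continuous functionals of the pressure gives a continuous
injection of the stationary members -/
theorem embeds_of_system (hΩ : IsOpen Ω) (hconn : IsConnected Ω) (hb : Bornology.IsBounded Ω)
    (hA : IsFamilyN Ω ν g1 g2 A) {M : ℕ} {Φ : Fin M → L2 Ω → ℝ} (hΦ : ∀ i, Continuous (Φ i))
    (hdet : Determines Ω A Φ) : Embeds (steadyVel Ω A) M := by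
  classical
  have hSc := stc_compact hA
  have hcs : CompactSpace (stc Ω A) := isCompact_iff_compactSpace.1 hSc
  have hfVe : IsClosedEmbedding (fun c : stc Ω A => (((c : Crv Ω) 0).1, ((c : Crv Ω) 0).2.1)) :=
    (fV_cont.comp continuous_subtype_val).isClosedEmbedding (fun c d h =>
      Subtype.ext (fV_inj hΩ hconn hb hA c.2 d.2 h))
  have hrange : ∀ V ∈ steadyVel Ω A, ∃ c : stc Ω A,
      (((c : Crv Ω) 0).1, ((c : Crv Ω) 0).2.1) = V := by
    rintro V ⟨c, hc, hcs, rfl⟩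
    exact ⟨⟨c, hc, hcs⟩, rfl⟩
  rcases (steadyVel Ω A).eq_empty_or_nonempty with hemp | hne
  · exact ⟨fun _ _ => 0, by rw [hemp]; exact continuousOn_empty _, by rw [hemp]; exact injOn_empty _⟩
  have hnon : Nonempty (stc Ω A) := ⟨(hrange _ hne.some_mem).choose⟩
  choose! k hk using hrange
  have hkc : ContinuousOn k (steadyVel Ω A) := by
    rw [hfVe.isEmbedding.continuousOn_iff]
    refine continuousOn_id.congr fun V hV => ?_
    exact hk V hV
  refine ⟨fun V i => Φ i ((k V : Crv Ω) 0).2.2, ?_, ?_⟩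
  · refine continuousOn_pi.2 fun i => ?_
    exact (hΦ i).comp_continuousOn ((fP_cont.comp continuous_subtype_val).comp_continuousOn hkc)
  · intro V hV W hW h
    have hat : ∀ c : stc Ω A, AttrN Ω A (fun _ => ((c : Crv Ω) 0).1)
        (fun _ => ((c : Crv Ω) 0).2.1) (fun _ => ((c : Crv Ω) 0).2.2) := by
      intro c τ _
      refine ⟨id, strictMono_id, c, c.2.1, fun s => ?_, tendsto_const_nhds, tendsto_const_nhds⟩
      rw [c.2.2 s]
      exact tendsto_const_nhds
    have h1 := hdet _ _ _ _ _ _ (hat (k V)) (hat (k W)) (fun i => by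
      have := congrFun h i
      simp only at this
      rw [this, sub_self]
      exact tendsto_const_nhds)
    have h2 := tendsto_nhds_unique h1.1 tendsto_const_nhds
    have h3 := tendsto_nhds_unique h1.2 tendsto_const_nhds
    rw [← hk V hV, ← hk W hW]
    exact Prod.ext (sub_eq_zero.1 (norm_eq_zero.1 h2.symm)) (sub_eq_zero.1 (norm_eq_zero.1 h3.symm))

end

end Run7.h105
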