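import Pool.Agent.Run7.h105.FamN

/-!
# The number of pressure functionals needed: statement for families with uniqueness
-/

set_option autoImplicit false

namespace Run7.h105

open Set Filter Topology MeasureTheory Pool.Agent.H754R3.PR

lemma Embeds.succ {X : Type*} [TopologicalSpace X] {R : Set X} {M : ℕ} (h : Embeds R M) :
    Embeds R (M + 1) := by
  obtain ⟨e, he, hi⟩ := h
  refine ⟨fun x => Fin.cons 0 (e x), ?_, ?_⟩
  · refine continuousOn_pi.2 fun i => ?_
    refine Fin.cases ?_ (fun j => ?_) i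
    · simp only [Fin.cons_zero]
      exact continuousOn_const
    · simp only [Fin.cons_succ]
      exact (continuous_apply j).comp_continuousOn he
  · intro x hx y hy h
    refine hi hx hy ?_
    funext j
    have := congrFun h j.succ
    simpa using this

/-- the number of functionals of the pressure which determine the velocity -/
theorem number_of_uniq {Ω : Set P2} (hΩ : IsOpen Ω) (hconn : IsConnected Ω)
    (hb : Bornology.IsBounded Ω) {ν : ℝ} (hν : 0 < ν) {g1 g2 : P2 → ℝ} {A : Set Fld}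
    (hA : IsFamilyN Ω ν g1 g2 A)
    (hone : ∀ a ∈ A, ∀ b ∈ A, (∀ t, ∀ x ∈ Ω, a.2.2 (t, x) = b.2.2 (t, x)) →
      ∀ t, ∀ x ∈ Ω, a.1 (t, x) = b.1 (t, x) ∧ a.2.1 (t, x) = b.2.1 (t, x)) :
    (∃ N, 0 < N ∧ Embeds (steadyVel Ω A) N) ∧
    (∀ N, 0 < N → Embeds (steadyVel Ω A) N →
      ∃ Φ : Fin N → BoundedContinuousFunction (L2 Ω) ℝ,
        Separates Ω A (fun i => (Φ i : L2 Ω → ℝ)) ∧
        Determines Ω A (fun i => (Φ i : L2 Ω → ℝ))) ∧
    (∀ (N : ℕ) (Φ : Fin N → L2 Ω → ℝ), (∀ i, Continuous (Φ i)) → Determines Ω A Φ →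
      Embeds (steadyVel Ω A) N) := by
  refine ⟨?_, ?_, fun N Φ hΦ hdet => embeds_of_system hΩ hconn hb hA hΦ hdet⟩
  · obtain ⟨M, hM⟩ := embeds_steady hΩ hb hν hA
    exact ⟨M + 1, Nat.succ_pos _, hM.succ⟩
  · intro N hN hE
    obtain ⟨M, rfl⟩ : ∃ M, N = M + 1 := ⟨N - 1, by omega⟩
    exact system_of_embeds hone hΩ hconn hb hA hE

end Run7.h105
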