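import Pool.Agent.Run7.h105.GenB
import Pool.Agent.Run7.h105.Dyn

/-!
# Families of classical trajectories: constant pressure curves and one functional
-/

set_option autoImplicit false

namespace Run7.h105

open Set Filter Topology MeasureTheory Pool.Agent.H754R3.PR

/-- `(U1, U2)` is a stationary solution with pressure `q` -/
structure IsSteadyS (Ω : Set P2) (ν : ℝ) (g1 g2 : P2 → ℝ) (U1 U2 q : P2 → ℝ) : Prop where
  smooth1 : ContDiff ℝ 3 U1
  smooth2 : ContDiff ℝ 3 U2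
  press : DifferentiableOn ℝ q Ω
  mom1 : ∀ x ∈ Ω, U1 x * d1 U1 x + U2 x * d2 U1 x + d1 q x
    = ν * (d1 (d1 U1) x + d2 (d2 U1) x) + g1 x
  mom2 : ∀ x ∈ Ω, U1 x * d1 U2 x + U2 x * d2 U2 x + d2 q x
    = ν * (d1 (d1 U2) x + d2 (d2 U2) x) + g2 x
  div : ∀ x ∈ Ω, d1 U1 x + d2 U2 x = 0
  noslip : ∀ x ∈ frontier Ω, U1 x = 0 ∧ U2 x = 0

/-- a translation invariant family of complete classical trajectories with pressures of mean zero,
whose pressure curves form a compact subset of `C(ℝ, L²(Ω))` -/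
structure IsFamilyS (Ω : Set P2) (ν : ℝ) (g1 g2 : P2 → ℝ) (A : Set Fld) : Prop where
  traj : ∀ a ∈ A, IsTrajS Ω ν g1 g2 a.1 a.2.1 a.2.2
  mean : ∀ a ∈ A, ∀ t, ∫ x in Ω, a.2.2 (t, x) = 0
  shift : ∀ a ∈ A, ∀ s, (sh s a.1, sh s a.2.1, sh s a.2.2) ∈ A
  compact : IsCompact (pressCurves Ω A)

/-- the constant pressure curves are countably many -/
theorem count_const {Ω : Set P2} (hΩ : IsOpen Ω) (hconn : IsConnected Ω)
    (hb : Bornology.IsBounded Ω) {ν : ℝ} {g1 g2 : P2 → ℝ} {A : Set Fld}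
    (hA : IsFamilyS Ω ν g1 g2 A)
    (hS : ∃ S : Set ((P2 → ℝ) × (P2 → ℝ)), S.Countable ∧ ∀ U1 U2 q : P2 → ℝ,
      IsSteadyS Ω ν g1 g2 U1 U2 q → ∃ V ∈ S, ∀ x ∈ Ω, U1 x = V.1 x ∧ U2 x = V.2 x)
    (hconst : ∀ a ∈ A, ∀ y : L2 Ω, Rep Ω (ContinuousMap.const ℝ y) a.2.2 →
      ∀ t, ∀ x ∈ Ω, a.1 (t, x) = a.1 (0, x) ∧ a.2.1 (t, x) = a.2.1 (0, x)) :
    {y : L2 Ω | ContinuousMap.const ℝ y ∈ pressCurves Ω A}.Countable := by
  obtain ⟨S, hSc, hS⟩ := hS
  have hfin : IsFiniteMeasure (volume.restrict Ω) :=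
    ⟨by rw [Measure.restrict_apply_univ]; exact hb.measure_lt_top⟩
  have hex : ∀ y : L2 Ω, ContinuousMap.const ℝ y ∈ pressCurves Ω A → ∃ V ∈ S, ∃ a ∈ A,
      Rep Ω (ContinuousMap.const ℝ y) a.2.2 ∧
      (∀ t, ∀ x ∈ Ω, a.1 (t, x) = V.1 x ∧ a.2.1 (t, x) = V.2 x) := by
    rintro y ⟨a, ha, hy⟩
    have hst := hconst a ha y hy
    have ht := hA.traj a ha
    have hD : ∀ {F : P3 → ℝ}, ContDiff ℝ 3 F → (∀ t, ∀ x ∈ Ω, F (t, x) = F (0, x)) →
        ∀ x ∈ Ω, Dt F (0, x) = 0 := by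
      intro F hF h x hx
      have h1 := hasDerivAt_time (hF.differentiable (by norm_num)) 0 x
      have h2 : (fun s => F (s, x)) = fun _ => F (0, x) := funext fun s => h s x hx
      rw [h2] at h1
      exact h1.unique (hasDerivAt_const (0 : ℝ) (F (0, x)))
    obtain ⟨V, hV, hVe⟩ := hS (sl a.1 0) (sl a.2.1 0) (sl a.2.2 0)
      { smooth1 := sl_contDiff (n := 3) ht.smooth1 0
        smooth2 := sl_contDiff (n := 3) ht.smooth2 0
        press := ht.press 0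
        mom1 := fun x hx => by
          have h1 := ht.mom1 0 x hx
          rw [hD ht.smooth1 (fun t x hx => (hst t x hx).1) x hx, zero_add] at h1
          exact h1
        mom2 := fun x hx => by
          have h1 := ht.mom2 0 x hx
          rw [hD ht.smooth2 (fun t x hx => (hst t x hx).2) x hx, zero_add] at h1
          exact h1
        div := ht.div 0
        noslip := ht.noslip 0 }
    refine ⟨V, hV, a, ha, hy, fun t x hx => ?_⟩
    exact ⟨(hst t x hx).1.trans (hVe x hx).1, (hst t x hx).2.trans (hVe x hx).2⟩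
  have : ∀ y : {y : L2 Ω | ContinuousMap.const ℝ y ∈ pressCurves Ω A}, ∃ V ∈ S, ∃ a ∈ A,
      Rep Ω (ContinuousMap.const ℝ (y : L2 Ω)) a.2.2 ∧
      (∀ t, ∀ x ∈ Ω, a.1 (t, x) = V.1 x ∧ a.2.1 (t, x) = V.2 x) := fun y => hex y y.2
  choose V hVS a haA hrep hVe using this
  have hinj : Function.Injective (fun y => (⟨V y, hVS y⟩ : S)) := by
    intro y y' hyy
    have hVV : V y = V y' := congrArg Subtype.val hyy
    have t1 := hA.traj _ (haA y)
    have t2 := hA.traj _ (haA y')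
    have e1 : ∀ x ∈ Ω, (a y).1 (0, x) = (a y').1 (0, x) ∧
        (a y).2.1 (0, x) = (a y').2.1 (0, x) := by
      intro x hx
      rw [(hVe y 0 x hx).1, (hVe y 0 x hx).2, (hVe y' 0 x hx).1, (hVe y' 0 x hx).2, hVV]
      exact ⟨rfl, rfl⟩
    have hD : ∀ {F : P3 → ℝ} {W : P2 → ℝ}, ContDiff ℝ 3 F → (∀ t, ∀ x ∈ Ω, F (t, x) = W x) →
        ∀ x ∈ Ω, Dt F (0, x) = 0 := by
      intro F W hF h x hx
      have h1 := hasDerivAt_time (hF.differentiable (by norm_num)) 0 x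
      have h2 : (fun s => F (s, x)) = fun _ => W x := funext fun s => h s x hx
      rw [h2] at h1
      exact h1.unique (hasDerivAt_const (0 : ℝ) (W x))
    -- first and second derivatives agree in the open set
    have hloc : ∀ {f g : P2 → ℝ}, (∀ x ∈ Ω, f x = g x) → ∀ x ∈ Ω,
        d1 f x = d1 g x ∧ d2 f x = d2 g x := by
      intro f g h x hx
      have h1 : f =ᶠ[𝓝 x] g := by
        filter_upwards [hΩ.mem_nhds hx] with z hz using h z hz
      exact ⟨by rw [d1, d1, h1.fderiv_eq], by rw [d2, d2, h1.fderiv_eq]⟩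
    have f1 : ∀ x ∈ Ω, sl (a y).1 0 x = sl (a y').1 0 x := fun x hx => (e1 x hx).1
    have f2 : ∀ x ∈ Ω, sl (a y).2.1 0 x = sl (a y').2.1 0 x := fun x hx => (e1 x hx).2
    have hp : ∀ x ∈ Ω, d1 (sl (a y).2.2 0) x = d1 (sl (a y').2.2 0) x ∧
        d2 (sl (a y).2.2 0) x = d2 (sl (a y').2.2 0) x := by
      intro x hx
      have m1 := t1.mom1 0 x hx
      have m1' := t2.mom1 0 x hx
      have m2 := t1.mom2 0 x hx
      have m2' := t2.mom2 0 x hx
      rw [hD t1.smooth1 (fun t x hx => (hVe y t x hx).1) x hx, (e1 x hx).1, (e1 x hx).2,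
        (hloc f1 x hx).1, (hloc f1 x hx).2,
        (hloc (fun z hz => (hloc f1 z hz).1) x hx).1,
        (hloc (fun z hz => (hloc f1 z hz).2) x hx).2] at m1
      rw [hD t2.smooth1 (fun t x hx => (hVe y' t x hx).1) x hx] at m1'
      rw [hD t1.smooth2 (fun t x hx => (hVe y t x hx).2) x hx, (e1 x hx).1, (e1 x hx).2,
        (hloc f2 x hx).1, (hloc f2 x hx).2,
        (hloc (fun z hz => (hloc f2 z hz).1) x hx).1,
        (hloc (fun z hz => (hloc f2 z hz).2) x hx).2] at m2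
      rw [hD t2.smooth2 (fun t x hx => (hVe y' t x hx).2) x hx] at m2'
      exact ⟨by linarith, by linarith⟩
    obtain ⟨x₀, hx₀⟩ := hconn.nonempty
    have hdiff : DifferentiableOn ℝ (fun x => sl (a y).2.2 0 x - sl (a y').2.2 0 x) Ω :=
      (t1.press 0).sub (t2.press 0)
    have hconst : ∀ x ∈ Ω, sl (a y).2.2 0 x - sl (a y').2.2 0 x =
        sl (a y).2.2 0 x₀ - sl (a y').2.2 0 x₀ := by
      intro x hx
      refine hΩ.is_const_of_fderiv_eq_zero hconn.isPreconnected hdiff (fun z hz => ?_) hx hx₀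
      have q1 := ((t1.press 0).differentiableAt (hΩ.mem_nhds hz)).hasFDerivAt
      have q2 := ((t2.press 0).differentiableAt (hΩ.mem_nhds hz)).hasFDerivAt
      have q3 := (q1.fun_sub q2).fderiv
      rw [q3]
      refine ContinuousLinearMap.ext fun e => ?_
      have := hp z hz
      have e2 : (fderiv ℝ (sl (a y).2.2 0) z - fderiv ℝ (sl (a y').2.2 0) z) e =
          fderiv ℝ (sl (a y).2.2 0) z e - fderiv ℝ (sl (a y').2.2 0) z e := rfl
      rw [e2, fderiv_eq_of_d, fderiv_eq_of_d, this.1, this.2, sub_self]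
      rfl
    obtain ⟨κ, hκ⟩ : ∃ κ : ℝ, κ = sl (a y).2.2 0 x₀ - sl (a y').2.2 0 x₀ := ⟨_, rfl⟩
    rw [← hκ] at hconst
    have i1 : Integrable (fun x => (a y).2.2 (0, x)) (volume.restrict Ω) :=
      ((Lp.memLp (y : L2 Ω)).integrable (by norm_num)).congr (hrep y 0)
    have i2 : Integrable (fun x => (a y').2.2 (0, x)) (volume.restrict Ω) :=
      ((Lp.memLp (y' : L2 Ω)).integrable (by norm_num)).congr (hrep y' 0)
    have i3 := integral_sub i1 i2
    have i4 : ∫ x in Ω, ((a y).2.2 (0, x) - (a y').2.2 (0, x)) = ∫ _x in Ω, κ :=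
      setIntegral_congr_fun hΩ.measurableSet (fun x hx => hconst x hx)
    rw [hA.mean _ (haA y) 0, hA.mean _ (haA y') 0, sub_self, i4,
      setIntegral_const, smul_eq_mul] at i3
    have hvol : volume.real Ω ≠ 0 := by
      rw [Measure.real, ENNReal.toReal_ne_zero]
      exact ⟨(hΩ.measure_pos volume hconn.nonempty).ne', hb.measure_lt_top.ne⟩
    have hκ0 : κ = 0 := (mul_eq_zero.1 i3).resolve_left hvol
    have hyy' : (y : L2 Ω) = y' := by
      refine Lp.ext ?_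
      filter_upwards [hrep y 0, hrep y' 0, ae_restrict_mem hΩ.measurableSet] with x h1 h2 hx
      simp only [ContinuousMap.const_apply] at h1 h2
      rw [h1, h2]
      have := hconst x hx
      rw [hκ0] at this
      simp only [sl] at this
      linarith
    exact Subtype.ext hyy'
  have : Countable S := hSc.to_subtype
  exact hinj.countable

/-- one functional, given uniqueness of the velocity for given pressure -/
theorem functional_of_uniq {Ω : Set P2} (hΩ : IsOpen Ω) (hconn : IsConnected Ω)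
    (hb : Bornology.IsBounded Ω) {ν : ℝ} {g1 g2 : P2 → ℝ} {A : Set Fld}
    (hA : IsFamilyS Ω ν g1 g2 A)
    (hS : ∃ S : Set ((P2 → ℝ) × (P2 → ℝ)), S.Countable ∧ ∀ U1 U2 q : P2 → ℝ,
      IsSteadyS Ω ν g1 g2 U1 U2 q → ∃ V ∈ S, ∀ x ∈ Ω, U1 x = V.1 x ∧ U2 x = V.2 x)
    (hone : ∀ a ∈ A, ∀ b ∈ A, (∀ t, ∀ x ∈ Ω, a.2.2 (t, x) = b.2.2 (t, x)) →
      ∀ t, ∀ x ∈ Ω, a.1 (t, x) = b.1 (t, x) ∧ a.2.1 (t, x) = b.2.1 (t, x)) :
    ∃ F : BoundedContinuousFunction (L2 Ω) ℝ,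
      (∀ a ∈ A, ∀ b ∈ A, ∀ P Q : C(ℝ, L2 Ω), Rep Ω P a.2.2 → Rep Ω Q b.2.2 →
        (∀ t, F (P t) = F (Q t)) →
        ∀ t, ∀ x ∈ Ω, a.1 (t, x) = b.1 (t, x) ∧ a.2.1 (t, x) = b.2.1 (t, x)) ∧
      (∀ U1 U2 Q V1 V2 R : ℝ → L2 Ω, Attracted Ω A U1 U2 Q → Attracted Ω A V1 V2 R →
        Tendsto (fun t => F (Q t) - F (R t)) atTop (𝓝 0) →
        Tendsto (fun t => ‖U1 t - V1 t‖) atTop (𝓝 0) ∧
        Tendsto (fun t => ‖U2 t - V2 t‖) atTop (𝓝 0)) := by
  have hpress : ∀ a ∈ A, ∀ t, ContinuousOn (sl a.2.2 t) Ω := fun a ha t =>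
    ((hA.traj a ha).press t).continuousOn
  have hcount := count_const hΩ hconn hb hA hS (fun a ha y hy =>
    const_steady hΩ hpress hone hA.shift ha hy)
  have : Fact ((2 : ENNReal) ≠ ⊤) := ⟨by norm_num⟩
  obtain ⟨F, hF⟩ := exists_observable hA.compact hcount
  refine ⟨F, ?_, ?_⟩
  · intro a ha b hb' P Q hP hQ h
    have hPQ := hF P ⟨a, ha, hP⟩ Q ⟨b, hb', hQ⟩ h
    subst hPQ
    exact eq_of_curve hΩ hpress hone ha hb' hP hQ
  · intro U1 U2 Q V1 V2 R hU hV hlim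
    exact asymp hΩ hpress hone hF hU hV hlim

end Run7.h105
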