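import Pool.Agent.Run7.h105.LocF

/-!
# Two trajectories with the same pressure and the curl of the force at a wall point
-/

set_option autoImplicit false

namespace Run7.h105

open Set Filter Topology MeasureTheory Pool.Agent.H754R3.PR

/-- `(u1, u2)` with pressure `p` (functions of `(t, x)`) is a complete classical trajectory in `Ω`
with time-independent force `(g1, g2)`, viscosity `ν` and no slip on the frontier. -/
structure IsTrajS (Ω : Set P2) (ν : ℝ) (g1 g2 : P2 → ℝ) (u1 u2 p : P3 → ℝ) : Prop where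
  smooth1 : ContDiff ℝ 3 u1
  smooth2 : ContDiff ℝ 3 u2
  press : ∀ t, DifferentiableOn ℝ (sl p t) Ω
  mom1 : ∀ t, ∀ x ∈ Ω, Dt u1 (t, x) + u1 (t, x) * d1 (sl u1 t) x + u2 (t, x) * d2 (sl u1 t) x
    + d1 (sl p t) x = ν * (d1 (d1 (sl u1 t)) x + d2 (d2 (sl u1 t)) x) + g1 x
  mom2 : ∀ t, ∀ x ∈ Ω, Dt u2 (t, x) + u1 (t, x) * d1 (sl u2 t) x + u2 (t, x) * d2 (sl u2 t) x
    + d2 (sl p t) x = ν * (d1 (d1 (sl u2 t)) x + d2 (d2 (sl u2 t)) x) + g2 x
  div : ∀ t, ∀ x ∈ Ω, d1 (sl u1 t) x + d2 (sl u2 t) x = 0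
  noslip : ∀ t, ∀ x ∈ frontier Ω, u1 (t, x) = 0 ∧ u2 (t, x) = 0

/-- the second derivatives of a function with given `C¹` gradient commute -/
lemma curl_grad {Ω : Set P2} (hΩ : IsOpen Ω) {p M1 M2 : P2 → ℝ} (hp : DifferentiableOn ℝ p Ω)
    (hM1 : Differentiable ℝ M1) (hM2 : Differentiable ℝ M2) (h1 : ∀ x ∈ Ω, d1 p x = M1 x)
    (h2 : ∀ x ∈ Ω, d2 p x = M2 x) : ∀ x ∈ Ω, d2 M1 x = d1 M2 x := by
  intro x hx
  obtain ⟨f', hf'⟩ : ∃ f' : P2 → (P2 →L[ℝ] ℝ), f' = fun y =>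
    M1 y • ContinuousLinearMap.fst ℝ ℝ ℝ + M2 y • ContinuousLinearMap.snd ℝ ℝ ℝ := ⟨_, rfl⟩
  have e1 : ∀ᶠ y in 𝓝 x, HasFDerivAt p (f' y) y := by
    filter_upwards [hΩ.mem_nhds hx] with y hy
    have h3 : Gr p (d1 p y) (d2 p y) y := Gr.of (hp.differentiableAt (hΩ.mem_nhds hy))
    rw [h1 y hy, h2 y hy] at h3
    rw [hf']
    exact h3
  have e2 : HasFDerivAt f' ((fderiv ℝ M1 x).smulRight (ContinuousLinearMap.fst ℝ ℝ ℝ)
      + (fderiv ℝ M2 x).smulRight (ContinuousLinearMap.snd ℝ ℝ ℝ)) x := by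
    have k1 : HasFDerivAt (fun y => M1 y • ContinuousLinearMap.fst ℝ ℝ ℝ)
      ((fderiv ℝ M1 x).smulRight (ContinuousLinearMap.fst ℝ ℝ ℝ)) x :=
      (hM1 x).hasFDerivAt.smul_const (ContinuousLinearMap.fst ℝ ℝ ℝ)
    have k2 : HasFDerivAt (fun y => M2 y • ContinuousLinearMap.snd ℝ ℝ ℝ)
      ((fderiv ℝ M2 x).smulRight (ContinuousLinearMap.snd ℝ ℝ ℝ)) x :=
      (hM2 x).hasFDerivAt.smul_const (ContinuousLinearMap.snd ℝ ℝ ℝ)
    rw [hf']
    exact k1.add k2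
  have e3 := second_derivative_symmetric_of_eventually e1 e2 (0, 1) (1, 0)
  simpa [d1, d2] using e3

/-- Laplacian -/
noncomputable def lp (f : P2 → ℝ) (y : P2) : ℝ := d1 (d1 f) y + d2 (d2 f) y

lemma lp_contDiff {f : P2 → ℝ} (hf : ContDiff ℝ 3 f) : ContDiff ℝ 1 (lp f) :=
  (d1_contDiff (m := 1) (n := 2) (d1_contDiff (m := 2) (n := 3) hf (by norm_num))
    (by norm_num)).add
  (d2_contDiff (m := 1) (n := 2) (d2_contDiff (m := 2) (n := 3) hf (by norm_num)) (by norm_num))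

/-- the curl of the momentum equation at the wall -/
lemma curl_id {Ω : Set P2} (hΩ : IsOpen Ω) {ν : ℝ} {g1 g2 : P2 → ℝ} {u1 u2 p : P3 → ℝ}
    (hu : IsTrajS Ω ν g1 g2 u1 u2 p) (hg1 : ContDiff ℝ 1 g1) (hg2 : ContDiff ℝ 1 g2) (t : ℝ)
    {z : P2} (hz : z ∈ frontier Ω) :
    ν * (d1 (lp (sl u2 t)) z - d2 (lp (sl u1 t)) z) + (d1 g2 z - d2 g1 z)
      - (d1 (sl (Dt u2) t) z - d2 (sl (Dt u1) t) z) = 0 := by
  have S3 : ∀ {F : P3 → ℝ}, ContDiff ℝ 3 F → ContDiff ℝ 3 (sl F t) := fun hF =>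
    sl_contDiff (n := 3) hF t
  have K2 : ∀ {F : P3 → ℝ}, ContDiff ℝ 3 F → ContDiff ℝ 2 (sl (Dt F) t) := fun hF =>
    sl_contDiff (n := 2) (Dt_contDiff (n := 3) (m := 2) hF (by norm_num)) t
  have a1 := S3 hu.smooth1
  have a2 := S3 hu.smooth2
  have b1 : ContDiff ℝ 2 (d1 (sl u1 t)) := d1_contDiff (m := 2) (n := 3) a1 (by norm_num)
  have b2 : ContDiff ℝ 2 (d2 (sl u1 t)) := d2_contDiff (m := 2) (n := 3) a1 (by norm_num)
  have b3 : ContDiff ℝ 2 (d1 (sl u2 t)) := d1_contDiff (m := 2) (n := 3) a2 (by norm_num)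
  have b4 : ContDiff ℝ 2 (d2 (sl u2 t)) := d2_contDiff (m := 2) (n := 3) a2 (by norm_num)
  have c1 := lp_contDiff a1
  have c2 := lp_contDiff a2
  have e1 : ContDiff ℝ 1 (sl (Dt u1) t) := (K2 hu.smooth1).of_le (by norm_num)
  have e2 : ContDiff ℝ 1 (sl (Dt u2) t) := (K2 hu.smooth2).of_le (by norm_num)
  have a1' : ContDiff ℝ 1 (sl u1 t) := a1.of_le (by norm_num)
  have a2' : ContDiff ℝ 1 (sl u2 t) := a2.of_le (by norm_num)
  have b1' : ContDiff ℝ 1 (d1 (sl u1 t)) := b1.of_le (by norm_num)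
  have b2' : ContDiff ℝ 1 (d2 (sl u1 t)) := b2.of_le (by norm_num)
  have b3' : ContDiff ℝ 1 (d1 (sl u2 t)) := b3.of_le (by norm_num)
  have b4' : ContDiff ℝ 1 (d2 (sl u2 t)) := b4.of_le (by norm_num)
  obtain ⟨M1, hM1⟩ : ∃ M1 : P2 → ℝ, M1 = fun y => ((ν * lp (sl u1 t) y + g1 y)
    - sl (Dt u1) t y) - (sl u1 t y * d1 (sl u1 t) y + sl u2 t y * d2 (sl u1 t) y) := ⟨_, rfl⟩
  obtain ⟨M2, hM2⟩ : ∃ M2 : P2 → ℝ, M2 = fun y => ((ν * lp (sl u2 t) y + g2 y)
    - sl (Dt u2) t y) - (sl u1 t y * d1 (sl u2 t) y + sl u2 t y * d2 (sl u2 t) y) := ⟨_, rfl⟩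
  have hM1c : ContDiff ℝ 1 M1 := by
    rw [hM1]
    exact (((contDiff_const.mul c1).add hg1).sub e1).sub ((a1'.mul b1').add (a2'.mul b2'))
  have hM2c : ContDiff ℝ 1 M2 := by
    rw [hM2]
    exact (((contDiff_const.mul c2).add hg2).sub e2).sub ((a1'.mul b3').add (a2'.mul b4'))
  have hcurl := curl_grad hΩ (hu.press t) (hM1c.differentiable (by norm_num))
    (hM2c.differentiable (by norm_num)) (fun x hx => by
      have := hu.mom1 t x hx
      rw [hM1]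
      simp only [lp, sl] at this ⊢
      linarith) (fun x hx => by
      have := hu.mom2 t x hx
      rw [hM2]
      simp only [lp, sl] at this ⊢
      linarith)
  have cM1 : Continuous (d2 M1) := (d2_contDiff (m := 0) (n := 1) hM1c (by norm_num)).continuous
  have cM2 : Continuous (d1 M2) := (d1_contDiff (m := 0) (n := 1) hM2c (by norm_num)).continuous
  have hb := zero_on_frontier (cM1.sub cM2) (fun x hx => by
    simp only [Pi.sub_apply]
    rw [hcurl x hx, sub_self]) z hz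
  simp only [Pi.sub_apply] at hb
  have D : ∀ {F : P2 → ℝ}, ContDiff ℝ 1 F → Differentiable ℝ F := fun h =>
    h.differentiable (by norm_num)
  have G1 := ((((Gr.of (D c1 z)).cmul ν).add (Gr.of (D hg1 z))).sub (Gr.of (D e1 z))).sub
    (((Gr.of (D a1' z)).mul (Gr.of (D b1' z))).add ((Gr.of (D a2' z)).mul (Gr.of (D b2' z))))
  have G2 := ((((Gr.of (D c2 z)).cmul ν).add (Gr.of (D hg2 z))).sub (Gr.of (D e2 z))).sub
    (((Gr.of (D a1' z)).mul (Gr.of (D b3' z))).add ((Gr.of (D a2' z)).mul (Gr.of (D b4' z))))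
  have q1 := (G1.ev hM1).d2
  have q2 := (G2.ev hM2).d1
  rw [q1, q2] at hb
  have n := hu.noslip t z hz
  have n1 : sl u1 t z = 0 := n.1
  have n2 : sl u2 t z = 0 := n.2
  have hdiv := zero_on_frontier (b1'.continuous.add b4'.continuous) (fun x hx => hu.div t x hx) z hz
  simp only [Pi.add_apply] at hdiv
  rw [n1, n2] at hb
  linear_combination (-1 : ℝ) * hb - (d2 (sl u1 t) z - d1 (sl u2 t) z) * hdiv

/-- derivatives vanish where the function vanishes, up to the closure -/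
lemma flat_step {N : Set P2} (hN : IsOpen N) {s : P2 → ℝ} (h : ∀ y ∈ N, s y = 0) :
    (∀ y ∈ N, d1 s y = 0) ∧ (∀ y ∈ N, d2 s y = 0) := by
  constructor <;> intro y hy
  · exact (d12_zero (by filter_upwards [hN.mem_nhds hy] with x hx using h x hx)).1
  · exact (d12_zero (by filter_upwards [hN.mem_nhds hy] with x hx using h x hx)).2

lemma flat_cl {N : Set P2} {f : P2 → ℝ} (hf : Continuous f) (h : ∀ y ∈ N, f y = 0) {z : P2}
    (hz : z ∈ closure N) : f z = 0 := by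
  have h1 : closure N ⊆ {x | f x = 0} := closure_minimal h (isClosed_eq hf continuous_const)
  exact h1 hz

lemma flat_all {N : Set P2} (hN : IsOpen N) {s : P2 → ℝ} (hs : ContDiff ℝ 3 s)
    (h : ∀ y ∈ N, s y = 0) {z : P2} (hz : z ∈ closure N) :
    d1 s z = 0 ∧ d2 s z = 0 ∧ d1 (lp s) z = 0 ∧ d2 (lp s) z = 0 := by
  obtain ⟨h1, h2⟩ := flat_step hN h
  have h11 := (flat_step hN h1).1
  have h22 := (flat_step hN h2).2
  have hl : ∀ y ∈ N, lp s y = 0 := fun y hy => by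
    unfold lp
    rw [h11 y hy, h22 y hy, add_zero]
  obtain ⟨h3, h4⟩ := flat_step hN hl
  have c1 : Continuous (d1 s) :=
    (d1_contDiff (m := 2) (n := 3) hs (by norm_num)).continuous
  have c2 : Continuous (d2 s) :=
    (d2_contDiff (m := 2) (n := 3) hs (by norm_num)).continuous
  have c3 : Continuous (d1 (lp s)) :=
    (d1_contDiff (m := 0) (n := 1) (lp_contDiff hs) (by norm_num)).continuous
  have c4 : Continuous (d2 (lp s)) :=
    (d2_contDiff (m := 0) (n := 1) (lp_contDiff hs) (by norm_num)).continuous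
  exact ⟨flat_cl c1 h1 hz, flat_cl c2 h2 hz, flat_cl c3 h3 hz, flat_cl c4 h4 hz⟩

end Run7.h105
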