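import Pool.Agent.Run7.h105.GenA

/-!
# Two trajectories with the same pressure: wall dichotomy
-/

set_option autoImplicit false

namespace Run7.h105

open Set Filter Topology MeasureTheory Pool.Agent.H754R3.PR

/-- difference -/
def dif (F G : P3 → ℝ) (z : P3) : ℝ := F z - G z

/-- mean -/
noncomputable def avg (F G : P3 → ℝ) (z : P3) : ℝ := 1 / 2 * (F z + G z)

section

variable {F G : P3 → ℝ}

lemma dif_contDiff {n : WithTop ℕ∞} (hF : ContDiff ℝ n F) (hG : ContDiff ℝ n G) :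
    ContDiff ℝ n (dif F G) := hF.sub hG

lemma avg_contDiff {n : WithTop ℕ∞} (hF : ContDiff ℝ n F) (hG : ContDiff ℝ n G) :
    ContDiff ℝ n (avg F G) := contDiff_const.mul (hF.add hG)

variable (hF : ContDiff ℝ 3 F) (hG : ContDiff ℝ 3 G)

include hF hG

lemma dif_d1 (t : ℝ) : d1 (sl (dif F G) t) = fun y => d1 (sl F t) y - d1 (sl G t) y :=
  funext fun y => d1_sub ((sl_contDiff (n := 3) hF t).differentiable (by norm_num))
    ((sl_contDiff (n := 3) hG t).differentiable (by norm_num)) y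

lemma dif_d2 (t : ℝ) : d2 (sl (dif F G) t) = fun y => d2 (sl F t) y - d2 (sl G t) y :=
  funext fun y => d2_sub ((sl_contDiff (n := 3) hF t).differentiable (by norm_num))
    ((sl_contDiff (n := 3) hG t).differentiable (by norm_num)) y

lemma avg_d1 (t : ℝ) : d1 (sl (avg F G) t) = fun y => 1 / 2 * (d1 (sl F t) y + d1 (sl G t) y) :=
  funext fun y => (((Gr.of ((sl_contDiff (n := 3) hF t).differentiable (by norm_num) y)).add
    (Gr.of ((sl_contDiff (n := 3) hG t).differentiable (by norm_num) y))).cmul (1 / 2)).d1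

lemma avg_d2 (t : ℝ) : d2 (sl (avg F G) t) = fun y => 1 / 2 * (d2 (sl F t) y + d2 (sl G t) y) :=
  funext fun y => (((Gr.of ((sl_contDiff (n := 3) hF t).differentiable (by norm_num) y)).add
    (Gr.of ((sl_contDiff (n := 3) hG t).differentiable (by norm_num) y))).cmul (1 / 2)).d2

lemma dif_lp (t : ℝ) : lp (sl (dif F G) t) = fun y => lp (sl F t) y - lp (sl G t) y := by
  have D1 : ∀ {F : P2 → ℝ}, ContDiff ℝ 3 F → Differentiable ℝ (d1 F) := fun h =>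
    (d1_contDiff (m := 2) (n := 3) h (by norm_num)).differentiable (by norm_num)
  have D2 : ∀ {F : P2 → ℝ}, ContDiff ℝ 3 F → Differentiable ℝ (d2 F) := fun h =>
    (d2_contDiff (m := 2) (n := 3) h (by norm_num)).differentiable (by norm_num)
  have a1 := sl_contDiff (n := 3) hF t
  have a2 := sl_contDiff (n := 3) hG t
  ext y
  unfold lp
  rw [dif_d1 hF hG, dif_d2 hF hG, d1_sub (D1 a1) (D1 a2), d2_sub (D2 a1) (D2 a2)]
  ring

lemma avg_lp (t : ℝ) : lp (sl (avg F G) t) = fun y => 1 / 2 * (lp (sl F t) y + lp (sl G t) y) := by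
  have D1 : ∀ {F : P2 → ℝ}, ContDiff ℝ 3 F → Differentiable ℝ (d1 F) := fun h =>
    (d1_contDiff (m := 2) (n := 3) h (by norm_num)).differentiable (by norm_num)
  have D2 : ∀ {F : P2 → ℝ}, ContDiff ℝ 3 F → Differentiable ℝ (d2 F) := fun h =>
    (d2_contDiff (m := 2) (n := 3) h (by norm_num)).differentiable (by norm_num)
  have a1 := sl_contDiff (n := 3) hF t
  have a2 := sl_contDiff (n := 3) hG t
  ext y
  unfold lp
  rw [avg_d1 hF hG, avg_d2 hF hG,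
    (((Gr.of (D1 a1 y)).add (Gr.of (D1 a2 y))).cmul (1 / 2)).d1,
    (((Gr.of (D2 a1 y)).add (Gr.of (D2 a2 y))).cmul (1 / 2)).d2]
  ring

lemma dif_Dt (z : P3) : Dt (dif F G) z = Dt F z - Dt G z := by
  have h := (((hF.differentiable (by norm_num)) z).hasFDerivAt.fun_sub
    ((hG.differentiable (by norm_num)) z).hasFDerivAt).fderiv
  have e : dif F G = fun z => F z - G z := rfl
  rw [Dt, e, h]; rfl

lemma avg_Dt (z : P3) : Dt (avg F G) z = 1 / 2 * (Dt F z + Dt G z) := by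
  have h := ((((hF.differentiable (by norm_num)) z).hasFDerivAt.fun_add
    ((hG.differentiable (by norm_num)) z).hasFDerivAt).const_mul (1 / 2)).fderiv
  have e : avg F G = fun z => 1 / 2 * (F z + G z) := rfl
  rw [Dt, e, h]; rfl

end

/-- the relations between two trajectories with the same pressure in a time interval -/
structure Pair (Ω : Set P2) (ν a b : ℝ) (w1 w2 a1 a2 : P3 → ℝ) : Prop where
  w1c : ContDiff ℝ 3 w1
  w2c : ContDiff ℝ 3 w2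
  a1c : ContDiff ℝ 3 a1
  a2c : ContDiff ℝ 3 a2
  divw : ∀ t, ∀ x ∈ Ω, d1 (sl w1 t) x + d2 (sl w2 t) x = 0
  diva : ∀ t, ∀ x ∈ Ω, d1 (sl a1 t) x + d2 (sl a2 t) x = 0
  bw : ∀ t, ∀ x ∈ frontier Ω, w1 (t, x) = 0 ∧ w2 (t, x) = 0
  ba : ∀ t, ∀ x ∈ frontier Ω, a1 (t, x) = 0 ∧ a2 (t, x) = 0
  e1 : ∀ t ∈ Ioo a b, ∀ x ∈ Ω, ν * (d1 (d1 (sl w1 t)) x + d2 (d2 (sl w1 t)) x) =
      Dt w1 (t, x) + (a1 (t, x) * d1 (sl w1 t) x + a2 (t, x) * d2 (sl w1 t) x
        + w1 (t, x) * d1 (sl a1 t) x + w2 (t, x) * d2 (sl a1 t) x)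
  e2 : ∀ t ∈ Ioo a b, ∀ x ∈ Ω, ν * (d1 (d1 (sl w2 t)) x + d2 (d2 (sl w2 t)) x) =
      Dt w2 (t, x) + (a1 (t, x) * d1 (sl w2 t) x + a2 (t, x) * d2 (sl w2 t) x
        + w1 (t, x) * d1 (sl a2 t) x + w2 (t, x) * d2 (sl a2 t) x)

lemma pair_of {Ω : Set P2} (hΩ : IsOpen Ω) {ν a b : ℝ} {g1 g2 : P2 → ℝ}
    {u1 u2 p v1 v2 q : P3 → ℝ} (hu : IsTrajS Ω ν g1 g2 u1 u2 p)
    (hv : IsTrajS Ω ν g1 g2 v1 v2 q)
    (hpq : ∃ k : ℝ → ℝ, ∀ t ∈ Ioo a b, ∀ x ∈ Ω, p (t, x) = q (t, x) + k t) :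
    Pair Ω ν a b (dif u1 v1) (dif u2 v2) (avg u1 v1) (avg u2 v2) := by
  obtain ⟨k, hk⟩ := hpq
  have hp : ∀ t ∈ Ioo a b, ∀ x ∈ Ω, d1 (sl p t) x = d1 (sl q t) x ∧
      d2 (sl p t) x = d2 (sl q t) x := by
    intro t ht x hx
    have h1 : sl p t =ᶠ[nhds x] fun y => sl q t y + k t := by
      filter_upwards [hΩ.mem_nhds hx] with y hy using hk t ht y hy
    have h2 : fderiv ℝ (sl p t) x = fderiv ℝ (sl q t) x := by
      rw [h1.fderiv_eq, fderiv_add_const]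
    exact ⟨by rw [d1, d1, h2], by rw [d2, d2, h2]⟩
  have hu1 := hu.smooth1
  have hu2 := hu.smooth2
  have hv1 := hv.smooth1
  have hv2 := hv.smooth2
  refine ⟨dif_contDiff hu1 hv1, dif_contDiff hu2 hv2, avg_contDiff hu1 hv1,
    avg_contDiff hu2 hv2, ?_, ?_, ?_, ?_, ?_, ?_⟩
  · intro t x hx
    rw [dif_d1 hu1 hv1, dif_d2 hu2 hv2]
    have e1 := hu.div t x hx
    have e2 := hv.div t x hx
    linarith
  · intro t x hx
    rw [avg_d1 hu1 hv1, avg_d2 hu2 hv2]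
    have e1 := hu.div t x hx
    have e2 := hv.div t x hx
    linarith
  · intro t x hx
    have e1 := hu.noslip t x hx
    have e2 := hv.noslip t x hx
    simp [dif, e1.1, e1.2, e2.1, e2.2]
  · intro t x hx
    have e1 := hu.noslip t x hx
    have e2 := hv.noslip t x hx
    simp [avg, e1.1, e1.2, e2.1, e2.2]
  · intro t ht x hx
    have e1 := hu.mom1 t x hx
    have e2 := hv.mom1 t x hx
    have e3 := congrFun (dif_lp hu1 hv1 t) x
    rw [(hp t ht x hx).1] at e1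
    unfold lp at e3
    rw [e3, dif_Dt hu1 hv1, avg_d1 hu1 hv1, avg_d2 hu1 hv1, dif_d1 hu1 hv1, dif_d2 hu1 hv1]
    simp only [dif, avg]
    linarith
  · intro t ht x hx
    have e1 := hu.mom2 t x hx
    have e2 := hv.mom2 t x hx
    have e3 := congrFun (dif_lp hu2 hv2 t) x
    rw [(hp t ht x hx).2] at e1
    unfold lp at e3
    rw [e3, dif_Dt hu2 hv2, avg_d1 hu2 hv2, avg_d2 hu2 hv2, dif_d1 hu2 hv2, dif_d2 hu2 hv2]
    simp only [dif, avg]
    linarith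

lemma Pair.wall {Ω : Set P2} (hΩ : IsOpen Ω) {ν a b : ℝ} {w1 w2 a1 a2 : P3 → ℝ}
    (H : Pair Ω ν a b w1 w2 a1 a2) {t : ℝ} (ht : t ∈ Ioo a b) :
    WallFld Ω (sl w1 t) (sl w2 t) (sl a1 t) (sl a2 t) := by
  have S3 : ∀ {F : P3 → ℝ}, ContDiff ℝ 3 F → ContDiff ℝ 3 (sl F t) := fun hF =>
    sl_contDiff (n := 3) hF t
  have K2 : ∀ {F : P3 → ℝ}, ContDiff ℝ 3 F → ContDiff ℝ 2 (sl (Dt F) t) := fun hF =>
    sl_contDiff (n := 2) (Dt_contDiff (n := 3) (m := 2) hF (by norm_num)) t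
  have hdk : ∀ x ∈ Ω, d1 (sl (Dt w1) t) x + d2 (sl (Dt w2) t) x = 0 := by
    intro x hx
    have h1 := (hasDerivAt_d1 (H.w1c.of_le (by norm_num)) t x).add
      (hasDerivAt_d2 (H.w2c.of_le (by norm_num)) t x)
    have h2 : ((fun s => d1 (sl w1 s) x) + fun s => d2 (sl w2 s) x) = fun _ => (0 : ℝ) := by
      ext s
      exact H.divw s x hx
    rw [h2] at h1
    exact h1.unique (hasDerivAt_const t (0 : ℝ))
  exact
    { w1c := (S3 H.w1c).of_le (by norm_num)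
      w2c := (S3 H.w2c).of_le (by norm_num)
      m1c := (S3 H.a1c).of_le (by norm_num)
      m2c := (S3 H.a2c).of_le (by norm_num)
      divw := H.divw t
      divm := H.diva t
      tr := mixed_det hΩ (K2 H.w1c) (K2 H.w2c) (S3 H.w1c) (S3 H.w2c) (S3 H.a1c)
        (S3 H.a2c) (H.divw t) (H.diva t) hdk (H.e1 t ht) (H.e2 t ht)
      bw := H.bw t
      bm := H.ba t }

/-- at a wall point where the curl of the force does not vanish, the gradient of the difference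
vanishes -/
theorem grad_zero {Ω : Set P2} (hΩ : IsOpen Ω) {ν a b : ℝ} {g1 g2 : P2 → ℝ}
    {u1 u2 p v1 v2 q : P3 → ℝ} (hu : IsTrajS Ω ν g1 g2 u1 u2 p)
    (hv : IsTrajS Ω ν g1 g2 v1 v2 q)
    (hpq : ∃ k : ℝ → ℝ, ∀ t ∈ Ioo a b, ∀ x ∈ Ω, p (t, x) = q (t, x) + k t)
    (hg1 : ContDiff ℝ 1 g1) (hg2 : ContDiff ℝ 1 g2) {z : P2} (hz : z ∈ frontier Ω)
    (hW : WallAt Ω z) (hcurl : d1 g2 z - d2 g1 z ≠ 0) {t : ℝ} (ht : t ∈ Ioo a b) :
    d1 (sl (dif u1 v1) t) z = 0 ∧ d2 (sl (dif u1 v1) t) z = 0 ∧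
      d1 (sl (dif u2 v2) t) z = 0 ∧ d2 (sl (dif u2 v2) t) z = 0 := by
  have H := pair_of hΩ hu hv hpq
  by_contra hcon
  obtain ⟨Q, hQ⟩ : ∃ Q : ℝ → ℝ, Q = fun s => d1 (sl (dif u1 v1) s) z ^ 2
    + d2 (sl (dif u1 v1) s) z ^ 2 + d1 (sl (dif u2 v2) s) z ^ 2
    + d2 (sl (dif u2 v2) s) z ^ 2 := ⟨_, rfl⟩
  have hQc : Continuous Q := by
    have h1 : ∀ {F : P3 → ℝ}, ContDiff ℝ 3 F → Continuous fun s => d1 (sl F s) z := fun hF =>
      continuous_iff_continuousAt.2 fun s =>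
        (hasDerivAt_d1 (hF.of_le (by norm_num)) s z).continuousAt
    have h2 : ∀ {F : P3 → ℝ}, ContDiff ℝ 3 F → Continuous fun s => d2 (sl F s) z := fun hF =>
      continuous_iff_continuousAt.2 fun s =>
        (hasDerivAt_d2 (hF.of_le (by norm_num)) s z).continuousAt
    rw [hQ]
    exact ((((h1 H.w1c).pow 2).add ((h2 H.w1c).pow 2)).add ((h1 H.w2c).pow 2)).add
      ((h2 H.w2c).pow 2)
  have hQt : Q t ≠ 0 := by
    intro h
    rw [hQ] at h
    simp only at h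
    have s1 := sq_nonneg (d1 (sl (dif u1 v1) t) z)
    have s2 := sq_nonneg (d2 (sl (dif u1 v1) t) z)
    have s3 := sq_nonneg (d1 (sl (dif u2 v2) t) z)
    have s4 := sq_nonneg (d2 (sl (dif u2 v2) t) z)
    have t1 : d1 (sl (dif u1 v1) t) z ^ 2 = 0 := by linarith
    have t2 : d2 (sl (dif u1 v1) t) z ^ 2 = 0 := by linarith
    have t3 : d1 (sl (dif u2 v2) t) z ^ 2 = 0 := by linarith
    have t4 : d2 (sl (dif u2 v2) t) z ^ 2 = 0 := by linarith
    exact hcon ⟨by simpa using t1, by simpa using t2, by simpa using t3, by simpa using t4⟩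
  -- at nearby times the mean vanishes near `z`
  have hnear : ∀ᶠ s in 𝓝 t, ∃ N : Set P2, IsOpen N ∧ z ∈ closure N ∧ N ⊆ Ω ∧
      ∀ y ∈ N, sl (avg u1 v1) s y = 0 ∧ sl (avg u2 v2) s y = 0 := by
    have e1 : ∀ᶠ s in 𝓝 t, Q s ≠ 0 := hQc.continuousAt.eventually (isOpen_ne.mem_nhds hQt)
    have e2 : ∀ᶠ s in 𝓝 t, s ∈ Ioo a b := isOpen_Ioo.mem_nhds ht
    filter_upwards [e1, e2] with s hs1 hs2
    rcases hW _ _ _ _ (H.wall hΩ hs2) with h | ⟨ρ, hρ, h⟩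
    · exfalso
      apply hs1
      rw [hQ]
      simp only [h.1, h.2.1, h.2.2.1, h.2.2.2]
      norm_num
    · refine ⟨Ω ∩ Metric.ball z ρ, hΩ.inter Metric.isOpen_ball, ?_, inter_subset_left,
        fun y hy => h y hy.1 hy.2⟩
      rw [mem_closure_iff_nhds]
      intro N hN
      obtain ⟨y, hy1, hy2⟩ := mem_closure_iff_nhds.1 hz.1 _
        (Filter.inter_mem hN (Metric.ball_mem_nhds z hρ))
      exact ⟨y, hy1.1, hy2, hy1.2⟩
  have S3 : ∀ {F : P3 → ℝ}, ContDiff ℝ 3 F → ∀ s, ContDiff ℝ 3 (sl F s) := fun hF s =>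
    sl_contDiff (n := 3) hF s
  -- the mean is flat
  obtain ⟨N, hN, hzN, -, hN0⟩ := hnear.self_of_nhds
  have f1 := flat_all hN (S3 H.a1c t) (fun y hy => (hN0 y hy).1) hzN
  have f2 := flat_all hN (S3 H.a2c t) (fun y hy => (hN0 y hy).2) hzN
  have k1 : d2 (sl (Dt (avg u1 v1)) t) z = 0 := by
    have h1 := hasDerivAt_d2 (H.a1c.of_le (by norm_num)) t z
    have h2 : (fun s => d2 (sl (avg u1 v1) s) z) =ᶠ[𝓝 t] fun _ => 0 := by
      filter_upwards [hnear] with s ⟨N, hN, hzN, _, hN0⟩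
      exact (flat_all hN (S3 H.a1c s) (fun y hy => (hN0 y hy).1) hzN).2.1
    exact h1.unique ((hasDerivAt_const t (0 : ℝ)).congr_of_eventuallyEq h2)
  have k2 : d1 (sl (Dt (avg u2 v2)) t) z = 0 := by
    have h1 := hasDerivAt_d1 (H.a2c.of_le (by norm_num)) t z
    have h2 : (fun s => d1 (sl (avg u2 v2) s) z) =ᶠ[𝓝 t] fun _ => 0 := by
      filter_upwards [hnear] with s ⟨N, hN, hzN, _, hN0⟩
      exact (flat_all hN (S3 H.a2c s) (fun y hy => (hN0 y hy).2) hzN).1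
    exact h1.unique ((hasDerivAt_const t (0 : ℝ)).congr_of_eventuallyEq h2)
  -- the curl of the momentum equations
  have c1 := curl_id hΩ hu hg1 hg2 t hz
  have c2 := curl_id hΩ hv hg1 hg2 t hz
  have D : ∀ {F : P2 → ℝ}, ContDiff ℝ 1 F → Differentiable ℝ F := fun h =>
    h.differentiable (by norm_num)
  have l1 : d2 (lp (sl (avg u1 v1) t)) z = 1 / 2 * (d2 (lp (sl u1 t)) z
      + d2 (lp (sl v1 t)) z) := by
    rw [avg_lp hu.smooth1 hv.smooth1]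
    exact (((Gr.of (D (lp_contDiff (S3 hu.smooth1 t)) z)).add
      (Gr.of (D (lp_contDiff (S3 hv.smooth1 t)) z))).cmul (1 / 2)).d2
  have l2 : d1 (lp (sl (avg u2 v2) t)) z = 1 / 2 * (d1 (lp (sl u2 t)) z
      + d1 (lp (sl v2 t)) z) := by
    rw [avg_lp hu.smooth2 hv.smooth2]
    exact (((Gr.of (D (lp_contDiff (S3 hu.smooth2 t)) z)).add
      (Gr.of (D (lp_contDiff (S3 hv.smooth2 t)) z))).cmul (1 / 2)).d1
  have K1 : ∀ {F : P3 → ℝ}, ContDiff ℝ 3 F → Differentiable ℝ (sl (Dt F) t) := fun hF =>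
    (sl_contDiff (n := 2) (Dt_contDiff (n := 3) (m := 2) hF (by norm_num)) t).differentiable
      (by norm_num)
  have l3 : d2 (sl (Dt (avg u1 v1)) t) z = 1 / 2 * (d2 (sl (Dt u1) t) z
      + d2 (sl (Dt v1) t) z) := by
    have e : sl (Dt (avg u1 v1)) t = fun y => 1 / 2 * (sl (Dt u1) t y + sl (Dt v1) t y) :=
      funext fun y => avg_Dt hu.smooth1 hv.smooth1 (t, y)
    rw [e]
    exact (((Gr.of (K1 hu.smooth1 z)).add (Gr.of (K1 hv.smooth1 z))).cmul (1 / 2)).d2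
  have l4 : d1 (sl (Dt (avg u2 v2)) t) z = 1 / 2 * (d1 (sl (Dt u2) t) z
      + d1 (sl (Dt v2) t) z) := by
    have e : sl (Dt (avg u2 v2)) t = fun y => 1 / 2 * (sl (Dt u2) t y + sl (Dt v2) t y) :=
      funext fun y => avg_Dt hu.smooth2 hv.smooth2 (t, y)
    rw [e]
    exact (((Gr.of (K1 hu.smooth2 z)).add (Gr.of (K1 hv.smooth2 z))).cmul (1 / 2)).d1
  apply hcurl
  rw [f1.2.2.2] at l1
  rw [f2.2.2.1] at l2
  rw [k1] at l3
  rw [k2] at l4
  linear_combination (1 / 2) * c1 + (1 / 2) * c2 + ν * l2 - ν * l1 - l4 + l3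

/-- Two trajectories with the same pressure during a time interval have the same velocity during
this interval if the curl of the force does not vanish at some strictly convex wall point. -/
theorem generic_uniq {Ω : Set P2} (hΩ : IsOpen Ω) (hconn : IsPreconnected Ω)
    (hb : Bornology.IsBounded Ω) (hbd : BdryClass 2 Ω) {ν a b : ℝ} (hν : 0 < ν)
    {g1 g2 : P2 → ℝ} (hg1 : ContDiff ℝ 1 g1) (hg2 : ContDiff ℝ 1 g2)
    (hg : ∃ z, Curved Ω z ∧ d1 g2 z - d2 g1 z ≠ 0)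
    {u1 u2 p v1 v2 q : P3 → ℝ} (hu : IsTrajS Ω ν g1 g2 u1 u2 p)
    (hv : IsTrajS Ω ν g1 g2 v1 v2 q)
    (hpq : ∃ k : ℝ → ℝ, ∀ t ∈ Ioo a b, ∀ x ∈ Ω, p (t, x) = q (t, x) + k t) :
    ∀ t ∈ Ioo a b, ∀ x ∈ Ω, u1 (t, x) = v1 (t, x) ∧ u2 (t, x) = v2 (t, x) := by
  obtain ⟨z, hz, hzc⟩ := hg
  have H := pair_of hΩ hu hv hpq
  have c1 : Continuous (d2 g1) := (d2_contDiff (m := 0) (n := 1) hg1 (by norm_num)).continuous
  have c2 : Continuous (d1 g2) := (d1_contDiff (m := 0) (n := 1) hg2 (by norm_num)).continuous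
  have hev : ∀ᶠ y in 𝓝 z, (y ∈ frontier Ω → WallAt Ω y) ∧ d1 g2 y - d2 g1 y ≠ 0 :=
    (wall_near hΩ hbd hz).and ((c2.sub c1).continuousAt.eventually (isOpen_ne.mem_nhds hzc))
  obtain ⟨U, hU, hUo, hzU⟩ := eventually_nhds_iff.1 hev
  have key := zero_of_wall hΩ hconn hb hz hν H.w1c H.w2c H.a1c H.a2c H.e1 H.e2 hUo hzU
    (fun t ht y hy hyU => by
      obtain ⟨h1, h2⟩ := hU y hyU
      obtain ⟨k1, k2, k3, k4⟩ := grad_zero hΩ hu hv hpq hg1 hg2 hy (h1 hy) h2 ht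
      exact ⟨⟨(H.bw t y hy).1, k1, k2⟩, ⟨(H.bw t y hy).2, k3, k4⟩⟩)
  intro t ht x hx
  have := key t ht x hx
  simp only [dif] at this
  exact ⟨by linarith [this.1], by linarith [this.2]⟩

end Run7.h105
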