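import Pool.Agent.Run7.h105.Wall

/-!
# A strictly convex and exposed boundary point
-/

set_option autoImplicit false

namespace Run7.h105

open Set Filter Topology MeasureTheory Pool.Agent.H754R3.PR

/-- The frontier of `Ω` is of class `C^n`: near each of its points, `Ω` is one side of the graph of
a `C^n` function of one of the two coordinates. -/
def BdryClass (n : ℕ∞) (Ω : Set P2) : Prop :=
  ∀ z ∈ frontier Ω, ∃ U : Set P2, IsOpen U ∧ z ∈ U ∧ ∃ h : ℝ → ℝ, ContDiff ℝ n h ∧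
    ((∀ p ∈ U, p ∈ Ω ↔ h p.1 < p.2) ∨ (∀ p ∈ U, p ∈ Ω ↔ p.2 < h p.1) ∨
      (∀ p ∈ U, p ∈ Ω ↔ h p.2 < p.1) ∨ (∀ p ∈ U, p ∈ Ω ↔ p.1 < h p.2))

/-- points of the frontier are zeros of a defining function -/
lemma level_zero {Ω U : Set P2} (hΩ : IsOpen Ω) (hU : IsOpen U) {φ : P2 → ℝ} (hφ : Continuous φ)
    (hloc : ∀ p ∈ U, p ∈ Ω ↔ 0 < φ p) {z : P2} (hz : z ∈ U) (hzf : z ∈ frontier Ω) : φ z = 0 := by
  have h1 : z ∉ Ω := by
    intro h
    have := hzf.2
    rw [hΩ.interior_eq] at this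
    exact this h
  have h2 : ¬ 0 < φ z := fun h => h1 ((hloc z hz).2 h)
  by_contra hne
  have h3 : φ z < 0 := lt_of_le_of_ne (not_lt.1 h2) hne
  have h4 : U ∩ {p | φ p < 0} ∈ 𝓝 z :=
    (hU.inter (isOpen_lt hφ continuous_const)).mem_nhds ⟨hz, h3⟩
  obtain ⟨p, hp, hpΩ⟩ := mem_closure_iff_nhds.1 hzf.1 _ h4
  have h5 := (hloc p hp.1).1 hpΩ
  have h6 : φ p < 0 := hp.2
  linarith

lemma not_mem_of_frontier {Ω : Set P2} (hΩ : IsOpen Ω) {z : P2} (hz : z ∈ frontier Ω) : z ∉ Ω := by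
  intro h
  have := hz.2
  rw [hΩ.interior_eq] at this
  exact this h

lemma vert_mem {U : Set P2} (hU : IsOpen U) {c : ℝ → P2} (hc : Continuous c) (h0 : c 0 ∈ U) :
    ∃ δ > 0, ∀ s, |s| < δ → c s ∈ U := by
  obtain ⟨δ, hδ, h⟩ := Metric.isOpen_iff.1 (hU.preimage hc) 0 h0
  refine ⟨δ, hδ, fun s hs => h ?_⟩
  rw [Metric.mem_ball, Real.dist_eq, sub_zero]
  exact hs

theorem exists_exposed {Ω : Set P2} (hΩ : IsOpen Ω) (hb : Bornology.IsBounded Ω)
    (hne : Ω.Nonempty) (hs : BdryClass 2 Ω) :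
    ∃ (z₁ O U : _) (h : ℝ → ℝ), IsOpen (U : Set P2) ∧ z₁ ∈ U ∧ z₁ ∈ frontier Ω ∧
      ContDiff ℝ 2 h ∧ (∀ p ∈ U, p ∈ Ω ↔ h p.1 < p.2) ∧ z₁.2 = h z₁.1 ∧
      0 < deriv (deriv h) z₁.1 ∧ ∀ z ∈ closure Ω,
        (z.1 - z₁.1) ^ 2 + (z.2 - z₁.2) ^ 2 + ((z.1 - (O : P2).1) ^ 2 + (z.2 - O.2) ^ 2)
          ≤ (z₁.1 - O.1) ^ 2 + (z₁.2 - O.2) ^ 2 := by
  have hK : IsCompact (closure Ω) := hb.isCompact_closure
  have hKne : (closure Ω).Nonempty := hne.closure
  -- farthest points from `(0, n)`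
  have hmax : ∀ n : ℕ, ∃ z ∈ closure Ω, ∀ y ∈ closure Ω,
      y.1 ^ 2 + (y.2 - n) ^ 2 ≤ z.1 ^ 2 + (z.2 - n) ^ 2 := by
    intro n
    obtain ⟨z, hz, h⟩ := hK.exists_isMaxOn hKne
      (f := fun y : P2 => y.1 ^ 2 + (y.2 - n) ^ 2) (by fun_prop)
    exact ⟨z, hz, fun y hy => h hy⟩
  choose z hzK hzmax using hmax
  obtain ⟨zb, hzb, φ, hφ, hlim⟩ := hK.tendsto_subseq hzK
  -- the limit is a lowest point
  have hlow : ∀ y ∈ closure Ω, zb.2 ≤ y.2 := by
    intro y hy
    obtain ⟨M, hM⟩ := hK.exists_bound_of_continuousOn (f := fun y : P2 => y.1 ^ 2 + y.2 ^ 2)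
      (by fun_prop)
    have hM0 : 0 ≤ M := (norm_nonneg _).trans (hM y hy)
    have h1 : ∀ n : ℕ, 0 < φ n → (z (φ n)).2 ≤ y.2 + M * (1 / (φ n : ℝ)) := by
      intro n hn
      have hn' : (0 : ℝ) < φ n := by exact_mod_cast hn
      have h2 := hzmax (φ n) y hy
      have h3 := hM _ (hzK (φ n))
      have h4 := hM y hy
      rw [Real.norm_eq_abs] at h3 h4
      have h5 := le_abs_self ((z (φ n)).1 ^ 2 + (z (φ n)).2 ^ 2)
      have h6 : 0 ≤ y.1 ^ 2 + y.2 ^ 2 := by positivity
      have h7 : 2 * (φ n : ℝ) * ((z (φ n)).2 - y.2) ≤ M := by nlinarith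
      have h8 : (z (φ n)).2 - y.2 ≤ M * (1 / (φ n : ℝ)) := by
        rw [mul_one_div, le_div_iff₀ hn']
        by_cases h9 : 0 ≤ (z (φ n)).2 - y.2
        · nlinarith
        · push Not at h9
          nlinarith
      linarith
    have h2 : Tendsto (fun n => (z (φ n)).2) atTop (𝓝 zb.2) :=
      (continuous_snd.tendsto zb).comp hlim
    have h3 : Tendsto (fun n => y.2 + M * (1 / (φ n : ℝ))) atTop (𝓝 (y.2 + M * 0)) := by
      refine tendsto_const_nhds.add (tendsto_const_nhds.mul ?_)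
      have := tendsto_one_div_atTop_nhds_zero_nat (𝕜 := ℝ)
      exact this.comp hφ.tendsto_atTop
    rw [mul_zero, add_zero] at h3
    refine le_of_tendsto_of_tendsto h2 h3 ?_
    filter_upwards [eventually_gt_atTop 0] with n hn
    exact h1 n (lt_of_lt_of_le hn (hφ.id_le n))
  -- points where an open map functional is extreme are on the frontier
  have hzbf : zb ∈ frontier Ω := by
    refine ⟨hzb, fun hi => ?_⟩
    obtain ⟨δ, hδ, h⟩ := vert_mem isOpen_interior (c := fun s => (zb.1, zb.2 - s))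
      (by fun_prop) (by simpa using hi)
    have h1 := h (δ / 2) (by rw [abs_of_pos (by positivity)]; linarith)
    have h2 := hlow _ (subset_closure (interior_subset h1))
    simp only at h2
    linarith
  obtain ⟨U, hU, hzU, h, hh, htype⟩ := hs zb hzbf
  have hhc : Continuous h := hh.continuous
  have htype1 : ∀ p ∈ U, p ∈ Ω ↔ h p.1 < p.2 := by
    rcases htype with h1 | h1 | h1 | h1
    · exact h1
    · exfalso
      have h2 := level_zero hΩ hU (φ := fun p => h p.1 - p.2) (by fun_prop)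
        (fun p hp => by rw [h1 p hp, sub_pos]) hzU hzbf
      obtain ⟨δ, hδ, h3⟩ := vert_mem hU (c := fun s => (zb.1, zb.2 - s))
        (by fun_prop) (by simpa using hzU)
      have h4 := h3 (δ / 2) (by rw [abs_of_pos (by positivity)]; linarith)
      have h5 := (h1 _ h4).2 (by simp only at h2 ⊢; linarith)
      have h6 := hlow _ (subset_closure h5)
      simp only at h6
      linarith
    · exfalso
      have h2 := level_zero hΩ hU (φ := fun p => p.1 - h p.2) (by fun_prop)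
        (fun p hp => by rw [h1 p hp, sub_pos]) hzU hzbf
      obtain ⟨δ, hδ, h3⟩ := vert_mem hU (c := fun s => (h (zb.2 - s) + s, zb.2 - s))
        (by fun_prop) (by
          have : h zb.2 = zb.1 := by linarith
          simp only [sub_zero, add_zero, this]
          exact hzU)
      have h4 := h3 (δ / 2) (by rw [abs_of_pos (by positivity)]; linarith)
      have h5 := (h1 _ h4).2 (by linarith)
      have h6 := hlow _ (subset_closure h5)
      simp only at h6
      linarith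
    · exfalso
      have h2 := level_zero hΩ hU (φ := fun p => h p.2 - p.1) (by fun_prop)
        (fun p hp => by rw [h1 p hp, sub_pos]) hzU hzbf
      obtain ⟨δ, hδ, h3⟩ := vert_mem hU (c := fun s => (h (zb.2 - s) - s, zb.2 - s))
        (by fun_prop) (by
          have : h zb.2 = zb.1 := by linarith
          simp only [sub_zero, this]
          exact hzU)
      have h4 := h3 (δ / 2) (by rw [abs_of_pos (by positivity)]; linarith)
      have h5 := (h1 _ h4).2 (by linarith)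
      have h6 := hlow _ (subset_closure h5)
      simp only at h6
      linarith
  -- choice of the index
  obtain ⟨N, hN1, hN2⟩ : ∃ N : ℕ, z N ∈ U ∧ (z N).2 < N := by
    have h1 : ∀ᶠ n in atTop, z (φ n) ∈ U := hlim (hU.mem_nhds hzU)
    obtain ⟨M, hM⟩ := hK.exists_bound_of_continuousOn (f := fun y : P2 => y.2) (by fun_prop)
    obtain ⟨M', hM'⟩ := exists_nat_gt M
    obtain ⟨n, hn1, hn2⟩ := (h1.and (eventually_ge_atTop M')).exists
    refine ⟨φ n, hn1, ?_⟩
    have h2 := hM _ (hzK (φ n))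
    rw [Real.norm_eq_abs] at h2
    have h3 : (M' : ℝ) ≤ φ n := by exact_mod_cast hn2.trans (hφ.id_le n)
    linarith [le_abs_self (z (φ n)).2]
  have hzf : z N ∈ frontier Ω := by
    refine ⟨hzK N, fun hi => ?_⟩
    obtain ⟨δ, hδ, h⟩ := vert_mem isOpen_interior (c := fun s => ((z N).1, (z N).2 - s))
      (by fun_prop) (by simpa using hi)
    have h1 := h (δ / 2) (by rw [abs_of_pos (by positivity)]; linarith)
    have h2 := hzmax N _ (subset_closure (interior_subset h1))
    nlinarith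
  have hgr : (z N).2 = h (z N).1 := by
    have h2 := level_zero hΩ hU (φ := fun p => p.2 - h p.1) (by fun_prop)
        (fun p hp => by rw [htype1 p hp, sub_pos]) hN1 hzf
    linarith
  refine ⟨z N, (2 * 0 - (z N).1, 2 * (N : ℝ) - (z N).2), U, h, hU, hN1, hzf, hh, htype1, hgr,
    ?_, ?_⟩
  · -- strict convexity
    by_contra hcon
    push Not at hcon
    obtain ⟨x₁, hx₁⟩ : ∃ x₁ : ℝ, x₁ = (z N).1 := ⟨_, rfl⟩
    rw [← hx₁] at hcon hgr
    have hd1 : ∀ x, HasDerivAt h (deriv h x) x := fun x =>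
      ((hh.differentiable (by norm_num)) x).hasDerivAt
    have hkc : ContDiff ℝ 1 (deriv h) := by
      have h2 : ContDiff ℝ (1 + 1) h := by norm_num; exact hh
      exact ((contDiff_succ_iff_deriv (n := 1)).1 h2).2.2
    have hd2 : ∀ x, HasDerivAt (deriv h) (deriv (deriv h) x) x := fun x =>
      ((hkc.differentiable (by norm_num)) x).hasDerivAt
    obtain ⟨ψ, hψ⟩ : ∃ ψ : ℝ → ℝ, ψ = fun x => x ^ 2 + (h x - N) ^ 2 := ⟨_, rfl⟩
    have e1 : ∀ x, HasDerivAt ψ (2 * x + 2 * (h x - N) * deriv h x) x := by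
      intro x
      rw [hψ]
      have k1 := (hasDerivAt_id x).pow 2
      have k2 := ((hd1 x).sub_const (N : ℝ)).pow 2
      refine (k1.add k2).congr_deriv ?_
      simp
    have e2 : deriv ψ = fun x => 2 * x + 2 * (h x - N) * deriv h x := funext fun x => (e1 x).deriv
    have e3 : HasDerivAt (deriv ψ)
        (2 + (2 * deriv h x₁ * deriv h x₁ + 2 * (h x₁ - N) * deriv (deriv h) x₁)) x₁ := by
      rw [e2]
      have k1 := (hasDerivAt_id x₁).const_mul 2
      have k2 := (((hd1 x₁).sub_const (N : ℝ)).const_mul 2).mul (hd2 x₁)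
      refine (k1.add k2).congr_deriv ?_
      simp
    have hmaxψ : IsLocalMax ψ x₁ := by
      have hc : Continuous fun s : ℝ => ((s, h s) : P2) := by fun_prop
      have hmem : ((x₁, h x₁) : P2) ∈ U := by
        rw [← hgr, hx₁]; exact hN1
      have h1 : (fun s : ℝ => ((s, h s) : P2)) ⁻¹' U ∈ 𝓝 x₁ := (hU.preimage hc).mem_nhds hmem
      filter_upwards [h1] with s hs
      have h2 := (graph_frontier hU htype1 hs).1
      have h3 := hzmax N _ h2
      simp only at h3
      rw [hψ]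
      simp only
      rw [← hgr, hx₁]
      exact h3
    have hz0 : deriv ψ x₁ = 0 := hmaxψ.deriv_eq_zero
    have hpos : 0 < deriv (deriv ψ) x₁ := by
      rw [e3.deriv]
      have h1 : h x₁ - N < 0 := by rw [← hgr]; linarith
      have h2 : 0 ≤ (h x₁ - N) * deriv (deriv h) x₁ := mul_nonneg_of_nonpos_of_nonpos h1.le hcon
      nlinarith [mul_self_nonneg (deriv h x₁)]
    have hminψ : IsLocalMin ψ x₁ :=
      isLocalMin_of_deriv_deriv_pos hpos hz0 (e1 x₁).continuousAt
    have heq : ψ =ᶠ[𝓝 x₁] fun _ => ψ x₁ := by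
      filter_upwards [hmaxψ, hminψ] with s h1 h2
      exact le_antisymm h1 h2
    have h1 : deriv ψ =ᶠ[𝓝 x₁] fun _ => 0 := by
      filter_upwards [heq.eventuallyEq_nhds] with s h1
      rw [h1.deriv_eq]
      simp
    have h2 : deriv (deriv ψ) x₁ = 0 := by
      rw [h1.deriv_eq]; simp
    linarith
  · intro y hy
    have h1 := hzmax N y hy
    simp only
    nlinarith

end Run7.h105
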