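import Pool.Agent.H754R3.PR.Traj

/-!
# Gradient calculus in the plane

`Gr f a b x`: the function `f` is differentiable at `x` with gradient `(a, b)`.
-/

set_option autoImplicit false

namespace Run7.h105

open Set Filter Topology MeasureTheory Pool.Agent.H754R3.PR

/-- `f` is differentiable at `x` with gradient `(a, b)` -/
def Gr (f : P2 → ℝ) (a b : ℝ) (x : P2) : Prop :=
  HasFDerivAt f (a • ContinuousLinearMap.fst ℝ ℝ ℝ + b • ContinuousLinearMap.snd ℝ ℝ ℝ) x

variable {f g : P2 → ℝ} {a b c d : ℝ} {x : P2}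

lemma Gr.d1 (h : Gr f a b x) : d1 f x = a := by
  rw [Pool.Agent.H754R3.PR.d1, HasFDerivAt.fderiv h]; simp

lemma Gr.d2 (h : Gr f a b x) : d2 f x = b := by
  rw [Pool.Agent.H754R3.PR.d2, HasFDerivAt.fderiv h]; simp

lemma Gr.of (h : DifferentiableAt ℝ f x) :
    Gr f (Pool.Agent.H754R3.PR.d1 f x) (Pool.Agent.H754R3.PR.d2 f x) x := by
  have h1 := h.hasFDerivAt
  refine h1.congr_fderiv ?_
  refine ContinuousLinearMap.ext fun e => ?_
  rw [fderiv_eq_of_d]
  simp only [ContinuousLinearMap.add_apply, ContinuousLinearMap.smul_apply,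
    ContinuousLinearMap.coe_fst', ContinuousLinearMap.coe_snd', smul_eq_mul]
  ring

lemma Gr.eq (h : Gr f a b x) (h1 : a = c) (h2 : b = d) : Gr f c d x := by rw [← h1, ← h2]; exact h

lemma Gr.fst : Gr (fun y => y.1) 1 0 x := by
  refine hasFDerivAt_fst.congr_fderiv ?_
  refine ContinuousLinearMap.ext fun e => ?_
  simp

lemma Gr.snd : Gr (fun y => y.2) 0 1 x := by
  refine hasFDerivAt_snd.congr_fderiv ?_
  refine ContinuousLinearMap.ext fun e => ?_
  simp

lemma Gr.const (k : ℝ) : Gr (fun _ => k) 0 0 x := by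
  refine (hasFDerivAt_const k x).congr_fderiv ?_
  simp

lemma Gr.add (hf : Gr f a b x) (hg : Gr g c d x) : Gr (fun y => f y + g y) (a + c) (b + d) x := by
  refine (HasFDerivAt.fun_add hf hg).congr_fderiv ?_
  refine ContinuousLinearMap.ext fun e => ?_
  simp; ring

lemma Gr.sub (hf : Gr f a b x) (hg : Gr g c d x) : Gr (fun y => f y - g y) (a - c) (b - d) x := by
  refine (HasFDerivAt.fun_sub hf hg).congr_fderiv ?_
  refine ContinuousLinearMap.ext fun e => ?_
  simp; ring

lemma Gr.mul (hf : Gr f a b x) (hg : Gr g c d x) :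
    Gr (fun y => f y * g y) (f x * c + a * g x) (f x * d + b * g x) x := by
  refine (HasFDerivAt.fun_mul hf hg).congr_fderiv ?_
  refine ContinuousLinearMap.ext fun e => ?_
  simp; ring

lemma Gr.cmul (k : ℝ) (hf : Gr f a b x) : Gr (fun y => k * f y) (k * a) (k * b) x := by
  refine (HasFDerivAt.const_mul hf k).congr_fderiv ?_
  refine ContinuousLinearMap.ext fun e => ?_
  simp; ring

lemma Gr.comp1 {φ : ℝ → ℝ} (hφ : HasDerivAt φ c (f x)) (hf : Gr f a b x) :
    Gr (fun y => φ (f y)) (c * a) (c * b) x := by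
  have := hφ.comp_hasFDerivAt x hf
  refine this.congr_fderiv ?_
  refine ContinuousLinearMap.ext fun e => ?_
  simp; ring

lemma Gr.comp2 {P Q : P2 → ℝ} {e k : ℝ} (hf : Gr f e k (P x, Q x)) (hP : Gr P a b x)
    (hQ : Gr Q c d x) : Gr (fun y => f (P y, Q y)) (e * a + k * c) (e * b + k * d) x := by
  have h1 : HasFDerivAt (fun y => (P y, Q y)) _ x := HasFDerivAt.prodMk hP hQ
  have := HasFDerivAt.comp x (g := f) (f := fun y => (P y, Q y)) hf h1
  refine this.congr_fderiv ?_
  refine ContinuousLinearMap.ext fun e => ?_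
  simp; ring

lemma Gr.ev (h : Gr f a b x) {f' : P2 → ℝ} (h' : f' = f) : Gr f' a b x := by rw [h']; exact h

/-- divergence theorem, pointwise formula for the divergence -/
lemma gauss_div {Ω : Set P2} (hΩ : IsOpen Ω) (hb : Bornology.IsBounded Ω) {V W : P2 → ℝ}
    (hV : ContDiff ℝ 1 V) (hW : ContDiff ℝ 1 W) (hV0 : ∀ x ∈ frontier Ω, V x = 0)
    (hW0 : ∀ x ∈ frontier Ω, W x = 0) {D : P2 → ℝ}
    (hD : ∀ x ∈ Ω, Pool.Agent.H754R3.PR.d1 V x + Pool.Agent.H754R3.PR.d2 W x = D x) :
    ∫ x in Ω, D x = 0 := by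
  have i1 : IntegrableOn (Pool.Agent.H754R3.PR.d1 V) Ω :=
    ((d1_contDiff (m := 0) (n := 1) hV (by norm_num)).continuous.continuousOn.integrableOn_compact
      hb.isCompact_closure).mono_set subset_closure
  have i2 : IntegrableOn (Pool.Agent.H754R3.PR.d2 W) Ω :=
    ((d2_contDiff (m := 0) (n := 1) hW (by norm_num)).continuous.continuousOn.integrableOn_compact
      hb.isCompact_closure).mono_set subset_closure
  have h1 := gauss_d1 hΩ hb hV hV0
  have h2 := gauss_d2 hΩ hb hW hW0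
  have h3 := integral_add i1 i2
  rw [h1, h2, add_zero] at h3
  rw [← h3]
  exact setIntegral_congr_fun hΩ.measurableSet (fun x hx => (hD x hx).symm)

end Run7.h105
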