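import Pool.Agent.Run7.h105.Gr

/-!
# A singular first order system at a curved boundary
-/

set_option autoImplicit false

namespace Run7.h105

open Set Filter Topology MeasureTheory Pool.Agent.H754R3.PR

/-- real-number part -/
lemma hyp_real {a₀ d₀ M C g η a b d a' b' d' A B s : ℝ} (hM : 0 ≤ M) (hg : 0 ≤ g) (hg1 : g ≤ 1) (hη : 0 ≤ η) (hη1 : η ≤ 1) (hs : |s| ≤ 1)
    (ha : a₀ ≤ a) (haM : |a| ≤ M) (hd : d₀ * η ^ 2 ≤ d) (hd' : 0 ≤ d')
    (hb : |b| ≤ M * η ^ 2) (ha' : |a'| ≤ M) (hb' : |b'| ≤ M)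
    (hC1 : 6 * M + 1 ≤ C * a₀) (hC2 : 13 * M + 1 ≤ C * d₀) (hC : 0 ≤ C) :
    A ^ 2 + η ^ 2 * B ^ 2 ≤ C * (a * A ^ 2 + d * B ^ 2) - 8 * η * s * (a * A * B + b * B ^ 2)
      + g * η * (d' * B ^ 2 - a' * A ^ 2 - 2 * b' * A * B) := by
  have hA2 : 0 ≤ A ^ 2 := sq_nonneg A
  have hB2 : 0 ≤ B ^ 2 := sq_nonneg B
  have hηB : 0 ≤ η ^ 2 * B ^ 2 := by positivity
  -- main term
  have k1 : (6 * M + 1) * A ^ 2 ≤ C * (a * A ^ 2) := by
    have h1 : C * a₀ * A ^ 2 ≤ C * a * A ^ 2 := by gcongr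
    have h2 : (6 * M + 1) * A ^ 2 ≤ C * a₀ * A ^ 2 := by gcongr
    linarith
  have k2 : (13 * M + 1) * (η ^ 2 * B ^ 2) ≤ C * (d * B ^ 2) := by
    have h1 : C * (d₀ * η ^ 2) * B ^ 2 ≤ C * d * B ^ 2 := by gcongr
    have h2 : (13 * M + 1) * (η ^ 2 * B ^ 2) ≤ C * d₀ * (η ^ 2 * B ^ 2) := by gcongr
    linarith
  -- cross term
  have k3 : 8 * η * s * (a * A * B) ≤ 4 * M * (A ^ 2 + η ^ 2 * B ^ 2) := by
    have e1 : 8 * η * s * (a * A * B) ≤ |8 * (s * a) * (A * (η * B))| := by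
      refine le_trans (le_of_eq (by ring)) (le_abs_self _)
    have e2 : |8 * (s * a) * (A * (η * B))| = 8 * (|s| * |a|) * |A * (η * B)| := by
      rw [abs_mul, abs_mul, abs_mul s a, abs_of_pos (by norm_num : (0 : ℝ) < 8)]
    have e3 : |s| * |a| ≤ M := by
      have := mul_le_mul hs haM (abs_nonneg _) zero_le_one
      linarith
    have e4 : |A * (η * B)| ≤ (A ^ 2 + η ^ 2 * B ^ 2) / 2 := by
      rw [abs_le]; constructor <;> nlinarith [sq_nonneg (A - η * B), sq_nonneg (A + η * B)]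
    have e5 : 8 * (|s| * |a|) * |A * (η * B)| ≤ 8 * M * ((A ^ 2 + η ^ 2 * B ^ 2) / 2) := by
      gcongr
    linarith
  have k4 : 8 * η * s * (b * B ^ 2) ≤ 8 * M * (η ^ 2 * B ^ 2) := by
    have e1 : 8 * η * s * (b * B ^ 2) ≤ |8 * η * s * (b * B ^ 2)| := le_abs_self _
    have e2 : |8 * η * s * (b * B ^ 2)| = 8 * η * |s| * (|b| * B ^ 2) := by
      rw [abs_mul, abs_mul, abs_mul b, abs_of_nonneg (by positivity : 0 ≤ 8 * η),
        abs_of_nonneg hB2]
    have e3 : 8 * η * |s| * (|b| * B ^ 2) ≤ 8 * 1 * 1 * ((M * η ^ 2) * B ^ 2) := by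
      gcongr
    linarith
  -- lower order terms
  have k5 : g * η * (a' * A ^ 2) ≤ M * A ^ 2 := by
    have e1 : g * η * (a' * A ^ 2) ≤ |g * η * (a' * A ^ 2)| := le_abs_self _
    have e2 : |g * η * (a' * A ^ 2)| = g * η * (|a'| * A ^ 2) := by
      rw [abs_mul, abs_mul, abs_mul, abs_of_nonneg hg, abs_of_nonneg hη, abs_of_nonneg hA2]
    have e3 : g * η * (|a'| * A ^ 2) ≤ 1 * 1 * (M * A ^ 2) := by gcongr
    linarith
  have k6 : g * η * (2 * b' * A * B) ≤ M * (A ^ 2 + η ^ 2 * B ^ 2) := by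
    have e1 : g * η * (2 * b' * A * B) ≤ |2 * g * b' * (A * (η * B))| :=
      le_trans (le_of_eq (by ring)) (le_abs_self _)
    have e2 : |2 * g * b' * (A * (η * B))| = 2 * g * |b'| * |A * (η * B)| := by
      rw [abs_mul, abs_mul, abs_of_nonneg (by positivity : 0 ≤ 2 * g)]
    have e4 : |A * (η * B)| ≤ (A ^ 2 + η ^ 2 * B ^ 2) / 2 := by
      rw [abs_le]; constructor <;> nlinarith [sq_nonneg (A - η * B), sq_nonneg (A + η * B)]
    have e5 : 2 * g * |b'| * |A * (η * B)| ≤ 2 * 1 * M * ((A ^ 2 + η ^ 2 * B ^ 2) / 2) := by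
      gcongr
    linarith
  have k7 : 0 ≤ g * η * (d' * B ^ 2) := by positivity
  nlinarith [k1, k2, k3, k4, k5, k6, k7]

/-- The singular system `A_ξ = B_x`, `(a A + b B)_x + (b A - d B)_ξ = 0` with `A = b = d = 0` on
`ξ = 0`, `a > 0` and `d_ξ > 0` has only the zero solution near `(x₀, 0)`. -/
theorem hyp {A B a b d : P2 → ℝ} (hA : ContDiff ℝ 1 A) (hB : ContDiff ℝ 1 B)
    (ha : ContDiff ℝ 1 a) (hb : ContDiff ℝ 1 b) (hd : ContDiff ℝ 1 d) {x₀ r₀ : ℝ} (hr : 0 < r₀)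
    (e1 : ∀ z : P2, |z.1 - x₀| < r₀ → 0 < z.2 → z.2 < r₀ → d2 A z = d1 B z)
    (e2 : ∀ z : P2, |z.1 - x₀| < r₀ → 0 < z.2 → z.2 < r₀ →
      a z * d1 A z + d1 a z * A z + b z * d1 B z + d1 b z * B z
      + b z * d2 A z + d2 b z * A z - d z * d2 B z - d2 d z * B z = 0)
    (hA0 : ∀ x, |x - x₀| < r₀ → A (x, 0) = 0) (hb0 : ∀ x, |x - x₀| < r₀ → b (x, 0) = 0)
    (hd0 : ∀ x, |x - x₀| < r₀ → d (x, 0) = 0) (hap : 0 < a (x₀, 0)) (hdp : 0 < d2 d (x₀, 0)) :
    ∃ r > 0, ∀ z : P2, |z.1 - x₀| < r → 0 < z.2 → z.2 < r → A z = 0 ∧ B z = 0 := by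
  have cA := hA.continuous
  have cB := hB.continuous
  have ca := ha.continuous
  have cb := hb.continuous
  have cd := hd.continuous
  have ca2 : Continuous (d2 a) := (d2_contDiff (m := 0) (n := 1) ha (by norm_num)).continuous
  have cb2 : Continuous (d2 b) := (d2_contDiff (m := 0) (n := 1) hb (by norm_num)).continuous
  have cd2 : Continuous (d2 d) := (d2_contDiff (m := 0) (n := 1) hd (by norm_num)).continuous
  obtain ⟨a₀, ha₀⟩ : ∃ a₀ : ℝ, a₀ = a (x₀, 0) / 2 := ⟨_, rfl⟩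
  obtain ⟨d₀, hd₀⟩ : ∃ d₀ : ℝ, d₀ = d2 d (x₀, 0) / 2 := ⟨_, rfl⟩
  have ha₀p : 0 < a₀ := by rw [ha₀]; positivity
  have hd₀p : 0 < d₀ := by rw [hd₀]; positivity
  -- choice of the rectangle
  obtain ⟨ε, hε, hball⟩ : ∃ ε > 0, ∀ z : P2, dist z (x₀, 0) < ε → a₀ < a z ∧ d₀ < d2 d z := by
    have h1 : ∀ᶠ z in 𝓝 ((x₀, 0) : P2), a₀ < a z :=
      ca.continuousAt.eventually (lt_mem_nhds (by rw [ha₀]; linarith))
    have h2 : ∀ᶠ z in 𝓝 ((x₀, 0) : P2), d₀ < d2 d z :=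
      cd2.continuousAt.eventually (lt_mem_nhds (by rw [hd₀]; linarith))
    obtain ⟨ε, hε, h⟩ := Metric.eventually_nhds_iff.1 (h1.and h2)
    exact ⟨ε, hε, fun z hz => h hz⟩
  obtain ⟨X, hX⟩ : ∃ X : ℝ, X = min (min (r₀ / 2) (ε / 2)) 1 := ⟨_, rfl⟩
  have hX0 : 0 < X := by rw [hX]; positivity
  have hX1 : X ≤ 1 := by rw [hX]; exact min_le_right _ _
  have hXr : X ≤ r₀ / 2 := by rw [hX]; exact (min_le_left _ _).trans (min_le_left _ _)
  have hXε : X ≤ ε / 2 := by rw [hX]; exact (min_le_left _ _).trans (min_le_right _ _)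
  have hK : IsCompact (Icc (x₀ - X) (x₀ + X) ×ˢ Icc (0 : ℝ) X) :=
    isCompact_Icc.prod isCompact_Icc
  obtain ⟨M1, hM1⟩ := hK.exists_bound_of_continuousOn ca.continuousOn
  obtain ⟨M2, hM2⟩ := hK.exists_bound_of_continuousOn ca2.continuousOn
  obtain ⟨M3, hM3⟩ := hK.exists_bound_of_continuousOn cb2.continuousOn
  obtain ⟨M, hM⟩ : ∃ M : ℝ, M = |M1| + |M2| + |M3| := ⟨_, rfl⟩
  have hM0 : 0 ≤ M := by rw [hM]; positivity
  have hM1' : M1 ≤ M := by rw [hM]; linarith [le_abs_self M1, abs_nonneg M2, abs_nonneg M3]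
  have hM2' : M2 ≤ M := by rw [hM]; linarith [le_abs_self M2, abs_nonneg M1, abs_nonneg M3]
  have hM3' : M3 ≤ M := by rw [hM]; linarith [le_abs_self M3, abs_nonneg M2, abs_nonneg M1]
  have hnear : ∀ z : P2, |z.1 - x₀| ≤ X → 0 ≤ z.2 → z.2 ≤ X → a₀ < a z ∧ d₀ < d2 d z := by
    intro z h1 h2 h3
    refine hball z ?_
    rw [Prod.dist_eq, max_lt_iff, Real.dist_eq, Real.dist_eq, sub_zero, abs_of_nonneg h2]
    constructor <;> linarith
  have hmemK : ∀ z : P2, |z.1 - x₀| ≤ X → 0 ≤ z.2 → z.2 ≤ X →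
      z ∈ Icc (x₀ - X) (x₀ + X) ×ˢ Icc (0 : ℝ) X := by
    intro z h1 h2 h3
    have := abs_le.1 h1
    exact ⟨⟨by linarith, by linarith⟩, ⟨h2, h3⟩⟩
  -- vertical derivative
  have hvert : ∀ {F : P2 → ℝ}, ContDiff ℝ 1 F → ∀ x y : ℝ,
      HasDerivAt (fun s => F (x, s)) (d2 F (x, y)) y := by
    intro F hF x y
    have h1 : HasDerivAt (fun s : ℝ => ((x, s) : P2)) ((0 : ℝ), (1 : ℝ)) y :=
      (hasDerivAt_const y x).prodMk (hasDerivAt_id y)
    exact ((hF.differentiable (by norm_num)) (x, y)).hasFDerivAt.comp_hasDerivAt y h1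
  have hbξ : ∀ z : P2, |z.1 - x₀| ≤ X → 0 ≤ z.2 → z.2 ≤ X → |b z| ≤ M * z.2 := by
    rintro ⟨x, y⟩ h1 h2 h3
    simp only at h1 h2 h3
    have h4 := (convex_Icc (0 : ℝ) X).norm_image_sub_le_of_norm_hasDerivWithin_le
      (f := fun s => b (x, s)) (f' := fun s => d2 b (x, s)) (C := M) (x := 0) (y := y)
      (fun s hs => (hvert hb x s).hasDerivWithinAt)
      (fun s hs => (hM3 (x, s) (hmemK (x, s) h1 hs.1 hs.2)).trans hM3')
      ⟨le_rfl, hX0.le⟩ ⟨h2, h3⟩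
    rw [hb0 x (by linarith), sub_zero, sub_zero, Real.norm_eq_abs, Real.norm_eq_abs,
      abs_of_nonneg h2] at h4
    exact h4
  have hdξ : ∀ z : P2, |z.1 - x₀| ≤ X → 0 ≤ z.2 → z.2 ≤ X → d₀ * z.2 ≤ d z := by
    rintro ⟨x, y⟩ h1 h2 h3
    simp only at h1 h2 h3 ⊢
    have hmono : MonotoneOn (fun s => d (x, s) - d₀ * s) (Icc 0 X) := by
      refine monotoneOn_of_deriv_nonneg (convex_Icc 0 X) ?_ ?_ ?_
      · exact ((cd.comp (by fun_prop : Continuous fun s : ℝ => ((x, s) : P2))).sub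
          (by fun_prop)).continuousOn
      · intro s hs
        exact ((hvert hd x s).sub ((hasDerivAt_id s).const_mul d₀)).differentiableAt.differentiableWithinAt
      · intro s hs
        rw [interior_Icc] at hs
        have h5 : HasDerivAt (fun s => d (x, s) - d₀ * s) (d2 d (x, s) - d₀ * 1) s :=
          (hvert hd x s).sub ((hasDerivAt_id s).const_mul d₀)
        rw [h5.deriv]
        have := (hnear (x, s) h1 hs.1.le hs.2.le).2
        linarith
    have h6 := hmono (⟨le_rfl, hX0.le⟩ : (0 : ℝ) ∈ Icc 0 X) ⟨h2, h3⟩ h2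
    simp only [mul_zero, sub_zero] at h6
    rw [hd0 x (by linarith)] at h6
    linarith
  -- the constant C
  obtain ⟨C, hC⟩ : ∃ C : ℝ, C = 1 + (6 * M + 1) / a₀ + (13 * M + 1) / d₀ := ⟨_, rfl⟩
  have hp1 : 0 ≤ (6 * M + 1) / a₀ := by positivity
  have hp2 : 0 ≤ (13 * M + 1) / d₀ := by positivity
  have hC1 : 1 ≤ C := by rw [hC]; linarith
  have hCa : 6 * M + 1 ≤ C * a₀ := by
    have : (6 * M + 1) / a₀ ≤ C := by rw [hC]; linarith
    rwa [div_le_iff₀ ha₀p] at this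
  have hCd : 13 * M + 1 ≤ C * d₀ := by
    have : (13 * M + 1) / d₀ ≤ C := by rw [hC]; linarith
    rwa [div_le_iff₀ hd₀p] at this
  -- the region
  obtain ⟨g, hg⟩ : ∃ g : P2 → ℝ, g = fun z => X ^ 2 - (z.1 - x₀) * (z.1 - x₀) - C * z.2 :=
    ⟨_, rfl⟩
  have hgc : ContDiff ℝ 1 g := by rw [hg]; fun_prop
  set Ω : Set P2 := {z | 0 < z.2 ∧ 0 < g z} with hΩ
  have hΩo : IsOpen Ω := (isOpen_lt continuous_const continuous_snd).inter
    (isOpen_lt continuous_const hgc.continuous)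
  have hcl : closure Ω ⊆ {z | 0 ≤ z.2 ∧ 0 ≤ g z} := by
    refine closure_minimal (fun z hz => ⟨hz.1.le, hz.2.le⟩) ?_
    exact (isClosed_le continuous_const continuous_snd).inter
      (isClosed_le continuous_const hgc.continuous)
  have hreg : ∀ z ∈ closure Ω, |z.1 - x₀| ≤ X ∧ 0 ≤ z.2 ∧ z.2 ≤ 1 ∧ z.2 ≤ X ∧ 0 ≤ g z ∧
      g z ≤ 1 ∧ z.2 * z.2 ≤ X := by
    intro z hz
    obtain ⟨h1, h2⟩ := hcl hz
    have h3 : g z = X ^ 2 - (z.1 - x₀) * (z.1 - x₀) - C * z.2 := by rw [hg]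
    have h4 : 0 ≤ (z.1 - x₀) * (z.1 - x₀) := mul_self_nonneg _
    have h5 : z.2 ≤ C * z.2 := by nlinarith
    have h6 : X ^ 2 ≤ X := by nlinarith
    have h7 : z.2 ≤ X := by nlinarith
    have h8 : z.2 ≤ 1 := by linarith
    refine ⟨?_, h1, h8, h7, h2, ?_, ?_⟩
    · refine abs_le_of_sq_le_sq ?_ hX0.le
      have : 0 ≤ C * z.2 := by positivity
      nlinarith
    · have : 0 ≤ C * z.2 := by positivity
      nlinarith
    · nlinarith
  have hΩb : Bornology.IsBounded Ω := by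
    refine hK.isBounded.subset ?_
    intro z hz
    obtain ⟨h1, h2, -, h3, -⟩ := hreg z (subset_closure hz)
    exact hmemK z h1 h2 h3
  have hfr : ∀ z ∈ frontier Ω, z.2 = 0 ∨ g z = 0 := by
    intro z hz
    obtain ⟨h1, h2⟩ := hcl hz.1
    have h3 : z ∉ Ω := by
      intro h
      have := hz.2
      rw [hΩo.interior_eq] at this
      exact this h
    by_contra hcon
    push Not at hcon
    exact h3 ⟨lt_of_le_of_ne h1 (Ne.symm hcon.1), lt_of_le_of_ne h2 (Ne.symm hcon.2)⟩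
  -- the vector field
  obtain ⟨E, hE⟩ : ∃ E : P2 → ℝ, E = fun z => (a z * (A z * A z) + d z * (B z * B z)) := ⟨_, rfl⟩
  obtain ⟨F, hF⟩ : ∃ F : P2 → ℝ, F = fun z => (a z * (A z * B z) + b z * (B z * B z)) := ⟨_, rfl⟩
  have hEc : ContDiff ℝ 1 E := by rw [hE]; fun_prop
  have hFc : ContDiff ℝ 1 F := by rw [hF]; fun_prop
  have hsq : ContDiff ℝ 1 (fun z : P2 => ((z.1, z.2 * z.2) : P2)) := by fun_prop
  have hEc' : ContDiff ℝ 1 (fun z : P2 => E (z.1, z.2 * z.2)) := hEc.comp hsq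
  have hFc' : ContDiff ℝ 1 (fun z : P2 => F (z.1, z.2 * z.2)) := hFc.comp hsq
  obtain ⟨V, hV⟩ : ∃ V : P2 → ℝ, V = fun z => (-4) * (z.2 * ((g z * g z) * F (z.1, z.2 * z.2))) :=
    ⟨_, rfl⟩
  obtain ⟨W, hW⟩ : ∃ W : P2 → ℝ, W = fun z => (g z * g z) * E (z.1, z.2 * z.2) := ⟨_, rfl⟩
  have hVc : ContDiff ℝ 1 V := by
    rw [hV]
    exact contDiff_const.mul (contDiff_snd.mul ((hgc.mul hgc).mul hFc'))
  have hWc : ContDiff ℝ 1 W := by
    rw [hW]
    exact (hgc.mul hgc).mul hEc'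
  have hV0 : ∀ z ∈ frontier Ω, V z = 0 := by
    intro z hz
    rw [hV]
    rcases hfr z hz with h | h
    · simp [h]
    · simp [h]
  have hW0 : ∀ z ∈ frontier Ω, W z = 0 := by
    intro z hz
    rw [hW]
    rcases hfr z hz with h | h
    · have h1 := (hreg z hz.1).1
      simp only [h, mul_zero]
      rw [hE]
      simp only
      rw [hA0 z.1 (by linarith), hd0 z.1 (by linarith)]
      ring
    · simp [h]
  have dA := hA.differentiable (by norm_num : (1 : WithTop ℕ∞) ≠ 0)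
  have dB := hB.differentiable (by norm_num : (1 : WithTop ℕ∞) ≠ 0)
  have da := ha.differentiable (by norm_num : (1 : WithTop ℕ∞) ≠ 0)
  have db := hb.differentiable (by norm_num : (1 : WithTop ℕ∞) ≠ 0)
  have dd := hd.differentiable (by norm_num : (1 : WithTop ℕ∞) ≠ 0)
  have hint := gauss_div hΩo hΩb hVc hWc hV0 hW0 (D := fun z => -(2 * (g z * (
      C * (a (z.1, z.2 * z.2) * A (z.1, z.2 * z.2) ^ 2 + d (z.1, z.2 * z.2) * B (z.1, z.2 * z.2) ^ 2)
      - 8 * z.2 * (z.1 - x₀) * (a (z.1, z.2 * z.2) * A (z.1, z.2 * z.2) * B (z.1, z.2 * z.2)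
        + b (z.1, z.2 * z.2) * B (z.1, z.2 * z.2) ^ 2)
      + g z * z.2 * (d2 d (z.1, z.2 * z.2) * B (z.1, z.2 * z.2) ^ 2
        - d2 a (z.1, z.2 * z.2) * A (z.1, z.2 * z.2) ^ 2
        - 2 * d2 b (z.1, z.2 * z.2) * A (z.1, z.2 * z.2) * B (z.1, z.2 * z.2)))))) (by
    intro z hz
    obtain ⟨h1, h2, h3, h4, h5, h6, h7⟩ := hreg z (subset_closure hz)
    have hz2 : 0 < z.2 := hz.1
    obtain ⟨w, hw⟩ : ∃ w : P2, w = (z.1, z.2 * z.2) := ⟨_, rfl⟩
    have E1 := e1 w (by rw [hw]; simp only; linarith) (by rw [hw]; simp only; positivity)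
      (by rw [hw]; simp only; linarith)
    have E2 := e2 w (by rw [hw]; simp only; linarith) (by rw [hw]; simp only; positivity)
      (by rw [hw]; simp only; linarith)
    have gg : Gr g (-2 * (z.1 - x₀)) (-C) z := by
      rw [hg]
      have k1 : Gr (fun y : P2 => y.1 - x₀) 1 0 z := (Gr.fst.sub (Gr.const x₀)).eq (by ring) (by ring)
      exact (((Gr.const (X ^ 2)).sub (k1.mul k1)).sub (Gr.snd.cmul C)).eq (by ring) (by ring)
    have gA : Gr A (d1 A w) (d2 A w) (z.1, z.2 * z.2) := by rw [← hw]; exact Gr.of (dA w)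
    have gB : Gr B (d1 B w) (d2 B w) (z.1, z.2 * z.2) := by rw [← hw]; exact Gr.of (dB w)
    have ga : Gr a (d1 a w) (d2 a w) (z.1, z.2 * z.2) := by rw [← hw]; exact Gr.of (da w)
    have gb : Gr b (d1 b w) (d2 b w) (z.1, z.2 * z.2) := by rw [← hw]; exact Gr.of (db w)
    have gd : Gr d (d1 d w) (d2 d w) (z.1, z.2 * z.2) := by rw [← hw]; exact Gr.of (dd w)
    have gE := ((ga.mul (gA.mul gA)).add (gd.mul (gB.mul gB))).comp2 (P := fun y => y.1)
      (Q := fun y => y.2 * y.2) (Gr.fst (x := z)) ((Gr.snd (x := z)).mul (Gr.snd (x := z)))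
    have gF := ((ga.mul (gA.mul gB)).add (gb.mul (gB.mul gB))).comp2 (P := fun y => y.1)
      (Q := fun y => y.2 * y.2) (Gr.fst (x := z)) ((Gr.snd (x := z)).mul (Gr.snd (x := z)))
    have gV := ((Gr.snd (x := z)).mul ((gg.mul gg).mul gF)).cmul (-4)
    have gW := (gg.mul gg).mul gE
    have eV := (gV.ev (f' := V) (by rw [hV, hF])).d1
    have eW := (gW.ev (f' := W) (by rw [hW, hE])).d2
    rw [eV, eW]
    simp only [← hw]
    rw [E1] at E2 ⊢
    linear_combination (-2 * z.2 * g z ^ 2 * 2 * B w) * E2)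
  obtain ⟨H, hH⟩ : ∃ H : P2 → ℝ, H = fun z => |g z| * (A (z.1, z.2 * z.2) ^ 2
    + z.2 ^ 2 * B (z.1, z.2 * z.2) ^ 2) := ⟨_, rfl⟩
  have hHc : Continuous H := by
    rw [hH]
    have h1 := hgc.continuous
    have h2 : Continuous fun z : P2 => A (z.1, z.2 * z.2) := cA.comp (by fun_prop)
    have h3 : Continuous fun z : P2 => B (z.1, z.2 * z.2) := cB.comp (by fun_prop)
    fun_prop
  have hle : ∫ z in Ω, H z ≤ 0 := by
    rw [← neg_nonneg, ← integral_neg]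
    have hDc : Continuous (fun z => -(2 * (g z * (
      C * (a (z.1, z.2 * z.2) * A (z.1, z.2 * z.2) ^ 2 + d (z.1, z.2 * z.2) * B (z.1, z.2 * z.2) ^ 2)
      - 8 * z.2 * (z.1 - x₀) * (a (z.1, z.2 * z.2) * A (z.1, z.2 * z.2) * B (z.1, z.2 * z.2)
        + b (z.1, z.2 * z.2) * B (z.1, z.2 * z.2) ^ 2)
      + g z * z.2 * (d2 d (z.1, z.2 * z.2) * B (z.1, z.2 * z.2) ^ 2
        - d2 a (z.1, z.2 * z.2) * A (z.1, z.2 * z.2) ^ 2
        - 2 * d2 b (z.1, z.2 * z.2) * A (z.1, z.2 * z.2) * B (z.1, z.2 * z.2)))))) := by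
      have h0 := hgc.continuous
      have q : Continuous fun z : P2 => ((z.1, z.2 * z.2) : P2) := by fun_prop
      have h2 : Continuous fun z : P2 => A (z.1, z.2 * z.2) := cA.comp q
      have h3 : Continuous fun z : P2 => B (z.1, z.2 * z.2) := cB.comp q
      have h4 : Continuous fun z : P2 => a (z.1, z.2 * z.2) := ca.comp q
      have h5 : Continuous fun z : P2 => b (z.1, z.2 * z.2) := cb.comp q
      have h6 : Continuous fun z : P2 => d (z.1, z.2 * z.2) := cd.comp q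
      have h7 : Continuous fun z : P2 => d2 a (z.1, z.2 * z.2) := ca2.comp q
      have h8 : Continuous fun z : P2 => d2 b (z.1, z.2 * z.2) := cb2.comp q
      have h9 : Continuous fun z : P2 => d2 d (z.1, z.2 * z.2) := cd2.comp q
      exact (continuous_const.mul (h0.mul (((continuous_const.mul ((h4.mul (h2.pow 2)).add
        (h6.mul (h3.pow 2)))).sub (((continuous_const.mul continuous_snd).mul
        (continuous_fst.sub continuous_const)).mul (((h4.mul h2).mul h3).add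
        (h5.mul (h3.pow 2))))).add ((h0.mul continuous_snd).mul (((h9.mul (h3.pow 2)).sub
        (h7.mul (h2.pow 2))).sub (((continuous_const.mul h8).mul h2).mul h3)))))).neg
    rw [← hint]
    refine setIntegral_mono_on ?_ ?_ hΩo.measurableSet ?_
    · exact (hDc.continuousOn.integrableOn_compact hΩb.isCompact_closure).mono_set subset_closure
    · exact (hHc.neg.continuousOn.integrableOn_compact hΩb.isCompact_closure).mono_set
        subset_closure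
    · intro z hz
      obtain ⟨h1, h2, h3, h4, h5, h6, h7⟩ := hreg z (subset_closure hz)
      have hz2 : 0 < z.2 := hz.1
      have hgz : 0 < g z := hz.2
      obtain ⟨n1, n2⟩ := hnear (z.1, z.2 * z.2) h1 (mul_self_nonneg _) h7
      have hmK := hmemK (z.1, z.2 * z.2) h1 (mul_self_nonneg _) h7
      have q1 := hdξ (z.1, z.2 * z.2) h1 (mul_self_nonneg _) h7
      have q2 := hbξ (z.1, z.2 * z.2) h1 (mul_self_nonneg _) h7
      have key := hyp_real (a₀ := a₀) (d₀ := d₀) (M := M) (C := C) (g := g z) (η := z.2)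
        (a := a (z.1, z.2 * z.2)) (b := b (z.1, z.2 * z.2)) (d := d (z.1, z.2 * z.2))
        (a' := d2 a (z.1, z.2 * z.2)) (b' := d2 b (z.1, z.2 * z.2))
        (d' := d2 d (z.1, z.2 * z.2)) (A := A (z.1, z.2 * z.2)) (B := B (z.1, z.2 * z.2))
        (s := z.1 - x₀) hM0 h5 h6 h2 h3 (h1.trans hX1) n1.le ((hM1 _ hmK).trans hM1')
        (by rw [pow_two]; exact q1) (by linarith) (by rw [pow_two]; exact q2)
        ((hM2 _ hmK).trans hM2') ((hM3 _ hmK).trans hM3') hCa hCd (by linarith)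
      have hmul := mul_le_mul_of_nonneg_left key hgz.le
      have hnn : 0 ≤ g z * (A (z.1, z.2 * z.2) ^ 2 + z.2 ^ 2 * B (z.1, z.2 * z.2) ^ 2) := by
        positivity
      rw [hH]
      simp only
      rw [abs_of_pos hgz]
      linarith
  have hz := zero_of_int hΩo hΩb hHc (fun z => by rw [hH]; positivity) hle
  -- conclusion
  obtain ⟨ρ, hρ⟩ : ∃ ρ : ℝ, ρ = min (X / 2) ((X ^ 2 / (2 * C)) ^ 2) := ⟨_, rfl⟩
  have hρ0 : 0 < ρ := by
    rw [hρ]
    have : 0 < C := by linarith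
    positivity
  have hρ1 : ρ ≤ X / 2 := by rw [hρ]; exact min_le_left _ _
  have hρ2 : ρ ≤ (X ^ 2 / (2 * C)) ^ 2 := by rw [hρ]; exact min_le_right _ _
  refine ⟨ρ, hρ0, ?_⟩
  rintro ⟨x, y⟩ hx hy0 hy
  simp only at hx hy0 hy
  have hsy : 0 < Real.sqrt y := Real.sqrt_pos.2 hy0
  have hyy : Real.sqrt y * Real.sqrt y = y := Real.mul_self_sqrt hy0.le
  have hsy2 : Real.sqrt y < X ^ 2 / (2 * C) := by
    rw [Real.sqrt_lt' (by positivity)]
    linarith
  have hmem : ((x, Real.sqrt y) : P2) ∈ Ω := by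
    refine ⟨hsy, ?_⟩
    rw [hg]
    simp only
    rw [lt_div_iff₀ (by positivity)] at hsy2
    have h1 := abs_lt.1 hx
    have h2 : (x - x₀) * (x - x₀) ≤ (X / 2) * (X / 2) := by
      nlinarith [h1.1, h1.2]
    nlinarith
  have h1 := hz _ hmem
  rw [hH] at h1
  simp only [hyy] at h1
  have hgp : 0 < |g (x, Real.sqrt y)| := abs_pos.2 hmem.2.ne'
  have h2 := (mul_eq_zero.1 h1).resolve_left hgp.ne'
  have h3 : 0 ≤ A (x, y) ^ 2 := sq_nonneg _
  have h4 : 0 ≤ Real.sqrt y ^ 2 * B (x, y) ^ 2 := by positivity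
  have h5 : A (x, y) ^ 2 = 0 := by linarith
  have h6 : Real.sqrt y ^ 2 * B (x, y) ^ 2 = 0 := by linarith
  refine ⟨by simpa using h5, ?_⟩
  have h7 := (mul_eq_zero.1 h6).resolve_left (by positivity)
  simpa using h7

end Run7.h105
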