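import Pool.Agent.Run7.h105.Carl

/-!
# Local unique continuation: the time part and the energy
-/

set_option autoImplicit false

namespace Run7.h105

open Set Filter Topology MeasureTheory Pool.Agent.H754R3.PR

lemma time_real {q q' N : ℝ → ℝ} {t₀ δ η ν τ A B n₀ γ : ℝ} (hδ : 0 < δ) (hη : 0 < η)
    (hηδ : η ≤ δ) (hν : 0 < ν) (hτ : 0 < τ) (hγ : γ = ν / (4 * δ))
    (hq : ∀ t, HasDerivAt q (q' t) t) (hqN : ∀ t ∈ Icc (t₀ - δ) (t₀ + δ), |q t| ≤ N t)
    (hle : ∀ t ∈ Icc (t₀ - δ) (t₀ + δ), ν * q' t ≤ A + (B - 4 * ν ^ 2 * τ) * N t)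
    (hA : 0 ≤ A) (hB : B ≤ ν ^ 2 * τ) (hn₀ : ∀ t ∈ Icc (t₀ - η) (t₀ + η), n₀ ≤ N t)
    (hn0 : 0 ≤ n₀) :
    4 * η * ν ^ 2 * τ * Real.exp (-2 * τ * γ * η ^ 2) * n₀ ≤
      2 * δ * A + ν * Real.exp (-2 * τ * γ * δ ^ 2) * (N (t₀ + δ) + N (t₀ - δ)) := by
  have hγ0 : 0 < γ := by rw [hγ]; positivity
  obtain ⟨Φ, hΦ⟩ : ∃ Φ : ℝ → ℝ, Φ = fun t => ν * (Real.exp (-2 * τ * γ * (t - t₀) ^ 2) * q t) :=
    ⟨_, rfl⟩
  have hd : ∀ t, HasDerivAt Φ (ν * (Real.exp (-2 * τ * γ * (t - t₀) ^ 2)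
      * (-4 * τ * γ * (t - t₀) * q t + q' t))) t := by
    intro t
    rw [hΦ]
    have k1 : HasDerivAt (fun t => -2 * τ * γ * (t - t₀) ^ 2) (-4 * τ * γ * (t - t₀)) t := by
      have := (((hasDerivAt_id t).sub_const t₀).pow 2).const_mul (-2 * τ * γ)
      refine this.congr_deriv ?_
      simp
      ring
    refine ((k1.exp.mul (hq t)).const_mul ν).congr_deriv ?_
    ring
  have hΦc : Continuous Φ := continuous_iff_continuousAt.2 fun t => (hd t).continuousAt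
  have hΦd : Differentiable ℝ Φ := fun t => (hd t).differentiableAt
  -- bound of the derivative
  have hN0 : ∀ t ∈ Icc (t₀ - δ) (t₀ + δ), 0 ≤ N t := fun t ht => (abs_nonneg _).trans (hqN t ht)
  have hbd : ∀ t ∈ Icc (t₀ - δ) (t₀ + δ), deriv Φ t ≤
      A - 2 * ν ^ 2 * τ * (Real.exp (-2 * τ * γ * (t - t₀) ^ 2) * N t) := by
    intro t ht
    rw [(hd t).deriv]
    obtain ⟨ρ, hρ⟩ : ∃ ρ : ℝ, ρ = Real.exp (-2 * τ * γ * (t - t₀) ^ 2) := ⟨_, rfl⟩
    have hρ0 : 0 < ρ := by rw [hρ]; exact Real.exp_pos _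
    have hρ1 : ρ ≤ 1 := by
      rw [hρ, Real.exp_le_one_iff]
      have : 0 ≤ τ * γ * (t - t₀) ^ 2 := by positivity
      linarith
    rw [← hρ]
    have h1 := hle t ht
    have h2 := hqN t ht
    have h3 := hN0 t ht
    have h4 : |t - t₀| ≤ δ := by rw [abs_le]; constructor <;> linarith [ht.1, ht.2]
    have h5 : -4 * τ * γ * (t - t₀) * q t ≤ 4 * τ * γ * (δ * N t) := by
      have h6 : -(4 * τ * γ * ((t - t₀) * q t)) ≤ |4 * τ * γ * ((t - t₀) * q t)| := neg_le_abs _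
      have h7 : |4 * τ * γ * ((t - t₀) * q t)| = 4 * τ * γ * (|t - t₀| * |q t|) := by
        rw [abs_mul, abs_mul (t - t₀), abs_of_pos (by positivity : 0 < 4 * τ * γ)]
      have h8 : 4 * τ * γ * (|t - t₀| * |q t|) ≤ 4 * τ * γ * (δ * N t) := by gcongr
      linarith
    have h9 : ν * (4 * τ * γ * (δ * N t)) = ν ^ 2 * τ * N t := by
      rw [hγ]; field_simp
    have h10 : ν * (-4 * τ * γ * (t - t₀) * q t + q' t) ≤ A - 2 * ν ^ 2 * τ * N t := by
      have h11 := mul_le_mul_of_nonneg_left h5 hν.le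
      have h12 := mul_le_mul_of_nonneg_right hB h3
      nlinarith
    have h13 := mul_le_mul_of_nonneg_left h10 hρ0.le
    have h14 : ρ * A ≤ A := by nlinarith
    nlinarith
  have hcvx : ∀ u v : ℝ, u ≤ v → t₀ - δ ≤ u → v ≤ t₀ + δ → ∀ C : ℝ,
      (∀ t ∈ Icc u v, deriv Φ t ≤ C) → Φ v - Φ u ≤ C * (v - u) := by
    intro u v huv hu hv C hC
    exact (convex_Icc u v).image_sub_le_mul_sub_of_deriv_le hΦc.continuousOn
      hΦd.differentiableOn (fun t ht => hC t (interior_subset ht)) u ⟨le_rfl, huv⟩ v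
      ⟨huv, le_rfl⟩ huv
  have hout : ∀ t ∈ Icc (t₀ - δ) (t₀ + δ), deriv Φ t ≤ A := by
    intro t ht
    have h1 := hbd t ht
    have h2 := hN0 t ht
    have : 0 ≤ 2 * ν ^ 2 * τ * (Real.exp (-2 * τ * γ * (t - t₀) ^ 2) * N t) := by positivity
    linarith
  have s1 := hcvx (t₀ - δ) (t₀ - η) (by linarith) le_rfl (by linarith) A
    (fun t ht => hout t ⟨ht.1, by linarith [ht.2]⟩)
  have s3 := hcvx (t₀ + η) (t₀ + δ) (by linarith) (by linarith) le_rfl A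
    (fun t ht => hout t ⟨by linarith [ht.1], ht.2⟩)
  have s2 := hcvx (t₀ - η) (t₀ + η) (by linarith) (by linarith) (by linarith)
    (A - 2 * ν ^ 2 * τ * (Real.exp (-2 * τ * γ * η ^ 2) * n₀)) (fun t ht => by
      have ht' : t ∈ Icc (t₀ - δ) (t₀ + δ) := ⟨by linarith [ht.1], by linarith [ht.2]⟩
      have h1 := hbd t ht'
      have h2 := hn₀ t ht
      have h3 : (t - t₀) ^ 2 ≤ η ^ 2 := by
        rw [sq_le_sq, abs_of_pos hη, abs_le]
        constructor <;> linarith [ht.1, ht.2]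
      have h4 : Real.exp (-2 * τ * γ * η ^ 2) ≤ Real.exp (-2 * τ * γ * (t - t₀) ^ 2) := by
        rw [Real.exp_le_exp]
        have : 0 < τ * γ := by positivity
        nlinarith
      have h5 : Real.exp (-2 * τ * γ * η ^ 2) * n₀ ≤
          Real.exp (-2 * τ * γ * (t - t₀) ^ 2) * N t := by gcongr
      have h6 := mul_le_mul_of_nonneg_left h5 (by positivity : 0 ≤ 2 * ν ^ 2 * τ)
      linarith)
  have e1 : Φ (t₀ + δ) = ν * (Real.exp (-2 * τ * γ * δ ^ 2) * q (t₀ + δ)) := by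
    rw [hΦ]; simp only; rw [add_sub_cancel_left]
  have e2 : Φ (t₀ - δ) = ν * (Real.exp (-2 * τ * γ * δ ^ 2) * q (t₀ - δ)) := by
    rw [hΦ]; simp only
    rw [show (t₀ - δ - t₀) ^ 2 = δ ^ 2 by ring]
  have hE0 : 0 < Real.exp (-2 * τ * γ * δ ^ 2) := Real.exp_pos _
  have b1 : -(ν * Real.exp (-2 * τ * γ * δ ^ 2) * N (t₀ + δ)) ≤ Φ (t₀ + δ) := by
    rw [e1]
    have h1 := (abs_le.1 (hqN (t₀ + δ) ⟨by linarith, le_rfl⟩)).1
    have h2 := mul_le_mul_of_nonneg_left h1 (by positivity : 0 ≤ ν * Real.exp (-2 * τ * γ * δ ^ 2))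
    linarith
  have b2 : Φ (t₀ - δ) ≤ ν * Real.exp (-2 * τ * γ * δ ^ 2) * N (t₀ - δ) := by
    rw [e2]
    have h1 := (abs_le.1 (hqN (t₀ - δ) ⟨le_rfl, by linarith⟩)).2
    have h2 := mul_le_mul_of_nonneg_left h1 (by positivity : 0 ≤ ν * Real.exp (-2 * τ * γ * δ ^ 2))
    linarith
  nlinarith [s1, s2, s3, b1, b2]

/-- exponential comparison -/
lemma exp_contra {K₁ K₂ s μ τ₀ : ℝ} (hK₁ : 0 < K₁) (hs : μ < s)
    (h : ∀ τ, τ₀ ≤ τ → 1 ≤ τ → K₁ * τ ^ 3 * Real.exp (τ * s) ≤ K₂ * (1 + τ ^ 2) * Real.exp (τ * μ)) :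
    False := by
  obtain ⟨τ, hτ⟩ : ∃ τ : ℝ, τ = max (max τ₀ 1) (2 * (|K₂| + 1) / (K₁ * (s - μ))) := ⟨_, rfl⟩
  have h0 : τ₀ ≤ τ := by rw [hτ]; exact (le_max_left _ _).trans (le_max_left _ _)
  have h1 : 1 ≤ τ := by rw [hτ]; exact (le_max_right _ _).trans (le_max_left _ _)
  have h2 : 2 * (|K₂| + 1) / (K₁ * (s - μ)) ≤ τ := by rw [hτ]; exact le_max_right _ _
  have h3 := h τ h0 h1
  have hsμ : 0 < s - μ := by linarith
  have e1 : Real.exp (τ * s) = Real.exp (τ * (s - μ)) * Real.exp (τ * μ) := by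
    rw [← Real.exp_add]; congr 1; ring
  rw [e1] at h3
  have hE : 0 < Real.exp (τ * μ) := Real.exp_pos _
  have h4 : K₁ * τ ^ 3 * Real.exp (τ * (s - μ)) ≤ K₂ * (1 + τ ^ 2) := by
    refine le_of_mul_le_mul_right ?_ hE
    linarith
  have h5 : τ * (s - μ) + 1 ≤ Real.exp (τ * (s - μ)) := Real.add_one_le_exp _
  have h6 : K₂ * (1 + τ ^ 2) ≤ |K₂| * (2 * τ ^ 3) := by
    have a1 : K₂ * (1 + τ ^ 2) ≤ |K₂| * (1 + τ ^ 2) :=
      mul_le_mul_of_nonneg_right (le_abs_self _) (by positivity)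
    have a2 : 1 + τ ^ 2 ≤ 2 * τ ^ 3 := by nlinarith [mul_nonneg (sq_nonneg τ) (by linarith : 0 ≤ τ - 1)]
    have a3 := mul_le_mul_of_nonneg_left a2 (abs_nonneg K₂)
    linarith
  have h7 : K₁ * (τ * (s - μ)) ≤ K₁ * Real.exp (τ * (s - μ)) := by
    apply mul_le_mul_of_nonneg_left _ hK₁.le
    linarith
  have hτ3 : 0 < τ ^ 3 := by positivity
  have h8 : K₁ * Real.exp (τ * (s - μ)) ≤ 2 * |K₂| := by
    refine le_of_mul_le_mul_right ?_ hτ3
    linarith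
  rw [div_le_iff₀ (by positivity)] at h2
  nlinarith

/-- energy density -/
noncomputable def qq (τ : ℝ) (O : P2) (f : P2 → ℝ) (z : P2) : ℝ :=
  Ee τ O z * (PP τ O f z ^ 2 + QQ τ O f z ^ 2 - τ ^ 2 * (R2 O z * f z ^ 2))

lemma qq_deriv {Ω : Set P2} (hb : Bornology.IsBounded Ω) {F : P3 → ℝ} (hF : ContDiff ℝ 3 F)
    (τ : ℝ) (O : P2) (t₀ : ℝ) :
    HasDerivAt (fun t => ∫ z in Ω, qq τ O (sl F t) z)
      (∫ z in Ω, 2 * qt τ O (sl F t₀) (sl (Dt F) t₀) z) t₀ := by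
  have hF2 : ContDiff ℝ 2 F := hF.of_le (by norm_num)
  have hFd : Differentiable ℝ F := hF.differentiable (by norm_num)
  have hG : ContDiff ℝ 2 (Dt F) := Dt_contDiff (n := 3) (m := 2) hF (by norm_num)
  have hGd : Differentiable ℝ (Dt F) := hG.differentiable (by norm_num)
  have cE : Continuous (fun z : P3 => Ee τ O z.2) :=
    (Ee_contDiff τ O (n := 0)).continuous.comp continuous_snd
  have cR : Continuous (fun z : P3 => R2 O z.2) :=
    (R2_contDiff O (n := 0)).continuous.comp continuous_snd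
  have cF : Continuous (fun z : P3 => sl F z.1 z.2) := hF.continuous
  have cG : Continuous (fun z : P3 => sl (Dt F) z.1 z.2) := hG.continuous
  have c1 : ∀ {H : P3 → ℝ}, ContDiff ℝ 1 H → Continuous (fun z : P3 => PP τ O (sl H z.1) z.2) := by
    intro H hH
    have e : (fun z : P3 => PP τ O (sl H z.1) z.2) = fun z : P3 => Dx (1, 0) H z
        + τ * ((z.2.1 - O.1) * H z) := by
      ext z
      simp only [PP, d1_sl (hH.differentiable (by norm_num)), sl]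
    rw [e]
    have h1 := (Dx_contDiff (n := 1) (m := 0) hH (by norm_num) (1, 0)).continuous
    have h2 := hH.continuous
    fun_prop
  have c2 : ∀ {H : P3 → ℝ}, ContDiff ℝ 1 H → Continuous (fun z : P3 => QQ τ O (sl H z.1) z.2) := by
    intro H hH
    have e : (fun z : P3 => QQ τ O (sl H z.1) z.2) = fun z : P3 => Dx (0, 1) H z
        + τ * ((z.2.2 - O.2) * H z) := by
      ext z
      simp only [QQ, d2_sl (hH.differentiable (by norm_num)), sl]
    rw [e]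
    have h1 := (Dx_contDiff (n := 1) (m := 0) hH (by norm_num) (0, 1)).continuous
    have h2 := hH.continuous
    fun_prop
  have p1 := c1 (hF.of_le (by norm_num) : ContDiff ℝ 1 F)
  have p2 := c2 (hF.of_le (by norm_num) : ContDiff ℝ 1 F)
  have p3 := c1 (hG.of_le (by norm_num) : ContDiff ℝ 1 (Dt F))
  have p4 := c2 (hG.of_le (by norm_num) : ContDiff ℝ 1 (Dt F))
  refine deriv_int hb (F := fun t z => qq τ O (sl F t) z)
    (F' := fun t z => 2 * qt τ O (sl F t) (sl (Dt F) t) z) ?_ ?_ ?_ t₀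
  · exact cE.mul (((p1.pow 2).add (p2.pow 2)).sub (continuous_const.mul (cR.mul (cF.pow 2))))
  · exact continuous_const.mul (cE.mul (((p1.mul p3).add (p2.mul p4)).sub
      (continuous_const.mul (cR.mul (cF.mul cG)))))
  · intro t z
    have h1 := hasDerivAt_d1 hF2 t z
    have h2 := hasDerivAt_d2 hF2 t z
    have h3 : HasDerivAt (fun s => sl F s z) (sl (Dt F) t z) t := hasDerivAt_time hFd t z
    have g1 : HasDerivAt (fun s => PP τ O (sl F s) z) (PP τ O (sl (Dt F) t) z) t :=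
      h1.add ((h3.const_mul (z.1 - O.1)).const_mul τ)
    have g2 : HasDerivAt (fun s => QQ τ O (sl F s) z) (QQ τ O (sl (Dt F) t) z) t :=
      h2.add ((h3.const_mul (z.2 - O.2)).const_mul τ)
    have g3 := ((((g1.pow 2).add (g2.pow 2)).sub
      (((h3.pow 2).const_mul (R2 O z)).const_mul (τ ^ 2))).const_mul (Ee τ O z))
    refine g3.congr_deriv ?_
    simp only [qt, Nat.cast_ofNat, Nat.add_one_sub_one, pow_one]
    ring

end Run7.h105
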