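import Pool.Agent.Run7.h105.LocA

/-!
# Local unique continuation: the cut-off function
-/

set_option autoImplicit false

namespace Run7.h105

open Set Filter Topology MeasureTheory Pool.Agent.H754R3.PR

/-- the cut-off -/
def chi (O : P2) (c : ℝ) (z : P2) : ℝ := (R2 O z - c) * (R2 O z - c)

lemma chi_contDiff (O : P2) (c : ℝ) {n : WithTop ℕ∞} : ContDiff ℝ n (chi O c) :=
  ((R2_contDiff O).sub contDiff_const).mul ((R2_contDiff O).sub contDiff_const)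

lemma R2_Gr (O z : P2) : Gr (R2 O) (2 * (z.1 - O.1)) (2 * (z.2 - O.2)) z := by
  have gX : Gr (fun y : P2 => y.1 - O.1) 1 0 z := (Gr.fst.sub (Gr.const O.1)).eq (by ring) (by ring)
  have gY : Gr (fun y : P2 => y.2 - O.2) 0 1 z := (Gr.snd.sub (Gr.const O.2)).eq (by ring) (by ring)
  exact ((gX.mul gX).add (gY.mul gY)).eq (by ring) (by ring)

section

variable {w : P2 → ℝ} (hw : ContDiff ℝ 2 w) (O : P2) (c : ℝ)

include hw

lemma chi_Gr (z : P2) : Gr (fun y => chi O c y * w y)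
    (chi O c z * d1 w z + 4 * (((R2 O z - c) * (z.1 - O.1)) * w z))
    (chi O c z * d2 w z + 4 * (((R2 O z - c) * (z.2 - O.2)) * w z)) z := by
  have gw : Gr w (d1 w z) (d2 w z) z := Gr.of ((hw.differentiable (by norm_num)) z)
  have gR : Gr (fun y => R2 O y - c) (2 * (z.1 - O.1)) (2 * (z.2 - O.2)) z :=
    ((R2_Gr O z).sub (Gr.const c)).eq (by ring) (by ring)
  exact ((gR.mul gR).mul gw).eq (by simp only [chi]; ring) (by simp only [chi]; ring)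

lemma chi_d1 : d1 (fun y => chi O c y * w y) =
    fun z => chi O c z * d1 w z + 4 * (((R2 O z - c) * (z.1 - O.1)) * w z) :=
  funext fun z => (chi_Gr hw O c z).d1

lemma chi_d2 : d2 (fun y => chi O c y * w y) =
    fun z => chi O c z * d2 w z + 4 * (((R2 O z - c) * (z.2 - O.2)) * w z) :=
  funext fun z => (chi_Gr hw O c z).d2

lemma chi_lap (z : P2) : d1 (d1 (fun y => chi O c y * w y)) z + d2 (d2 (fun y => chi O c y * w y)) z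
    = chi O c z * (d1 (d1 w) z + d2 (d2 w) z) + 8 * (R2 O z - c) * ((z.1 - O.1) * d1 w z
      + (z.2 - O.2) * d2 w z) + (8 * (R2 O z - c) + 8 * R2 O z) * w z := by
  rw [chi_d1 hw, chi_d2 hw]
  have gX : Gr (fun y : P2 => y.1 - O.1) 1 0 z := (Gr.fst.sub (Gr.const O.1)).eq (by ring) (by ring)
  have gY : Gr (fun y : P2 => y.2 - O.2) 0 1 z := (Gr.snd.sub (Gr.const O.2)).eq (by ring) (by ring)
  have gw : Gr w (d1 w z) (d2 w z) z := Gr.of ((hw.differentiable (by norm_num)) z)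
  have hf1 : Differentiable ℝ (d1 w) :=
    (d1_contDiff (m := 1) (n := 2) hw (by norm_num)).differentiable (by norm_num)
  have hf2 : Differentiable ℝ (d2 w) :=
    (d2_contDiff (m := 1) (n := 2) hw (by norm_num)).differentiable (by norm_num)
  have gf1 := Gr.of (hf1 z)
  have gf2 := Gr.of (hf2 z)
  have gR : Gr (fun y => R2 O y - c) (2 * (z.1 - O.1)) (2 * (z.2 - O.2)) z :=
    ((R2_Gr O z).sub (Gr.const c)).eq (by ring) (by ring)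
  have gc : Gr (chi O c) (4 * ((R2 O z - c) * (z.1 - O.1))) (4 * ((R2 O z - c) * (z.2 - O.2))) z :=
    (gR.mul gR).eq (by ring) (by ring)
  have g1 := (gc.mul gf1).add (((gR.mul gX).mul gw).cmul 4)
  have g2 := (gc.mul gf2).add (((gR.mul gY).mul gw).cmul 4)
  rw [g1.d1, g2.d2]
  simp only [chi, R2]
  ring

end

/-- bound of the equation for the cut-off function -/
lemma bd_H {X Y R c Rr ν K S w wx wy L χ : ℝ} (hR : R = X * X + Y * Y) (hc : 0 ≤ c) (hcR : c ≤ R)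
    (hRr : R ≤ Rr) (hχ : χ = (R - c) * (R - c)) (hL : L ^ 2 ≤ K * S)
    (hS : w ^ 2 + wx ^ 2 + wy ^ 2 ≤ S) :
    (χ * L + ν * (8 * (R - c) * (X * wx + Y * wy) + (8 * (R - c) + 8 * R) * w)) ^ 2 ≤
      3 * (Rr ^ 4 * K + 64 * ν ^ 2 * Rr ^ 3 + 256 * ν ^ 2 * Rr ^ 2) * S := by
  have hR0 : 0 ≤ R := by linarith
  have hRr0 : 0 ≤ Rr := by linarith
  have hS0 : 0 ≤ S := le_trans (by positivity) hS
  have hRc0 : 0 ≤ R - c := by linarith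
  have hRc : R - c ≤ Rr := by linarith
  have h1 : (χ * L) ^ 2 ≤ Rr ^ 4 * (K * S) := by
    have a1 : χ ^ 2 ≤ Rr ^ 4 := by
      have : χ ^ 2 = (R - c) ^ 4 := by rw [hχ]; ring
      rw [this]; gcongr
    have a2 : 0 ≤ L ^ 2 := sq_nonneg L
    calc (χ * L) ^ 2 = χ ^ 2 * L ^ 2 := by ring
      _ ≤ Rr ^ 4 * (K * S) := by gcongr
  have h2 : (X * wx + Y * wy) ^ 2 ≤ Rr * S := by
    have a1 : (X * wx + Y * wy) ^ 2 ≤ (X * X + Y * Y) * (wx ^ 2 + wy ^ 2) := by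
      nlinarith [sq_nonneg (X * wy - Y * wx)]
    rw [← hR] at a1
    have a2 : wx ^ 2 + wy ^ 2 ≤ S := by nlinarith [sq_nonneg w]
    calc (X * wx + Y * wy) ^ 2 ≤ R * (wx ^ 2 + wy ^ 2) := a1
      _ ≤ Rr * S := by gcongr
  have h3 : (8 * (R - c) * (X * wx + Y * wy)) ^ 2 ≤ 64 * Rr ^ 3 * S := by
    calc (8 * (R - c) * (X * wx + Y * wy)) ^ 2 = 64 * (R - c) ^ 2 * (X * wx + Y * wy) ^ 2 := by ring
      _ ≤ 64 * Rr ^ 2 * (Rr * S) := by gcongr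
      _ = 64 * Rr ^ 3 * S := by ring
  have h4 : ((8 * (R - c) + 8 * R) * w) ^ 2 ≤ 256 * Rr ^ 2 * S := by
    have a1 : w ^ 2 ≤ S := by nlinarith [sq_nonneg wx, sq_nonneg wy]
    have a2 : 8 * (R - c) + 8 * R ≤ 16 * Rr := by linarith
    calc ((8 * (R - c) + 8 * R) * w) ^ 2 = (8 * (R - c) + 8 * R) ^ 2 * w ^ 2 := by ring
      _ ≤ (16 * Rr) ^ 2 * S := by gcongr
      _ = 256 * Rr ^ 2 * S := by ring
  have h5 : ∀ a b d : ℝ, (a + ν * (b + d)) ^ 2 ≤ 3 * (a ^ 2 + ν ^ 2 * b ^ 2 + ν ^ 2 * d ^ 2) := by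
    intro a b d
    nlinarith [sq_nonneg (a - ν * b), sq_nonneg (a - ν * d), sq_nonneg (ν * b - ν * d)]
  have h6 := h5 (χ * L) (8 * (R - c) * (X * wx + Y * wy)) ((8 * (R - c) + 8 * R) * w)
  have h7 := mul_le_mul_of_nonneg_left h3 (sq_nonneg ν)
  have h8 := mul_le_mul_of_nonneg_left h4 (sq_nonneg ν)
  nlinarith

/-- recover the function from the cut-off function -/
lemma bd_S {X Y R c Rr κ w wx wy F Fx Fy χ : ℝ} (hR : R = X * X + Y * Y) (hc : 0 ≤ c)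
    (hκ : 0 < κ) (hcR : c + κ ≤ R) (hRr : R ≤ Rr) (hχ : χ = (R - c) * (R - c))
    (hF : F = χ * w) (hFx : Fx = χ * wx + 4 * (((R - c) * X) * w))
    (hFy : Fy = χ * wy + 4 * (((R - c) * Y) * w)) :
    w ^ 2 + wx ^ 2 + wy ^ 2 ≤ (2 + 32 * Rr ^ 3 / κ ^ 4) / κ ^ 4 * (F ^ 2 + Fx ^ 2 + Fy ^ 2) := by
  have hκR : κ ≤ R - c := by linarith
  have hR0 : 0 ≤ R := by linarith
  have hχκ : κ ^ 2 ≤ χ := by rw [hχ]; nlinarith
  have hχ2 : κ ^ 4 ≤ χ ^ 2 := by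
    calc κ ^ 4 = (κ ^ 2) ^ 2 := by ring
      _ ≤ χ ^ 2 := by gcongr
  have hw : κ ^ 4 * w ^ 2 ≤ F ^ 2 := by
    rw [hF, mul_pow]; gcongr
  have hw' : w ^ 2 ≤ F ^ 2 / κ ^ 4 := by
    rw [le_div_iff₀ (by positivity)]; linarith
  have h1 : χ ^ 2 * (wx ^ 2 + wy ^ 2) ≤ 2 * (Fx ^ 2 + Fy ^ 2) + 32 * ((R - c) ^ 2 * R) * w ^ 2 := by
    have a1 : χ * wx = Fx - 4 * (((R - c) * X) * w) := by rw [hFx]; ring
    have a2 : χ * wy = Fy - 4 * (((R - c) * Y) * w) := by rw [hFy]; ring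
    have a3 : ∀ a b : ℝ, (a - b) ^ 2 ≤ 2 * a ^ 2 + 2 * b ^ 2 := by
      intro a b; nlinarith [sq_nonneg (a + b)]
    have a4 := a3 Fx (4 * (((R - c) * X) * w))
    have a5 := a3 Fy (4 * (((R - c) * Y) * w))
    rw [← a1] at a4
    rw [← a2] at a5
    rw [hR] at *
    nlinarith
  have hRr0 : 0 ≤ Rr := by linarith
  have h2 : 32 * ((R - c) ^ 2 * R) * w ^ 2 ≤ 32 * Rr ^ 3 / κ ^ 4 * F ^ 2 := by
    have a1 : (R - c) ^ 2 * R ≤ Rr ^ 3 := by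
      calc (R - c) ^ 2 * R ≤ Rr ^ 2 * Rr := by
            gcongr
            · linarith
            · linarith
        _ = Rr ^ 3 := by ring
    calc 32 * ((R - c) ^ 2 * R) * w ^ 2 ≤ 32 * Rr ^ 3 * (F ^ 2 / κ ^ 4) := by
          gcongr
      _ = 32 * Rr ^ 3 / κ ^ 4 * F ^ 2 := by ring
  have hD : 0 ≤ 32 * Rr ^ 3 / κ ^ 4 := by positivity
  have h3 : κ ^ 4 * (w ^ 2 + wx ^ 2 + wy ^ 2) ≤
      (2 + 32 * Rr ^ 3 / κ ^ 4) * (F ^ 2 + Fx ^ 2 + Fy ^ 2) := by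
    have a1 : κ ^ 4 * (wx ^ 2 + wy ^ 2) ≤ χ ^ 2 * (wx ^ 2 + wy ^ 2) := by gcongr
    have a2 : 0 ≤ 32 * Rr ^ 3 / κ ^ 4 * (Fx ^ 2 + Fy ^ 2) := by positivity
    nlinarith [sq_nonneg F]
  rw [div_mul_eq_mul_div, le_div_iff₀ (by positivity)]
  linarith

/-- compare the quadratic forms -/
lemma bd_E {X Y R c τ f fx fy E : ℝ} (hR : R = X * X + Y * Y) (hcR : c ≤ R)
    (hτ : 1 ≤ τ ^ 2 * c) (hE : 0 ≤ E) :
    E * (f ^ 2 + fx ^ 2 + fy ^ 2) ≤ 3 * (E * ((fx + τ * (X * f)) ^ 2 + (fy + τ * (Y * f)) ^ 2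
      + τ ^ 2 * (R * f ^ 2))) := by
  have h1 : ∀ a b : ℝ, a ^ 2 ≤ 2 * (a + b) ^ 2 + 2 * b ^ 2 := by
    intro a b; nlinarith [sq_nonneg (a + 2 * b)]
  have h2 := h1 fx (τ * (X * f))
  have h3 := h1 fy (τ * (Y * f))
  have h4 : f ^ 2 ≤ τ ^ 2 * (R * f ^ 2) := by
    have a1 : 1 * f ^ 2 ≤ τ ^ 2 * c * f ^ 2 := by gcongr
    have a2 : τ ^ 2 * c * f ^ 2 ≤ τ ^ 2 * R * f ^ 2 := by gcongr
    linarith
  have h5 : (τ * (X * f)) ^ 2 + (τ * (Y * f)) ^ 2 = τ ^ 2 * (R * f ^ 2) := by rw [hR]; ring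
  have h6 : f ^ 2 + fx ^ 2 + fy ^ 2 ≤ 3 * ((fx + τ * (X * f)) ^ 2 + (fy + τ * (Y * f)) ^ 2
      + τ ^ 2 * (R * f ^ 2)) := by
    nlinarith [sq_nonneg (fx + τ * (X * f)), sq_nonneg (fy + τ * (Y * f))]
  have := mul_le_mul_of_nonneg_left h6 hE
  linarith

/-- upper bound of the quadratic form -/
lemma bd_N {X Y R Rr τ f fx fy C : ℝ} (hR : R = X * X + Y * Y) (hRr : R ≤ Rr)
    (hC : f ^ 2 + fx ^ 2 + fy ^ 2 ≤ C) :
    (fx + τ * (X * f)) ^ 2 + (fy + τ * (Y * f)) ^ 2 + τ ^ 2 * (R * f ^ 2) ≤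
      (1 + τ ^ 2) * ((2 + 3 * Rr) * C) := by
  have h1 : ∀ a b : ℝ, (a + b) ^ 2 ≤ 2 * a ^ 2 + 2 * b ^ 2 := by
    intro a b; nlinarith [sq_nonneg (a - b)]
  have h2 := h1 fx (τ * (X * f))
  have h3 := h1 fy (τ * (Y * f))
  have h5 : (τ * (X * f)) ^ 2 + (τ * (Y * f)) ^ 2 = τ ^ 2 * (R * f ^ 2) := by rw [hR]; ring
  have hR0 : 0 ≤ R := by rw [hR]; nlinarith [mul_self_nonneg X, mul_self_nonneg Y]
  have hRr0 : 0 ≤ Rr := hR0.trans hRr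
  have hC0 : 0 ≤ C := le_trans (by positivity) hC
  have h6 : R * f ^ 2 ≤ Rr * C := by
    have : f ^ 2 ≤ C := by nlinarith [sq_nonneg fx, sq_nonneg fy]
    gcongr
  have h7 : τ ^ 2 * (R * f ^ 2) ≤ τ ^ 2 * (Rr * C) := by gcongr
  have h8 : fx ^ 2 + fy ^ 2 ≤ C := by nlinarith [sq_nonneg f]
  have h9 : 0 ≤ τ ^ 2 * C := by positivity
  have h10 : 0 ≤ Rr * C := by positivity
  nlinarith

end Run7.h105
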