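import Pool.Agent.Run7.h105.LocB

/-!
# Local unique continuation: the energy inequality of the cut-off functions
-/

set_option autoImplicit false

namespace Run7.h105

open Set Filter Topology MeasureTheory Pool.Agent.H754R3.PR

/-- the cut-off function in space-time -/
def cut (O : P2) (c : ℝ) (w : P3 → ℝ) (z : P3) : ℝ := chi O c z.2 * w z

lemma cut_contDiff {w : P3 → ℝ} {n : WithTop ℕ∞} (hw : ContDiff ℝ n w) (O : P2) (c : ℝ) :
    ContDiff ℝ n (cut O c w) := ((chi_contDiff O c).comp contDiff_snd).mul hw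

lemma cut_sl (O : P2) (c : ℝ) (w : P3 → ℝ) (t : ℝ) :
    sl (cut O c w) t = fun y => chi O c y * sl w t y := rfl

lemma cut_Dt {w : P3 → ℝ} (hw : ContDiff ℝ 1 w) (O : P2) (c : ℝ) (t : ℝ) (z : P2) :
    Dt (cut O c w) (t, z) = chi O c z * Dt w (t, z) := by
  have h1 := hasDerivAt_time ((cut_contDiff hw O c).differentiable (by norm_num)) t z
  have h2 := (hasDerivAt_time (hw.differentiable (by norm_num)) t z).const_mul (chi O c z)
  exact h1.unique h2

/-- first constant -/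
noncomputable def C1 (ν K Rr : ℝ) : ℝ :=
  3 * (Rr ^ 4 * K + 64 * ν ^ 2 * Rr ^ 3 + 256 * ν ^ 2 * Rr ^ 2)

/-- second constant -/
noncomputable def C2 (κ Rr : ℝ) : ℝ := (2 + 32 * Rr ^ 3 / κ ^ 4) / κ ^ 4

/-- pointwise bound -/
lemma cut_pt {w v : P3 → ℝ} (hw : ContDiff ℝ 3 w) (hv : ContDiff ℝ 3 v) {O : P2}
    {c κ Rr ν K Smax τ t : ℝ} {z : P2} (hc : 0 < c) (hκ : 0 < κ) (hK : 0 ≤ K) (hτ : 1 ≤ τ ^ 2 * c)
    (hτ0 : 0 < τ) (hcR : c ≤ R2 O z) (hRr : R2 O z ≤ Rr)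
    (hL : (ν * (d1 (d1 (sl w t)) z + d2 (d2 (sl w t)) z) - Dt w (t, z)) ^ 2 ≤
      K * (sz (sl w t) z + sz (sl v t) z)) (hS : sz (sl w t) z + sz (sl v t) z ≤ Smax) :
    Ee τ O z * (ν * (d1 (d1 (sl (cut O c w) t)) z + d2 (d2 (sl (cut O c w) t)) z)
      - sl (Dt (cut O c w)) t z) ^ 2 ≤
      3 * C1 ν K Rr * C2 κ Rr * (NN τ O (sl (cut O c w) t) z + NN τ O (sl (cut O c v) t) z)
        + C1 ν K Rr * Smax * Real.exp (τ * (c + κ)) := by
  have hRr0 : 0 ≤ Rr := by linarith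
  have hw2 : ContDiff ℝ 2 (sl w t) := (sl_contDiff (n := 3) hw t).of_le (by norm_num)
  have hv2 : ContDiff ℝ 2 (sl v t) := (sl_contDiff (n := 3) hv t).of_le (by norm_num)
  have hC1 : 0 ≤ C1 ν K Rr := by unfold C1; positivity
  have hC2 : 0 ≤ C2 κ Rr := by unfold C2; positivity
  have hEp : 0 < Ee τ O z := Real.exp_pos _
  have hN : ∀ f : P2 → ℝ, 0 ≤ NN τ O f z := by
    intro f
    have : 0 ≤ R2 O z := by linarith
    unfold NN; positivity
  have hsz : ∀ f : P2 → ℝ, 0 ≤ sz f z := fun f => by unfold sz; positivity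
  -- the equation
  have hH : (ν * (d1 (d1 (sl (cut O c w) t)) z + d2 (d2 (sl (cut O c w) t)) z)
      - sl (Dt (cut O c w)) t z) ^ 2 ≤ C1 ν K Rr * (sz (sl w t) z + sz (sl v t) z) := by
    have e1 : sl (Dt (cut O c w)) t z = chi O c z * Dt w (t, z) :=
      cut_Dt (hw.of_le (by norm_num)) O c t z
    rw [e1, cut_sl, chi_lap hw2 O c z]
    have h1 := bd_H (X := z.1 - O.1) (Y := z.2 - O.2) (R := R2 O z) (c := c) (Rr := Rr) (ν := ν)
      (K := K) (S := sz (sl w t) z + sz (sl v t) z) (w := sl w t z) (wx := d1 (sl w t) z)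
      (wy := d2 (sl w t) z) (L := ν * (d1 (d1 (sl w t)) z + d2 (d2 (sl w t)) z) - Dt w (t, z))
      (χ := chi O c z) rfl hc.le hcR hRr rfl hL (by
        have := hsz (sl v t)
        have e : sz (sl w t) z = sl w t z ^ 2 + d1 (sl w t) z ^ 2 + d2 (sl w t) z ^ 2 := rfl
        linarith)
    unfold C1
    refine le_trans (le_of_eq ?_) h1
    ring
  by_cases hreg : c + κ ≤ R2 O z
  · have h1 := bd_S (X := z.1 - O.1) (Y := z.2 - O.2) (R := R2 O z) (c := c) (Rr := Rr) (κ := κ)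
      (w := sl w t z) (wx := d1 (sl w t) z) (wy := d2 (sl w t) z) (F := sl (cut O c w) t z)
      (Fx := d1 (sl (cut O c w) t) z) (Fy := d2 (sl (cut O c w) t) z) (χ := chi O c z) rfl hc.le
      hκ hreg hRr rfl rfl (by rw [cut_sl, chi_d1 hw2]) (by rw [cut_sl, chi_d2 hw2])
    have h2 := bd_S (X := z.1 - O.1) (Y := z.2 - O.2) (R := R2 O z) (c := c) (Rr := Rr) (κ := κ)
      (w := sl v t z) (wx := d1 (sl v t) z) (wy := d2 (sl v t) z) (F := sl (cut O c v) t z)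
      (Fx := d1 (sl (cut O c v) t) z) (Fy := d2 (sl (cut O c v) t) z) (χ := chi O c z) rfl hc.le
      hκ hreg hRr rfl rfl (by rw [cut_sl, chi_d1 hv2]) (by rw [cut_sl, chi_d2 hv2])
    have h3 := bd_E (X := z.1 - O.1) (Y := z.2 - O.2) (R := R2 O z) (c := c) (τ := τ)
      (f := sl (cut O c w) t z) (fx := d1 (sl (cut O c w) t) z) (fy := d2 (sl (cut O c w) t) z)
      (E := Ee τ O z) rfl hcR hτ hEp.le
    have h4 := bd_E (X := z.1 - O.1) (Y := z.2 - O.2) (R := R2 O z) (c := c) (τ := τ)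
      (f := sl (cut O c v) t z) (fx := d1 (sl (cut O c v) t) z) (fy := d2 (sl (cut O c v) t) z)
      (E := Ee τ O z) rfl hcR hτ hEp.le
    have h1' : sz (sl w t) z ≤ C2 κ Rr * sz (sl (cut O c w) t) z := h1
    have h2' : sz (sl v t) z ≤ C2 κ Rr * sz (sl (cut O c v) t) z := h2
    have h3' : Ee τ O z * sz (sl (cut O c w) t) z ≤ 3 * NN τ O (sl (cut O c w) t) z := h3
    have h4' : Ee τ O z * sz (sl (cut O c v) t) z ≤ 3 * NN τ O (sl (cut O c v) t) z := h4
    have h5 := mul_le_mul_of_nonneg_left hH hEp.le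
    have h6 : Ee τ O z * (C1 ν K Rr * (sz (sl w t) z + sz (sl v t) z)) ≤
        C1 ν K Rr * C2 κ Rr * (3 * (NN τ O (sl (cut O c w) t) z + NN τ O (sl (cut O c v) t) z)) := by
      have a1 : Ee τ O z * (C1 ν K Rr * (sz (sl w t) z + sz (sl v t) z)) ≤ Ee τ O z * (C1 ν K Rr *
          (C2 κ Rr * sz (sl (cut O c w) t) z + C2 κ Rr * sz (sl (cut O c v) t) z)) := by gcongr
      have a2 : Ee τ O z * (C1 ν K Rr *
          (C2 κ Rr * sz (sl (cut O c w) t) z + C2 κ Rr * sz (sl (cut O c v) t) z)) =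
          C1 ν K Rr * C2 κ Rr * (Ee τ O z * sz (sl (cut O c w) t) z
            + Ee τ O z * sz (sl (cut O c v) t) z) := by ring
      have a3 : C1 ν K Rr * C2 κ Rr * (Ee τ O z * sz (sl (cut O c w) t) z
            + Ee τ O z * sz (sl (cut O c v) t) z) ≤ C1 ν K Rr * C2 κ Rr *
            (3 * (NN τ O (sl (cut O c w) t) z + NN τ O (sl (cut O c v) t) z)) := by
        apply mul_le_mul_of_nonneg_left _ (by positivity)
        linarith
      linarith
    have h7 : 0 ≤ Smax := le_trans (add_nonneg (hsz _) (hsz _)) hS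
    have h8 : 0 ≤ C1 ν K Rr * Smax * Real.exp (τ * (c + κ)) := by positivity
    linarith
  · push Not at hreg
    have h1 : Ee τ O z ≤ Real.exp (τ * (c + κ)) := by
      unfold Ee
      rw [Real.exp_le_exp]
      exact mul_le_mul_of_nonneg_left hreg.le hτ0.le
    have h2 : C1 ν K Rr * (sz (sl w t) z + sz (sl v t) z) ≤ C1 ν K Rr * Smax := by gcongr
    have h3 : 0 ≤ 3 * C1 ν K Rr * C2 κ Rr * (NN τ O (sl (cut O c w) t) z
        + NN τ O (sl (cut O c v) t) z) := by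
      have := hN (sl (cut O c w) t)
      have := hN (sl (cut O c v) t)
      positivity
    have h4 := hH.trans h2
    have h5 : Ee τ O z * (ν * (d1 (d1 (sl (cut O c w) t)) z + d2 (d2 (sl (cut O c w) t)) z)
        - sl (Dt (cut O c w)) t z) ^ 2 ≤ Real.exp (τ * (c + κ)) * (C1 ν K Rr * Smax) := by
      gcongr
    linarith

/-- the energy inequality -/
lemma cut_energy {Ω : Set P2} (hΩ : IsOpen Ω) (hb : Bornology.IsBounded Ω) {w v : P3 → ℝ}
    (hw : ContDiff ℝ 3 w) (hv : ContDiff ℝ 3 v) {O : P2} {c κ Rr ν K Smax τ t : ℝ}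
    (hc : 0 < c) (hκ : 0 < κ) (hK : 0 ≤ K) (hτ : 1 ≤ τ ^ 2 * c) (hτ0 : 0 < τ)
    (hreg : ∀ z ∈ Ω, c ≤ R2 O z ∧ R2 O z ≤ Rr)
    (hL : ∀ z ∈ Ω, (ν * (d1 (d1 (sl w t)) z + d2 (d2 (sl w t)) z) - Dt w (t, z)) ^ 2 ≤
      K * (sz (sl w t) z + sz (sl v t) z))
    (hS : ∀ z ∈ Ω, sz (sl w t) z + sz (sl v t) z ≤ Smax)
    (hfr : ∀ z ∈ frontier Ω, sl (cut O c w) t z = 0 ∧ d1 (sl (cut O c w) t) z = 0 ∧
      d2 (sl (cut O c w) t) z = 0) :
    4 * ν ^ 2 * τ * (∫ z in Ω, NN τ O (sl (cut O c w) t) z)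
      + ν * (∫ z in Ω, 2 * qt τ O (sl (cut O c w) t) (sl (Dt (cut O c w)) t) z) ≤
      3 * C1 ν K Rr * C2 κ Rr * ((∫ z in Ω, NN τ O (sl (cut O c w) t) z)
        + ∫ z in Ω, NN τ O (sl (cut O c v) t) z)
        + (C1 ν K Rr * Smax * Real.exp (τ * (c + κ))) * (volume Ω).toReal := by
  have hF : ContDiff ℝ 3 (cut O c w) := cut_contDiff hw O c
  have hG : ContDiff ℝ 3 (cut O c v) := cut_contDiff hv O c
  have hF2 : ContDiff ℝ 2 (sl (cut O c w) t) := (sl_contDiff (n := 3) hF t).of_le (by norm_num)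
  have hG2 : ContDiff ℝ 2 (sl (cut O c v) t) := (sl_contDiff (n := 3) hG t).of_le (by norm_num)
  have hk : ContDiff ℝ 2 (sl (Dt (cut O c w)) t) :=
    sl_contDiff (n := 2) (Dt_contDiff (n := 3) (m := 2) hF (by norm_num)) t
  have hk1 : ContDiff ℝ 1 (sl (Dt (cut O c w)) t) := hk.of_le (by norm_num)
  have key := carl_slice hF2 hk1 ν τ O hΩ hb hfr
  have hint : ∀ {g : P2 → ℝ}, Continuous g → IntegrableOn g Ω := fun hg =>
    (hg.continuousOn.integrableOn_compact hb.isCompact_closure).mono_set subset_closure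
  have c1 := NN_cont hF2 τ O
  have c2 := NN_cont hG2 τ O
  have hE : Continuous (Ee τ O) := (Ee_contDiff τ O (n := 0)).continuous
  have c3 : Continuous (d1 (d1 (sl (cut O c w) t))) := (d1_contDiff (m := 0) (n := 1)
    (d1_contDiff (m := 1) (n := 2) hF2 (by norm_num)) (by norm_num)).continuous
  have c4 : Continuous (d2 (d2 (sl (cut O c w) t))) := (d2_contDiff (m := 0) (n := 1)
    (d2_contDiff (m := 1) (n := 2) hF2 (by norm_num)) (by norm_num)).continuous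
  have c5 := hk.continuous
  have h2 : ∫ z in Ω, Ee τ O z * (ν * (d1 (d1 (sl (cut O c w) t)) z
      + d2 (d2 (sl (cut O c w) t)) z) - sl (Dt (cut O c w)) t z) ^ 2 ≤
      ∫ z in Ω, (3 * C1 ν K Rr * C2 κ Rr * (NN τ O (sl (cut O c w) t) z
        + NN τ O (sl (cut O c v) t) z) + C1 ν K Rr * Smax * Real.exp (τ * (c + κ))) := by
    refine setIntegral_mono_on (hint (by fun_prop)) (hint (by fun_prop)) hΩ.measurableSet ?_
    intro z hz
    exact cut_pt hw hv hc hκ hK hτ hτ0 (hreg z hz).1 (hreg z hz).2 (hL z hz) (hS z hz)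
  have h3 : ∫ z in Ω, (3 * C1 ν K Rr * C2 κ Rr * (NN τ O (sl (cut O c w) t) z
        + NN τ O (sl (cut O c v) t) z) + C1 ν K Rr * Smax * Real.exp (τ * (c + κ))) =
      3 * C1 ν K Rr * C2 κ Rr * ((∫ z in Ω, NN τ O (sl (cut O c w) t) z)
        + ∫ z in Ω, NN τ O (sl (cut O c v) t) z)
        + (C1 ν K Rr * Smax * Real.exp (τ * (c + κ))) * (volume Ω).toReal := by
    rw [integral_add (hint (by fun_prop)) (hint (by fun_prop)), integral_const_mul,
      integral_add (hint c1) (hint c2), setIntegral_const, smul_eq_mul, mul_comm (volume.real Ω)]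
    rfl
  have h4 : ν * (∫ z in Ω, 2 * qt τ O (sl (cut O c w) t) (sl (Dt (cut O c w)) t) z) =
      2 * ν * (∫ z in Ω, qt τ O (sl (cut O c w) t) (sl (Dt (cut O c w)) t) z) := by
    rw [integral_const_mul]; ring
  rw [h4]
  linarith

end Run7.h105
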