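import Pool.Agent.Run7.h105.LocD

/-!
# Local unique continuation at an exposed boundary point, uniformly in time
-/

set_option autoImplicit false

namespace Run7.h105

open Set Filter Topology MeasureTheory Pool.Agent.H754R3.PR

theorem loc_ucp_unif {Ω : Set P2} (hΩ : IsOpen Ω) (hb : Bornology.IsBounded Ω) (hne : Ω.Nonempty)
    {w1 w2 : P3 → ℝ} (hw1 : ContDiff ℝ 3 w1) (hw2 : ContDiff ℝ 3 w2) {ν : ℝ} (hν : 0 < ν)
    {z₁ O : P2} (hz₁ : z₁ ∈ closure Ω) (hexp : ∀ z ∈ closure Ω, R2 z₁ z + R2 O z ≤ R2 O z₁)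
    {U : Set P2} (hU : IsOpen U) (hzU : z₁ ∈ U) {a b K : ℝ} (hK : 0 ≤ K)
    (hfr : ∀ t ∈ Ioo a b, ∀ z ∈ frontier Ω, z ∈ U →
      (sl w1 t z = 0 ∧ d1 (sl w1 t) z = 0 ∧ d2 (sl w1 t) z = 0) ∧
      (sl w2 t z = 0 ∧ d1 (sl w2 t) z = 0 ∧ d2 (sl w2 t) z = 0))
    (hin : ∀ t ∈ Ioo a b, ∀ z ∈ Ω,
      (ν * (d1 (d1 (sl w1 t)) z + d2 (d2 (sl w1 t)) z) - Dt w1 (t, z)) ^ 2 ≤
        K * (sz (sl w1 t) z + sz (sl w2 t) z) ∧
      (ν * (d1 (d1 (sl w2 t)) z + d2 (d2 (sl w2 t)) z) - Dt w2 (t, z)) ^ 2 ≤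
        K * (sz (sl w1 t) z + sz (sl w2 t) z))
    {η₀ : ℝ} (hη₀ : 0 < η₀) :
    ∃ V, IsOpen V ∧ V.Nonempty ∧ V ⊆ Ω ∧ ∀ t₀ ∈ Ioo (a + η₀) (b - η₀), ∀ z ∈ V,
      w1 (t₀, z) = 0 ∧ w2 (t₀, z) = 0 := by
  have hcR2 : Continuous (R2 O) := (R2_contDiff O (n := 0)).continuous
  obtain ⟨Rr, hRr⟩ : ∃ Rr : ℝ, Rr = R2 O z₁ := ⟨_, rfl⟩
  rw [← hRr] at hexp
  have hRr0 : 0 < Rr := by
    obtain ⟨z, hz⟩ := hne
    obtain ⟨δ, hδ, h⟩ : ∃ δ > 0, ((z.1 + δ, z.2) : P2) ∈ Ω := by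
      obtain ⟨ε, hε, hball⟩ := Metric.isOpen_iff.1 hΩ z hz
      refine ⟨ε / 2, by positivity, hball ?_⟩
      rw [Metric.mem_ball, Prod.dist_eq, dist_self, Real.dist_eq]
      simp only [add_sub_cancel_left]
      rw [abs_of_pos (by positivity : 0 < ε / 2)]
      exact max_lt (by linarith) hε
    by_contra hcon
    push Not at hcon
    have h1 := hexp z (subset_closure hz)
    have h2 := hexp _ (subset_closure h)
    have n1 := R2_nonneg z₁ z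
    have n2 := R2_nonneg O z
    have n3 := R2_nonneg z₁ (z.1 + δ, z.2)
    have n4 := R2_nonneg O (z.1 + δ, z.2)
    have k1 : R2 z₁ z = 0 := by linarith
    have k2 : R2 z₁ (z.1 + δ, z.2) = 0 := by linarith
    unfold R2 at k1 k2
    simp only at k1 k2
    have m1 : z.1 - z₁.1 = 0 := by
      nlinarith [mul_self_nonneg (z.1 - z₁.1), mul_self_nonneg (z.2 - z₁.2)]
    have m2 : z.1 + δ - z₁.1 = 0 := by
      nlinarith [mul_self_nonneg (z.1 + δ - z₁.1), mul_self_nonneg (z.2 - z₁.2)]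
    linarith
  -- the radii
  obtain ⟨r, hr, hball⟩ := Metric.isOpen_iff.1 hU z₁ hzU
  obtain ⟨c, hcdef⟩ : ∃ c : ℝ, c = Rr - min (Rr / 2) (r ^ 2 / 4) := ⟨_, rfl⟩
  have hm0 : 0 < min (Rr / 2) (r ^ 2 / 4) := by positivity
  have hc : 0 < c := by
    have := min_le_left (Rr / 2) (r ^ 2 / 4)
    rw [hcdef]; linarith
  have hcRr : c < Rr := by rw [hcdef]; linarith
  have hcU : ∀ z ∈ closure Ω, c ≤ R2 O z → z ∈ U := by
    intro z hz hcz
    apply hball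
    have h1 := hexp z hz
    have h2 : R2 z₁ z ≤ r ^ 2 / 4 := by
      have := min_le_right (Rr / 2) (r ^ 2 / 4)
      rw [hcdef] at hcz; linarith
    unfold R2 at h2
    have h3 : |z.1 - z₁.1| ≤ r / 2 := by
      refine abs_le_of_sq_le_sq ?_ (by positivity)
      nlinarith [mul_self_nonneg (z.2 - z₁.2)]
    have h4 : |z.2 - z₁.2| ≤ r / 2 := by
      refine abs_le_of_sq_le_sq ?_ (by positivity)
      nlinarith [mul_self_nonneg (z.1 - z₁.1)]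
    rw [Metric.mem_ball, Prod.dist_eq, Real.dist_eq, Real.dist_eq, max_lt_iff]
    constructor <;> linarith
  obtain ⟨κ, hκdef⟩ : ∃ κ : ℝ, κ = (Rr - c) / 2 := ⟨_, rfl⟩
  have hκ : 0 < κ := by rw [hκdef]; linarith
  have hcκ : c + κ < Rr := by rw [hκdef]; linarith
  -- the region
  obtain ⟨Ω', hΩ'⟩ : ∃ Ω' : Set P2, Ω' = Ω ∩ {z | c < R2 O z} := ⟨_, rfl⟩
  have hΩ'o : IsOpen Ω' := by
    rw [hΩ']; exact hΩ.inter (isOpen_lt continuous_const hcR2)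
  have hΩ's : Ω' ⊆ Ω := by rw [hΩ']; exact inter_subset_left
  have hΩ'b : Bornology.IsBounded Ω' := hb.subset hΩ's
  have hRup : ∀ z ∈ closure Ω, R2 O z ≤ Rr := fun z hz => by
    have := hexp z hz
    have := R2_nonneg z₁ z
    linarith
  have hreg : ∀ z ∈ Ω', c ≤ R2 O z ∧ R2 O z ≤ Rr := by
    intro z hz
    rw [hΩ'] at hz
    exact ⟨hz.2.le, hRup z (subset_closure hz.1)⟩
  have hfr' : ∀ z ∈ frontier Ω', R2 O z - c = 0 ∨ (z ∈ frontier Ω ∧ z ∈ U) := by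
    intro z hz
    have h1 : z ∈ closure Ω := closure_mono hΩ's hz.1
    have h2 : c ≤ R2 O z := by
      have h3 : closure Ω' ⊆ {z | c ≤ R2 O z} := by
        refine closure_minimal (fun y hy => (hreg y hy).1) ?_
        exact isClosed_le continuous_const hcR2
      exact h3 hz.1
    by_cases h3 : R2 O z = c
    · left; linarith
    · right
      refine ⟨⟨h1, ?_⟩, hcU z h1 h2⟩
      intro h4
      rw [hΩ.interior_eq] at h4
      have h5 : z ∈ Ω' := by rw [hΩ']; exact ⟨h4, lt_of_le_of_ne h2 (Ne.symm h3)⟩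
      have h6 := hz.2
      rw [hΩ'o.interior_eq] at h6
      exact h6 h5
  -- times
  obtain ⟨δ, hδdef⟩ : ∃ δ : ℝ, δ = η₀ / 2 := ⟨_, rfl⟩
  have hδ : 0 < δ := by rw [hδdef]; positivity
  obtain ⟨γ, hγ⟩ : ∃ γ : ℝ, γ = ν / (4 * δ) := ⟨_, rfl⟩
  have hγ0 : 0 < γ := by rw [hγ]; positivity
  -- the threshold
  obtain ⟨μ, hμ⟩ : ∃ μ : ℝ, μ = max (c + κ) (Rr - 2 * γ * δ ^ 2) := ⟨_, rfl⟩
  have hμR : μ < Rr := by
    rw [hμ, max_lt_iff]
    refine ⟨hcκ, ?_⟩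
    have : 0 < γ * δ ^ 2 := by positivity
    linarith
  have hμ1 : c + κ ≤ μ := by rw [hμ]; exact le_max_left _ _
  have hμ2 : Rr - 2 * γ * δ ^ 2 ≤ μ := by rw [hμ]; exact le_max_right _ _
  refine ⟨Ω ∩ {z | μ < R2 O z}, hΩ.inter (isOpen_lt continuous_const hcR2), ?_,
    inter_subset_left, ?_⟩
  · have h1 : {z | μ < R2 O z} ∈ 𝓝 z₁ := (isOpen_lt continuous_const hcR2).mem_nhds (by
      simp only [Set.mem_ofPred_eq]; rw [← hRr]; exact hμR)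
    obtain ⟨z, hz1, hz2⟩ := mem_closure_iff_nhds.1 hz₁ _ h1
    exact ⟨z, hz2, hz1⟩
  intro t₀ ht₀
  have hδI : ∀ t ∈ Icc (t₀ - δ) (t₀ + δ), t ∈ Ioo a b := by
    intro t ht
    constructor <;> linarith [ht.1, ht.2, ht₀.1, ht₀.2]
  -- bounds
  have hKc : IsCompact (Icc (t₀ - δ) (t₀ + δ) ×ˢ closure Ω) :=
    isCompact_Icc.prod hb.isCompact_closure
  have hF1 : ContDiff ℝ 3 (cut O c w1) := cut_contDiff hw1 O c
  have hF2 : ContDiff ℝ 3 (cut O c w2) := cut_contDiff hw2 O c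
  obtain ⟨S1, hS1⟩ := hKc.exists_bound_of_continuousOn
    (sz_cont (hw1.of_le (by norm_num))).continuousOn
  obtain ⟨S2, hS2⟩ := hKc.exists_bound_of_continuousOn
    (sz_cont (hw2.of_le (by norm_num))).continuousOn
  obtain ⟨T1, hT1⟩ := hKc.exists_bound_of_continuousOn
    (sz_cont (hF1.of_le (by norm_num))).continuousOn
  obtain ⟨T2, hT2⟩ := hKc.exists_bound_of_continuousOn
    (sz_cont (hF2.of_le (by norm_num))).continuousOn
  obtain ⟨Smax, hSmax⟩ : ∃ Smax : ℝ, Smax = |S1| + |S2| := ⟨_, rfl⟩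
  obtain ⟨Tmax, hTmax⟩ : ∃ Tmax : ℝ, Tmax = |T1| + |T2| := ⟨_, rfl⟩
  have hSmax0 : 0 ≤ Smax := by rw [hSmax]; positivity
  have hTmax0 : 0 ≤ Tmax := by rw [hTmax]; positivity
  have hS : ∀ t ∈ Icc (t₀ - δ) (t₀ + δ), ∀ z ∈ Ω',
      sz (sl w1 t) z + sz (sl w2 t) z ≤ Smax := by
    intro t ht z hz
    have hm : ((t, z) : P3) ∈ Icc (t₀ - δ) (t₀ + δ) ×ˢ closure Ω :=
      ⟨ht, subset_closure (hΩ's hz)⟩
    have h1 := (le_abs_self _).trans (hS1 _ hm)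
    have h2 := (le_abs_self _).trans (hS2 _ hm)
    simp only at h1 h2
    rw [hSmax]
    linarith [le_abs_self S1, le_abs_self S2]
  have hT : ∀ t ∈ Icc (t₀ - δ) (t₀ + δ), ∀ z ∈ Ω',
      sz (sl (cut O c w1) t) z ≤ Tmax ∧ sz (sl (cut O c w2) t) z ≤ Tmax := by
    intro t ht z hz
    have hm : ((t, z) : P3) ∈ Icc (t₀ - δ) (t₀ + δ) ×ˢ closure Ω :=
      ⟨ht, subset_closure (hΩ's hz)⟩
    have h1 := (le_abs_self _).trans (hT1 _ hm)
    have h2 := (le_abs_self _).trans (hT2 _ hm)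
    simp only at h1 h2
    rw [hTmax]
    constructor
    · linarith [le_abs_self T1, abs_nonneg T2]
    · linarith [le_abs_self T2, abs_nonneg T1]
  obtain ⟨A1, hA1⟩ : ∃ A1 : ℝ, A1 = (volume Ω').toReal := ⟨_, rfl⟩
  have hA10 : 0 ≤ A1 := by rw [hA1]; exact ENNReal.toReal_nonneg
  have hC1 : 0 ≤ C1 ν K Rr := by unfold C1; positivity
  have hC2 : 0 ≤ C2 κ Rr := by unfold C2; positivity
  -- the cut-off functions vanish on the frontier
  have hfrF : ∀ {w : P3 → ℝ}, ContDiff ℝ 3 w → (∀ t ∈ Ioo a b, ∀ z ∈ frontier Ω, z ∈ U →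
      (sl w t z = 0 ∧ d1 (sl w t) z = 0 ∧ d2 (sl w t) z = 0)) → ∀ t ∈ Icc (t₀ - δ) (t₀ + δ),
      ∀ z ∈ frontier Ω', sl (cut O c w) t z = 0 ∧ d1 (sl (cut O c w) t) z = 0 ∧
        d2 (sl (cut O c w) t) z = 0 := by
    intro w hw h t ht z hz
    have hw2 : ContDiff ℝ 2 (sl w t) := (sl_contDiff (n := 3) hw t).of_le (by norm_num)
    rw [cut_sl, chi_d1 hw2, chi_d2 hw2]
    simp only
    rcases hfr' z hz with h1 | ⟨h1, h2⟩
    · unfold chi
      rw [h1]; simp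
    · obtain ⟨e1, e2, e3⟩ := h t (hδI t ht) z h1 h2
      rw [e1, e2, e3]; simp
  rintro zs ⟨hzs, hzμ⟩
  by_contra hcon
  -- a neighbourhood where the cut-off functions do not vanish
  obtain ⟨s, hs⟩ : ∃ s : ℝ, s = (μ + R2 O zs) / 2 := ⟨_, rfl⟩
  have hzμ' : μ < R2 O zs := hzμ
  have hs1 : μ < s := by rw [hs]; linarith
  have hs2 : s < R2 O zs := by rw [hs]; linarith
  obtain ⟨β, hβ⟩ : ∃ β : ℝ, β = (cut O c w1 (t₀, zs) ^ 2 + cut O c w2 (t₀, zs) ^ 2) / 2 :=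
    ⟨_, rfl⟩
  have hchi : 0 < chi O c zs := by
    unfold chi
    have : 0 < R2 O zs - c := by linarith
    positivity
  have hβ0 : 0 < β := by
    have h1 : w1 (t₀, zs) ^ 2 + w2 (t₀, zs) ^ 2 ≠ 0 := by
      intro h
      have h2 : w1 (t₀, zs) ^ 2 = 0 := by nlinarith [sq_nonneg (w1 (t₀, zs)), sq_nonneg (w2 (t₀, zs))]
      have h3 : w2 (t₀, zs) ^ 2 = 0 := by nlinarith [sq_nonneg (w1 (t₀, zs)), sq_nonneg (w2 (t₀, zs))]
      exact hcon ⟨by simpa using h2, by simpa using h3⟩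
    have h2 : 0 < w1 (t₀, zs) ^ 2 + w2 (t₀, zs) ^ 2 :=
      lt_of_le_of_ne (by positivity) (Ne.symm h1)
    have h3 : β = chi O c zs ^ 2 * (w1 (t₀, zs) ^ 2 + w2 (t₀, zs) ^ 2) / 2 := by
      rw [hβ]; unfold cut; ring
    rw [h3]; positivity
  obtain ⟨ε, hε, hnb⟩ : ∃ ε > 0, ∀ y : P3, dist y (t₀, zs) < ε →
      β < cut O c w1 y ^ 2 + cut O c w2 y ^ 2 ∧ s < R2 O y.2 ∧ y.2 ∈ Ω := by
    have k1 : Continuous fun y : P3 => cut O c w1 y ^ 2 + cut O c w2 y ^ 2 :=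
      (hF1.continuous.pow 2).add (hF2.continuous.pow 2)
    have k2 : Continuous fun y : P3 => R2 O y.2 := hcR2.comp continuous_snd
    have e1 : ∀ᶠ y in 𝓝 ((t₀, zs) : P3), β < cut O c w1 y ^ 2 + cut O c w2 y ^ 2 :=
      k1.continuousAt.eventually (lt_mem_nhds (by simp only; linarith))
    have e2 : ∀ᶠ y in 𝓝 ((t₀, zs) : P3), s < R2 O y.2 :=
      k2.continuousAt.eventually (lt_mem_nhds (by simp only; exact hs2))
    have e3 : ∀ᶠ y in 𝓝 ((t₀, zs) : P3), y.2 ∈ Ω :=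
      continuous_snd.continuousAt.eventually (hΩ.mem_nhds hzs)
    obtain ⟨ε, hε, h⟩ := Metric.eventually_nhds_iff.1 (e1.and (e2.and e3))
    exact ⟨ε, hε, fun y hy => h hy⟩
  obtain ⟨B, hB⟩ : ∃ B : Set P2, B = Metric.ball zs ε := ⟨_, rfl⟩
  have hBo : IsOpen B := by rw [hB]; exact Metric.isOpen_ball
  obtain ⟨η, hη⟩ : ∃ η : ℝ, η = min (min (ε / 2) δ) (min 1 ((s - μ) / (4 * γ))) := ⟨_, rfl⟩
  have hη0 : 0 < η := by
    have : 0 < s - μ := by linarith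
    rw [hη]; positivity
  have hη1 : η ≤ ε / 2 := by rw [hη]; exact (min_le_left _ _).trans (min_le_left _ _)
  have hη2 : η ≤ δ := by rw [hη]; exact (min_le_left _ _).trans (min_le_right _ _)
  have hη3 : η ≤ 1 := by rw [hη]; exact (min_le_right _ _).trans (min_le_left _ _)
  have hη4 : η ≤ (s - μ) / (4 * γ) := by rw [hη]; exact (min_le_right _ _).trans (min_le_right _ _)
  have hη5 : μ < s - 2 * γ * η ^ 2 := by
    rw [le_div_iff₀ (by positivity)] at hη4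
    have h1 : γ * η ^ 2 ≤ γ * η := by
      apply mul_le_mul_of_nonneg_left _ hγ0.le
      nlinarith
    nlinarith
  have hin' : ∀ t ∈ Icc (t₀ - η) (t₀ + η), ∀ z ∈ B, dist ((t, z) : P3) (t₀, zs) < ε := by
    intro t ht z hz
    rw [hB] at hz
    rw [Prod.dist_eq, max_lt_iff]
    refine ⟨?_, hz⟩
    rw [Real.dist_eq, abs_lt]
    constructor <;> simp only <;> linarith [ht.1, ht.2]
  have ht₀I : t₀ ∈ Icc (t₀ - η) (t₀ + η) := ⟨by linarith, by linarith⟩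
  have hBΩ : B ⊆ Ω' := by
    intro z hz
    have h1 := hnb (t₀, z) (hin' t₀ ht₀I z hz)
    rw [hΩ']
    exact ⟨h1.2.2, by have := h1.2.1; simp only at this; simp only [Set.mem_ofPred_eq]; linarith⟩
  obtain ⟨A2, hA2⟩ : ∃ A2 : ℝ, A2 = (volume B).toReal := ⟨_, rfl⟩
  have hA20 : 0 < A2 := by
    rw [hA2, hB]
    exact ENNReal.toReal_pos (Metric.measure_ball_pos volume zs hε).ne'
      (measure_ball_lt_top).ne
  -- contradiction for large parameter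
  refine exp_contra (K₁ := 4 * η * ν ^ 2 * (c * β) * A2)
    (K₂ := 4 * δ * (C1 ν K Rr * Smax * A1) + 2 * ν * ((2 + 3 * Rr) * (2 * Tmax) * A1))
    (s := s - 2 * γ * η ^ 2) (μ := μ)
    (τ₀ := max (1 / c) (6 * C1 ν K Rr * C2 κ Rr / ν ^ 2)) (by positivity) hη5 ?_
  intro τ hτ1 hτ2
  have hτ0 : 0 < τ := by linarith
  have hτc : 1 ≤ τ ^ 2 * c := by
    have h1 : 1 / c ≤ τ := (le_max_left _ _).trans hτ1
    rw [div_le_iff₀ hc] at h1
    nlinarith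
  have hτB : 6 * C1 ν K Rr * C2 κ Rr ≤ ν ^ 2 * τ := by
    have h1 : 6 * C1 ν K Rr * C2 κ Rr / ν ^ 2 ≤ τ := (le_max_right _ _).trans hτ1
    rw [div_le_iff₀ (by positivity)] at h1
    linarith
  have hsl2 : ∀ {F : P3 → ℝ}, ContDiff ℝ 3 F → ∀ t, ContDiff ℝ 2 (sl F t) := fun hF t =>
    (sl_contDiff (n := 3) hF t).of_le (by norm_num)
  have key := time_real (q := fun t => (∫ z in Ω', qq τ O (sl (cut O c w1) t) z)
      + ∫ z in Ω', qq τ O (sl (cut O c w2) t) z)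
    (q' := fun t => (∫ z in Ω', 2 * qt τ O (sl (cut O c w1) t) (sl (Dt (cut O c w1)) t) z)
      + ∫ z in Ω', 2 * qt τ O (sl (cut O c w2) t) (sl (Dt (cut O c w2)) t) z)
    (N := fun t => (∫ z in Ω', NN τ O (sl (cut O c w1) t) z)
      + ∫ z in Ω', NN τ O (sl (cut O c w2) t) z) (t₀ := t₀) (δ := δ) (η := η) (ν := ν) (τ := τ)
    (A := 2 * ((C1 ν K Rr * Smax * Real.exp (τ * (c + κ))) * A1))
    (B := 6 * C1 ν K Rr * C2 κ Rr)
    (n₀ := τ ^ 2 * (c * β) * Real.exp (τ * s) * A2) hδ hη0 hη2 hν hτ0 hγ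
    (fun t => (qq_deriv hΩ'b hF1 τ O t).add (qq_deriv hΩ'b hF2 τ O t))
    (fun t ht => (abs_add_le _ _).trans (add_le_add (qq_le hΩ'o hΩ'b (hsl2 hF1 t) τ O)
      (qq_le hΩ'o hΩ'b (hsl2 hF2 t) τ O)))
    (fun t ht => by
      have h1 := cut_energy hΩ'o hΩ'b hw1 hw2 (O := O) (c := c) (κ := κ) (Rr := Rr) (ν := ν)
        (K := K) (Smax := Smax) (τ := τ) (t := t) hc hκ hK hτc hτ0 hreg
        (fun z hz => (hin t (hδI t ht) z (hΩ's hz)).1) (hS t ht)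
        (hfrF hw1 (fun t ht z hz hz' => (hfr t ht z hz hz').1) t ht)
      have h2 := cut_energy hΩ'o hΩ'b hw2 hw1 (O := O) (c := c) (κ := κ) (Rr := Rr) (ν := ν)
        (K := K) (Smax := Smax) (τ := τ) (t := t) hc hκ hK hτc hτ0 hreg
        (fun z hz => by
          rw [add_comm (sz (sl w2 t) z)]; exact (hin t (hδI t ht) z (hΩ's hz)).2)
        (fun z hz => by rw [add_comm]; exact hS t ht z hz)
        (hfrF hw2 (fun t ht z hz hz' => (hfr t ht z hz hz').2) t ht)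
      rw [← hA1] at h1 h2
      linarith)
    (by positivity) hτB
    (fun t ht => by
      rw [hA2]
      refine NN_lower hΩ'b hBo hBΩ (hsl2 hF1 t) (hsl2 hF2 t) hτ0 hc hβ0 ?_ ?_ ?_
      · intro z hz
        exact (hnb _ (hin' t ht z hz)).2.1.le
      · intro z hz
        exact (hreg z (hBΩ hz)).1
      · intro z hz
        exact (hnb _ (hin' t ht z hz)).1.le)
    (by positivity)
  have hup : ∀ t ∈ Icc (t₀ - δ) (t₀ + δ), (∫ z in Ω', NN τ O (sl (cut O c w1) t) z)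
      + (∫ z in Ω', NN τ O (sl (cut O c w2) t) z) ≤
      2 * (Real.exp (τ * Rr) * ((1 + τ ^ 2) * ((2 + 3 * Rr) * Tmax)) * A1) := by
    intro t ht
    have h1 := NN_upper hΩ'o hΩ'b (hsl2 hF1 t) hτ0 (fun z hz => (hreg z hz).2)
      (fun z hz => (hT t ht z hz).1)
    have h2 := NN_upper hΩ'o hΩ'b (hsl2 hF2 t) hτ0 (fun z hz => (hreg z hz).2)
      (fun z hz => (hT t ht z hz).2)
    rw [hA1]
    linarith
  have u1 := hup (t₀ + δ) ⟨by linarith, le_rfl⟩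
  have u2 := hup (t₀ - δ) ⟨le_rfl, by linarith⟩
  have hsum : ν * Real.exp (-2 * τ * γ * δ ^ 2) *
      (((∫ z in Ω', NN τ O (sl (cut O c w1) (t₀ + δ)) z)
        + ∫ z in Ω', NN τ O (sl (cut O c w2) (t₀ + δ)) z)
      + ((∫ z in Ω', NN τ O (sl (cut O c w1) (t₀ - δ)) z)
        + ∫ z in Ω', NN τ O (sl (cut O c w2) (t₀ - δ)) z)) ≤
      ν * Real.exp (-2 * τ * γ * δ ^ 2) *
      (4 * (Real.exp (τ * Rr) * ((1 + τ ^ 2) * ((2 + 3 * Rr) * Tmax)) * A1)) := by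
    apply mul_le_mul_of_nonneg_left _ (by positivity)
    linarith
  have hx1 : Real.exp (τ * (c + κ)) ≤ (1 + τ ^ 2) * Real.exp (τ * μ) := by
    have h1 : Real.exp (τ * (c + κ)) ≤ Real.exp (τ * μ) := by
      rw [Real.exp_le_exp]; exact mul_le_mul_of_nonneg_left hμ1 hτ0.le
    have h2 : 0 < Real.exp (τ * μ) := Real.exp_pos _
    nlinarith [sq_nonneg τ]
  have hx2 : Real.exp (-2 * τ * γ * δ ^ 2) * Real.exp (τ * Rr) ≤ Real.exp (τ * μ) := by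
    rw [← Real.exp_add, Real.exp_le_exp]
    have := mul_le_mul_of_nonneg_left hμ2 hτ0.le
    linarith
  have hx3 : Real.exp (-2 * τ * γ * η ^ 2) * Real.exp (τ * s) =
      Real.exp (τ * (s - 2 * γ * η ^ 2)) := by
    rw [← Real.exp_add]; congr 1; ring
  have hL : 4 * η * ν ^ 2 * (c * β) * A2 * τ ^ 3 * Real.exp (τ * (s - 2 * γ * η ^ 2)) =
      4 * η * ν ^ 2 * τ * Real.exp (-2 * τ * γ * η ^ 2) *
        (τ ^ 2 * (c * β) * Real.exp (τ * s) * A2) := by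
    rw [← hx3]; ring
  rw [hL]
  refine (key.trans (add_le_add le_rfl hsum)).trans ?_
  have hy1 : 2 * δ * (2 * (C1 ν K Rr * Smax * Real.exp (τ * (c + κ)) * A1)) ≤
      4 * δ * (C1 ν K Rr * Smax * A1) * ((1 + τ ^ 2) * Real.exp (τ * μ)) := by
    have h1 : 0 ≤ 4 * δ * (C1 ν K Rr * Smax * A1) := by positivity
    have := mul_le_mul_of_nonneg_left hx1 h1
    linarith
  have hy2 : ν * Real.exp (-2 * τ * γ * δ ^ 2) *
      (4 * (Real.exp (τ * Rr) * ((1 + τ ^ 2) * ((2 + 3 * Rr) * Tmax)) * A1)) ≤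
      2 * ν * ((2 + 3 * Rr) * (2 * Tmax) * A1) * ((1 + τ ^ 2) * Real.exp (τ * μ)) := by
    have h1 : 0 ≤ 2 * ν * ((2 + 3 * Rr) * (2 * Tmax) * A1) * (1 + τ ^ 2) := by positivity
    have := mul_le_mul_of_nonneg_left hx2 h1
    linarith
  linarith

end Run7.h105
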