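import Pool.Agent.Run7.h105.UcpD
import Pool.Agent.Run7.h105.Geo

/-!
# Near a strictly convex wall point: the difference has zero gradient there or the mean vanishes
-/

set_option autoImplicit false

namespace Run7.h105

open Set Filter Topology MeasureTheory Pool.Agent.H754R3.PR

theorem wall_strong {Ω : Set P2} {w1 w2 m1 m2 : P2 → ℝ} (hw1 : ContDiff ℝ 2 w1)
    (hw2 : ContDiff ℝ 2 w2) (hm1 : ContDiff ℝ 1 m1) (hm2 : ContDiff ℝ 1 m2)
    {U : Set P2} (hU : IsOpen U) {h : ℝ → ℝ} (hh : ContDiff ℝ 2 h)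
    (hloc : ∀ p ∈ U, p ∈ Ω ↔ h p.1 < p.2) (hΩ : IsOpen Ω)
    {x₁ : ℝ} (hx : ((x₁, h x₁) : P2) ∈ U) (hc : 0 < deriv (deriv h) x₁)
    (divw : ∀ x ∈ Ω, d1 w1 x + d2 w2 x = 0) (divm : ∀ x ∈ Ω, d1 m1 x + d2 m2 x = 0)
    (tr : ∀ x ∈ Ω, d1 m1 x * d1 w1 x + d2 m1 x * d1 w2 x + d1 m2 x * d2 w1 x
      + d2 m2 x * d2 w2 x = 0)
    (bw : ∀ x ∈ frontier Ω, w1 x = 0 ∧ w2 x = 0) (bm : ∀ x ∈ frontier Ω, m1 x = 0 ∧ m2 x = 0)
    (hne : d2 w1 (x₁, h x₁) ≠ 0) :
    ∃ ρ > 0, ∀ z ∈ Ω, dist z (x₁, h x₁) < ρ → m1 z = 0 ∧ m2 z = 0 := by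
  have D : ∀ {F : P2 → ℝ}, ContDiff ℝ 1 F → Differentiable ℝ F := fun h =>
    h.differentiable (by norm_num)
  have dw1x : ContDiff ℝ 1 (d1 w1) := d1_contDiff (m := 1) (n := 2) hw1 (by norm_num)
  have dw1y : ContDiff ℝ 1 (d2 w1) := d2_contDiff (m := 1) (n := 2) hw1 (by norm_num)
  have dw2x : ContDiff ℝ 1 (d1 w2) := d1_contDiff (m := 1) (n := 2) hw2 (by norm_num)
  have dw2y : ContDiff ℝ 1 (d2 w2) := d2_contDiff (m := 1) (n := 2) hw2 (by norm_num)
  obtain ⟨k, hk⟩ : ∃ k : ℝ → ℝ, k = deriv h := ⟨_, rfl⟩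
  have hh1 : ∀ x, HasDerivAt h (k x) x := fun x => by
    rw [hk]; exact ((hh.differentiable (by norm_num)) x).hasDerivAt
  have hkc : ContDiff ℝ 1 k := by
    rw [hk]
    have h2 : ContDiff ℝ (1 + 1) h := by norm_num; exact hh
    exact ((contDiff_succ_iff_deriv (n := 1)).1 h2).2.2
  have hk1 : ∀ x, HasDerivAt k (deriv k x) x := fun x =>
    ((hkc.differentiable (by norm_num)) x).hasDerivAt
  have hh1c : ContDiff ℝ 1 h := hh.of_le (by norm_num)
  -- sign
  obtain ⟨σ, hσ⟩ : ∃ σ : ℝ, 0 < -σ * d2 w1 (x₁, h x₁) := by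
    exact ⟨-d2 w1 (x₁, h x₁), by rw [neg_neg]; exact mul_self_pos.2 hne⟩
  -- the size of the neighbourhood
  obtain ⟨r₀, hr₀, hr⟩ : ∃ r₀ > 0, ∀ x ξ : ℝ, |x - x₁| < r₀ → 0 ≤ ξ → ξ < r₀ →
      ((x, h x + ξ) : P2) ∈ U := by
    have hcont : Continuous fun z : P2 => ((z.1, h z.1 + z.2) : P2) := by
      have := hh.continuous
      fun_prop
    have h1 : ((x₁, (0 : ℝ)) : P2) ∈ (fun z : P2 => ((z.1, h z.1 + z.2) : P2)) ⁻¹' U := by
      simpa using hx
    obtain ⟨δ, hδ, hb⟩ := Metric.isOpen_iff.1 (hU.preimage hcont) _ h1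
    refine ⟨δ, hδ, fun x ξ h2 h3 h4 => ?_⟩
    have h5 : ((x, ξ) : P2) ∈ Metric.ball ((x₁, (0 : ℝ)) : P2) δ := by
      rw [Metric.mem_ball, Prod.dist_eq, max_lt_iff, Real.dist_eq, Real.dist_eq]
      simp only [sub_zero]
      exact ⟨h2, by rwa [abs_of_nonneg h3]⟩
    exact hb h5
  have hfr : ∀ x, |x - x₁| < r₀ → ((x, h x) : P2) ∈ frontier Ω := by
    intro x hx'
    refine graph_frontier hU hloc ?_
    simpa using hr x 0 hx' le_rfl hr₀
  have hin : ∀ x ξ : ℝ, |x - x₁| < r₀ → 0 < ξ → ξ < r₀ → ((x, h x + ξ) : P2) ∈ Ω := by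
    intro x ξ h1 h2 h3
    rw [hloc _ (hr x ξ h1 h2.le h3)]
    simp only
    linarith
  -- the relations at the wall
  have hGc : ContDiff ℝ 1 (fun z : P2 => ((z.1, h z.1 + z.2) : P2)) :=
    contDiff_fst.prodMk ((hh1c.comp contDiff_fst).add contDiff_snd)
  have hkc1 : ContDiff ℝ 1 (fun z : P2 => k z.1) := hkc.comp contDiff_fst
  have hgraph : ∀ x, HasDerivAt (fun s : ℝ => ((s, h s) : P2)) ((1 : ℝ), k x) x := fun x =>
    (hasDerivAt_id x).prodMk (hh1 x)
  have htan : ∀ {F : P2 → ℝ}, Differentiable ℝ F → ∀ x, HasDerivAt (fun s => F (s, h s))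
      (d1 F (x, h x) + k x * d2 F (x, h x)) x := by
    intro F hF x
    have h1 : HasDerivAt (fun s => F (s, h s)) (fderiv ℝ F (x, h x) ((1 : ℝ), k x)) x :=
      (hF (x, h x)).hasFDerivAt.comp_hasDerivAt x (hgraph x)
    rw [fderiv_eq_of_d] at h1
    refine h1.congr_deriv ?_
    simp only [one_mul]
  have hzero : ∀ {F : P2 → ℝ}, Differentiable ℝ F → (∀ x ∈ frontier Ω, F x = 0) →
      ∀ x, |x - x₁| < r₀ → d1 F (x, h x) + k x * d2 F (x, h x) = 0 := by
    intro F hF h0 x hx'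
    have h1 := htan hF x
    have h2 : (fun s => F (s, h s)) =ᶠ[𝓝 x] fun _ => 0 := by
      have : {s : ℝ | |s - x₁| < r₀} ∈ 𝓝 x :=
        (isOpen_lt (by fun_prop) continuous_const).mem_nhds hx'
      filter_upwards [this] with s hs
      exact h0 _ (hfr s hs)
    have h3 := (hasDerivAt_const x (0 : ℝ)).congr_of_eventuallyEq h2
    exact h1.unique h3
  have divwb : ∀ x ∈ frontier Ω, d1 w1 x + d2 w2 x = 0 :=
    zero_on_frontier (dw1x.continuous.add dw2y.continuous) divw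
  have hxxΩ : ∀ x ∈ Ω, d1 (d1 w1) x + d2 (d1 w2) x = 0 := by
    intro x hx'
    rw [← d_comm hw2]
    have h1 : (fun y => d1 w1 y + d2 w2 y) =ᶠ[𝓝 x] fun _ => 0 := by
      filter_upwards [hΩ.mem_nhds hx'] with y hy using divw y hy
    have h2 := d1_add (D dw1x) (D dw2y) x
    rw [← h2, d1, h1.fderiv_eq]
    simp
  have hxxb : ∀ x ∈ frontier Ω, d1 (d1 w1) x + d2 (d1 w2) x = 0 :=
    zero_on_frontier ((d1_contDiff (m := 0) (n := 1) dw1x (by norm_num)).continuous.add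
      (d2_contDiff (m := 0) (n := 1) dw2x (by norm_num)).continuous) hxxΩ
  -- the gradients of the coefficients
  have gk : ∀ z : P2, Gr (fun y => k y.1) (deriv k z.1) 0 z := fun z =>
    (Gr.comp1 (hk1 z.1) Gr.fst).eq (by ring) (by ring)
  have gG : ∀ {F : P2 → ℝ}, Differentiable ℝ F → ∀ z : P2, Gr (fun y => F (y.1, h y.1 + y.2))
      (d1 F (z.1, h z.1 + z.2) + k z.1 * d2 F (z.1, h z.1 + z.2))
      (d2 F (z.1, h z.1 + z.2)) z := by
    intro F hF z
    have g1 : Gr (fun y : P2 => h y.1 + y.2) (k z.1) 1 z :=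
      ((Gr.comp1 (hh1 z.1) Gr.fst).add Gr.snd).eq (by ring) (by ring)
    exact ((Gr.of (hF (z.1, h z.1 + z.2))).comp2 (Gr.fst (x := z)) g1).eq (by ring) (by ring)
  have ga : ∀ z : P2, Gr (fun y => -σ * d2 w1 (y.1, h y.1 + y.2))
      (-σ * (d1 (d2 w1) (z.1, h z.1 + z.2) + k z.1 * d2 (d2 w1) (z.1, h z.1 + z.2)))
      (-σ * (d2 (d2 w1) (z.1, h z.1 + z.2))) z := fun z => (gG (D dw1y) z).cmul (-σ)
  have gb : ∀ z : P2, Gr (fun y => σ * (d1 w1 (y.1, h y.1 + y.2)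
      + k y.1 * d2 w1 (y.1, h y.1 + y.2)))
      (σ * ((d1 (d1 w1) (z.1, h z.1 + z.2) + k z.1 * d2 (d1 w1) (z.1, h z.1 + z.2))
        + (k z.1 * (d1 (d2 w1) (z.1, h z.1 + z.2) + k z.1 * d2 (d2 w1) (z.1, h z.1 + z.2))
          + deriv k z.1 * d2 w1 (z.1, h z.1 + z.2))))
      (σ * (d2 (d1 w1) (z.1, h z.1 + z.2) + (k z.1 * d2 (d2 w1) (z.1, h z.1 + z.2)
        + 0 * d2 w1 (z.1, h z.1 + z.2)))) z := fun z =>
    ((gG (D dw1x) z).add ((gk z).mul (gG (D dw1y) z))).cmul σ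
  have gA : ∀ z : P2, Gr (fun y => m2 (y.1, h y.1 + y.2) - k y.1 * m1 (y.1, h y.1 + y.2))
      ((d1 m2 (z.1, h z.1 + z.2) + k z.1 * d2 m2 (z.1, h z.1 + z.2))
        - (k z.1 * (d1 m1 (z.1, h z.1 + z.2) + k z.1 * d2 m1 (z.1, h z.1 + z.2))
          + deriv k z.1 * m1 (z.1, h z.1 + z.2)))
      (d2 m2 (z.1, h z.1 + z.2) - (k z.1 * d2 m1 (z.1, h z.1 + z.2)
        + 0 * m1 (z.1, h z.1 + z.2))) z := fun z =>
    (gG (D hm2) z).sub ((gk z).mul (gG (D hm1) z))
  have gB : ∀ z : P2, Gr (fun y => (-1) * m1 (y.1, h y.1 + y.2))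
      ((-1) * (d1 m1 (z.1, h z.1 + z.2) + k z.1 * d2 m1 (z.1, h z.1 + z.2)))
      ((-1) * d2 m1 (z.1, h z.1 + z.2)) z := fun z => (gG (D hm1) z).cmul (-1)
  have gd : ∀ z : P2, Gr (fun y => σ * ((k y.1 * (2 * d1 w1 (y.1, h y.1 + y.2)
      + k y.1 * d2 w1 (y.1, h y.1 + y.2))) - d1 w2 (y.1, h y.1 + y.2)))
      (d1 (fun y => σ * ((k y.1 * (2 * d1 w1 (y.1, h y.1 + y.2)
      + k y.1 * d2 w1 (y.1, h y.1 + y.2))) - d1 w2 (y.1, h y.1 + y.2))) z)
      (σ * (2 * k z.1 * d2 (d1 w1) (z.1, h z.1 + z.2)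
        + k z.1 * k z.1 * d2 (d2 w1) (z.1, h z.1 + z.2) - d2 (d1 w2) (z.1, h z.1 + z.2))) z := by
    intro z
    have g1 := (((gk z).mul (((gG (D dw1x) z).cmul 2).add ((gk z).mul (gG (D dw1y) z)))).sub
      (gG (D dw2x) z)).cmul σ
    exact g1.eq g1.d1.symm (by ring)
  have cG : ∀ {F : P2 → ℝ}, ContDiff ℝ 1 F → ContDiff ℝ 1 (fun z : P2 => F (z.1, h z.1 + z.2)) :=
    fun hF => hF.comp hGc
  obtain ⟨r, hr, hfin⟩ := hyp (A := fun y => m2 (y.1, h y.1 + y.2) - k y.1 * m1 (y.1, h y.1 + y.2))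
    (B := fun y => (-1) * m1 (y.1, h y.1 + y.2)) (a := fun y => -σ * d2 w1 (y.1, h y.1 + y.2))
    (b := fun y => σ * (d1 w1 (y.1, h y.1 + y.2) + k y.1 * d2 w1 (y.1, h y.1 + y.2)))
    (d := fun y => σ * ((k y.1 * (2 * d1 w1 (y.1, h y.1 + y.2)
      + k y.1 * d2 w1 (y.1, h y.1 + y.2))) - d1 w2 (y.1, h y.1 + y.2)))
    ((cG hm2).sub (hkc1.mul (cG hm1))) (contDiff_const.mul (cG hm1))
    (contDiff_const.mul (cG dw1y)) (contDiff_const.mul ((cG dw1x).add (hkc1.mul (cG dw1y))))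
    (contDiff_const.mul ((hkc1.mul ((contDiff_const.mul (cG dw1x)).add
      (hkc1.mul (cG dw1y)))).sub (cG dw2x))) (x₀ := x₁) (r₀ := r₀) hr₀
    (by
      intro z h1 h2 h3
      have hz := hin z.1 z.2 h1 h2 h3
      rw [(gA z).d2, (gB z).d1]
      have e1 := divm _ hz
      linear_combination e1)
    (by
      intro z h1 h2 h3
      have hz := hin z.1 z.2 h1 h2 h3
      have e1 := divm _ hz
      have e2 := divw _ hz
      have e3 := hxxΩ _ hz
      have e4 := tr _ hz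
      have e5 := d_comm hw1 (z.1, h z.1 + z.2)
      rw [(gA z).d1, (gA z).d2, (ga z).d1, (gb z).d1, (gB z).d1, (gb z).d2, (gB z).d2, (gd z).d2]
      have key := wall_alg (σ := σ) (h' := k z.1) (h'' := deriv k z.1)
        (m1 := m1 (z.1, h z.1 + z.2)) (m2 := m2 (z.1, h z.1 + z.2))
        (m1x := d1 m1 (z.1, h z.1 + z.2)) (m1y := d2 m1 (z.1, h z.1 + z.2))
        (m2x := d1 m2 (z.1, h z.1 + z.2)) (m2y := d2 m2 (z.1, h z.1 + z.2))
        (w1x := d1 w1 (z.1, h z.1 + z.2)) (w1y := d2 w1 (z.1, h z.1 + z.2))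
        (w2x := d1 w2 (z.1, h z.1 + z.2)) (w2y := d2 w2 (z.1, h z.1 + z.2))
        (w1xx := d1 (d1 w1) (z.1, h z.1 + z.2)) (w1xy := d2 (d1 w1) (z.1, h z.1 + z.2))
        (w1yy := d2 (d2 w1) (z.1, h z.1 + z.2)) (w2xy := d2 (d1 w2) (z.1, h z.1 + z.2))
        (by linarith) (by linarith) (by linarith) e4
      rw [e5]
      linear_combination key)
    (by
      intro x h1
      have e1 := bm _ (hfr x h1)
      simp [e1.1, e1.2])
    (by
      intro x h1
      have e1 := hzero (hw1.differentiable (by norm_num)) (fun x hx => (bw x hx).1) x h1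
      simp only [add_zero]
      rw [e1, mul_zero])
    (by
      intro x h1
      have e1 := hzero (hw1.differentiable (by norm_num)) (fun x hx => (bw x hx).1) x h1
      have e2 := hzero (hw2.differentiable (by norm_num)) (fun x hx => (bw x hx).2) x h1
      have e3 := divwb _ (hfr x h1)
      simp only [add_zero]
      linear_combination σ * k x * e1 - σ * e2 + σ * k x * e3)
    (by simpa using hσ)
    (by
      rw [(gd (x₁, 0)).d2]
      simp only [add_zero]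
      have h1 : |x₁ - x₁| < r₀ := by simpa using hr₀
      have e3 := hxxb _ (hfr x₁ h1)
      have e5 := d_comm hw1 (x₁, h x₁)
      -- derivative of the relation `w1x + k w1y = 0` along the graph
      have h2 := (htan (D dw1x) x₁).add ((hk1 x₁).mul (htan (D dw1y) x₁))
      have h3 : (fun s => d1 w1 (s, h s) + k s * d2 w1 (s, h s)) =ᶠ[𝓝 x₁] fun _ => 0 := by
        have : {s : ℝ | |s - x₁| < r₀} ∈ 𝓝 x₁ :=
          (isOpen_lt (by fun_prop) continuous_const).mem_nhds h1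
        filter_upwards [this] with s hs
        exact hzero (hw1.differentiable (by norm_num)) (fun x hx => (bw x hx).1) s hs
      have h4 := (hasDerivAt_const x₁ (0 : ℝ)).congr_of_eventuallyEq h3
      have h5 := h2.unique h4
      rw [hk] at h5 ⊢
      have h6 : 0 < deriv (deriv h) x₁ * (-σ * d2 w1 (x₁, h x₁)) := mul_pos hc hσ
      have h7 : σ * (2 * deriv h x₁ * d2 (d1 w1) (x₁, h x₁)
        + deriv h x₁ * deriv h x₁ * d2 (d2 w1) (x₁, h x₁) - d2 (d1 w2) (x₁, h x₁))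
        = deriv (deriv h) x₁ * (-σ * d2 w1 (x₁, h x₁)) := by
        linear_combination σ * h5 - σ * e3 - σ * deriv h x₁ * e5
      rw [h7]
      exact h6)
  have hcont : Continuous fun z : P2 => z.2 - h z.1 := by
    have := hh.continuous
    fun_prop
  have hev : ∀ᶠ z in 𝓝 ((x₁, h x₁) : P2), z ∈ U ∧ |z.1 - x₁| < r ∧ z.2 - h z.1 < r := by
    have q1 : Continuous fun z : P2 => |z.1 - x₁| := by fun_prop
    have q0 : ∀ᶠ z in 𝓝 ((x₁, h x₁) : P2), z ∈ U := hU.mem_nhds hx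
    refine q0.and (Eventually.and ?_ ?_)
    · exact q1.continuousAt.eventually (gt_mem_nhds (by simpa using hr))
    · exact hcont.continuousAt.eventually (gt_mem_nhds (by simpa using hr))
  obtain ⟨ρ, hρ, h1⟩ := Metric.eventually_nhds_iff.1 hev
  refine ⟨ρ, hρ, ?_⟩
  rintro ⟨x, y⟩ hz hd
  obtain ⟨k1, k2, k3⟩ := h1 hd
  have k4 := (hloc _ k1).1 hz
  simp only at k2 k3 k4
  have h4 := hfin (x, y - h x) k2 (by simp only; linarith) k3
  simp only [add_sub_cancel] at h4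
  obtain ⟨h5, h6⟩ := h4
  have h7 : m1 (x, y) = 0 := by linarith
  rw [h7] at h5
  exact ⟨h7, by linarith⟩

/-- the fields of the stationary wall problem -/
structure WallFld (Ω : Set P2) (w1 w2 m1 m2 : P2 → ℝ) : Prop where
  w1c : ContDiff ℝ 2 w1
  w2c : ContDiff ℝ 2 w2
  m1c : ContDiff ℝ 1 m1
  m2c : ContDiff ℝ 1 m2
  divw : ∀ x ∈ Ω, d1 w1 x + d2 w2 x = 0
  divm : ∀ x ∈ Ω, d1 m1 x + d2 m2 x = 0
  tr : ∀ x ∈ Ω, d1 m1 x * d1 w1 x + d2 m1 x * d1 w2 x + d1 m2 x * d2 w1 x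
      + d2 m2 x * d2 w2 x = 0
  bw : ∀ x ∈ frontier Ω, w1 x = 0 ∧ w2 x = 0
  bm : ∀ x ∈ frontier Ω, m1 x = 0 ∧ m2 x = 0

/-- at `z`, the gradient of the difference vanishes or the mean vanishes near `z` -/
def WallAt (Ω : Set P2) (z : P2) : Prop :=
  ∀ w1 w2 m1 m2 : P2 → ℝ, WallFld Ω w1 w2 m1 m2 →
    (d1 w1 z = 0 ∧ d2 w1 z = 0 ∧ d1 w2 z = 0 ∧ d2 w2 z = 0) ∨
      ∃ ρ > 0, ∀ y ∈ Ω, dist y z < ρ → m1 y = 0 ∧ m2 y = 0

lemma tang_zero' {Ω U : Set P2} (hU : IsOpen U) {h : ℝ → ℝ} (hh : Differentiable ℝ h)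
    (hloc : ∀ p ∈ U, p ∈ Ω ↔ h p.1 < p.2) {F : P2 → ℝ} (hF : Differentiable ℝ F)
    (h0 : ∀ x ∈ frontier Ω, F x = 0) {x : ℝ} (hx : ((x, h x) : P2) ∈ U) :
    d1 F (x, h x) + deriv h x * d2 F (x, h x) = 0 := by
  have hgraph : HasDerivAt (fun s : ℝ => ((s, h s) : P2)) ((1 : ℝ), deriv h x) x :=
    (hasDerivAt_id x).prodMk (hh x).hasDerivAt
  have h1 : HasDerivAt (fun s => F (s, h s)) (fderiv ℝ F (x, h x) ((1 : ℝ), deriv h x)) x :=
    (hF (x, h x)).hasFDerivAt.comp_hasDerivAt x hgraph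
  rw [fderiv_eq_of_d] at h1
  simp only [one_mul] at h1
  have hc : Continuous fun s : ℝ => ((s, h s) : P2) := by
    have := hh.continuous
    fun_prop
  have h2 : (fun s => F (s, h s)) =ᶠ[𝓝 x] fun _ => 0 := by
    have : (fun s : ℝ => ((s, h s) : P2)) ⁻¹' U ∈ 𝓝 x := (hU.preimage hc).mem_nhds hx
    filter_upwards [this] with s hs
    exact h0 _ (graph_frontier hU hloc hs)
  have h3 := (hasDerivAt_const x (0 : ℝ)).congr_of_eventuallyEq h2
  exact h1.unique h3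

/-- first type of chart -/
lemma wallAt_chart {Ω : Set P2} (hΩ : IsOpen Ω) {U : Set P2} (hU : IsOpen U) {h : ℝ → ℝ}
    (hh : ContDiff ℝ 2 h) (hloc : ∀ p ∈ U, p ∈ Ω ↔ h p.1 < p.2) {z : P2} (hz : z ∈ frontier Ω)
    (hzU : z ∈ U) (hc : 0 < deriv (deriv h) z.1) : WallAt Ω z := by
  intro w1 w2 m1 m2 H
  have hhc := hh.continuous
  have hzh : z.2 = h z.1 := by
    have h2 := level_zero hΩ hU (φ := fun p => p.2 - h p.1) (by fun_prop)
      (fun p hp => by rw [hloc p hp, sub_pos]) hzU hz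
    linarith
  have hze : z = (z.1, h z.1) := by rw [← hzh]
  have hmem : ((z.1, h z.1) : P2) ∈ U := by rw [← hze]; exact hzU
  by_cases h2z : d2 w1 z = 0
  · left
    have hhd : Differentiable ℝ h := hh.differentiable (by norm_num)
    have D : ∀ {F : P2 → ℝ}, ContDiff ℝ 2 F → Differentiable ℝ F := fun h =>
      h.differentiable (by norm_num)
    have t1 := tang_zero' hU hhd hloc (D H.w1c) (fun x hx => (H.bw x hx).1) hmem
    have t2 := tang_zero' hU hhd hloc (D H.w2c) (fun x hx => (H.bw x hx).2) hmem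
    rw [← hze] at t1 t2
    have c1 : Continuous (d1 w1) :=
      (d1_contDiff (m := 1) (n := 2) H.w1c (by norm_num)).continuous
    have c2 : Continuous (d2 w2) :=
      (d2_contDiff (m := 1) (n := 2) H.w2c (by norm_num)).continuous
    have h3 := zero_on_frontier (c1.add c2) H.divw z hz
    have h1z : d1 w1 z = 0 := by rw [h2z, mul_zero, add_zero] at t1; exact t1
    have h4z : d2 w2 z = 0 := by
      simp only [Pi.add_apply] at h3
      rw [h1z, zero_add] at h3; exact h3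
    have h5z : d1 w2 z = 0 := by rw [h4z, mul_zero, add_zero] at t2; exact t2
    exact ⟨h1z, h2z, h5z, h4z⟩
  · right
    obtain ⟨ρ, hρ, h1⟩ := wall_strong H.w1c H.w2c H.m1c H.m2c hU hh hloc hΩ hmem hc H.divw H.divm
      H.tr H.bw H.bm (by rw [← hze]; exact h2z)
    rw [← hze] at h1
    exact ⟨ρ, hρ, h1⟩

section refl

/-- reflection -/
def sR (z : P2) : P2 := (z.1, -z.2)

/-- exchange of the coordinates -/
def sT (z : P2) : P2 := (z.2, z.1)

lemma sR_sR (z : P2) : sR (sR z) = z := by simp [sR]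
lemma sT_sT (z : P2) : sT (sT z) = z := by simp [sT]
lemma sR_contDiff {n : WithTop ℕ∞} : ContDiff ℝ n sR := contDiff_fst.prodMk contDiff_snd.neg
lemma sT_contDiff {n : WithTop ℕ∞} : ContDiff ℝ n sT := contDiff_snd.prodMk contDiff_fst

lemma R2_sR (x y : P2) : R2 (sR x) (sR y) = R2 x y := by simp only [R2, sR]; ring
lemma R2_sT (x y : P2) : R2 (sT x) (sT y) = R2 x y := by simp only [R2, sT]; ring

lemma dist_sR (x y : P2) : dist (sR x) (sR y) = dist x y := by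
  simp only [sR, Prod.dist_eq, Real.dist_eq]
  congr 1
  rw [show -x.2 - -y.2 = -(x.2 - y.2) by ring, abs_neg]

lemma dist_sT (x y : P2) : dist (sT x) (sT y) = dist x y := by
  simp only [sT, Prod.dist_eq, Real.dist_eq]
  exact max_comm _ _

lemma frontier_sR (Ω : Set P2) : frontier (sR ⁻¹' Ω) = sR ⁻¹' frontier Ω := by
  let e : P2 ≃ₜ P2 :=
    { toFun := sR, invFun := sR, left_inv := sR_sR, right_inv := sR_sR
      continuous_toFun := (sR_contDiff (n := 0)).continuous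
      continuous_invFun := (sR_contDiff (n := 0)).continuous }
  exact (e.preimage_frontier Ω).symm

lemma frontier_sT (Ω : Set P2) : frontier (sT ⁻¹' Ω) = sT ⁻¹' frontier Ω := by
  let e : P2 ≃ₜ P2 :=
    { toFun := sT, invFun := sT, left_inv := sT_sT, right_inv := sT_sT
      continuous_toFun := (sT_contDiff (n := 0)).continuous
      continuous_invFun := (sT_contDiff (n := 0)).continuous }
  exact (e.preimage_frontier Ω).symm

lemma Gr_sR {F : P2 → ℝ} (hF : Differentiable ℝ F) (z : P2) :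
    Gr (fun y => F (sR y)) (d1 F (sR z)) (-d2 F (sR z)) z := by
  have g1 : Gr (fun y : P2 => (-1) * y.2) 0 (-1) z := (Gr.snd.cmul (-1)).eq (by ring) (by ring)
  have g2 : Gr (fun y : P2 => F (y.1, (-1) * y.2)) (d1 F (sR z)) (-d2 F (sR z)) z := by
    have e : ((z.1, (-1) * z.2) : P2) = sR z := by simp [sR]
    have h1 : Gr F (d1 F (sR z)) (d2 F (sR z)) (z.1, (-1) * z.2) := by
      rw [e]; exact Gr.of (hF (sR z))
    exact (h1.comp2 (Gr.fst (x := z)) g1).eq (by ring) (by ring)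
  refine g2.ev ?_
  ext y
  simp [sR]

lemma Gr_sT {F : P2 → ℝ} (hF : Differentiable ℝ F) (z : P2) :
    Gr (fun y => F (sT y)) (d2 F (sT z)) (d1 F (sT z)) z := by
  have h1 : Gr F (d1 F (sT z)) (d2 F (sT z)) (z.2, z.1) := Gr.of (hF (sT z))
  exact (h1.comp2 (Gr.snd (x := z)) (Gr.fst (x := z))).eq (by ring) (by ring)

lemma wallAt_sR {Ω : Set P2} {z : P2} (h : WallAt (sR ⁻¹' Ω) (sR z)) : WallAt Ω z := by
  intro w1 w2 m1 m2 H
  have D : ∀ {F : P2 → ℝ}, ContDiff ℝ 1 F → Differentiable ℝ F := fun h =>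
    h.differentiable (by norm_num)
  have hw1 := D (H.w1c.of_le (by norm_num))
  have hw2 := D (H.w2c.of_le (by norm_num))
  have hm1 := D H.m1c
  have hm2 := D H.m2c
  have g1 := fun z => Gr_sR hw1 z
  have g2 := fun z => (Gr_sR hw2 z).cmul (-1)
  have g3 := fun z => Gr_sR hm1 z
  have g4 := fun z => (Gr_sR hm2 z).cmul (-1)
  have key := h (fun y => w1 (sR y)) (fun y => (-1) * w2 (sR y)) (fun y => m1 (sR y))
    (fun y => (-1) * m2 (sR y))
    { w1c := H.w1c.comp sR_contDiff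
      w2c := contDiff_const.mul (H.w2c.comp sR_contDiff)
      m1c := H.m1c.comp sR_contDiff
      m2c := contDiff_const.mul (H.m2c.comp sR_contDiff)
      divw := fun x hx => by
        rw [(g1 x).d1, (g2 x).d2]
        have := H.divw (sR x) hx
        linarith
      divm := fun x hx => by
        rw [(g3 x).d1, (g4 x).d2]
        have := H.divm (sR x) hx
        linarith
      tr := fun x hx => by
        rw [(g1 x).d1, (g1 x).d2, (g2 x).d1, (g2 x).d2, (g3 x).d1, (g3 x).d2, (g4 x).d1,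
          (g4 x).d2]
        have := H.tr (sR x) hx
        linarith
      bw := fun x hx => by
        rw [frontier_sR] at hx
        have := H.bw (sR x) hx
        exact ⟨this.1, by rw [this.2, mul_zero]⟩
      bm := fun x hx => by
        rw [frontier_sR] at hx
        have := H.bm (sR x) hx
        exact ⟨this.1, by rw [this.2, mul_zero]⟩ }
  rcases key with hk | ⟨ρ, hρ, hk⟩
  · left
    rw [(g1 _).d1, (g1 _).d2, (g2 _).d1, (g2 _).d2, sR_sR] at hk
    obtain ⟨k1, k2, k3, k4⟩ := hk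
    exact ⟨k1, by linarith, by linarith, by linarith⟩
  · right
    refine ⟨ρ, hρ, fun y hy hd => ?_⟩
    have := hk (sR y) (by rw [Set.mem_preimage, sR_sR]; exact hy) (by rw [dist_sR]; exact hd)
    simp only [sR_sR] at this
    exact ⟨this.1, by linarith [this.2]⟩

lemma wallAt_sT {Ω : Set P2} {z : P2} (h : WallAt (sT ⁻¹' Ω) (sT z)) : WallAt Ω z := by
  intro w1 w2 m1 m2 H
  have D : ∀ {F : P2 → ℝ}, ContDiff ℝ 1 F → Differentiable ℝ F := fun h =>
    h.differentiable (by norm_num)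
  have hw1 := D (H.w1c.of_le (by norm_num))
  have hw2 := D (H.w2c.of_le (by norm_num))
  have hm1 := D H.m1c
  have hm2 := D H.m2c
  have g1 := fun z => Gr_sT hw2 z
  have g2 := fun z => Gr_sT hw1 z
  have g3 := fun z => Gr_sT hm2 z
  have g4 := fun z => Gr_sT hm1 z
  have key := h (fun y => w2 (sT y)) (fun y => w1 (sT y)) (fun y => m2 (sT y))
    (fun y => m1 (sT y))
    { w1c := H.w2c.comp sT_contDiff
      w2c := H.w1c.comp sT_contDiff
      m1c := H.m2c.comp sT_contDiff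
      m2c := H.m1c.comp sT_contDiff
      divw := fun x hx => by
        rw [(g1 x).d1, (g2 x).d2]
        have := H.divw (sT x) hx
        linarith
      divm := fun x hx => by
        rw [(g3 x).d1, (g4 x).d2]
        have := H.divm (sT x) hx
        linarith
      tr := fun x hx => by
        rw [(g1 x).d1, (g1 x).d2, (g2 x).d1, (g2 x).d2, (g3 x).d1, (g3 x).d2, (g4 x).d1,
          (g4 x).d2]
        have := H.tr (sT x) hx
        linarith
      bw := fun x hx => by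
        rw [frontier_sT] at hx
        have := H.bw (sT x) hx
        exact ⟨this.2, this.1⟩
      bm := fun x hx => by
        rw [frontier_sT] at hx
        have := H.bm (sT x) hx
        exact ⟨this.2, this.1⟩ }
  rcases key with hk | ⟨ρ, hρ, hk⟩
  · left
    rw [(g1 _).d1, (g1 _).d2, (g2 _).d1, (g2 _).d2, sT_sT] at hk
    obtain ⟨k1, k2, k3, k4⟩ := hk
    exact ⟨k4, k3, k2, k1⟩
  · right
    refine ⟨ρ, hρ, fun y hy hd => ?_⟩
    have := hk (sT y) (by rw [Set.mem_preimage, sT_sT]; exact hy) (by rw [dist_sT]; exact hd)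
    simp only [sT_sT] at this
    exact ⟨this.2, this.1⟩

end refl

/-- `z` is a strictly convex point of the frontier: near `z`, `Ω` lies in a disc whose boundary
contains `z` -/
def Curved (Ω : Set P2) (z : P2) : Prop :=
  z ∈ frontier Ω ∧ ∃ O : P2, ∃ U : Set P2, IsOpen U ∧ z ∈ U ∧ ∀ y ∈ Ω, y ∈ U → R2 O y ≤ R2 O z

lemma curved_sR {Ω : Set P2} {z : P2} (h : Curved Ω z) : Curved (sR ⁻¹' Ω) (sR z) := by
  obtain ⟨h1, O, U, hU, hzU, h2⟩ := h
  refine ⟨by rw [frontier_sR, Set.mem_preimage, sR_sR]; exact h1, sR O, sR ⁻¹' U,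
    hU.preimage (sR_contDiff (n := 0)).continuous,
    by rw [Set.mem_preimage, sR_sR]; exact hzU, fun y hy hyU => ?_⟩
  have := h2 (sR y) hy hyU
  rw [← R2_sR O (sR y), sR_sR] at this
  rw [R2_sR]
  exact this

lemma curved_sT {Ω : Set P2} {z : P2} (h : Curved Ω z) : Curved (sT ⁻¹' Ω) (sT z) := by
  obtain ⟨h1, O, U, hU, hzU, h2⟩ := h
  refine ⟨by rw [frontier_sT, Set.mem_preimage, sT_sT]; exact h1, sT O, sT ⁻¹' U,
    hU.preimage (sT_contDiff (n := 0)).continuous,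
    by rw [Set.mem_preimage, sT_sT]; exact hzU, fun y hy hyU => ?_⟩
  have := h2 (sT y) hy hyU
  rw [← R2_sT O (sT y), sT_sT] at this
  rw [R2_sT]
  exact this

/-- the chart is strictly convex at a strictly convex point -/
lemma curv_pos {Ω : Set P2} (hΩ : IsOpen Ω) {U : Set P2} (hU : IsOpen U) {h : ℝ → ℝ}
    (hh : ContDiff ℝ 2 h) (hloc : ∀ p ∈ U, p ∈ Ω ↔ h p.1 < p.2) {z : P2} (hzU : z ∈ U)
    (hz : Curved Ω z) : 0 < deriv (deriv h) z.1 := by
  obtain ⟨hzf, O, W, hW, hzW, henc⟩ := hz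
  have hhc := hh.continuous
  have hzh : z.2 = h z.1 := by
    have h2 := level_zero hΩ hU (φ := fun p => p.2 - h p.1) (by fun_prop)
      (fun p hp => by rw [hloc p hp, sub_pos]) hzU hzf
    linarith
  -- closure version of the enclosure
  have henc' : ∀ y ∈ closure Ω, y ∈ W → R2 O y ≤ R2 O z := by
    intro y hy hyW
    by_contra hcon
    push Not at hcon
    have h1 : W ∩ {x | R2 O z < R2 O x} ∈ 𝓝 y :=
      (hW.inter (isOpen_lt continuous_const (R2_cont O))).mem_nhds ⟨hyW, hcon⟩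
    obtain ⟨x, ⟨hx1, hx2⟩, hx3⟩ := mem_closure_iff_nhds.1 hy _ h1
    have h2 := henc x hx3 hx1
    rw [Set.mem_ofPred_eq] at hx2
    linarith
  -- the centre is above the wall
  have hO : z.2 < O.2 := by
    obtain ⟨δ, hδ, h3⟩ := vert_mem (hU.inter hW) (c := fun s => (z.1, z.2 + s))
      (by fun_prop) (by simpa using ⟨hzU, hzW⟩)
    obtain ⟨h4, h5⟩ := h3 (δ / 2) (by rw [abs_of_pos (by positivity)]; linarith)
    have h6 : ((z.1, z.2 + δ / 2) : P2) ∈ Ω := by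
      rw [hloc _ h4]; simp only; linarith
    have h7 := henc _ h6 h5
    unfold R2 at h7
    simp only at h7
    nlinarith
  by_contra hcon
  push Not at hcon
  obtain ⟨x₁, hx₁⟩ : ∃ x₁ : ℝ, x₁ = z.1 := ⟨_, rfl⟩
  rw [← hx₁] at hcon hzh
  have hd1 : ∀ x, HasDerivAt h (deriv h x) x := fun x =>
    ((hh.differentiable (by norm_num)) x).hasDerivAt
  have hkc : ContDiff ℝ 1 (deriv h) := by
    have h2 : ContDiff ℝ (1 + 1) h := by norm_num; exact hh
    exact ((contDiff_succ_iff_deriv (n := 1)).1 h2).2.2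
  have hd2 : ∀ x, HasDerivAt (deriv h) (deriv (deriv h) x) x := fun x =>
    ((hkc.differentiable (by norm_num)) x).hasDerivAt
  obtain ⟨ψ, hψ⟩ : ∃ ψ : ℝ → ℝ, ψ = fun x => (x - O.1) ^ 2 + (h x - O.2) ^ 2 := ⟨_, rfl⟩
  have e1 : ∀ x, HasDerivAt ψ (2 * (x - O.1) + 2 * (h x - O.2) * deriv h x) x := by
    intro x
    rw [hψ]
    have k1 := ((hasDerivAt_id x).sub_const O.1).pow 2
    have k2 := ((hd1 x).sub_const O.2).pow 2
    refine (k1.add k2).congr_deriv ?_
    simp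
  have e2 : deriv ψ = fun x => 2 * (x - O.1) + 2 * (h x - O.2) * deriv h x :=
    funext fun x => (e1 x).deriv
  have e3 : HasDerivAt (deriv ψ)
      (2 + (2 * deriv h x₁ * deriv h x₁ + 2 * (h x₁ - O.2) * deriv (deriv h) x₁)) x₁ := by
    rw [e2]
    have k1 := ((hasDerivAt_id x₁).sub_const O.1).const_mul 2
    have k2 := (((hd1 x₁).sub_const O.2).const_mul 2).mul (hd2 x₁)
    refine (k1.add k2).congr_deriv ?_
    simp
  have hmaxψ : IsLocalMax ψ x₁ := by
    have hc : Continuous fun s : ℝ => ((s, h s) : P2) := by fun_prop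
    have hmem : ((x₁, h x₁) : P2) ∈ U ∩ W := by
      rw [← hzh, hx₁]; exact ⟨hzU, hzW⟩
    have h1 : (fun s : ℝ => ((s, h s) : P2)) ⁻¹' (U ∩ W) ∈ 𝓝 x₁ :=
      ((hU.inter hW).preimage hc).mem_nhds hmem
    filter_upwards [h1] with s hs
    have h2 := (graph_frontier hU hloc hs.1).1
    have h3 := henc' _ h2 hs.2
    unfold R2 at h3
    simp only at h3
    rw [hψ]
    simp only
    rw [← hzh, hx₁]
    nlinarith
  have hz0 : deriv ψ x₁ = 0 := hmaxψ.deriv_eq_zero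
  have hpos : 0 < deriv (deriv ψ) x₁ := by
    rw [e3.deriv]
    have h1 : h x₁ - O.2 < 0 := by rw [← hzh]; linarith
    have h2 : 0 ≤ (h x₁ - O.2) * deriv (deriv h) x₁ := mul_nonneg_of_nonpos_of_nonpos h1.le hcon
    nlinarith [mul_self_nonneg (deriv h x₁)]
  have hminψ : IsLocalMin ψ x₁ :=
    isLocalMin_of_deriv_deriv_pos hpos hz0 (e1 x₁).continuousAt
  have heq : ψ =ᶠ[𝓝 x₁] fun _ => ψ x₁ := by
    filter_upwards [hmaxψ, hminψ] with s h1 h2
    exact le_antisymm h1 h2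
  have h1 : deriv ψ =ᶠ[𝓝 x₁] fun _ => 0 := by
    filter_upwards [heq.eventuallyEq_nhds] with s h1
    rw [h1.deriv_eq]
    simp
  have h2 : deriv (deriv ψ) x₁ = 0 := by
    rw [h1.deriv_eq]; simp
  linarith

lemma wall_near1 {Ω : Set P2} (hΩ : IsOpen Ω) {U : Set P2} (hU : IsOpen U) {h : ℝ → ℝ}
    (hh : ContDiff ℝ 2 h) (hloc : ∀ p ∈ U, p ∈ Ω ↔ h p.1 < p.2) {z : P2} (hzU : z ∈ U)
    (hz : Curved Ω z) : ∀ᶠ y in 𝓝 z, y ∈ frontier Ω → WallAt Ω y := by
  have hkc : Continuous (deriv (deriv h)) := by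
    have h2 : ContDiff ℝ (1 + 1) h := by norm_num; exact hh
    have h3 : ContDiff ℝ 1 (deriv h) := ((contDiff_succ_iff_deriv (n := 1)).1 h2).2.2
    have h4 : ContDiff ℝ (0 + 1) (deriv h) := by norm_num; exact h3
    exact ((contDiff_succ_iff_deriv (n := 0)).1 h4).2.2.continuous
  have h1 : U ∩ {y | 0 < deriv (deriv h) y.1} ∈ 𝓝 z :=
    (hU.inter (isOpen_lt continuous_const (hkc.comp continuous_fst))).mem_nhds
      ⟨hzU, curv_pos hΩ hU hh hloc hzU hz⟩
  filter_upwards [h1] with y hy hyf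
  exact wallAt_chart hΩ hU hh hloc hyf hy.1 hy.2

lemma ev_sR {P : P2 → Prop} {z : P2} (h : ∀ᶠ y in 𝓝 (sR z), P y) : ∀ᶠ y in 𝓝 z, P (sR y) :=
  (sR_contDiff (n := 0)).continuous.continuousAt.eventually h

lemma ev_sT {P : P2 → Prop} {z : P2} (h : ∀ᶠ y in 𝓝 (sT z), P y) : ∀ᶠ y in 𝓝 z, P (sT y) :=
  (sT_contDiff (n := 0)).continuous.continuousAt.eventually h

lemma wall_near2 {Ω : Set P2} (hΩ : IsOpen Ω) {U : Set P2} (hU : IsOpen U) {h : ℝ → ℝ}
    (hh : ContDiff ℝ 2 h) (hloc : ∀ p ∈ U, p ∈ Ω ↔ p.2 < h p.1) {z : P2} (hzU : z ∈ U)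
    (hz : Curved Ω z) : ∀ᶠ y in 𝓝 z, y ∈ frontier Ω → WallAt Ω y := by
  have h1 := wall_near1 (hΩ.preimage (sR_contDiff (n := 0)).continuous)
    (hU.preimage (sR_contDiff (n := 0)).continuous) (h := fun x => -h x) hh.neg
    (fun p hp => by
      have := hloc (sR p) hp
      simp only [sR] at this
      constructor
      · intro hp'
        have := this.1 hp'
        linarith
      · intro hp'
        exact this.2 (by linarith))
    (z := sR z) (by rw [Set.mem_preimage, sR_sR]; exact hzU) (curved_sR hz)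
  filter_upwards [ev_sR h1] with y hy hyf
  exact wallAt_sR (hy (by rw [frontier_sR, Set.mem_preimage, sR_sR]; exact hyf))

/-- near a strictly convex point of a `C²` frontier, all points of the frontier are wall points -/
theorem wall_near {Ω : Set P2} (hΩ : IsOpen Ω) (hs : BdryClass 2 Ω) {z : P2}
    (hz : Curved Ω z) : ∀ᶠ y in 𝓝 z, y ∈ frontier Ω → WallAt Ω y := by
  obtain ⟨U, hU, hzU, h, hh, htype⟩ := hs z hz.1
  rcases htype with h1 | h1 | h1 | h1
  · exact wall_near1 hΩ hU hh h1 hzU hz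
  · exact wall_near2 hΩ hU hh h1 hzU hz
  · have h2 := wall_near1 (hΩ.preimage (sT_contDiff (n := 0)).continuous)
      (hU.preimage (sT_contDiff (n := 0)).continuous) (h := h) hh
      (fun p hp => h1 (sT p) hp) (z := sT z) (by rw [Set.mem_preimage, sT_sT]; exact hzU)
      (curved_sT hz)
    filter_upwards [ev_sT h2] with y hy hyf
    exact wallAt_sT (hy (by rw [frontier_sT, Set.mem_preimage, sT_sT]; exact hyf))
  · have h2 := wall_near2 (hΩ.preimage (sT_contDiff (n := 0)).continuous)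
      (hU.preimage (sT_contDiff (n := 0)).continuous) (h := h) hh
      (fun p hp => h1 (sT p) hp) (z := sT z) (by rw [Set.mem_preimage, sT_sT]; exact hzU)
      (curved_sT hz)
    filter_upwards [ev_sT h2] with y hy hyf
    exact wallAt_sT (hy (by rw [frontier_sT, Set.mem_preimage, sT_sT]; exact hyf))

end Run7.h105
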