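import Pool.Agent.Run7.h105.LocE
import Pool.Agent.Run7.h105.Wall2
import Pool.Agent.H754R3.PR.Curv

/-!
# Unique continuation from a strictly convex wall point
-/

set_option autoImplicit false

namespace Run7.h105

open Set Filter Topology MeasureTheory Pool.Agent.H754R3.PR

theorem ucp_curved {Ω : Set P2} (hΩ : IsOpen Ω) {z₁ : P2} (hz : Curved Ω z₁)
    {w1 w2 : P3 → ℝ} (hw1 : ContDiff ℝ 3 w1) (hw2 : ContDiff ℝ 3 w2) {ν : ℝ} (hν : 0 < ν)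
    {U : Set P2} (hU : IsOpen U) (hzU : z₁ ∈ U) {a b K : ℝ} (hK : 0 ≤ K)
    (hfr : ∀ t ∈ Ioo a b, ∀ z ∈ frontier Ω, z ∈ U →
      (sl w1 t z = 0 ∧ d1 (sl w1 t) z = 0 ∧ d2 (sl w1 t) z = 0) ∧
      (sl w2 t z = 0 ∧ d1 (sl w2 t) z = 0 ∧ d2 (sl w2 t) z = 0))
    (hin : ∀ t ∈ Ioo a b, ∀ z ∈ Ω,
      (ν * (d1 (d1 (sl w1 t)) z + d2 (d2 (sl w1 t)) z) - Dt w1 (t, z)) ^ 2 ≤
        K * (sz (sl w1 t) z + sz (sl w2 t) z) ∧
      (ν * (d1 (d1 (sl w2 t)) z + d2 (d2 (sl w2 t)) z) - Dt w2 (t, z)) ^ 2 ≤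
        K * (sz (sl w1 t) z + sz (sl w2 t) z))
    {η₀ : ℝ} (hη₀ : 0 < η₀) :
    ∃ V, IsOpen V ∧ V.Nonempty ∧ V ⊆ Ω ∧ ∀ t₀ ∈ Ioo (a + η₀) (b - η₀), ∀ z ∈ V,
      w1 (t₀, z) = 0 ∧ w2 (t₀, z) = 0 := by
  obtain ⟨hzf, O, W, hW, hzW, henc⟩ := hz
  obtain ⟨δ, hδ, hball⟩ := Metric.isOpen_iff.1 (hU.inter hW) z₁ ⟨hzU, hzW⟩
  obtain ⟨Ω₁, hΩ₁⟩ : ∃ Ω₁ : Set P2, Ω₁ = Ω ∩ Metric.ball z₁ δ := ⟨_, rfl⟩
  have hΩ₁o : IsOpen Ω₁ := by rw [hΩ₁]; exact hΩ.inter Metric.isOpen_ball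
  have hΩ₁s : Ω₁ ⊆ Ω := by rw [hΩ₁]; exact inter_subset_left
  have hΩ₁b : Bornology.IsBounded Ω₁ := by
    rw [hΩ₁]; exact Metric.isBounded_ball.subset inter_subset_right
  have hzc : z₁ ∈ closure Ω₁ := by
    rw [mem_closure_iff_nhds]
    intro N hN
    obtain ⟨y, hy1, hy2⟩ := mem_closure_iff_nhds.1 hzf.1 _
      (Filter.inter_mem hN (Metric.ball_mem_nhds z₁ hδ))
    exact ⟨y, hy1.1, by rw [hΩ₁]; exact ⟨hy2, hy1.2⟩⟩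
  have hne : Ω₁.Nonempty := by
    by_contra h
    rw [Set.not_nonempty_iff_eq_empty] at h
    rw [h] at hzc
    simp at hzc
  obtain ⟨O', hO'⟩ : ∃ O' : P2, O' = (2 * O.1 - z₁.1, 2 * O.2 - z₁.2) := ⟨_, rfl⟩
  have hid : ∀ y, R2 z₁ y + R2 O' y = 2 * R2 O y + 2 * R2 O z₁ := by
    intro y; rw [hO']; unfold R2; ring
  have hid' : R2 O' z₁ = 4 * R2 O z₁ := by rw [hO']; unfold R2; ring
  have hexp : ∀ y ∈ closure Ω₁, R2 z₁ y + R2 O' y ≤ R2 O' z₁ := by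
    have h1 : closure Ω₁ ⊆ {y | R2 z₁ y + R2 O' y ≤ R2 O' z₁} := by
      refine closure_minimal (fun y hy => ?_)
        (isClosed_le ((R2_cont z₁).add (R2_cont O')) continuous_const)
      rw [hΩ₁] at hy
      have h2 := henc y hy.1 (hball hy.2).2
      rw [Set.mem_ofPred_eq, hid, hid']
      linarith
    exact fun y hy => h1 hy
  have hfr₁ : ∀ z ∈ frontier Ω₁, z ∈ Metric.ball z₁ δ → z ∈ frontier Ω := by
    intro z hz hzb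
    refine ⟨closure_mono hΩ₁s hz.1, fun hi => ?_⟩
    rw [hΩ.interior_eq] at hi
    have h2 := hz.2
    rw [hΩ₁o.interior_eq] at h2
    exact h2 (by rw [hΩ₁]; exact ⟨hi, hzb⟩)
  obtain ⟨V, hV, hVne, hVs, hV0⟩ := loc_ucp_unif hΩ₁o hΩ₁b hne hw1 hw2 hν (z₁ := z₁) (O := O')
    hzc hexp Metric.isOpen_ball (Metric.mem_ball_self hδ) (a := a) (b := b) hK
    (fun t ht z hz hzb => hfr t ht z (hfr₁ z hz hzb) (hball hzb).1)
    (fun t ht z hz => hin t ht z (hΩ₁s hz)) hη₀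
  exact ⟨V, hV, hVne, hVs.trans hΩ₁s, hV0⟩

/-- bound of the equation of the difference -/
lemma eq_bound {w1 w2 a1 a2 : P3 → ℝ} {ν M t : ℝ} {z : P2} (hM0 : 0 ≤ M)
    (b1 : sz (sl a1 t) z ≤ M) (b2 : sz (sl a2 t) z ≤ M)
    (e1 : ν * (d1 (d1 (sl w1 t)) z + d2 (d2 (sl w1 t)) z) = Dt w1 (t, z) +
      (a1 (t, z) * d1 (sl w1 t) z + a2 (t, z) * d2 (sl w1 t) z + w1 (t, z) * d1 (sl a1 t) z
        + w2 (t, z) * d2 (sl a1 t) z))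
    (e2 : ν * (d1 (d1 (sl w2 t)) z + d2 (d2 (sl w2 t)) z) = Dt w2 (t, z) +
      (a1 (t, z) * d1 (sl w2 t) z + a2 (t, z) * d2 (sl w2 t) z + w1 (t, z) * d1 (sl a2 t) z
        + w2 (t, z) * d2 (sl a2 t) z)) :
    (ν * (d1 (d1 (sl w1 t)) z + d2 (d2 (sl w1 t)) z) - Dt w1 (t, z)) ^ 2 ≤
        4 * M * (sz (sl w1 t) z + sz (sl w2 t) z) ∧
      (ν * (d1 (d1 (sl w2 t)) z + d2 (d2 (sl w2 t)) z) - Dt w2 (t, z)) ^ 2 ≤
        4 * M * (sz (sl w1 t) z + sz (sl w2 t) z) := by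
  have halg : ∀ {a b x y p q r s S T : ℝ}, a ^ 2 ≤ T → b ^ 2 ≤ T → x ^ 2 + y ^ 2 ≤ T →
      p ^ 2 + q ^ 2 + r ^ 2 + s ^ 2 ≤ S → 0 ≤ T →
      (a * p + b * q + r * x + s * y) ^ 2 ≤ 4 * T * S := by
    intro a b x y p q r s S T h1 h2 h3 h4 h5
    have k1 : (a * p + b * q + r * x + s * y) ^ 2 ≤
        4 * ((a * p) ^ 2 + (b * q) ^ 2 + (r * x) ^ 2 + (s * y) ^ 2) := four_sq _ _ _ _
    have k2 : (a * p) ^ 2 ≤ T * p ^ 2 := by rw [mul_pow]; gcongr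
    have k3 : (b * q) ^ 2 ≤ T * q ^ 2 := by rw [mul_pow]; gcongr
    have k4 : (r * x) ^ 2 ≤ T * r ^ 2 := by
      have : x ^ 2 ≤ T := by nlinarith [sq_nonneg y]
      rw [mul_pow, mul_comm]; gcongr
    have k5 : (s * y) ^ 2 ≤ T * s ^ 2 := by
      have : y ^ 2 ≤ T := by nlinarith [sq_nonneg x]
      rw [mul_pow, mul_comm]; gcongr
    have k6 := mul_le_mul_of_nonneg_left h4 h5
    nlinarith
  unfold sz at b1 b2 ⊢
  have q1 : sl a1 t z = a1 (t, z) := rfl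
  have q2 : sl a2 t z = a2 (t, z) := rfl
  have q3 : sl w1 t z = w1 (t, z) := rfl
  have q4 : sl w2 t z = w2 (t, z) := rfl
  rw [q1] at b1
  rw [q2] at b2
  rw [q3, q4]
  constructor
  · have := halg (a := a1 (t, z)) (b := a2 (t, z)) (x := d1 (sl a1 t) z)
      (y := d2 (sl a1 t) z) (p := d1 (sl w1 t) z) (q := d2 (sl w1 t) z) (r := w1 (t, z))
      (s := w2 (t, z)) (S := w1 (t, z) ^ 2 + d1 (sl w1 t) z ^ 2 + d2 (sl w1 t) z ^ 2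
        + (w2 (t, z) ^ 2 + d1 (sl w2 t) z ^ 2 + d2 (sl w2 t) z ^ 2)) (T := M)
      (by nlinarith [sq_nonneg (d1 (sl a1 t) z), sq_nonneg (d2 (sl a1 t) z)])
      (by nlinarith [sq_nonneg (d1 (sl a2 t) z), sq_nonneg (d2 (sl a2 t) z)])
      (by nlinarith [sq_nonneg (a1 (t, z))])
      (by nlinarith [sq_nonneg (d1 (sl w2 t) z), sq_nonneg (d2 (sl w2 t) z)]) hM0
    rw [e1]
    refine le_trans (le_of_eq ?_) this
    ring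
  · have := halg (a := a1 (t, z)) (b := a2 (t, z)) (x := d1 (sl a2 t) z)
      (y := d2 (sl a2 t) z) (p := d1 (sl w2 t) z) (q := d2 (sl w2 t) z) (r := w1 (t, z))
      (s := w2 (t, z)) (S := w1 (t, z) ^ 2 + d1 (sl w1 t) z ^ 2 + d2 (sl w1 t) z ^ 2
        + (w2 (t, z) ^ 2 + d1 (sl w2 t) z ^ 2 + d2 (sl w2 t) z ^ 2)) (T := M)
      (by nlinarith [sq_nonneg (d1 (sl a1 t) z), sq_nonneg (d2 (sl a1 t) z)])
      (by nlinarith [sq_nonneg (d1 (sl a2 t) z), sq_nonneg (d2 (sl a2 t) z)])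
      (by nlinarith [sq_nonneg (a2 (t, z))])
      (by nlinarith [sq_nonneg (d1 (sl w1 t) z), sq_nonneg (d2 (sl w1 t) z)]) hM0
    rw [e2]
    refine le_trans (le_of_eq ?_) this
    ring

/-- vanishing of the gradient of the difference near a strictly convex wall point during a time
interval implies vanishing of the difference -/
theorem zero_of_wall {Ω : Set P2} (hΩ : IsOpen Ω) (hconn : IsPreconnected Ω)
    (hb : Bornology.IsBounded Ω) {z₁ : P2} (hz : Curved Ω z₁)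
    {ν : ℝ} (hν : 0 < ν) {w1 w2 a1 a2 : P3 → ℝ}
    (hw1 : ContDiff ℝ 3 w1) (hw2 : ContDiff ℝ 3 w2) (ha1 : ContDiff ℝ 3 a1) (ha2 : ContDiff ℝ 3 a2)
    {a b : ℝ}
    (hm1 : ∀ t ∈ Ioo a b, ∀ x ∈ Ω, ν * (d1 (d1 (sl w1 t)) x + d2 (d2 (sl w1 t)) x) =
      Dt w1 (t, x) + (a1 (t, x) * d1 (sl w1 t) x + a2 (t, x) * d2 (sl w1 t) x
        + w1 (t, x) * d1 (sl a1 t) x + w2 (t, x) * d2 (sl a1 t) x))
    (hm2 : ∀ t ∈ Ioo a b, ∀ x ∈ Ω, ν * (d1 (d1 (sl w2 t)) x + d2 (d2 (sl w2 t)) x) =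
      Dt w2 (t, x) + (a1 (t, x) * d1 (sl w2 t) x + a2 (t, x) * d2 (sl w2 t) x
        + w1 (t, x) * d1 (sl a2 t) x + w2 (t, x) * d2 (sl a2 t) x))
    {U : Set P2} (hU : IsOpen U) (hzU : z₁ ∈ U)
    (hfr : ∀ t ∈ Ioo a b, ∀ z ∈ frontier Ω, z ∈ U →
      (sl w1 t z = 0 ∧ d1 (sl w1 t) z = 0 ∧ d2 (sl w1 t) z = 0) ∧
      (sl w2 t z = 0 ∧ d1 (sl w2 t) z = 0 ∧ d2 (sl w2 t) z = 0)) :
    ∀ t ∈ Ioo a b, ∀ x ∈ Ω, w1 (t, x) = 0 ∧ w2 (t, x) = 0 := by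
  intro t₀ ht₀
  obtain ⟨δ, hδdef⟩ : ∃ δ : ℝ, δ = min (t₀ - a) (b - t₀) / 2 := ⟨_, rfl⟩
  have hδ : 0 < δ := by
    have h1 : 0 < t₀ - a := by linarith [ht₀.1]
    have h2 : 0 < b - t₀ := by linarith [ht₀.2]
    rw [hδdef]; positivity
  have hδI : ∀ t ∈ Ioo (t₀ - δ) (t₀ + δ), t ∈ Ioo a b := by
    intro t ht
    have h1 := min_le_left (t₀ - a) (b - t₀)
    have h2 := min_le_right (t₀ - a) (b - t₀)
    constructor <;> linarith [ht.1, ht.2]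
  have hKc : IsCompact (Icc (t₀ - δ) (t₀ + δ) ×ˢ closure Ω) :=
    isCompact_Icc.prod hb.isCompact_closure
  obtain ⟨M1, hM1⟩ := hKc.exists_bound_of_continuousOn
    (sz_cont (ha1.of_le (by norm_num))).continuousOn
  obtain ⟨M2, hM2⟩ := hKc.exists_bound_of_continuousOn
    (sz_cont (ha2.of_le (by norm_num))).continuousOn
  obtain ⟨M, hM⟩ : ∃ M : ℝ, M = |M1| + |M2| := ⟨_, rfl⟩
  have hM0 : 0 ≤ M := by rw [hM]; positivity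
  have hin : ∀ t ∈ Ioo (t₀ - δ) (t₀ + δ), ∀ z ∈ Ω,
      sz (sl a1 t) z ≤ M ∧ sz (sl a2 t) z ≤ M := by
    intro t ht z hz
    have hm : ((t, z) : P3) ∈ Icc (t₀ - δ) (t₀ + δ) ×ˢ closure Ω :=
      ⟨⟨ht.1.le, ht.2.le⟩, subset_closure hz⟩
    have h1 := (le_abs_self _).trans (hM1 _ hm)
    have h2 := (le_abs_self _).trans (hM2 _ hm)
    simp only at h1 h2
    rw [hM]
    constructor
    · linarith [le_abs_self M1, abs_nonneg M2]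
    · linarith [le_abs_self M2, abs_nonneg M1]
  have heq : ∀ t ∈ Ioo (t₀ - δ) (t₀ + δ), ∀ z ∈ Ω,
      (ν * (d1 (d1 (sl w1 t)) z + d2 (d2 (sl w1 t)) z) - Dt w1 (t, z)) ^ 2 ≤
        4 * M * (sz (sl w1 t) z + sz (sl w2 t) z) ∧
      (ν * (d1 (d1 (sl w2 t)) z + d2 (d2 (sl w2 t)) z) - Dt w2 (t, z)) ^ 2 ≤
        4 * M * (sz (sl w1 t) z + sz (sl w2 t) z) := fun t ht z hz =>
    eq_bound hM0 (hin t ht z hz).1 (hin t ht z hz).2 (hm1 t (hδI t ht) z hz)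
      (hm2 t (hδI t ht) z hz)
  obtain ⟨V, hV, hVne, hVΩ, hV0⟩ := ucp_curved hΩ hz hw1 hw2 hν hU hzU (a := t₀ - δ) (b := t₀ + δ)
    (K := 4 * M) (by positivity) (fun t ht z hz hzU => hfr t (hδI t ht) z hz hzU) heq
    (η₀ := δ / 2) (by positivity)
  exact ucp_global hΩ hconn hw1 hw2 hν (a := t₀ - δ + δ / 2) (b := t₀ + δ - δ / 2) (K := 4 * M)
    (by positivity) (fun t ht z hz => heq t ⟨by linarith [ht.1], by linarith [ht.2]⟩ z hz)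
    hV hVne hVΩ hV0 t₀ ⟨by linarith, by linarith⟩

end Run7.h105
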