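import Pool.Agent.Run7.h105.CarlC

/-!
# Unique continuation across a sphere: time derivative and real inequalities
-/

set_option autoImplicit false

namespace Run7.h105

open Set Filter Topology MeasureTheory Pool.Agent.H754R3.PR

lemma time2 {q q' N : ℝ → ℝ} {t₀ δ η A n₀ : ℝ} (hη : 0 < η) (hηδ : η ≤ δ)
    (hq : ∀ t, HasDerivAt q (q' t) t) (hA : 0 ≤ A)
    (hle : ∀ t ∈ Icc (t₀ - δ) (t₀ + δ), q' t ≤ A - N t)
    (hN : ∀ t ∈ Icc (t₀ - δ) (t₀ + δ), 0 ≤ N t)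
    (hn₀ : ∀ t ∈ Icc (t₀ - η) (t₀ + η), n₀ ≤ N t) :
    2 * η * n₀ ≤ 2 * δ * A + (|q (t₀ + δ)| + |q (t₀ - δ)|) := by
  have hqc : Continuous q := continuous_iff_continuousAt.2 fun t => (hq t).continuousAt
  have hqd : Differentiable ℝ q := fun t => (hq t).differentiableAt
  have hcvx : ∀ u v : ℝ, u ≤ v → ∀ C : ℝ,
      (∀ t ∈ Icc u v, q' t ≤ C) → q v - q u ≤ C * (v - u) := by
    intro u v huv C hC
    exact (convex_Icc u v).image_sub_le_mul_sub_of_deriv_le hqc.continuousOn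
      hqd.differentiableOn (fun t ht => by rw [(hq t).deriv]; exact hC t (interior_subset ht)) u
      ⟨le_rfl, huv⟩ v ⟨huv, le_rfl⟩ huv
  have s1 := hcvx (t₀ - δ) (t₀ - η) (by linarith) A (fun t ht => by
    have ht' : t ∈ Icc (t₀ - δ) (t₀ + δ) := ⟨ht.1, by linarith [ht.2]⟩
    linarith [hle t ht', hN t ht'])
  have s3 := hcvx (t₀ + η) (t₀ + δ) (by linarith) A (fun t ht => by
    have ht' : t ∈ Icc (t₀ - δ) (t₀ + δ) := ⟨by linarith [ht.1], ht.2⟩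
    linarith [hle t ht', hN t ht'])
  have s2 := hcvx (t₀ - η) (t₀ + η) (by linarith) (A - n₀) (fun t ht => by
    have ht' : t ∈ Icc (t₀ - δ) (t₀ + δ) := ⟨by linarith [ht.1], by linarith [ht.2]⟩
    linarith [hle t ht', hn₀ t ht])
  have a1 := neg_abs_le (q (t₀ + δ))
  have a2 := le_abs_self (q (t₀ - δ))
  nlinarith

/-- energy density -/
noncomputable def jb (ν τ : ℝ) (O : P2) (s₀ lam : ℝ) (f : P2 → ℝ) (z : P2) : ℝ :=
  Eb τ O s₀ lam z * (ν * (Pb τ O s₀ lam f z ^ 2 + Qb τ O s₀ lam f z ^ 2)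
    - 4 * ν * τ ^ 2 * ((pf O s₀ lam z ^ 2 * R2 O z) * f z ^ 2))

lemma jb_deriv {Ω : Set P2} (hb : Bornology.IsBounded Ω) {F : P3 → ℝ} (hF : ContDiff ℝ 3 F)
    (ν τ : ℝ) (O : P2) (s₀ lam : ℝ) (t₀ : ℝ) :
    HasDerivAt (fun t => ∫ z in Ω, jb ν τ O s₀ lam (sl F t) z)
      (∫ z in Ω, Eb τ O s₀ lam z * (2 * ν * (Pb τ O s₀ lam (sl F t₀) z
        * Pb τ O s₀ lam (sl (Dt F) t₀) z + Qb τ O s₀ lam (sl F t₀) z
        * Qb τ O s₀ lam (sl (Dt F) t₀) z) - 8 * ν * τ ^ 2 * ((pf O s₀ lam z ^ 2 * R2 O z)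
        * (sl F t₀ z * sl (Dt F) t₀ z)))) t₀ ∧
    HasDerivAt (fun t => ∫ z in Ω, Fb τ O s₀ lam (sl F t) z)
      (∫ z in Ω, Eb τ O s₀ lam z * (2 * (sl F t₀ z * sl (Dt F) t₀ z))) t₀ := by
  have hF2 : ContDiff ℝ 2 F := hF.of_le (by norm_num)
  have hFd : Differentiable ℝ F := hF.differentiable (by norm_num)
  have hG : ContDiff ℝ 2 (Dt F) := Dt_contDiff (n := 3) (m := 2) hF (by norm_num)
  have hGd : Differentiable ℝ (Dt F) := hG.differentiable (by norm_num)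
  have cE : Continuous (fun z : P3 => Eb τ O s₀ lam z.2) :=
    (Eb_contDiff τ O s₀ lam (n := 0)).continuous.comp continuous_snd
  have cR : Continuous (fun z : P3 => R2 O z.2) :=
    (R2_contDiff O (n := 0)).continuous.comp continuous_snd
  have cp : Continuous (fun z : P3 => pf O s₀ lam z.2) :=
    (pf_contDiff O s₀ lam (n := 0)).continuous.comp continuous_snd
  have cF : Continuous (fun z : P3 => sl F z.1 z.2) := hF.continuous
  have cG : Continuous (fun z : P3 => sl (Dt F) z.1 z.2) := hG.continuous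
  have c1 : ∀ {H : P3 → ℝ}, ContDiff ℝ 1 H →
      Continuous (fun z : P3 => Pb τ O s₀ lam (sl H z.1) z.2) := by
    intro H hH
    have e : (fun z : P3 => Pb τ O s₀ lam (sl H z.1) z.2) = fun z : P3 => Dx (1, 0) H z
        + (2 * τ) * ((pf O s₀ lam z.2 * (z.2.1 - O.1)) * H z) := by
      ext z
      simp only [Pb, d1_sl (hH.differentiable (by norm_num)), sl]
    rw [e]
    have h1 := (Dx_contDiff (n := 1) (m := 0) hH (by norm_num) (1, 0)).continuous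
    have h2 := hH.continuous
    fun_prop
  have c2 : ∀ {H : P3 → ℝ}, ContDiff ℝ 1 H →
      Continuous (fun z : P3 => Qb τ O s₀ lam (sl H z.1) z.2) := by
    intro H hH
    have e : (fun z : P3 => Qb τ O s₀ lam (sl H z.1) z.2) = fun z : P3 => Dx (0, 1) H z
        + (2 * τ) * ((pf O s₀ lam z.2 * (z.2.2 - O.2)) * H z) := by
      ext z
      simp only [Qb, d2_sl (hH.differentiable (by norm_num)), sl]
    rw [e]
    have h1 := (Dx_contDiff (n := 1) (m := 0) hH (by norm_num) (0, 1)).continuous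
    have h2 := hH.continuous
    fun_prop
  have p1 := c1 (hF.of_le (by norm_num) : ContDiff ℝ 1 F)
  have p2 := c2 (hF.of_le (by norm_num) : ContDiff ℝ 1 F)
  have p3 := c1 (hG.of_le (by norm_num) : ContDiff ℝ 1 (Dt F))
  have p4 := c2 (hG.of_le (by norm_num) : ContDiff ℝ 1 (Dt F))
  have g3 : ∀ t z, HasDerivAt (fun s => sl F s z) (sl (Dt F) t z) t := fun t z =>
    hasDerivAt_time hFd t z
  have g1 : ∀ t z, HasDerivAt (fun s => Pb τ O s₀ lam (sl F s) z)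
      (Pb τ O s₀ lam (sl (Dt F) t) z) t := fun t z =>
    (hasDerivAt_d1 hF2 t z).add (((g3 t z).const_mul (pf O s₀ lam z * (z.1 - O.1))).const_mul (2 * τ))
  have g2 : ∀ t z, HasDerivAt (fun s => Qb τ O s₀ lam (sl F s) z)
      (Qb τ O s₀ lam (sl (Dt F) t) z) t := fun t z =>
    (hasDerivAt_d2 hF2 t z).add (((g3 t z).const_mul (pf O s₀ lam z * (z.2 - O.2))).const_mul (2 * τ))
  constructor
  · refine deriv_int hb (F := fun t z => jb ν τ O s₀ lam (sl F t) z)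
      (F' := fun t z => Eb τ O s₀ lam z * (2 * ν * (Pb τ O s₀ lam (sl F t) z
        * Pb τ O s₀ lam (sl (Dt F) t) z + Qb τ O s₀ lam (sl F t) z
        * Qb τ O s₀ lam (sl (Dt F) t) z) - 8 * ν * τ ^ 2 * ((pf O s₀ lam z ^ 2 * R2 O z)
        * (sl F t z * sl (Dt F) t z)))) ?_ ?_ ?_ t₀
    · exact cE.mul ((continuous_const.mul ((p1.pow 2).add (p2.pow 2))).sub
        (continuous_const.mul (((cp.pow 2).mul cR).mul (cF.pow 2))))
    · exact cE.mul ((continuous_const.mul ((p1.mul p3).add (p2.mul p4))).sub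
        (continuous_const.mul (((cp.pow 2).mul cR).mul (cF.mul cG))))
    · intro t z
      have g4 := ((((((g1 t z).pow 2).add ((g2 t z).pow 2)).const_mul ν).sub
        ((((g3 t z).pow 2).const_mul (pf O s₀ lam z ^ 2 * R2 O z)).const_mul
          (4 * ν * τ ^ 2))).const_mul (Eb τ O s₀ lam z))
      refine g4.congr_deriv ?_
      simp only [Nat.cast_ofNat, Nat.add_one_sub_one, pow_one]
      ring
  · refine deriv_int hb (F := fun t z => Fb τ O s₀ lam (sl F t) z)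
      (F' := fun t z => Eb τ O s₀ lam z * (2 * (sl F t z * sl (Dt F) t z))) ?_ ?_ ?_ t₀
    · exact cE.mul (cF.pow 2)
    · exact cE.mul (continuous_const.mul (cF.mul cG))
    · intro t z
      have g4 := ((g3 t z).pow 2).const_mul (Eb τ O s₀ lam z)
      refine g4.congr_deriv ?_
      simp only [Nat.cast_ofNat, Nat.add_one_sub_one, pow_one]
      ring

/-- bound of the equation for the cut-off function -/
lemma bd_H' {X Y R c Rr ν K S w wx wy L χ : ℝ} (hR : R = X * X + Y * Y)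
    (hcR : |R - c| ≤ Rr) (hRr : R ≤ Rr) (hχ : χ = (R - c) * (R - c)) (hL : L ^ 2 ≤ K * S)
    (hS : w ^ 2 + wx ^ 2 + wy ^ 2 ≤ S) :
    (χ * L + ν * (8 * (R - c) * (X * wx + Y * wy) + (8 * (R - c) + 8 * R) * w)) ^ 2 ≤
      C1 ν K Rr * S := by
  have hR0 : 0 ≤ R := by rw [hR]; nlinarith [mul_self_nonneg X, mul_self_nonneg Y]
  have hRr0 : 0 ≤ Rr := by linarith
  have hS0 : 0 ≤ S := le_trans (by positivity) hS
  have hsq : (R - c) ^ 2 ≤ Rr ^ 2 := by rw [← sq_abs]; gcongr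
  have h1 : (χ * L) ^ 2 ≤ Rr ^ 4 * (K * S) := by
    have a1 : χ ^ 2 ≤ Rr ^ 4 := by
      have e1 : χ ^ 2 = (R - c) ^ 2 * (R - c) ^ 2 := by rw [hχ]; ring
      have e2 : Rr ^ 4 = Rr ^ 2 * Rr ^ 2 := by ring
      rw [e1, e2]; gcongr
    have a2 : 0 ≤ L ^ 2 := sq_nonneg L
    calc (χ * L) ^ 2 = χ ^ 2 * L ^ 2 := by ring
      _ ≤ Rr ^ 4 * (K * S) := by gcongr
  have h2 : (X * wx + Y * wy) ^ 2 ≤ Rr * S := by
    have a1 : (X * wx + Y * wy) ^ 2 ≤ (X * X + Y * Y) * (wx ^ 2 + wy ^ 2) := by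
      nlinarith [sq_nonneg (X * wy - Y * wx)]
    rw [← hR] at a1
    have a2 : wx ^ 2 + wy ^ 2 ≤ S := by nlinarith [sq_nonneg w]
    calc (X * wx + Y * wy) ^ 2 ≤ R * (wx ^ 2 + wy ^ 2) := a1
      _ ≤ Rr * S := by gcongr
  have h3 : (8 * (R - c) * (X * wx + Y * wy)) ^ 2 ≤ 64 * Rr ^ 3 * S := by
    calc (8 * (R - c) * (X * wx + Y * wy)) ^ 2 = 64 * (R - c) ^ 2 * (X * wx + Y * wy) ^ 2 := by ring
      _ ≤ 64 * Rr ^ 2 * (Rr * S) := by gcongr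
      _ = 64 * Rr ^ 3 * S := by ring
  have h4 : ((8 * (R - c) + 8 * R) * w) ^ 2 ≤ 256 * Rr ^ 2 * S := by
    have a1 : w ^ 2 ≤ S := by nlinarith [sq_nonneg wx, sq_nonneg wy]
    have a2 : |8 * (R - c) + 8 * R| ≤ 16 * Rr := by
      have := abs_le.1 hcR
      rw [abs_le]; constructor <;> linarith [this.1, this.2]
    have a3 : (8 * (R - c) + 8 * R) ^ 2 ≤ (16 * Rr) ^ 2 := by rw [← sq_abs]; gcongr
    calc ((8 * (R - c) + 8 * R) * w) ^ 2 = (8 * (R - c) + 8 * R) ^ 2 * w ^ 2 := by ring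
      _ ≤ (16 * Rr) ^ 2 * S := by gcongr
      _ = 256 * Rr ^ 2 * S := by ring
  have h5 : ∀ a b d : ℝ, (a + ν * (b + d)) ^ 2 ≤ 3 * (a ^ 2 + ν ^ 2 * b ^ 2 + ν ^ 2 * d ^ 2) := by
    intro a b d
    nlinarith [sq_nonneg (a - ν * b), sq_nonneg (a - ν * d), sq_nonneg (ν * b - ν * d)]
  have h6 := h5 (χ * L) (8 * (R - c) * (X * wx + Y * wy)) ((8 * (R - c) + 8 * R) * w)
  have h7 := mul_le_mul_of_nonneg_left h3 (sq_nonneg ν)
  have h8 := mul_le_mul_of_nonneg_left h4 (sq_nonneg ν)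
  unfold C1
  nlinarith

/-- recover the function from the cut-off function -/
lemma bd_S' {X Y R c Rr κ w wx wy F Fx Fy χ : ℝ} (hR : R = X * X + Y * Y)
    (hκ : 0 < κ) (hcR : R + κ ≤ c) (hcR' : |R - c| ≤ Rr) (hRr : R ≤ Rr)
    (hχ : χ = (R - c) * (R - c))
    (hF : F = χ * w) (hFx : Fx = χ * wx + 4 * (((R - c) * X) * w))
    (hFy : Fy = χ * wy + 4 * (((R - c) * Y) * w)) :
    w ^ 2 + wx ^ 2 + wy ^ 2 ≤ C2 κ Rr * (F ^ 2 + Fx ^ 2 + Fy ^ 2) := by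
  have hκR : κ ≤ c - R := by linarith
  have hR0 : 0 ≤ R := by rw [hR]; nlinarith [mul_self_nonneg X, mul_self_nonneg Y]
  have hsq : (R - c) ^ 2 ≤ Rr ^ 2 := by rw [← sq_abs]; gcongr
  have hχκ : κ ^ 2 ≤ χ := by rw [hχ]; nlinarith
  have hχ2 : κ ^ 4 ≤ χ ^ 2 := by
    calc κ ^ 4 = (κ ^ 2) ^ 2 := by ring
      _ ≤ χ ^ 2 := by gcongr
  have hw : κ ^ 4 * w ^ 2 ≤ F ^ 2 := by
    rw [hF, mul_pow]; gcongr
  have hw' : w ^ 2 ≤ F ^ 2 / κ ^ 4 := by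
    rw [le_div_iff₀ (by positivity)]; linarith
  have h1 : χ ^ 2 * (wx ^ 2 + wy ^ 2) ≤ 2 * (Fx ^ 2 + Fy ^ 2) + 32 * ((R - c) ^ 2 * R) * w ^ 2 := by
    have a1 : χ * wx = Fx - 4 * (((R - c) * X) * w) := by rw [hFx]; ring
    have a2 : χ * wy = Fy - 4 * (((R - c) * Y) * w) := by rw [hFy]; ring
    have a3 : ∀ a b : ℝ, (a - b) ^ 2 ≤ 2 * a ^ 2 + 2 * b ^ 2 := by
      intro a b; nlinarith [sq_nonneg (a + b)]
    have a4 := a3 Fx (4 * (((R - c) * X) * w))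
    have a5 := a3 Fy (4 * (((R - c) * Y) * w))
    rw [← a1] at a4
    rw [← a2] at a5
    have a6 : (4 * (((R - c) * X) * w)) ^ 2 + (4 * (((R - c) * Y) * w)) ^ 2 =
        16 * ((R - c) ^ 2 * R) * w ^ 2 := by
      have : R = X * X + Y * Y := hR
      calc (4 * (((R - c) * X) * w)) ^ 2 + (4 * (((R - c) * Y) * w)) ^ 2
          = 16 * ((R - c) ^ 2 * (X * X + Y * Y)) * w ^ 2 := by ring
        _ = 16 * ((R - c) ^ 2 * R) * w ^ 2 := by rw [← this]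
    nlinarith
  have hRr0 : 0 ≤ Rr := by linarith
  have h2 : 32 * ((R - c) ^ 2 * R) * w ^ 2 ≤ 32 * Rr ^ 3 / κ ^ 4 * F ^ 2 := by
    have a1 : (R - c) ^ 2 * R ≤ Rr ^ 3 := by
      calc (R - c) ^ 2 * R ≤ Rr ^ 2 * Rr := by gcongr
        _ = Rr ^ 3 := by ring
    calc 32 * ((R - c) ^ 2 * R) * w ^ 2 ≤ 32 * Rr ^ 3 * (F ^ 2 / κ ^ 4) := by
          gcongr
      _ = 32 * Rr ^ 3 / κ ^ 4 * F ^ 2 := by ring
  have hD : 0 ≤ 32 * Rr ^ 3 / κ ^ 4 := by positivity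
  have h3 : κ ^ 4 * (w ^ 2 + wx ^ 2 + wy ^ 2) ≤
      (2 + 32 * Rr ^ 3 / κ ^ 4) * (F ^ 2 + Fx ^ 2 + Fy ^ 2) := by
    have a1 : κ ^ 4 * (wx ^ 2 + wy ^ 2) ≤ χ ^ 2 * (wx ^ 2 + wy ^ 2) := by gcongr
    have a2 : 0 ≤ 32 * Rr ^ 3 / κ ^ 4 * (Fx ^ 2 + Fy ^ 2) := by positivity
    nlinarith [sq_nonneg F]
  unfold C2
  rw [div_mul_eq_mul_div, le_div_iff₀ (by positivity)]
  linarith

/-- compare the quadratic forms -/
lemma bd_E' {X Y R Rr p τ f fx fy E : ℝ} (hR : R = X * X + Y * Y) (hRr : R ≤ Rr)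
    (hp : p ^ 2 ≤ 25 / 16) (hE : 0 ≤ E) :
    E * (f ^ 2 + fx ^ 2 + fy ^ 2) ≤ 2 * (E * ((fx + (2 * τ) * ((p * X) * f)) ^ 2
      + (fy + (2 * τ) * ((p * Y) * f)) ^ 2)) + (1 + 13 * τ ^ 2 * Rr) * (E * f ^ 2) := by
  have h1 : ∀ a b : ℝ, a ^ 2 ≤ 2 * (a + b) ^ 2 + 2 * b ^ 2 := by
    intro a b; nlinarith [sq_nonneg (a + 2 * b)]
  have h2 := h1 fx ((2 * τ) * ((p * X) * f))
  have h3 := h1 fy ((2 * τ) * ((p * Y) * f))
  have hR0 : 0 ≤ R := by rw [hR]; nlinarith [mul_self_nonneg X, mul_self_nonneg Y]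
  have h4 : ((2 * τ) * ((p * X) * f)) ^ 2 + ((2 * τ) * ((p * Y) * f)) ^ 2 =
      4 * τ ^ 2 * (p ^ 2 * R) * f ^ 2 := by rw [hR]; ring
  have h5 : p ^ 2 * R ≤ 25 / 16 * Rr := by
    apply mul_le_mul hp hRr hR0 (by norm_num)
  have h6 : 4 * τ ^ 2 * (p ^ 2 * R) * f ^ 2 ≤ 4 * τ ^ 2 * (25 / 16 * Rr) * f ^ 2 := by gcongr
  have h7 : f ^ 2 + fx ^ 2 + fy ^ 2 ≤ 2 * ((fx + (2 * τ) * ((p * X) * f)) ^ 2
      + (fy + (2 * τ) * ((p * Y) * f)) ^ 2) + (1 + 13 * τ ^ 2 * Rr) * f ^ 2 := by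
    have h8 : 0 ≤ τ ^ 2 * Rr * f ^ 2 := by
      have := hR0.trans hRr
      positivity
    nlinarith
  have := mul_le_mul_of_nonneg_left h7 hE
  linarith

/-- upper bound -/
lemma bd_N' {X Y R Rr p τ f fx fy T : ℝ} (hR : R = X * X + Y * Y) (hRr : R ≤ Rr)
    (hp : p ^ 2 ≤ 25 / 16) (hT : f ^ 2 + fx ^ 2 + fy ^ 2 ≤ T) :
    (fx + (2 * τ) * ((p * X) * f)) ^ 2 + (fy + (2 * τ) * ((p * Y) * f)) ^ 2 ≤
      (2 + 13 * τ ^ 2 * Rr) * T := by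
  have h1 : ∀ a b : ℝ, (a + b) ^ 2 ≤ 2 * a ^ 2 + 2 * b ^ 2 := by
    intro a b; nlinarith [sq_nonneg (a - b)]
  have h2 := h1 fx ((2 * τ) * ((p * X) * f))
  have h3 := h1 fy ((2 * τ) * ((p * Y) * f))
  have hR0 : 0 ≤ R := by rw [hR]; nlinarith [mul_self_nonneg X, mul_self_nonneg Y]
  have h4 : ((2 * τ) * ((p * X) * f)) ^ 2 + ((2 * τ) * ((p * Y) * f)) ^ 2 =
      4 * τ ^ 2 * (p ^ 2 * R) * f ^ 2 := by rw [hR]; ring
  have h5 : p ^ 2 * R ≤ 25 / 16 * Rr := by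
    apply mul_le_mul hp hRr hR0 (by norm_num)
  have hRr0 : 0 ≤ Rr := hR0.trans hRr
  have hfT : f ^ 2 ≤ T := by nlinarith [sq_nonneg fx, sq_nonneg fy]
  have h6 : 4 * τ ^ 2 * (p ^ 2 * R) * f ^ 2 ≤ 4 * τ ^ 2 * (25 / 16 * Rr) * T := by gcongr
  have h7 : fx ^ 2 + fy ^ 2 ≤ T := by nlinarith [sq_nonneg f]
  have hT0 : 0 ≤ T := le_trans (by positivity) hT
  have h8 : 0 ≤ τ ^ 2 * Rr * T := by positivity
  nlinarith

end Run7.h105
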