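import Pool.Agent.Run7.h105.UcpA

/-!
# Unique continuation across a sphere: the energy inequality of the cut-off functions
-/

set_option autoImplicit false

namespace Run7.h105

open Set Filter Topology MeasureTheory Pool.Agent.H754R3.PR

lemma Gb_nonneg (τ : ℝ) (O : P2) (s₀ lam : ℝ) (f : P2 → ℝ) (z : P2) : 0 ≤ Gb τ O s₀ lam f z := by
  have hE : 0 < Eb τ O s₀ lam z := Real.exp_pos _
  unfold Gb; positivity

lemma Fb_nonneg (τ : ℝ) (O : P2) (s₀ lam : ℝ) (f : P2 → ℝ) (z : P2) : 0 ≤ Fb τ O s₀ lam f z := by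
  have hE : 0 < Eb τ O s₀ lam z := Real.exp_pos _
  unfold Fb; positivity

/-- pointwise bound -/
lemma cutb_pt {w v : P3 → ℝ} (hw : ContDiff ℝ 3 w) (hv : ContDiff ℝ 3 v) {O : P2}
    {s₀ lam c κ Rr ν K Smax τ t m₁ : ℝ} {z : P2} (hκ : 0 < κ) (hK : 0 ≤ K) (hτ0 : 0 < τ)
    (hcR : |R2 O z - c| ≤ Rr) (hRr : R2 O z ≤ Rr) (hp : pf O s₀ lam z ^ 2 ≤ 25 / 16)
    (hfar : c < R2 O z + κ → ph O s₀ lam z ≤ -m₁)
    (hL : (ν * (d1 (d1 (sl w t)) z + d2 (d2 (sl w t)) z) - Dt w (t, z)) ^ 2 ≤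
      K * (sz (sl w t) z + sz (sl v t) z)) (hS : sz (sl w t) z + sz (sl v t) z ≤ Smax) :
    Eb τ O s₀ lam z * (ν * (d1 (d1 (sl (cut O c w) t)) z + d2 (d2 (sl (cut O c w) t)) z)
      - sl (Dt (cut O c w)) t z) ^ 2 ≤
      C1 ν K Rr * C2 κ Rr * (2 * (Gb τ O s₀ lam (sl (cut O c w) t) z
        + Gb τ O s₀ lam (sl (cut O c v) t) z) + (1 + 13 * τ ^ 2 * Rr) *
        (Fb τ O s₀ lam (sl (cut O c w) t) z + Fb τ O s₀ lam (sl (cut O c v) t) z))
        + C1 ν K Rr * Smax * Real.exp (-(2 * τ * m₁)) := by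
  have hR0 : 0 ≤ R2 O z := R2_nonneg O z
  have hRr0 : 0 ≤ Rr := by linarith
  have hw2 : ContDiff ℝ 2 (sl w t) := (sl_contDiff (n := 3) hw t).of_le (by norm_num)
  have hv2 : ContDiff ℝ 2 (sl v t) := (sl_contDiff (n := 3) hv t).of_le (by norm_num)
  have hC1 : 0 ≤ C1 ν K Rr := by unfold C1; positivity
  have hC2 : 0 ≤ C2 κ Rr := by unfold C2; positivity
  have hEp : 0 < Eb τ O s₀ lam z := Real.exp_pos _
  have hsz : ∀ f : P2 → ℝ, 0 ≤ sz f z := fun f => by unfold sz; positivity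
  -- the equation
  have hH : (ν * (d1 (d1 (sl (cut O c w) t)) z + d2 (d2 (sl (cut O c w) t)) z)
      - sl (Dt (cut O c w)) t z) ^ 2 ≤ C1 ν K Rr * (sz (sl w t) z + sz (sl v t) z) := by
    have e1 : sl (Dt (cut O c w)) t z = chi O c z * Dt w (t, z) :=
      cut_Dt (hw.of_le (by norm_num)) O c t z
    rw [e1, cut_sl, chi_lap hw2 O c z]
    have h1 := bd_H' (X := z.1 - O.1) (Y := z.2 - O.2) (R := R2 O z) (c := c) (Rr := Rr) (ν := ν)
      (K := K) (S := sz (sl w t) z + sz (sl v t) z) (w := sl w t z) (wx := d1 (sl w t) z)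
      (wy := d2 (sl w t) z) (L := ν * (d1 (d1 (sl w t)) z + d2 (d2 (sl w t)) z) - Dt w (t, z))
      (χ := chi O c z) rfl hcR hRr rfl hL (by
        have := hsz (sl v t)
        have e : sz (sl w t) z = sl w t z ^ 2 + d1 (sl w t) z ^ 2 + d2 (sl w t) z ^ 2 := rfl
        linarith)
    refine le_trans (le_of_eq ?_) h1
    ring
  have hN0 : 0 ≤ C1 ν K Rr * C2 κ Rr * (2 * (Gb τ O s₀ lam (sl (cut O c w) t) z
        + Gb τ O s₀ lam (sl (cut O c v) t) z) + (1 + 13 * τ ^ 2 * Rr) *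
        (Fb τ O s₀ lam (sl (cut O c w) t) z + Fb τ O s₀ lam (sl (cut O c v) t) z)) := by
    have a1 := Gb_nonneg τ O s₀ lam (sl (cut O c w) t) z
    have a2 := Gb_nonneg τ O s₀ lam (sl (cut O c v) t) z
    have a3 := Fb_nonneg τ O s₀ lam (sl (cut O c w) t) z
    have a4 := Fb_nonneg τ O s₀ lam (sl (cut O c v) t) z
    positivity
  by_cases hreg : c < R2 O z + κ
  · have h1 : Eb τ O s₀ lam z ≤ Real.exp (-(2 * τ * m₁)) := by
      unfold Eb
      rw [Real.exp_le_exp]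
      have := mul_le_mul_of_nonneg_left (hfar hreg) (by positivity : 0 ≤ 2 * τ)
      linarith
    have h2 : C1 ν K Rr * (sz (sl w t) z + sz (sl v t) z) ≤ C1 ν K Rr * Smax := by gcongr
    have h4 := hH.trans h2
    have h5 : Eb τ O s₀ lam z * (ν * (d1 (d1 (sl (cut O c w) t)) z
        + d2 (d2 (sl (cut O c w) t)) z) - sl (Dt (cut O c w)) t z) ^ 2 ≤
        Real.exp (-(2 * τ * m₁)) * (C1 ν K Rr * Smax) := by
      gcongr
    linarith
  · push Not at hreg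
    have h1 := bd_S' (X := z.1 - O.1) (Y := z.2 - O.2) (R := R2 O z) (c := c) (Rr := Rr) (κ := κ)
      (w := sl w t z) (wx := d1 (sl w t) z) (wy := d2 (sl w t) z) (F := sl (cut O c w) t z)
      (Fx := d1 (sl (cut O c w) t) z) (Fy := d2 (sl (cut O c w) t) z) (χ := chi O c z) rfl
      hκ hreg hcR hRr rfl rfl (by rw [cut_sl, chi_d1 hw2]) (by rw [cut_sl, chi_d2 hw2])
    have h2 := bd_S' (X := z.1 - O.1) (Y := z.2 - O.2) (R := R2 O z) (c := c) (Rr := Rr) (κ := κ)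
      (w := sl v t z) (wx := d1 (sl v t) z) (wy := d2 (sl v t) z) (F := sl (cut O c v) t z)
      (Fx := d1 (sl (cut O c v) t) z) (Fy := d2 (sl (cut O c v) t) z) (χ := chi O c z) rfl
      hκ hreg hcR hRr rfl rfl (by rw [cut_sl, chi_d1 hv2]) (by rw [cut_sl, chi_d2 hv2])
    have h3 := bd_E' (X := z.1 - O.1) (Y := z.2 - O.2) (R := R2 O z) (Rr := Rr)
      (p := pf O s₀ lam z) (τ := τ)
      (f := sl (cut O c w) t z) (fx := d1 (sl (cut O c w) t) z) (fy := d2 (sl (cut O c w) t) z)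
      (E := Eb τ O s₀ lam z) rfl hRr hp hEp.le
    have h4 := bd_E' (X := z.1 - O.1) (Y := z.2 - O.2) (R := R2 O z) (Rr := Rr)
      (p := pf O s₀ lam z) (τ := τ)
      (f := sl (cut O c v) t z) (fx := d1 (sl (cut O c v) t) z) (fy := d2 (sl (cut O c v) t) z)
      (E := Eb τ O s₀ lam z) rfl hRr hp hEp.le
    have h1' : sz (sl w t) z ≤ C2 κ Rr * sz (sl (cut O c w) t) z := h1
    have h2' : sz (sl v t) z ≤ C2 κ Rr * sz (sl (cut O c v) t) z := h2
    have h3' : Eb τ O s₀ lam z * sz (sl (cut O c w) t) z ≤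
        2 * Gb τ O s₀ lam (sl (cut O c w) t) z
        + (1 + 13 * τ ^ 2 * Rr) * Fb τ O s₀ lam (sl (cut O c w) t) z := h3
    have h4' : Eb τ O s₀ lam z * sz (sl (cut O c v) t) z ≤
        2 * Gb τ O s₀ lam (sl (cut O c v) t) z
        + (1 + 13 * τ ^ 2 * Rr) * Fb τ O s₀ lam (sl (cut O c v) t) z := h4
    have h5 := mul_le_mul_of_nonneg_left hH hEp.le
    have h6 : Eb τ O s₀ lam z * (C1 ν K Rr * (sz (sl w t) z + sz (sl v t) z)) ≤
        C1 ν K Rr * C2 κ Rr * (2 * (Gb τ O s₀ lam (sl (cut O c w) t) z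
        + Gb τ O s₀ lam (sl (cut O c v) t) z) + (1 + 13 * τ ^ 2 * Rr) *
        (Fb τ O s₀ lam (sl (cut O c w) t) z + Fb τ O s₀ lam (sl (cut O c v) t) z)) := by
      have a1 : Eb τ O s₀ lam z * (C1 ν K Rr * (sz (sl w t) z + sz (sl v t) z)) ≤
          Eb τ O s₀ lam z * (C1 ν K Rr *
          (C2 κ Rr * sz (sl (cut O c w) t) z + C2 κ Rr * sz (sl (cut O c v) t) z)) := by gcongr
      have a2 : Eb τ O s₀ lam z * (C1 ν K Rr *
          (C2 κ Rr * sz (sl (cut O c w) t) z + C2 κ Rr * sz (sl (cut O c v) t) z)) =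
          C1 ν K Rr * C2 κ Rr * (Eb τ O s₀ lam z * sz (sl (cut O c w) t) z
            + Eb τ O s₀ lam z * sz (sl (cut O c v) t) z) := by ring
      have a3 : C1 ν K Rr * C2 κ Rr * (Eb τ O s₀ lam z * sz (sl (cut O c w) t) z
            + Eb τ O s₀ lam z * sz (sl (cut O c v) t) z) ≤ C1 ν K Rr * C2 κ Rr *
            (2 * (Gb τ O s₀ lam (sl (cut O c w) t) z
        + Gb τ O s₀ lam (sl (cut O c v) t) z) + (1 + 13 * τ ^ 2 * Rr) *
        (Fb τ O s₀ lam (sl (cut O c w) t) z + Fb τ O s₀ lam (sl (cut O c v) t) z)) := by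
        apply mul_le_mul_of_nonneg_left _ (by positivity)
        linarith
      linarith
    have h7 : 0 ≤ Smax := le_trans (add_nonneg (hsz _) (hsz _)) hS
    have h8 : 0 ≤ C1 ν K Rr * Smax * Real.exp (-(2 * τ * m₁)) := by positivity
    linarith

/-- derivative of the energy -/
noncomputable def J1' (ν τ : ℝ) (O : P2) (s₀ lam : ℝ) (f k : P2 → ℝ) (z : P2) : ℝ :=
  Eb τ O s₀ lam z * (2 * ν * (Pb τ O s₀ lam f z * Pb τ O s₀ lam k z
    + Qb τ O s₀ lam f z * Qb τ O s₀ lam k z)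
    - 8 * ν * τ ^ 2 * ((pf O s₀ lam z ^ 2 * R2 O z) * (f z * k z)))

/-- derivative of the mass -/
noncomputable def J2' (τ : ℝ) (O : P2) (s₀ lam : ℝ) (f k : P2 → ℝ) (z : P2) : ℝ :=
  Eb τ O s₀ lam z * (2 * (f z * k z))

lemma jb_cont {f : P2 → ℝ} (hf : ContDiff ℝ 2 f) (ν τ : ℝ) (O : P2) (s₀ lam : ℝ) :
    Continuous (jb ν τ O s₀ lam f) := by
  have hP := (Pb_contDiff hf τ O s₀ lam).continuous
  have hQ := (Qb_contDiff hf τ O s₀ lam).continuous
  have hE : Continuous (Eb τ O s₀ lam) := (Eb_contDiff τ O s₀ lam (n := 0)).continuous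
  have hp : Continuous (pf O s₀ lam) := (pf_contDiff O s₀ lam (n := 0)).continuous
  have hR : Continuous (R2 O) := (R2_contDiff O (n := 0)).continuous
  have h0 := hf.continuous
  unfold jb
  fun_prop

lemma Tb_split {Ω : Set P2} (hb : Bornology.IsBounded Ω) {f k : P2 → ℝ} (hf : ContDiff ℝ 2 f)
    (hk : ContDiff ℝ 1 k) (ν τ β : ℝ) (O : P2) (s₀ lam : ℝ) :
    ∫ z in Ω, Tb ν τ β O s₀ lam f (fun z => k z + (τ * β) * f z) z =
      (∫ z in Ω, J1' ν τ O s₀ lam f k z) - τ * β * (∫ z in Ω, J2' τ O s₀ lam f k z)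
      + 2 * τ * β * (∫ z in Ω, jb ν τ O s₀ lam f z)
      - 2 * (τ * β) ^ 2 * ∫ z in Ω, Fb τ O s₀ lam f z := by
  have hint : ∀ {g : P2 → ℝ}, Continuous g → IntegrableOn g Ω := fun hg =>
    (hg.continuousOn.integrableOn_compact hb.isCompact_closure).mono_set subset_closure
  have hP := (Pb_contDiff hf τ O s₀ lam).continuous
  have hQ := (Qb_contDiff hf τ O s₀ lam).continuous
  have hE : Continuous (Eb τ O s₀ lam) := (Eb_contDiff τ O s₀ lam (n := 0)).continuous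
  have hp : Continuous (pf O s₀ lam) := (pf_contDiff O s₀ lam (n := 0)).continuous
  have hR : Continuous (R2 O) := (R2_contDiff O (n := 0)).continuous
  have h0 := hf.continuous
  have h1 := hk.continuous
  have hP' : Continuous (Pb τ O s₀ lam k) := by
    have h1 := (d1_contDiff (m := 0) (n := 1) hk (by norm_num)).continuous
    unfold Pb
    fun_prop
  have hQ' : Continuous (Qb τ O s₀ lam k) := by
    have h1 := (d2_contDiff (m := 0) (n := 1) hk (by norm_num)).continuous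
    unfold Qb
    fun_prop
  have c1 : Continuous (J1' ν τ O s₀ lam f k) := by unfold J1'; fun_prop
  have c2 : Continuous (J2' τ O s₀ lam f k) := by unfold J2'; fun_prop
  have c3 := jb_cont hf ν τ O s₀ lam
  have c4 := Fb_cont hf τ O s₀ lam
  have e : ∀ z, Tb ν τ β O s₀ lam f (fun z => k z + (τ * β) * f z) z =
      J1' ν τ O s₀ lam f k z - τ * β * J2' τ O s₀ lam f k z
      + 2 * τ * β * jb ν τ O s₀ lam f z - 2 * (τ * β) ^ 2 * Fb τ O s₀ lam f z := by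
    intro z
    have gk : Gr k (d1 k z) (d2 k z) z := Gr.of ((hk.differentiable (by norm_num)) z)
    have gf : Gr f (d1 f z) (d2 f z) z := Gr.of ((hf.differentiable (by norm_num)) z)
    have g := gk.add (gf.cmul (τ * β))
    have e1 : Pb τ O s₀ lam (fun z => k z + (τ * β) * f z) z =
        Pb τ O s₀ lam k z + (τ * β) * Pb τ O s₀ lam f z := by
      unfold Pb
      rw [g.d1]; ring
    have e2 : Qb τ O s₀ lam (fun z => k z + (τ * β) * f z) z =
        Qb τ O s₀ lam k z + (τ * β) * Qb τ O s₀ lam f z := by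
      unfold Qb
      rw [g.d2]; ring
    unfold Tb
    rw [e1, e2]
    simp only [J1', J2', jb, Fb]
    ring
  simp_rw [e]
  rw [integral_sub (hint (by fun_prop)) (hint (by fun_prop)), integral_add (hint (by fun_prop))
    (hint (by fun_prop)), integral_sub (hint c1) (hint (by fun_prop)), integral_const_mul,
    integral_const_mul, integral_const_mul]

/-- the energy inequality -/
lemma cutb_energy {Ω : Set P2} (hΩ : IsOpen Ω) (hb : Bornology.IsBounded Ω) {w v : P3 → ℝ}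
    (hw : ContDiff ℝ 3 w) (hv : ContDiff ℝ 3 v) {O : P2}
    {s₀ lam c κ Rr ν K Smax τ β t m₁ sm : ℝ} (hν : 0 < ν) (hlam : 0 ≤ lam) (hsm : 0 ≤ sm)
    (hκ : 0 < κ) (hK : 0 ≤ K) (hτ0 : 0 < τ)
    (hreg : ∀ z ∈ Ω, sm ≤ R2 O z ∧ |lam * (R2 O z - s₀)| ≤ 1 / 4 ∧ 2 ≤ lam * R2 O z)
    (hregc : ∀ z ∈ Ω, |R2 O z - c| ≤ Rr ∧ R2 O z ≤ Rr)
    (hfar : ∀ z ∈ Ω, c < R2 O z + κ → ph O s₀ lam z ≤ -m₁)
    (hL : ∀ z ∈ Ω, (ν * (d1 (d1 (sl w t)) z + d2 (d2 (sl w t)) z) - Dt w (t, z)) ^ 2 ≤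
      K * (sz (sl w t) z + sz (sl v t) z))
    (hS : ∀ z ∈ Ω, sz (sl w t) z + sz (sl v t) z ≤ Smax)
    (hfr : ∀ z ∈ frontier Ω, sl (cut O c w) t z = 0 ∧ d1 (sl (cut O c w) t) z = 0 ∧
      d2 (sl (cut O c w) t) z = 0) :
    2 * ν ^ 2 * τ * (∫ z in Ω, Gb τ O s₀ lam (sl (cut O c w) t) z)
      + (9 * ν ^ 2 * τ ^ 3 * sm - 32 * ν ^ 2 * τ * lam - 12 * ν * τ ^ 2 * |β| - 72 * ν ^ 2 * τ ^ 2)
        * (∫ z in Ω, Fb τ O s₀ lam (sl (cut O c w) t) z)
      + ((∫ z in Ω, J1' ν τ O s₀ lam (sl (cut O c w) t) (sl (Dt (cut O c w)) t) z)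
        - τ * β * (∫ z in Ω, J2' τ O s₀ lam (sl (cut O c w) t) (sl (Dt (cut O c w)) t) z)
        + 2 * τ * β * (∫ z in Ω, jb ν τ O s₀ lam (sl (cut O c w) t) z)
        - 2 * (τ * β) ^ 2 * ∫ z in Ω, Fb τ O s₀ lam (sl (cut O c w) t) z) ≤
      2 * (C1 ν K Rr * C2 κ Rr * (2 * ((∫ z in Ω, Gb τ O s₀ lam (sl (cut O c w) t) z)
        + ∫ z in Ω, Gb τ O s₀ lam (sl (cut O c v) t) z) + (1 + 13 * τ ^ 2 * Rr) *
        ((∫ z in Ω, Fb τ O s₀ lam (sl (cut O c w) t) z)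
        + ∫ z in Ω, Fb τ O s₀ lam (sl (cut O c v) t) z))
        + (C1 ν K Rr * Smax * Real.exp (-(2 * τ * m₁))) * (volume Ω).toReal) := by
  have hF : ContDiff ℝ 3 (cut O c w) := cut_contDiff hw O c
  have hG : ContDiff ℝ 3 (cut O c v) := cut_contDiff hv O c
  have hF2 : ContDiff ℝ 2 (sl (cut O c w) t) := (sl_contDiff (n := 3) hF t).of_le (by norm_num)
  have hG2 : ContDiff ℝ 2 (sl (cut O c v) t) := (sl_contDiff (n := 3) hG t).of_le (by norm_num)
  have hk : ContDiff ℝ 2 (sl (Dt (cut O c w)) t) :=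
    sl_contDiff (n := 2) (Dt_contDiff (n := 3) (m := 2) hF (by norm_num)) t
  have hk1 : ContDiff ℝ 1 (sl (Dt (cut O c w)) t) := hk.of_le (by norm_num)
  have hF1 : ContDiff ℝ 1 (sl (cut O c w) t) := hF2.of_le (by norm_num)
  have hk2 : ContDiff ℝ 1 (fun z => sl (Dt (cut O c w)) t z + (τ * β) * sl (cut O c w) t z) :=
    hk1.add (contDiff_const.mul hF1)
  have key := carlB_slice hF2 hk2 ν τ β O s₀ lam hΩ hb hν hτ0 hlam hsm hreg hfr
  rw [Tb_split hb hF2 hk1 ν τ β O s₀ lam] at key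
  refine key.trans ?_
  have hint : ∀ {g : P2 → ℝ}, Continuous g → IntegrableOn g Ω := fun hg =>
    (hg.continuousOn.integrableOn_compact hb.isCompact_closure).mono_set subset_closure
  have c1 := Gb_cont hF2 τ O s₀ lam
  have c2 := Gb_cont hG2 τ O s₀ lam
  have c1' := Fb_cont hF2 τ O s₀ lam
  have c2' := Fb_cont hG2 τ O s₀ lam
  have hE : Continuous (Eb τ O s₀ lam) := (Eb_contDiff τ O s₀ lam (n := 0)).continuous
  have c3 : Continuous (d1 (d1 (sl (cut O c w) t))) := (d1_contDiff (m := 0) (n := 1)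
    (d1_contDiff (m := 1) (n := 2) hF2 (by norm_num)) (by norm_num)).continuous
  have c4 : Continuous (d2 (d2 (sl (cut O c w) t))) := (d2_contDiff (m := 0) (n := 1)
    (d2_contDiff (m := 1) (n := 2) hF2 (by norm_num)) (by norm_num)).continuous
  have c5 := hk.continuous
  have h1 : ∫ z in Ω, Eb τ O s₀ lam z * (ν * (d1 (d1 (sl (cut O c w) t)) z
      + d2 (d2 (sl (cut O c w) t)) z) + τ * β * sl (cut O c w) t z
      - (sl (Dt (cut O c w)) t z + (τ * β) * sl (cut O c w) t z)) ^ 2 =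
      ∫ z in Ω, Eb τ O s₀ lam z * (ν * (d1 (d1 (sl (cut O c w) t)) z
      + d2 (d2 (sl (cut O c w) t)) z) - sl (Dt (cut O c w)) t z) ^ 2 := by
    congr 1
    ext z
    ring
  rw [h1]
  have h2 : ∫ z in Ω, Eb τ O s₀ lam z * (ν * (d1 (d1 (sl (cut O c w) t)) z
      + d2 (d2 (sl (cut O c w) t)) z) - sl (Dt (cut O c w)) t z) ^ 2 ≤
      ∫ z in Ω, (C1 ν K Rr * C2 κ Rr * (2 * (Gb τ O s₀ lam (sl (cut O c w) t) z
        + Gb τ O s₀ lam (sl (cut O c v) t) z) + (1 + 13 * τ ^ 2 * Rr) *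
        (Fb τ O s₀ lam (sl (cut O c w) t) z + Fb τ O s₀ lam (sl (cut O c v) t) z))
        + C1 ν K Rr * Smax * Real.exp (-(2 * τ * m₁))) := by
    refine setIntegral_mono_on (hint (by fun_prop)) (hint (by fun_prop)) hΩ.measurableSet ?_
    intro z hz
    have hp : pf O s₀ lam z ^ 2 ≤ 25 / 16 := by
      have r4 := abs_le.1 (hreg z hz).2.1
      have hp1 : -(5 / 4) ≤ pf O s₀ lam z := by unfold pf; linarith [r4.1]
      have hp2 : pf O s₀ lam z ≤ -(3 / 4) := by unfold pf; linarith [r4.2]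
      nlinarith
    exact cutb_pt hw hv hκ hK hτ0 (hregc z hz).1 (hregc z hz).2 hp (hfar z hz) (hL z hz) (hS z hz)
  have h3 : ∫ z in Ω, (C1 ν K Rr * C2 κ Rr * (2 * (Gb τ O s₀ lam (sl (cut O c w) t) z
        + Gb τ O s₀ lam (sl (cut O c v) t) z) + (1 + 13 * τ ^ 2 * Rr) *
        (Fb τ O s₀ lam (sl (cut O c w) t) z + Fb τ O s₀ lam (sl (cut O c v) t) z))
        + C1 ν K Rr * Smax * Real.exp (-(2 * τ * m₁))) =
      C1 ν K Rr * C2 κ Rr * (2 * ((∫ z in Ω, Gb τ O s₀ lam (sl (cut O c w) t) z)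
        + ∫ z in Ω, Gb τ O s₀ lam (sl (cut O c v) t) z) + (1 + 13 * τ ^ 2 * Rr) *
        ((∫ z in Ω, Fb τ O s₀ lam (sl (cut O c w) t) z)
        + ∫ z in Ω, Fb τ O s₀ lam (sl (cut O c v) t) z))
        + (C1 ν K Rr * Smax * Real.exp (-(2 * τ * m₁))) * (volume Ω).toReal := by
    rw [integral_add (hint (by fun_prop)) (hint (by fun_prop)), integral_const_mul,
      integral_add (hint (by fun_prop)) (hint (by fun_prop)), integral_const_mul,
      integral_const_mul, integral_add (hint c1) (hint c2), integral_add (hint c1') (hint c2'),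
      setIntegral_const, smul_eq_mul, mul_comm (volume.real Ω)]
    rfl
  rw [h3] at h2
  linarith

end Run7.h105
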