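import Pool.Agent.Run7.h105.UcpB

/-!
# Unique continuation across a sphere
-/

set_option autoImplicit false

namespace Run7.h105

open Set Filter Topology MeasureTheory Pool.Agent.H754R3.PR

/-- bound of the energy -/
lemma q_bound {Ω : Set P2} (hΩ : IsOpen Ω) (hb : Bornology.IsBounded Ω) {f : P2 → ℝ}
    (hf : ContDiff ℝ 2 f) {ν τ θ Rr T ε s₀ lam : ℝ} {O : P2} (hν : 0 < ν) (hτ : 0 < τ)
    (hR : ∀ z ∈ Ω, R2 O z ≤ Rr) (hp : ∀ z ∈ Ω, pf O s₀ lam z ^ 2 ≤ 25 / 16)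
    (hph : ∀ z ∈ Ω, ph O s₀ lam z ≤ 2 * ε) (hT : ∀ z ∈ Ω, sz f z ≤ T) :
    |(∫ z in Ω, jb ν τ O s₀ lam f z) - θ * ∫ z in Ω, Fb τ O s₀ lam f z| ≤
      (Real.exp (4 * τ * ε) * ((ν * (2 + 13 * τ ^ 2 * Rr) + 7 * ν * τ ^ 2 * Rr + |θ|) * T))
        * (volume Ω).toReal := by
  have hint : ∀ {g : P2 → ℝ}, Continuous g → IntegrableOn g Ω := fun hg =>
    (hg.continuousOn.integrableOn_compact hb.isCompact_closure).mono_set subset_closure
  have c1 := jb_cont hf ν τ O s₀ lam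
  have c2 := Fb_cont hf τ O s₀ lam
  rw [← integral_const_mul, ← integral_sub (hint c1) (hint (by fun_prop))]
  refine abs_integral_le_integral_abs.trans ?_
  have h1 : ∫ z in Ω, |jb ν τ O s₀ lam f z - θ * Fb τ O s₀ lam f z| ≤
      ∫ z in Ω, Real.exp (4 * τ * ε) *
        ((ν * (2 + 13 * τ ^ 2 * Rr) + 7 * ν * τ ^ 2 * Rr + |θ|) * T) := by
    refine setIntegral_mono_on (hint (by fun_prop)) (hint continuous_const) hΩ.measurableSet ?_
    intro z hz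
    have hE : 0 < Eb τ O s₀ lam z := Real.exp_pos _
    have hE2 : Eb τ O s₀ lam z ≤ Real.exp (4 * τ * ε) := by
      unfold Eb
      rw [Real.exp_le_exp]
      have := mul_le_mul_of_nonneg_left (hph z hz) (by positivity : 0 ≤ 2 * τ)
      linarith
    have hR0 := R2_nonneg O z
    have hRr0 : 0 ≤ Rr := hR0.trans (hR z hz)
    have hT0 : 0 ≤ T := le_trans (by unfold sz; positivity) (hT z hz)
    have hN := bd_N' (X := z.1 - O.1) (Y := z.2 - O.2) (R := R2 O z) (Rr := Rr)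
      (p := pf O s₀ lam z) (τ := τ) (f := f z) (fx := d1 f z) (fy := d2 f z) (T := T) rfl
      (hR z hz) (hp z hz) (hT z hz)
    have hN' : Pb τ O s₀ lam f z ^ 2 + Qb τ O s₀ lam f z ^ 2 ≤ (2 + 13 * τ ^ 2 * Rr) * T := hN
    have hfT : f z ^ 2 ≤ T := by
      have := hT z hz
      unfold sz at this
      nlinarith [sq_nonneg (d1 f z), sq_nonneg (d2 f z)]
    have e : jb ν τ O s₀ lam f z - θ * Fb τ O s₀ lam f z = Eb τ O s₀ lam z *
        (ν * (Pb τ O s₀ lam f z ^ 2 + Qb τ O s₀ lam f z ^ 2)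
        - 4 * ν * τ ^ 2 * ((pf O s₀ lam z ^ 2 * R2 O z) * f z ^ 2) - θ * f z ^ 2) := by
      simp only [jb, Fb]; ring
    rw [e, abs_mul, abs_of_pos hE]
    refine mul_le_mul hE2 ?_ (abs_nonneg _) (Real.exp_pos _).le
    have a1 : 0 ≤ ν * (Pb τ O s₀ lam f z ^ 2 + Qb τ O s₀ lam f z ^ 2) := by positivity
    have a1' : ν * (Pb τ O s₀ lam f z ^ 2 + Qb τ O s₀ lam f z ^ 2) ≤
        ν * ((2 + 13 * τ ^ 2 * Rr) * T) := mul_le_mul_of_nonneg_left hN' hν.le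
    have a2 : 0 ≤ 4 * ν * τ ^ 2 * ((pf O s₀ lam z ^ 2 * R2 O z) * f z ^ 2) := by positivity
    have a2' : 4 * ν * τ ^ 2 * ((pf O s₀ lam z ^ 2 * R2 O z) * f z ^ 2) ≤
        7 * ν * τ ^ 2 * Rr * T := by
      have k1 : pf O s₀ lam z ^ 2 * R2 O z ≤ 25 / 16 * Rr :=
        mul_le_mul (hp z hz) (hR z hz) hR0 (by norm_num)
      have k2 : (pf O s₀ lam z ^ 2 * R2 O z) * f z ^ 2 ≤ 25 / 16 * Rr * T :=
        mul_le_mul k1 hfT (sq_nonneg _) (by positivity)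
      have k3 := mul_le_mul_of_nonneg_left k2 (by positivity : 0 ≤ 4 * ν * τ ^ 2)
      have k4 : 0 ≤ ν * τ ^ 2 * Rr * T := by positivity
      nlinarith
    have a3 : |θ * f z ^ 2| ≤ |θ| * T := by
      rw [abs_mul, abs_of_nonneg (sq_nonneg (f z))]
      exact mul_le_mul_of_nonneg_left hfT (abs_nonneg _)
    have a4 := abs_le.1 a3
    rw [abs_le]
    constructor <;> linarith [a4.1, a4.2]
  refine h1.trans (le_of_eq ?_)
  rw [setIntegral_const, smul_eq_mul, mul_comm]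
  rfl

lemma d12_zero {f : P2 → ℝ} {z : P2} (h : f =ᶠ[𝓝 z] fun _ => (0 : ℝ)) :
    d1 f z = 0 ∧ d2 f z = 0 := by
  have e : fderiv ℝ f z = 0 := by rw [h.fderiv_eq]; simp
  constructor
  · rw [d1, e]; simp
  · rw [d2, e]; simp

/-- lower bound for the masses -/
lemma Fb_lower {Ω B : Set P2} (hb : Bornology.IsBounded Ω) (hB : IsOpen B)
    (hBΩ : B ⊆ Ω) {f g : P2 → ℝ} (hf : ContDiff ℝ 2 f) (hg : ContDiff ℝ 2 g)
    {τ s β s₀ lam : ℝ} (hτ : 0 < τ) {O : P2} (hs : ∀ z ∈ B, s ≤ ph O s₀ lam z)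
    (hβB : ∀ z ∈ B, β ≤ f z ^ 2 + g z ^ 2) :
    β * Real.exp (2 * τ * s) * (volume B).toReal ≤
      (∫ z in Ω, Fb τ O s₀ lam f z) + ∫ z in Ω, Fb τ O s₀ lam g z := by
  have hint : ∀ {g : P2 → ℝ}, Continuous g → IntegrableOn g Ω := fun hg =>
    (hg.continuousOn.integrableOn_compact hb.isCompact_closure).mono_set subset_closure
  have c1 := Fb_cont hf τ O s₀ lam
  have c2 := Fb_cont hg τ O s₀ lam
  rw [← integral_add (hint c1) (hint c2)]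
  have h1 : ∫ z in B, (Fb τ O s₀ lam f z + Fb τ O s₀ lam g z) ≤
      ∫ z in Ω, (Fb τ O s₀ lam f z + Fb τ O s₀ lam g z) := by
    refine setIntegral_mono_set (hint (c1.add c2)) ?_ ?_
    · exact Eventually.of_forall fun z => add_nonneg (Fb_nonneg _ _ _ _ _ _) (Fb_nonneg _ _ _ _ _ _)
    · exact Eventually.of_forall fun z hz => hBΩ hz
  refine le_trans ?_ h1
  have h2 : ∫ z in B, β * Real.exp (2 * τ * s) ≤
      ∫ z in B, (Fb τ O s₀ lam f z + Fb τ O s₀ lam g z) := by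
    refine setIntegral_mono_on ((hint continuous_const).mono_set hBΩ)
      ((hint (c1.add c2)).mono_set hBΩ) hB.measurableSet ?_
    intro z hz
    have e1 : Real.exp (2 * τ * s) ≤ Eb τ O s₀ lam z := by
      unfold Eb
      rw [Real.exp_le_exp]
      exact mul_le_mul_of_nonneg_left (hs z hz) (by positivity)
    have hE : 0 < Eb τ O s₀ lam z := Real.exp_pos _
    have e3 : Fb τ O s₀ lam f z + Fb τ O s₀ lam g z =
        (f z ^ 2 + g z ^ 2) * Eb τ O s₀ lam z := by unfold Fb; ring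
    rw [e3]
    exact mul_le_mul (hβB z hz) e1 (Real.exp_pos _).le (by positivity)
  refine le_trans (le_of_eq ?_) h2
  rw [setIntegral_const, smul_eq_mul, mul_comm]
  rfl

lemma mid_id (y x z : P2) : R2 ((y.1 + x.1) / 2, (y.2 + x.2) / 2) z =
    (R2 y z + R2 x z) / 2 - R2 y x / 4 := by
  unfold R2; ring

lemma le_sq_self' {τ : ℝ} (h : 1 ≤ τ) : τ ≤ τ ^ 2 := by nlinarith

lemma coef_real {ν τ γ δ lam C Rr sm B : ℝ} (hν : 0 < ν) (hτ : 1 ≤ τ) (hC : 0 ≤ C)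
    (hl : 0 ≤ lam) (hγ : 0 < γ) (hB : B ≤ 2 * γ * δ)
    (h : 4 * C * (1 + 13 * Rr) + 32 * ν ^ 2 * lam + 24 * ν * γ * δ + 72 * ν ^ 2 + 2 * γ ≤
      8 * ν ^ 2 * sm * τ) :
    4 * C * (1 + 13 * τ ^ 2 * Rr) + 32 * ν ^ 2 * τ * lam
        + 12 * ν * τ ^ 2 * B + 72 * ν ^ 2 * τ ^ 2 + 2 * γ * τ ≤ 8 * ν ^ 2 * τ ^ 3 * sm := by
  have hττ : τ ≤ τ ^ 2 := le_sq_self' hτ
  have h1τ : 1 ≤ τ ^ 2 := hτ.trans hττ
  have b1 : 4 * C * (1 + 13 * τ ^ 2 * Rr) ≤ τ ^ 2 * (4 * C * (1 + 13 * Rr)) := by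
    have k1 : 1 + 13 * τ ^ 2 * Rr ≤ τ ^ 2 * (1 + 13 * Rr) := by linarith
    have k2 := mul_le_mul_of_nonneg_left k1 (by positivity : 0 ≤ 4 * C)
    linarith
  have b2 : 32 * ν ^ 2 * τ * lam ≤ τ ^ 2 * (32 * ν ^ 2 * lam) := by
    have := mul_le_mul_of_nonneg_right hττ (by positivity : 0 ≤ 32 * ν ^ 2 * lam)
    linarith
  have b3 : 12 * ν * τ ^ 2 * B ≤ τ ^ 2 * (24 * ν * γ * δ) := by
    have := mul_le_mul_of_nonneg_left hB (by positivity : 0 ≤ 12 * ν * τ ^ 2)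
    linarith
  have b4 : 2 * γ * τ ≤ τ ^ 2 * (2 * γ) := by
    have := mul_le_mul_of_nonneg_right hττ (by positivity : 0 ≤ 2 * γ)
    linarith
  have b5 := mul_le_mul_of_nonneg_left h (by positivity : 0 ≤ τ ^ 2)
  linarith

lemma end_real {ν τ γ δ Rr : ℝ} (hν : 0 < ν) (hγδ : 0 ≤ γ * δ) (hR : 0 ≤ Rr) :
    ν * (2 + 13 * τ ^ 2 * Rr) + 7 * ν * τ ^ 2 * Rr + 2 * τ * γ * δ ≤
        (1 + τ ^ 2) * (2 * ν + 20 * ν * Rr + 2 * γ * δ) := by
  have k1 : 0 ≤ ν * Rr := by positivity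
  have k3 : τ ≤ 1 + τ ^ 2 := by nlinarith
  have k4 : τ * (γ * δ) ≤ (1 + τ ^ 2) * (γ * δ) := mul_le_mul_of_nonneg_right k3 hγδ
  have k5 : 0 ≤ τ ^ 2 * ν := by positivity
  linarith

lemma mul_le_of_le_one' {ρ A : ℝ} (hρ : ρ ≤ 1) (hA : 0 ≤ A) : ρ * A ≤ A := by nlinarith

lemma one_add_sq_mul {τ E : ℝ} (hE : 0 ≤ E) : E ≤ (1 + τ ^ 2) * E := by
  nlinarith [mul_nonneg (sq_nonneg τ) hE]

lemma neg_gauss_le {τ γ x η : ℝ} (hτ : 0 < τ) (hγ : 0 < γ) (h : |x| ≤ η) :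
    -2 * τ * γ * η ^ 2 ≤ -2 * τ * γ * x ^ 2 := by
  have h3 : x ^ 2 ≤ η ^ 2 := by rw [← sq_abs]; gcongr
  have h4 := mul_le_mul_of_nonneg_left h3 (by positivity : 0 ≤ 2 * τ * γ)
  linarith

lemma pf_sq {p : ℝ} (h1 : -(5 / 4) ≤ p) (h2 : p ≤ -(3 / 4)) : p ^ 2 ≤ 25 / 16 := by nlinarith

theorem ucp_ball {w1 w2 : P3 → ℝ} (hw1 : ContDiff ℝ 3 w1) (hw2 : ContDiff ℝ 3 w2) {ν : ℝ}
    (hν : 0 < ν) {y x₀ O : P2} {d r ε a b K : ℝ} (hd : 0 < d) (hyx : R2 y x₀ = d ^ 2)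
    (hO : O = ((y.1 + x₀.1) / 2, (y.2 + x₀.2) / 2)) (hr : 0 < r) (hε : 0 < ε)
    (hεd : ε ≤ d ^ 2 / 128) (hεr : ε ≤ r ^ 2 / 4) (hK : 0 ≤ K)
    (hzero : ∀ t ∈ Ioo a b, ∀ z, R2 y z < d ^ 2 → w1 (t, z) = 0 ∧ w2 (t, z) = 0)
    (hin : ∀ t ∈ Ioo a b, ∀ z, R2 x₀ z < r ^ 2 →
      (ν * (d1 (d1 (sl w1 t)) z + d2 (d2 (sl w1 t)) z) - Dt w1 (t, z)) ^ 2 ≤
        K * (sz (sl w1 t) z + sz (sl w2 t) z) ∧
      (ν * (d1 (d1 (sl w2 t)) z + d2 (d2 (sl w2 t)) z) - Dt w2 (t, z)) ^ 2 ≤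
        K * (sz (sl w1 t) z + sz (sl w2 t) z))
    {t₀ : ℝ} (ht₀ : t₀ ∈ Ioo a b) {zs : P2} (hzs : R2 x₀ zs < r ^ 2)
    (hzσ : |R2 O zs - d ^ 2 / 4| < ε / 8) : w1 (t₀, zs) = 0 ∧ w2 (t₀, zs) = 0 := by
  by_contra hcon
  have hmid : ∀ z, R2 O z - d ^ 2 / 4 = (R2 y z + R2 x₀ z) / 2 - d ^ 2 / 2 := by
    intro z
    rw [hO, mid_id y x₀ z, hyx]; ring
  have hcR2 : Continuous (R2 O) := (R2_contDiff O (n := 0)).continuous
  have hcR2x : Continuous (R2 x₀) := (R2_contDiff x₀ (n := 0)).continuous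
  have hcR2y : Continuous (R2 y) := (R2_contDiff y (n := 0)).continuous
  obtain ⟨s₀, hs₀⟩ : ∃ s₀ : ℝ, s₀ = d ^ 2 / 4 := ⟨_, rfl⟩
  obtain ⟨lam, hlam⟩ : ∃ lam : ℝ, lam = 32 / d ^ 2 := ⟨_, rfl⟩
  have hlam0 : 0 < lam := by rw [hlam]; positivity
  obtain ⟨c, hc⟩ : ∃ c : ℝ, c = s₀ + ε := ⟨_, rfl⟩
  obtain ⟨κ, hκd⟩ : ∃ κ : ℝ, κ = ε / 2 := ⟨_, rfl⟩
  have hκ : 0 < κ := by rw [hκd]; positivity
  obtain ⟨Rr, hRr⟩ : ∃ Rr : ℝ, Rr = s₀ + 2 * ε := ⟨_, rfl⟩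
  obtain ⟨sm, hsm⟩ : ∃ sm : ℝ, sm = d ^ 2 / 8 := ⟨_, rfl⟩
  have hsm0 : 0 < sm := by rw [hsm]; positivity
  have hs₀0 : 0 < s₀ := by rw [hs₀]; positivity
  have hRr0 : 0 < Rr := by rw [hRr]; positivity
  have hlε : lam * ε ≤ 1 / 4 := by
    have h1 : lam * ε ≤ 32 / d ^ 2 * (d ^ 2 / 128) := by
      rw [hlam]
      exact mul_le_mul_of_nonneg_left hεd (by positivity)
    have h2 : 32 / d ^ 2 * (d ^ 2 / 128) = 1 / 4 := by field_simp; norm_num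
    linarith
  rw [← hs₀] at hzσ hmid
  -- the region
  obtain ⟨Ω', hΩ'⟩ : ∃ Ω' : Set P2, Ω' = {z | R2 x₀ z < r ^ 2} ∩ {z | |R2 O z - s₀| < ε} :=
    ⟨_, rfl⟩
  have hΩ'o : IsOpen Ω' := by
    rw [hΩ']
    exact (isOpen_lt hcR2x continuous_const).inter
      (isOpen_lt (hcR2.sub continuous_const).abs continuous_const)
  have hΩ'm : ∀ z ∈ Ω', R2 x₀ z < r ^ 2 ∧ |R2 O z - s₀| < ε := by
    intro z hz
    rw [hΩ'] at hz
    exact hz
  have hΩ'b : Bornology.IsBounded Ω' := by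
    refine (Metric.isBounded_closedBall (x := x₀) (r := r)).subset ?_
    intro z hz
    have h2 := (hΩ'm z hz).1
    unfold R2 at h2
    rw [Metric.mem_closedBall, Prod.dist_eq, Real.dist_eq, Real.dist_eq, max_le_iff]
    constructor
    · refine abs_le_of_sq_le_sq ?_ hr.le
      nlinarith [mul_self_nonneg (z.2 - x₀.2)]
    · refine abs_le_of_sq_le_sq ?_ hr.le
      nlinarith [mul_self_nonneg (z.1 - x₀.1)]
  have hreg : ∀ z ∈ Ω', sm ≤ R2 O z ∧ |lam * (R2 O z - s₀)| ≤ 1 / 4 ∧ 2 ≤ lam * R2 O z := by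
    intro z hz
    obtain ⟨_, h2⟩ := hΩ'm z hz
    have h3 := abs_lt.1 h2
    have h4 : sm ≤ R2 O z := by rw [hsm]; rw [hs₀] at h3; nlinarith [h3.1]
    refine ⟨h4, ?_, ?_⟩
    · rw [abs_mul, abs_of_pos hlam0]
      have := mul_le_mul_of_nonneg_left h2.le hlam0.le
      linarith
    · have h5 := mul_le_mul_of_nonneg_left h4 hlam0.le
      have h6 : lam * sm = 4 := by rw [hlam, hsm]; field_simp; norm_num
      linarith
  have hregc : ∀ z ∈ Ω', |R2 O z - c| ≤ Rr ∧ R2 O z ≤ Rr := by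
    intro z hz
    obtain ⟨_, h2⟩ := hΩ'm z hz
    have h3 := abs_lt.1 h2
    refine ⟨?_, by rw [hRr]; linarith [h3.2]⟩
    rw [abs_le, hc, hRr]
    constructor <;> linarith [h3.1, h3.2]
  obtain ⟨m₁, hm₁⟩ : ∃ m₁ : ℝ, m₁ = 3 * ε / 8 := ⟨_, rfl⟩
  have hm₁0 : 0 < m₁ := by rw [hm₁]; positivity
  have hfar : ∀ z ∈ Ω', c < R2 O z + κ → ph O s₀ lam z ≤ -m₁ := by
    intro z hz hcz
    obtain ⟨_, h2⟩ := hΩ'm z hz
    have h3 := abs_lt.1 h2
    rw [hc, hκd] at hcz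
    have h4 : ε / 2 < R2 O z - s₀ := by linarith
    unfold ph
    rw [hm₁]
    have h5 : lam / 2 * ((R2 O z - s₀) * (R2 O z - s₀)) ≤ 1 / 8 * (R2 O z - s₀) := by
      have a1 : lam * (R2 O z - s₀) ≤ 1 / 4 := by
        have := mul_le_mul_of_nonneg_left h3.2.le hlam0.le
        linarith
      have a2 : 0 ≤ R2 O z - s₀ := by linarith
      have a3 := mul_le_mul_of_nonneg_right a1 a2
      linarith
    linarith
  have hph2 : ∀ z ∈ Ω', ph O s₀ lam z ≤ 2 * ε := by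
    intro z hz
    obtain ⟨_, h2⟩ := hΩ'm z hz
    have h3 := abs_lt.1 h2
    unfold ph
    have a1 : lam * ((R2 O z - s₀) * (R2 O z - s₀)) ≤ lam * (ε * ε) := by
      apply mul_le_mul_of_nonneg_left _ hlam0.le
      nlinarith [h3.1, h3.2]
    have a2 : lam * (ε * ε) ≤ 1 / 4 * ε := by nlinarith
    linarith [h3.1]
  have hfr' : ∀ z ∈ frontier Ω', R2 O z - c = 0 ∨ R2 y z < d ^ 2 := by
    intro z hz
    have h1 : R2 x₀ z ≤ r ^ 2 := by
      have h3 : closure Ω' ⊆ {z | R2 x₀ z ≤ r ^ 2} :=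
        closure_minimal (fun y hy => (hΩ'm y hy).1.le) (isClosed_le hcR2x continuous_const)
      exact h3 hz.1
    have h2 : |R2 O z - s₀| ≤ ε := by
      have h3 : closure Ω' ⊆ {z | |R2 O z - s₀| ≤ ε} :=
        closure_minimal (fun y hy => (hΩ'm y hy).2.le)
          (isClosed_le (hcR2.sub continuous_const).abs continuous_const)
      exact h3 hz.1
    have h2' := abs_le.1 h2
    by_cases h3 : R2 O z - c = 0
    · left; exact h3
    · right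
      have h4 : z ∉ Ω' := by
        have := hz.2
        rwa [hΩ'o.interior_eq] at this
      have h5 : R2 O z - s₀ < ε := lt_of_le_of_ne h2'.2 (fun h => h3 (by rw [hc]; linarith))
      have hm := hmid z
      by_cases h6 : R2 O z - s₀ = -ε
      · have := R2_nonneg x₀ z
        linarith
      · have h7 : |R2 O z - s₀| < ε := by
          rw [abs_lt]
          exact ⟨lt_of_le_of_ne h2'.1 (Ne.symm h6), h5⟩
        have h8 : ¬ R2 x₀ z < r ^ 2 := fun h => h4 (by rw [hΩ']; exact ⟨h, h7⟩)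
        push Not at h8
        nlinarith
  -- times
  obtain ⟨δ, hδdef⟩ : ∃ δ : ℝ, δ = min (t₀ - a) (b - t₀) / 2 := ⟨_, rfl⟩
  have hδ : 0 < δ := by
    have h1 : 0 < t₀ - a := by linarith [ht₀.1]
    have h2 : 0 < b - t₀ := by linarith [ht₀.2]
    rw [hδdef]; positivity
  have hδI : ∀ t ∈ Icc (t₀ - δ) (t₀ + δ), t ∈ Ioo a b := by
    intro t ht
    have h1 := min_le_left (t₀ - a) (b - t₀)
    have h2 := min_le_right (t₀ - a) (b - t₀)
    constructor <;> linarith [ht.1, ht.2]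
  obtain ⟨γ, hγ⟩ : ∃ γ : ℝ, γ = (m₁ + 2 * ε) / δ ^ 2 := ⟨_, rfl⟩
  have hγ0 : 0 < γ := by rw [hγ]; positivity
  have hγδ : γ * δ ^ 2 = m₁ + 2 * ε := by rw [hγ]; field_simp
  -- bounds
  have hKc : IsCompact (Icc (t₀ - δ) (t₀ + δ) ×ˢ closure Ω') :=
    isCompact_Icc.prod hΩ'b.isCompact_closure
  have hF1 : ContDiff ℝ 3 (cut O c w1) := cut_contDiff hw1 O c
  have hF2 : ContDiff ℝ 3 (cut O c w2) := cut_contDiff hw2 O c
  obtain ⟨S1, hS1⟩ := hKc.exists_bound_of_continuousOn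
    (sz_cont (hw1.of_le (by norm_num))).continuousOn
  obtain ⟨S2, hS2⟩ := hKc.exists_bound_of_continuousOn
    (sz_cont (hw2.of_le (by norm_num))).continuousOn
  obtain ⟨T1, hT1⟩ := hKc.exists_bound_of_continuousOn
    (sz_cont (hF1.of_le (by norm_num))).continuousOn
  obtain ⟨T2, hT2⟩ := hKc.exists_bound_of_continuousOn
    (sz_cont (hF2.of_le (by norm_num))).continuousOn
  obtain ⟨Smax, hSmax⟩ : ∃ Smax : ℝ, Smax = |S1| + |S2| := ⟨_, rfl⟩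
  obtain ⟨Tmax, hTmax⟩ : ∃ Tmax : ℝ, Tmax = |T1| + |T2| := ⟨_, rfl⟩
  have hSmax0 : 0 ≤ Smax := by rw [hSmax]; positivity
  have hTmax0 : 0 ≤ Tmax := by rw [hTmax]; positivity
  have hS : ∀ t ∈ Icc (t₀ - δ) (t₀ + δ), ∀ z ∈ Ω',
      sz (sl w1 t) z + sz (sl w2 t) z ≤ Smax := by
    intro t ht z hz
    have hm : ((t, z) : P3) ∈ Icc (t₀ - δ) (t₀ + δ) ×ˢ closure Ω' :=
      ⟨ht, subset_closure hz⟩
    have h1 := (le_abs_self _).trans (hS1 _ hm)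
    have h2 := (le_abs_self _).trans (hS2 _ hm)
    simp only at h1 h2
    rw [hSmax]
    linarith [le_abs_self S1, le_abs_self S2]
  have hT : ∀ t ∈ Icc (t₀ - δ) (t₀ + δ), ∀ z ∈ Ω',
      sz (sl (cut O c w1) t) z ≤ Tmax ∧ sz (sl (cut O c w2) t) z ≤ Tmax := by
    intro t ht z hz
    have hm : ((t, z) : P3) ∈ Icc (t₀ - δ) (t₀ + δ) ×ˢ closure Ω' :=
      ⟨ht, subset_closure hz⟩
    have h1 := (le_abs_self _).trans (hT1 _ hm)
    have h2 := (le_abs_self _).trans (hT2 _ hm)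
    simp only at h1 h2
    rw [hTmax]
    constructor
    · linarith [le_abs_self T1, abs_nonneg T2]
    · linarith [le_abs_self T2, abs_nonneg T1]
  obtain ⟨A1, hA1⟩ : ∃ A1 : ℝ, A1 = (volume Ω').toReal := ⟨_, rfl⟩
  have hA10 : 0 ≤ A1 := by rw [hA1]; exact ENNReal.toReal_nonneg
  have hC1 : 0 ≤ C1 ν K Rr := by unfold C1; positivity
  have hC2 : 0 ≤ C2 κ Rr := by unfold C2; positivity
  -- the cut-off functions vanish on the frontier
  have hfrF : ∀ {w : P3 → ℝ}, ContDiff ℝ 3 w → (∀ t ∈ Ioo a b, ∀ z, R2 y z < d ^ 2 →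
      w (t, z) = 0) → ∀ t ∈ Icc (t₀ - δ) (t₀ + δ),
      ∀ z ∈ frontier Ω', sl (cut O c w) t z = 0 ∧ d1 (sl (cut O c w) t) z = 0 ∧
        d2 (sl (cut O c w) t) z = 0 := by
    intro w hw h t ht z hz
    have hw2 : ContDiff ℝ 2 (sl w t) := (sl_contDiff (n := 3) hw t).of_le (by norm_num)
    rw [cut_sl, chi_d1 hw2, chi_d2 hw2]
    simp only
    rcases hfr' z hz with h1 | h1
    · unfold chi
      rw [h1]; simp
    · have e0 : (sl w t) =ᶠ[𝓝 z] fun _ => (0 : ℝ) := by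
        filter_upwards [(isOpen_lt hcR2y continuous_const).mem_nhds h1] with x hx
        exact h t (hδI t ht) x hx
      have e1 : sl w t z = 0 := e0.self_of_nhds
      have e2 : d1 (sl w t) z = 0 := (d12_zero e0).1
      have e3 : d2 (sl w t) z = 0 := (d12_zero e0).2
      rw [e1, e2, e3]; simp
  -- a neighbourhood where the cut-off functions do not vanish
  obtain ⟨β, hβ⟩ : ∃ β : ℝ, β = (cut O c w1 (t₀, zs) ^ 2 + cut O c w2 (t₀, zs) ^ 2) / 2 :=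
    ⟨_, rfl⟩
  have hzσ' := abs_lt.1 hzσ
  have hchi : 0 < chi O c zs := by
    unfold chi
    have : R2 O zs - c < 0 := by rw [hc]; linarith [hzσ'.2]
    nlinarith
  have hβ0 : 0 < β := by
    have h1 : w1 (t₀, zs) ^ 2 + w2 (t₀, zs) ^ 2 ≠ 0 := by
      intro h
      have h2 : w1 (t₀, zs) ^ 2 = 0 := by nlinarith [sq_nonneg (w1 (t₀, zs)), sq_nonneg (w2 (t₀, zs))]
      have h3 : w2 (t₀, zs) ^ 2 = 0 := by nlinarith [sq_nonneg (w1 (t₀, zs)), sq_nonneg (w2 (t₀, zs))]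
      exact hcon ⟨by simpa using h2, by simpa using h3⟩
    have h2 : 0 < w1 (t₀, zs) ^ 2 + w2 (t₀, zs) ^ 2 :=
      lt_of_le_of_ne (by positivity) (Ne.symm h1)
    have h3 : β = chi O c zs ^ 2 * (w1 (t₀, zs) ^ 2 + w2 (t₀, zs) ^ 2) / 2 := by
      rw [hβ]; unfold cut; ring
    rw [h3]; positivity
  obtain ⟨ε', hε', hnb⟩ : ∃ ε' > 0, ∀ x : P3, dist x (t₀, zs) < ε' →
      β < cut O c w1 x ^ 2 + cut O c w2 x ^ 2 ∧ |R2 O x.2 - s₀| < ε / 8 ∧ R2 x₀ x.2 < r ^ 2 := by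
    have k1 : Continuous fun y : P3 => cut O c w1 y ^ 2 + cut O c w2 y ^ 2 :=
      (hF1.continuous.pow 2).add (hF2.continuous.pow 2)
    have k2 : Continuous fun y : P3 => |R2 O y.2 - s₀| :=
      ((hcR2.comp continuous_snd).sub continuous_const).abs
    have k3 : Continuous fun y : P3 => R2 x₀ y.2 := hcR2x.comp continuous_snd
    have e1 : ∀ᶠ y in 𝓝 ((t₀, zs) : P3), β < cut O c w1 y ^ 2 + cut O c w2 y ^ 2 :=
      k1.continuousAt.eventually (lt_mem_nhds (by simp only; linarith))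
    have e2 : ∀ᶠ y in 𝓝 ((t₀, zs) : P3), |R2 O y.2 - s₀| < ε / 8 :=
      k2.continuousAt.eventually (gt_mem_nhds (by simp only; exact hzσ))
    have e3 : ∀ᶠ y in 𝓝 ((t₀, zs) : P3), R2 x₀ y.2 < r ^ 2 :=
      k3.continuousAt.eventually (gt_mem_nhds (by simp only; exact hzs))
    obtain ⟨ε', hε', h⟩ := Metric.eventually_nhds_iff.1 (e1.and (e2.and e3))
    exact ⟨ε', hε', fun y hy => h hy⟩
  obtain ⟨B, hB⟩ : ∃ B : Set P2, B = Metric.ball zs ε' := ⟨_, rfl⟩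
  have hBo : IsOpen B := by rw [hB]; exact Metric.isOpen_ball
  obtain ⟨η, hη⟩ : ∃ η : ℝ, η = min (min (ε' / 2) δ) (min 1 (3 * ε / (16 * γ))) := ⟨_, rfl⟩
  have hη0 : 0 < η := by rw [hη]; positivity
  have hη1 : η ≤ ε' / 2 := by rw [hη]; exact (min_le_left _ _).trans (min_le_left _ _)
  have hη2 : η ≤ δ := by rw [hη]; exact (min_le_left _ _).trans (min_le_right _ _)
  have hη3 : η ≤ 1 := by rw [hη]; exact (min_le_right _ _).trans (min_le_left _ _)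
  have hη4 : η ≤ 3 * ε / (16 * γ) := by
    rw [hη]; exact (min_le_right _ _).trans (min_le_right _ _)
  have hη5 : 2 * γ * η ^ 2 ≤ 3 * ε / 8 := by
    rw [le_div_iff₀ (by positivity)] at hη4
    have h1 : γ * η ^ 2 ≤ γ * η := by
      apply mul_le_mul_of_nonneg_left _ hγ0.le
      nlinarith
    linarith
  have hin' : ∀ t ∈ Icc (t₀ - η) (t₀ + η), ∀ z ∈ B, dist ((t, z) : P3) (t₀, zs) < ε' := by
    intro t ht z hz
    rw [hB] at hz
    rw [Prod.dist_eq, max_lt_iff]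
    refine ⟨?_, hz⟩
    rw [Real.dist_eq, abs_lt]
    constructor <;> simp only <;> linarith [ht.1, ht.2]
  have ht₀I : t₀ ∈ Icc (t₀ - η) (t₀ + η) := ⟨by linarith, by linarith⟩
  have hBΩ : B ⊆ Ω' := by
    intro z hz
    have h1 := hnb (t₀, z) (hin' t₀ ht₀I z hz)
    rw [hΩ']
    refine ⟨h1.2.2, ?_⟩
    have := h1.2.1
    simp only at this
    simp only [Set.mem_ofPred_eq]; linarith
  obtain ⟨A2, hA2⟩ : ∃ A2 : ℝ, A2 = (volume B).toReal := ⟨_, rfl⟩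
  have hA20 : 0 < A2 := by
    rw [hA2, hB]
    exact ENNReal.toReal_pos (Metric.measure_ball_pos volume zs hε').ne'
      (measure_ball_lt_top).ne
  -- contradiction for large parameter
  refine exp_contra (K₁ := 2 * η * ν ^ 2 * sm * β * A2)
    (K₂ := 2 * δ * (4 * (C1 ν K Rr * Smax * A1)) +
      4 * ((2 * ν + 20 * ν * Rr + 2 * γ * δ) * Tmax * A1) * 2)
    (s := -(5 * ε / 8)) (μ := -(3 * ε / 4))
    (τ₀ := max (8 * C1 ν K Rr * C2 κ Rr / ν ^ 2) ((4 * C1 ν K Rr * C2 κ Rr * (1 + 13 * Rr)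
      + 32 * ν ^ 2 * lam + 24 * ν * γ * δ + 72 * ν ^ 2 + 2 * γ) / (8 * ν ^ 2 * sm)))
    (by positivity) (by linarith) ?_
  intro τ hτ1 hτ2
  have hτ0 : 0 < τ := by linarith
  have hτB : 8 * C1 ν K Rr * C2 κ Rr ≤ ν ^ 2 * τ := by
    have h1 : 8 * C1 ν K Rr * C2 κ Rr / ν ^ 2 ≤ τ := (le_max_left _ _).trans hτ1
    rw [div_le_iff₀ (by positivity)] at h1
    linarith
  have hτD : 4 * C1 ν K Rr * C2 κ Rr * (1 + 13 * Rr)
      + 32 * ν ^ 2 * lam + 24 * ν * γ * δ + 72 * ν ^ 2 + 2 * γ ≤ 8 * ν ^ 2 * sm * τ := by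
    have h1 := (le_max_right _ _).trans hτ1
    rw [div_le_iff₀ (by positivity)] at h1
    linarith
  have hsl2 : ∀ {F : P3 → ℝ}, ContDiff ℝ 3 F → ∀ t, ContDiff ℝ 2 (sl F t) := fun hF t =>
    (sl_contDiff (n := 3) hF t).of_le (by norm_num)
  -- the function of time
  obtain ⟨JA, hJA⟩ : ∃ JA : ℝ → ℝ, JA = fun t => (∫ z in Ω', jb ν τ O s₀ lam (sl (cut O c w1) t) z)
    + ∫ z in Ω', jb ν τ O s₀ lam (sl (cut O c w2) t) z := ⟨_, rfl⟩
  obtain ⟨JB, hJB⟩ : ∃ JB : ℝ → ℝ, JB = fun t => (∫ z in Ω', Fb τ O s₀ lam (sl (cut O c w1) t) z)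
    + ∫ z in Ω', Fb τ O s₀ lam (sl (cut O c w2) t) z := ⟨_, rfl⟩
  obtain ⟨JA', hJA'⟩ : ∃ JA' : ℝ → ℝ, JA' = fun t =>
    (∫ z in Ω', J1' ν τ O s₀ lam (sl (cut O c w1) t) (sl (Dt (cut O c w1)) t) z)
    + ∫ z in Ω', J1' ν τ O s₀ lam (sl (cut O c w2) t) (sl (Dt (cut O c w2)) t) z := ⟨_, rfl⟩
  obtain ⟨JB', hJB'⟩ : ∃ JB' : ℝ → ℝ, JB' = fun t =>
    (∫ z in Ω', J2' τ O s₀ lam (sl (cut O c w1) t) (sl (Dt (cut O c w1)) t) z)
    + ∫ z in Ω', J2' τ O s₀ lam (sl (cut O c w2) t) (sl (Dt (cut O c w2)) t) z := ⟨_, rfl⟩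
  obtain ⟨ρ, hρ⟩ : ∃ ρ : ℝ → ℝ, ρ = fun t => Real.exp (-2 * τ * γ * (t - t₀) ^ 2) := ⟨_, rfl⟩
  have hρ0 : ∀ t, 0 < ρ t := fun t => by rw [hρ]; exact Real.exp_pos _
  have hρ1 : ∀ t, ρ t ≤ 1 := fun t => by
    rw [hρ]; simp only; rw [Real.exp_le_one_iff]
    have : 0 ≤ τ * γ * (t - t₀) ^ 2 := by positivity
    linarith
  have hJB0 : ∀ t, 0 ≤ JB t := fun t => by
    rw [hJB]
    exact add_nonneg (integral_nonneg fun z => Fb_nonneg _ _ _ _ _ _)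
      (integral_nonneg fun z => Fb_nonneg _ _ _ _ _ _)
  have hdρ : ∀ t, HasDerivAt ρ (ρ t * (-4 * τ * γ * (t - t₀))) t := by
    intro t
    rw [hρ]
    have k1 : HasDerivAt (fun t => -2 * τ * γ * (t - t₀) ^ 2) (-4 * τ * γ * (t - t₀)) t := by
      have := (((hasDerivAt_id t).sub_const t₀).pow 2).const_mul (-2 * τ * γ)
      refine this.congr_deriv ?_
      simp
      ring
    exact k1.exp
  have hdJA : ∀ t, HasDerivAt JA (JA' t) t := by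
    intro t
    rw [hJA, hJA']
    exact (jb_deriv hΩ'b hF1 ν τ O s₀ lam t).1.add (jb_deriv hΩ'b hF2 ν τ O s₀ lam t).1
  have hdJB : ∀ t, HasDerivAt JB (JB' t) t := by
    intro t
    rw [hJB, hJB']
    exact (jb_deriv hΩ'b hF1 ν τ O s₀ lam t).2.add (jb_deriv hΩ'b hF2 ν τ O s₀ lam t).2
  obtain ⟨q, hq⟩ : ∃ q : ℝ → ℝ, q = fun t => ρ t * (JA t - τ * (-2 * γ * (t - t₀)) * JB t) :=
    ⟨_, rfl⟩
  obtain ⟨q', hq'⟩ : ∃ q' : ℝ → ℝ, q' = fun t => ρ t * (((JA' t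
      - τ * (-2 * γ * (t - t₀)) * JB' t) + 2 * τ * (-2 * γ * (t - t₀)) * JA t
      - 2 * (τ * (-2 * γ * (t - t₀))) ^ 2 * JB t) + 2 * γ * τ * JB t) := ⟨_, rfl⟩
  have hdq : ∀ t, HasDerivAt q (q' t) t := by
    intro t
    rw [hq, hq']
    have k1 : HasDerivAt (fun t => τ * (-2 * γ * (t - t₀))) (τ * (-2 * γ)) t := by
      have := (((hasDerivAt_id t).sub_const t₀).const_mul (-2 * γ)).const_mul τ
      refine this.congr_deriv ?_
      ring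
    have k2 := (hdρ t).mul ((hdJA t).sub (k1.mul (hdJB t)))
    refine k2.congr_deriv ?_
    simp only [Pi.sub_apply, Pi.mul_apply]
    ring
  obtain ⟨A₀, hA₀⟩ : ∃ A₀ : ℝ, A₀ = 4 * (C1 ν K Rr * Smax * Real.exp (-(2 * τ * m₁)) * A1) :=
    ⟨_, rfl⟩
  have hA₀0 : 0 ≤ A₀ := by rw [hA₀]; positivity
  have hle : ∀ t ∈ Icc (t₀ - δ) (t₀ + δ), q' t ≤ A₀ - ν ^ 2 * τ ^ 3 * sm * (ρ t * JB t) := by
    intro t ht
    have h1 := cutb_energy hΩ'o hΩ'b hw1 hw2 (O := O) (s₀ := s₀) (lam := lam) (c := c) (κ := κ)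
      (Rr := Rr) (ν := ν) (K := K) (Smax := Smax) (τ := τ) (β := -2 * γ * (t - t₀)) (t := t)
      (m₁ := m₁) (sm := sm) hν hlam0.le hsm0.le hκ hK hτ0 hreg hregc hfar
      (fun z hz => (hin t (hδI t ht) z (hΩ'm z hz).1).1) (hS t ht)
      (hfrF hw1 (fun t ht z hz => (hzero t ht z hz).1) t ht)
    have h2 := cutb_energy hΩ'o hΩ'b hw2 hw1 (O := O) (s₀ := s₀) (lam := lam) (c := c) (κ := κ)
      (Rr := Rr) (ν := ν) (K := K) (Smax := Smax) (τ := τ) (β := -2 * γ * (t - t₀)) (t := t)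
      (m₁ := m₁) (sm := sm) hν hlam0.le hsm0.le hκ hK hτ0 hreg hregc hfar
      (fun z hz => by
        rw [add_comm (sz (sl w2 t) z)]; exact (hin t (hδI t ht) z (hΩ'm z hz).1).2)
      (fun z hz => by rw [add_comm]; exact hS t ht z hz)
      (hfrF hw2 (fun t ht z hz => (hzero t ht z hz).2) t ht)
    rw [← hA1] at h1 h2
    have g1 : 0 ≤ ∫ z in Ω', Gb τ O s₀ lam (sl (cut O c w1) t) z :=
      integral_nonneg fun z => Gb_nonneg _ _ _ _ _ _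
    have g2 : 0 ≤ ∫ z in Ω', Gb τ O s₀ lam (sl (cut O c w2) t) z :=
      integral_nonneg fun z => Gb_nonneg _ _ _ _ _ _
    have f1 : 0 ≤ ∫ z in Ω', Fb τ O s₀ lam (sl (cut O c w1) t) z :=
      integral_nonneg fun z => Fb_nonneg _ _ _ _ _ _
    have f2 : 0 ≤ ∫ z in Ω', Fb τ O s₀ lam (sl (cut O c w2) t) z :=
      integral_nonneg fun z => Fb_nonneg _ _ _ _ _ _
    obtain ⟨G1, hG1⟩ : ∃ x, x = ∫ z in Ω', Gb τ O s₀ lam (sl (cut O c w1) t) z := ⟨_, rfl⟩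
    obtain ⟨G2, hG2⟩ : ∃ x, x = ∫ z in Ω', Gb τ O s₀ lam (sl (cut O c w2) t) z := ⟨_, rfl⟩
    obtain ⟨M1, hM1⟩ : ∃ x, x = ∫ z in Ω', Fb τ O s₀ lam (sl (cut O c w1) t) z := ⟨_, rfl⟩
    obtain ⟨M2, hM2⟩ : ∃ x, x = ∫ z in Ω', Fb τ O s₀ lam (sl (cut O c w2) t) z := ⟨_, rfl⟩
    have hJBt : JB t = M1 + M2 := by rw [hJB, hM1, hM2]
    have hβa : |-2 * γ * (t - t₀)| ≤ 2 * γ * δ := by
      have h4 : |t - t₀| ≤ δ := by rw [abs_le]; constructor <;> linarith [ht.1, ht.2]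
      rw [abs_mul, abs_mul, abs_of_pos hγ0, abs_neg, abs_two]
      exact mul_le_mul_of_nonneg_left h4 (by positivity)
    have hq'e : q' t = ρ t * (((JA' t
      - τ * (-2 * γ * (t - t₀)) * JB' t) + 2 * τ * (-2 * γ * (t - t₀)) * JA t
      - 2 * (τ * (-2 * γ * (t - t₀))) ^ 2 * JB t) + 2 * γ * τ * JB t) := by rw [hq']
    have hsum : ((JA' t
      - τ * (-2 * γ * (t - t₀)) * JB' t) + 2 * τ * (-2 * γ * (t - t₀)) * JA t
      - 2 * (τ * (-2 * γ * (t - t₀))) ^ 2 * JB t) ≤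
      4 * (C1 ν K Rr * C2 κ Rr * (2 * (G1 + G2) + (1 + 13 * τ ^ 2 * Rr) * (M1 + M2))
        + C1 ν K Rr * Smax * Real.exp (-(2 * τ * m₁)) * A1)
      - 2 * ν ^ 2 * τ * (G1 + G2) - (9 * ν ^ 2 * τ ^ 3 * sm - 32 * ν ^ 2 * τ * lam
        - 12 * ν * τ ^ 2 * |-2 * γ * (t - t₀)| - 72 * ν ^ 2 * τ ^ 2) * (M1 + M2) := by
      rw [hJA', hJB', hJA, hJBt]
      simp only
      rw [← hG1, ← hG2, ← hM1, ← hM2] at h1 h2
      linarith
    rw [← hG1] at g1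
    rw [← hG2] at g2
    rw [← hM1] at f1
    rw [← hM2] at f2
    have hGG : 8 * C1 ν K Rr * C2 κ Rr * (G1 + G2) ≤ 2 * ν ^ 2 * τ * (G1 + G2) := by
      have a1 : 8 * C1 ν K Rr * C2 κ Rr ≤ 2 * ν ^ 2 * τ := by
        have : 0 ≤ ν ^ 2 * τ := by positivity
        linarith
      exact mul_le_mul_of_nonneg_right a1 (by linarith)
    have hcoef := coef_real (ν := ν) (τ := τ) (γ := γ) (δ := δ) (lam := lam)
      (C := C1 ν K Rr * C2 κ Rr) (Rr := Rr) (sm := sm) (B := |-2 * γ * (t - t₀)|) hν hτ2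
      (by positivity) hlam0.le hγ0 hβa (by linarith)
    have hcoef2 := mul_le_mul_of_nonneg_right hcoef (by linarith : 0 ≤ M1 + M2)
    have hfin : ((JA' t
      - τ * (-2 * γ * (t - t₀)) * JB' t) + 2 * τ * (-2 * γ * (t - t₀)) * JA t
      - 2 * (τ * (-2 * γ * (t - t₀))) ^ 2 * JB t) + 2 * γ * τ * JB t ≤
      A₀ - ν ^ 2 * τ ^ 3 * sm * JB t := by
      rw [hA₀]
      rw [hJBt] at hsum ⊢
      linarith
    rw [hq'e]
    have h10 := mul_le_mul_of_nonneg_left hfin (hρ0 t).le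
    have h11 : ρ t * A₀ ≤ A₀ := mul_le_of_le_one' (hρ1 t) hA₀0
    linarith
  have hJBlow : ∀ t ∈ Icc (t₀ - η) (t₀ + η),
      β * Real.exp (2 * τ * (-(ε / 8))) * A2 ≤ JB t := by
    intro t ht
    rw [hJB, hA2]
    refine Fb_lower hΩ'b hBo hBΩ (hsl2 hF1 t) (hsl2 hF2 t) hτ0 ?_ ?_
    · intro z hz
      have h1 := (abs_lt.1 (hnb _ (hin' t ht z hz)).2.1)
      simp only at h1
      unfold ph
      have h2 : 0 ≤ lam / 2 * ((R2 O z - s₀) * (R2 O z - s₀)) := by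
        have := mul_self_nonneg (R2 O z - s₀)
        positivity
      linarith [h1.2]
    · intro z hz
      exact (hnb _ (hin' t ht z hz)).1.le
  have key := time2 (q := q) (q' := q') (N := fun t => ν ^ 2 * τ ^ 3 * sm * (ρ t * JB t))
    (t₀ := t₀) (δ := δ) (η := η) (A := A₀)
    (n₀ := ν ^ 2 * τ ^ 3 * sm * (Real.exp (-2 * τ * γ * η ^ 2) *
      (β * Real.exp (2 * τ * (-(ε / 8))) * A2))) hη0 hη2 hdq hA₀0 hle
    (fun t ht => by
      have := hJB0 t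
      have := hρ0 t
      positivity)
    (fun t ht => by
      have h1 := hJBlow t ht
      have h2 : Real.exp (-2 * τ * γ * η ^ 2) ≤ ρ t := by
        rw [hρ]
        simp only
        rw [Real.exp_le_exp]
        refine neg_gauss_le hτ0 hγ0 ?_
        rw [abs_le]
        constructor <;> linarith [ht.1, ht.2]
      have h3 : Real.exp (-2 * τ * γ * η ^ 2) * (β * Real.exp (2 * τ * (-(ε / 8))) * A2) ≤
          ρ t * JB t := by
        apply mul_le_mul h2 h1 (by positivity) (hρ0 t).le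
      exact mul_le_mul_of_nonneg_left h3 (by positivity))
  -- the ends
  have hpf : ∀ z ∈ Ω', pf O s₀ lam z ^ 2 ≤ 25 / 16 := by
    intro z hz
    have r4 := abs_le.1 (hreg z hz).2.1
    have hp1 : -(5 / 4) ≤ pf O s₀ lam z := by unfold pf; linarith [r4.1]
    have hp2 : pf O s₀ lam z ≤ -(3 / 4) := by unfold pf; linarith [r4.2]
    exact pf_sq hp1 hp2
  have hend : ∀ t ∈ Icc (t₀ - δ) (t₀ + δ), |t - t₀| = δ → |q t| ≤
      (1 + τ ^ 2) * Real.exp (τ * (-(3 * ε / 4))) *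
        (4 * ((2 * ν + 20 * ν * Rr + 2 * γ * δ) * Tmax * A1)) := by
    intro t ht habs
    have b1 := q_bound hΩ'o hΩ'b (hsl2 hF1 t) (ν := ν) (τ := τ)
      (θ := τ * (-2 * γ * (t - t₀))) (Rr := Rr) (T := Tmax) (ε := ε) (s₀ := s₀) (lam := lam)
      (O := O) hν hτ0 (fun z hz => (hregc z hz).2) hpf hph2 (fun z hz => (hT t ht z hz).1)
    have b2 := q_bound hΩ'o hΩ'b (hsl2 hF2 t) (ν := ν) (τ := τ)
      (θ := τ * (-2 * γ * (t - t₀))) (Rr := Rr) (T := Tmax) (ε := ε) (s₀ := s₀) (lam := lam)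
      (O := O) hν hτ0 (fun z hz => (hregc z hz).2) hpf hph2 (fun z hz => (hT t ht z hz).2)
    rw [← hA1] at b1 b2
    have hθ : |τ * (-2 * γ * (t - t₀))| = 2 * τ * γ * δ := by
      rw [abs_mul, abs_mul, abs_mul, habs, abs_of_pos hτ0, abs_of_pos hγ0, abs_neg, abs_two]
      ring
    rw [hθ] at b1 b2
    have hqe : q t = ρ t * (JA t - τ * (-2 * γ * (t - t₀)) * JB t) := by rw [hq]
    have hρe : ρ t = Real.exp (-(2 * τ * (m₁ + 2 * ε))) := by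
      rw [hρ]
      simp only
      congr 1
      have h1 : (t - t₀) ^ 2 = δ ^ 2 := by rw [← sq_abs, habs]
      rw [h1, ← hγδ]; ring
    have hJ : |JA t - τ * (-2 * γ * (t - t₀)) * JB t| ≤
        2 * ((Real.exp (4 * τ * ε) * ((ν * (2 + 13 * τ ^ 2 * Rr) + 7 * ν * τ ^ 2 * Rr
          + 2 * τ * γ * δ) * Tmax)) * A1) := by
      rw [hJA, hJB]
      simp only
      refine le_trans (le_of_eq ?_) ((abs_add_le _ _).trans ((add_le_add b1 b2).trans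
        (le_of_eq (by ring))))
      congr 1
      ring
    rw [hqe, abs_mul, abs_of_pos (hρ0 t), hρe]
    have h5 : Real.exp (-(2 * τ * (m₁ + 2 * ε))) * Real.exp (4 * τ * ε) =
        Real.exp (τ * (-(3 * ε / 4))) := by
      rw [← Real.exp_add]; congr 1; rw [hm₁]; ring
    have h6 := mul_le_mul_of_nonneg_left hJ (Real.exp_pos (-(2 * τ * (m₁ + 2 * ε)))).le
    refine h6.trans ?_
    have h7 : Real.exp (-(2 * τ * (m₁ + 2 * ε))) * (2 * ((Real.exp (4 * τ * ε) *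
        ((ν * (2 + 13 * τ ^ 2 * Rr) + 7 * ν * τ ^ 2 * Rr + 2 * τ * γ * δ) * Tmax)) * A1)) =
        Real.exp (τ * (-(3 * ε / 4))) * (2 * (((ν * (2 + 13 * τ ^ 2 * Rr)
          + 7 * ν * τ ^ 2 * Rr + 2 * τ * γ * δ) * Tmax) * A1)) := by
      rw [← h5]; ring
    rw [h7]
    have h8 := end_real (ν := ν) (τ := τ) (γ := γ) (δ := δ) (Rr := Rr) hν
      (by positivity) hRr0.le
    have h9 : 0 ≤ Tmax * A1 := by positivity
    have h10 := mul_le_mul_of_nonneg_right h8 h9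
    have h11 := mul_le_mul_of_nonneg_left h10 (Real.exp_pos (τ * (-(3 * ε / 4)))).le
    have h12 : 0 ≤ (1 + τ ^ 2) * (2 * ν + 20 * ν * Rr + 2 * γ * δ) * (Tmax * A1) := by positivity
    have h13 : 0 ≤ Real.exp (τ * (-(3 * ε / 4))) * ((1 + τ ^ 2) *
      (2 * ν + 20 * ν * Rr + 2 * γ * δ) * (Tmax * A1)) := by positivity
    linarith
  have u1 := hend (t₀ + δ) ⟨by linarith, le_rfl⟩ (by rw [add_sub_cancel_left, abs_of_pos hδ])
  have u2 := hend (t₀ - δ) ⟨le_rfl, by linarith⟩ (by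
    rw [show t₀ - δ - t₀ = -δ by ring, abs_neg, abs_of_pos hδ])
  have hA₀e : A₀ ≤ 4 * (C1 ν K Rr * Smax * A1) * ((1 + τ ^ 2) *
      Real.exp (τ * (-(3 * ε / 4)))) := by
    rw [hA₀]
    have e1 : -(2 * τ * m₁) = τ * (-(3 * ε / 4)) := by rw [hm₁]; ring
    rw [e1]
    have h1 : 0 < Real.exp (τ * (-(3 * ε / 4))) := Real.exp_pos _
    have h2 : Real.exp (τ * (-(3 * ε / 4))) ≤ (1 + τ ^ 2) * Real.exp (τ * (-(3 * ε / 4))) :=
      one_add_sq_mul h1.le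
    have h3 : 0 ≤ 4 * (C1 ν K Rr * Smax * A1) := by positivity
    have h4 := mul_le_mul_of_nonneg_left h2 h3
    linarith
  have hlow : 2 * η * ν ^ 2 * sm * β * A2 * τ ^ 3 * Real.exp (τ * (-(5 * ε / 8))) ≤
      2 * η * (ν ^ 2 * τ ^ 3 * sm * (Real.exp (-2 * τ * γ * η ^ 2) *
      (β * Real.exp (2 * τ * (-(ε / 8))) * A2))) := by
    have e1 : Real.exp (τ * (-(5 * ε / 8))) ≤
        Real.exp (-2 * τ * γ * η ^ 2) * Real.exp (2 * τ * (-(ε / 8))) := by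
      rw [← Real.exp_add, Real.exp_le_exp]
      have := mul_le_mul_of_nonneg_left hη5 hτ0.le
      linarith
    have e2 := mul_le_mul_of_nonneg_left e1
      (by positivity : 0 ≤ 2 * η * ν ^ 2 * sm * β * A2 * τ ^ 3)
    linarith
  have hδA := mul_le_mul_of_nonneg_left hA₀e (by positivity : 0 ≤ 2 * δ)
  refine hlow.trans (key.trans ?_)
  linarith

end Run7.h105
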