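import Pool.Agent.Run7.h105.UcpC

/-!
# Parabolic unique continuation in a connected open set
-/

set_option autoImplicit false

namespace Run7.h105

open Set Filter Topology MeasureTheory Pool.Agent.H754R3.PR

lemma R2_comm (x y : P2) : R2 x y = R2 y x := by unfold R2; ring

lemma R2_self (x : P2) : R2 x x = 0 := by unfold R2; ring

lemma R2_cont (x : P2) : Continuous (R2 x) := (R2_contDiff x (n := 0)).continuous

lemma R2_ball {x y : P2} {r : ℝ} (hr : 0 < r) (h : R2 x y < r ^ 2) : dist y x < r := by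
  unfold R2 at h
  rw [Prod.dist_eq, Real.dist_eq, Real.dist_eq, max_lt_iff]
  constructor
  · refine abs_lt_of_sq_lt_sq ?_ hr.le
    nlinarith [mul_self_nonneg (y.2 - x.2)]
  · refine abs_lt_of_sq_lt_sq ?_ hr.le
    nlinarith [mul_self_nonneg (y.1 - x.1)]

lemma R2_tri (x y z : P2) : R2 x z ≤ 2 * R2 x y + 2 * R2 y z := by
  unfold R2
  nlinarith [mul_self_nonneg ((y.1 - x.1) - (z.1 - y.1)), mul_self_nonneg ((y.2 - x.2) - (z.2 - y.2))]

lemma R2_pos {x y : P2} (h : x ≠ y) : 0 < R2 x y := by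
  rcases (R2_nonneg x y).lt_or_eq with h1 | h1
  · exact h1
  · exfalso
    apply h
    unfold R2 at h1
    have h2 : y.1 - x.1 = 0 := by
      nlinarith [mul_self_nonneg (y.1 - x.1), mul_self_nonneg (y.2 - x.2)]
    have h3 : y.2 - x.2 = 0 := by
      nlinarith [mul_self_nonneg (y.1 - x.1), mul_self_nonneg (y.2 - x.2)]
    exact Prod.ext (by linarith) (by linarith)

theorem ucp_global {Ω : Set P2} (hΩ : IsOpen Ω) (hconn : IsPreconnected Ω) {w1 w2 : P3 → ℝ}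
    (hw1 : ContDiff ℝ 3 w1) (hw2 : ContDiff ℝ 3 w2) {ν : ℝ} (hν : 0 < ν) {a b K : ℝ} (hK : 0 ≤ K)
    (hin : ∀ t ∈ Ioo a b, ∀ z ∈ Ω,
      (ν * (d1 (d1 (sl w1 t)) z + d2 (d2 (sl w1 t)) z) - Dt w1 (t, z)) ^ 2 ≤
        K * (sz (sl w1 t) z + sz (sl w2 t) z) ∧
      (ν * (d1 (d1 (sl w2 t)) z + d2 (d2 (sl w2 t)) z) - Dt w2 (t, z)) ^ 2 ≤
        K * (sz (sl w1 t) z + sz (sl w2 t) z))
    {V : Set P2} (hV : IsOpen V) (hVne : V.Nonempty) (hVΩ : V ⊆ Ω)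
    (h0 : ∀ t ∈ Ioo a b, ∀ z ∈ V, w1 (t, z) = 0 ∧ w2 (t, z) = 0) :
    ∀ t ∈ Ioo a b, ∀ z ∈ Ω, w1 (t, z) = 0 ∧ w2 (t, z) = 0 := by
  obtain ⟨Z, hZ⟩ : ∃ Z : Set P2,
      Z = interior {z | ∀ t ∈ Ioo a b, w1 (t, z) = 0 ∧ w2 (t, z) = 0} := ⟨_, rfl⟩
  have hZo : IsOpen Z := by rw [hZ]; exact isOpen_interior
  have hZ0 : ∀ z ∈ Z, ∀ t ∈ Ioo a b, w1 (t, z) = 0 ∧ w2 (t, z) = 0 := fun z hz => by
    rw [hZ] at hz
    exact interior_subset hz
  have hVZ : V ⊆ Z := by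
    rw [hZ]
    exact interior_maximal (fun z hz t ht => h0 t ht z hz) hV
  have key : Ω ⊆ Z := by
    refine hconn.subset_of_closure_inter_subset hZo ?_ ?_
    · obtain ⟨v, hv⟩ := hVne
      exact ⟨v, hVΩ hv, hVZ hv⟩
    rintro x ⟨hxc, hxΩ⟩
    by_contra hxZ
    obtain ⟨δ, hδ, hball⟩ := Metric.isOpen_iff.1 hΩ x hxΩ
    obtain ⟨e, he⟩ : ∃ e : ℝ, e = δ / 4 := ⟨_, rfl⟩
    have he0 : 0 < e := by rw [he]; positivity
    obtain ⟨z, hz1, hzZ⟩ := mem_closure_iff_nhds.1 hxc {z | R2 x z < e ^ 2}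
      ((isOpen_lt (R2_cont x) continuous_const).mem_nhds (by
        rw [Set.mem_ofPred_eq, R2_self]; positivity))
    rw [Set.mem_ofPred_eq] at hz1
    have hKc : IsCompact ({z' | R2 z z' ≤ e ^ 2} ∩ Zᶜ) := by
      refine Metric.isCompact_of_isClosed_isBounded
        ((isClosed_le (R2_cont z) continuous_const).inter hZo.isClosed_compl) ?_
      refine (Metric.isBounded_ball (x := z) (r := 2 * e)).subset ?_
      rintro y ⟨hy, -⟩
      rw [Set.mem_ofPred_eq] at hy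
      exact R2_ball (by positivity) (by nlinarith)
    have hxK : x ∈ {z' | R2 z z' ≤ e ^ 2} ∩ Zᶜ := by
      refine ⟨?_, hxZ⟩
      rw [Set.mem_ofPred_eq, R2_comm]
      exact hz1.le
    obtain ⟨x₀, hx₀, hmin⟩ := hKc.exists_isMinOn ⟨x, hxK⟩ (R2_cont z).continuousOn
    obtain ⟨hx₀1, hx₀2⟩ := hx₀
    rw [Set.mem_ofPred_eq] at hx₀1
    have hne : z ≠ x₀ := fun h => hx₀2 (h ▸ hzZ)
    obtain ⟨d, hd⟩ : ∃ d : ℝ, d = Real.sqrt (R2 z x₀) := ⟨_, rfl⟩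
    have hd0 : 0 < d := by rw [hd]; exact Real.sqrt_pos.2 (R2_pos hne)
    have hd2 : R2 z x₀ = d ^ 2 := by rw [hd, Real.sq_sqrt (R2_nonneg _ _)]
    have hzero : ∀ t ∈ Ioo a b, ∀ z', R2 z z' < d ^ 2 → w1 (t, z') = 0 ∧ w2 (t, z') = 0 := by
      intro t ht z' hz'
      have h1 : z' ∈ Z := by
        by_contra hcon
        have h2 : z' ∈ {z' | R2 z z' ≤ e ^ 2} ∩ Zᶜ := by
          refine ⟨?_, hcon⟩
          rw [Set.mem_ofPred_eq]
          linarith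
        have h3 : R2 z x₀ ≤ R2 z z' := hmin h2
        linarith
      exact hZ0 z' h1 t ht
    have hx₀Ω : x₀ ∈ Ω := by
      apply hball
      have h1 := R2_tri x z x₀
      exact R2_ball hδ (by rw [he] at hz1 hx₀1; nlinarith)
    obtain ⟨r, hr, hballr⟩ := Metric.isOpen_iff.1 hΩ x₀ hx₀Ω
    obtain ⟨ε, hε⟩ : ∃ ε : ℝ, ε = min (d ^ 2 / 128) (r ^ 2 / 4) := ⟨_, rfl⟩
    have hε0 : 0 < ε := by rw [hε]; positivity
    obtain ⟨O, hO⟩ : ∃ O : P2, O = ((z.1 + x₀.1) / 2, (z.2 + x₀.2) / 2) := ⟨_, rfl⟩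
    have hOx : R2 O x₀ = d ^ 2 / 4 := by
      rw [hO, mid_id, R2_self, hd2]; ring
    apply hx₀2
    rw [hZ, mem_interior]
    refine ⟨{z' | R2 x₀ z' < r ^ 2} ∩ {z' | |R2 O z' - d ^ 2 / 4| < ε / 8}, ?_, ?_, ?_⟩
    · rintro z' ⟨h1, h2⟩ t ht
      exact ucp_ball hw1 hw2 hν hd0 hd2 hO hr hε0 (by rw [hε]; exact min_le_left _ _)
        (by rw [hε]; exact min_le_right _ _) hK hzero
        (fun t ht y hy => hin t ht y (hballr (R2_ball hr hy))) ht h1 h2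
    · exact (isOpen_lt (R2_cont x₀) continuous_const).inter
        (isOpen_lt ((R2_cont O).sub continuous_const).abs continuous_const)
    · refine ⟨?_, ?_⟩
      · rw [Set.mem_ofPred_eq, R2_self]; positivity
      · rw [Set.mem_ofPred_eq, hOx, sub_self, abs_zero]; positivity
  intro t ht z hz
  exact hZ0 z (key hz) t ht

end Run7.h105
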