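import Pool.Agent.Run7.h105.LocD
import Pool.Agent.Run7.h105.Geo
import Pool.Agent.H754R3.PR.Curv

/-!
# Two complete bounded trajectories with the same pressure coincide (analytic case)
-/

set_option autoImplicit false

namespace Run7.h105

open Set Filter Topology MeasureTheory Pool.Agent.H754R3.PR

/-- tangential derivative of a function vanishing on the frontier -/
lemma tang_zero {Ω U : Set P2} (hU : IsOpen U) {h : ℝ → ℝ} (hh : Differentiable ℝ h)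
    (hloc : ∀ p ∈ U, p ∈ Ω ↔ h p.1 < p.2) {F : P2 → ℝ} (hF : Differentiable ℝ F)
    (h0 : ∀ x ∈ frontier Ω, F x = 0) {x : ℝ} (hx : ((x, h x) : P2) ∈ U) :
    d1 F (x, h x) + deriv h x * d2 F (x, h x) = 0 := by
  have hgraph : HasDerivAt (fun s : ℝ => ((s, h s) : P2)) ((1 : ℝ), deriv h x) x :=
    (hasDerivAt_id x).prodMk (hh x).hasDerivAt
  have h1 : HasDerivAt (fun s => F (s, h s)) (fderiv ℝ F (x, h x) ((1 : ℝ), deriv h x)) x :=
    (hF (x, h x)).hasFDerivAt.comp_hasDerivAt x hgraph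
  rw [fderiv_eq_of_d] at h1
  simp only [one_mul] at h1
  have hc : Continuous fun s : ℝ => ((s, h s) : P2) := by
    have := hh.continuous
    fun_prop
  have h2 : (fun s => F (s, h s)) =ᶠ[𝓝 x] fun _ => 0 := by
    have : (fun s : ℝ => ((s, h s) : P2)) ⁻¹' U ∈ 𝓝 x := (hU.preimage hc).mem_nhds hx
    filter_upwards [this] with s hs
    exact h0 _ (graph_frontier hU hloc hs)
  have h3 := (hasDerivAt_const x (0 : ℝ)).congr_of_eventuallyEq h2
  exact h1.unique h3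

/-- Poincaré inequality -/
lemma poincare {Ω : Set P2} (hΩ : IsOpen Ω) (hb : Bornology.IsBounded Ω) :
    ∃ C > 0, ∀ f : P2 → ℝ, ContDiff ℝ 1 f → (∀ x ∈ frontier Ω, f x = 0) →
      ∫ x in Ω, f x ^ 2 ≤ C * ∫ x in Ω, d1 f x ^ 2 := by
  obtain ⟨R, hR⟩ := hb.isCompact_closure.exists_bound_of_continuousOn
    (f := fun x : P2 => x.1) (by fun_prop)
  refine ⟨4 * (|R| + 1) ^ 2, by positivity, fun f hf h0 => ?_⟩
  have hint : ∀ {g : P2 → ℝ}, Continuous g → IntegrableOn g Ω := fun hg =>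
    (hg.continuousOn.integrableOn_compact hb.isCompact_closure).mono_set subset_closure
  have hfd : Differentiable ℝ f := hf.differentiable (by norm_num)
  have c1 : Continuous (d1 f) := (d1_contDiff (m := 0) (n := 1) hf (by norm_num)).continuous
  have c0 := hf.continuous
  have h1 := gauss_d1 hΩ hb (V := fun x => x.1 * (f x * f x)) (by fun_prop)
    (fun x hx => by simp [h0 x hx])
  have h2 : ∫ x in Ω, d1 (fun x => x.1 * (f x * f x)) x =
      ∫ x in Ω, (f x ^ 2 + 2 * (x.1 * f x * d1 f x)) := by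
    congr 1
    ext x
    have g1 := (Gr.fst (x := x)).mul ((Gr.of (hfd x)).mul (Gr.of (hfd x)))
    rw [g1.d1]
    ring
  rw [h2] at h1
  have h3 : ∫ x in Ω, (1 / 2 * f x ^ 2 - 2 * (|R| + 1) ^ 2 * d1 f x ^ 2) ≤
      ∫ x in Ω, (f x ^ 2 + 2 * (x.1 * f x * d1 f x)) := by
    refine setIntegral_mono_on (hint (by fun_prop)) (hint (by fun_prop)) hΩ.measurableSet ?_
    intro x hx
    have h4 := hR x (subset_closure hx)
    rw [Real.norm_eq_abs] at h4
    have h5 : x.1 ^ 2 ≤ (|R| + 1) ^ 2 := by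
      rw [← sq_abs x.1]
      have : |x.1| ≤ |R| + 1 := by linarith [le_abs_self R]
      gcongr
    have h6 : x.1 ^ 2 * d1 f x ^ 2 ≤ (|R| + 1) ^ 2 * d1 f x ^ 2 := by gcongr
    nlinarith [sq_nonneg (f x + 2 * (x.1 * d1 f x))]
  rw [h1, integral_sub (hint (by fun_prop)) (hint (by fun_prop)), integral_const_mul,
    integral_const_mul] at h3
  linarith

/-- the mean vanishes or the difference vanishes, at each time -/
theorem dichotomy {Ω : Set P2} (hΩ : IsOpen Ω) (hconn : IsPreconnected Ω)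
    (hb : Bornology.IsBounded Ω) (hne : Ω.Nonempty) (hbd : BdryClass 2 Ω)
    {ν : ℝ} (hν : 0 < ν) {w1 w2 a1 a2 : P3 → ℝ}
    (hw1 : ContDiff ℝ 3 w1) (hw2 : ContDiff ℝ 3 w2) (ha1 : ContDiff ℝ 3 a1) (ha2 : ContDiff ℝ 3 a2)
    (hdw : ∀ t, ∀ x ∈ Ω, d1 (sl w1 t) x + d2 (sl w2 t) x = 0)
    (hda : ∀ t, ∀ x ∈ Ω, d1 (sl a1 t) x + d2 (sl a2 t) x = 0)
    (hbw : ∀ t, ∀ x ∈ frontier Ω, w1 (t, x) = 0 ∧ w2 (t, x) = 0)
    (hba : ∀ t, ∀ x ∈ frontier Ω, a1 (t, x) = 0 ∧ a2 (t, x) = 0)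
    (hm1 : ∀ t, ∀ x ∈ Ω, ν * (d1 (d1 (sl w1 t)) x + d2 (d2 (sl w1 t)) x) = Dt w1 (t, x) +
      (a1 (t, x) * d1 (sl w1 t) x + a2 (t, x) * d2 (sl w1 t) x + w1 (t, x) * d1 (sl a1 t) x
        + w2 (t, x) * d2 (sl a1 t) x))
    (hm2 : ∀ t, ∀ x ∈ Ω, ν * (d1 (d1 (sl w2 t)) x + d2 (d2 (sl w2 t)) x) = Dt w2 (t, x) +
      (a1 (t, x) * d1 (sl w2 t) x + a2 (t, x) * d2 (sl w2 t) x + w1 (t, x) * d1 (sl a2 t) x
        + w2 (t, x) * d2 (sl a2 t) x))
    (haw1 : ∀ t, AnalyticOnNhd ℝ (sl w1 t) Ω) (haw2 : ∀ t, AnalyticOnNhd ℝ (sl w2 t) Ω)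
    (haa1 : ∀ t, AnalyticOnNhd ℝ (sl a1 t) Ω) (haa2 : ∀ t, AnalyticOnNhd ℝ (sl a2 t) Ω) :
    ∀ t, (∀ x ∈ Ω, a1 (t, x) = 0 ∧ a2 (t, x) = 0) ∨ (∀ x ∈ Ω, w1 (t, x) = 0 ∧ w2 (t, x) = 0) := by
  -- analytic continuation
  have hcont : ∀ {f g : P2 → ℝ}, AnalyticOnNhd ℝ f Ω → AnalyticOnNhd ℝ g Ω → ∀ V : Set P2,
      IsOpen V → V.Nonempty → V ⊆ Ω → (∀ x ∈ V, f x = 0 ∧ g x = 0) →
      ∀ x ∈ Ω, f x = 0 ∧ g x = 0 := by
    intro f g hf hg V hV hVne hVΩ h0 x hx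
    obtain ⟨y, hy⟩ := hVne
    have e1 : f =ᶠ[𝓝 y] 0 := by
      filter_upwards [hV.mem_nhds hy] with z hz using (h0 z hz).1
    have e2 : g =ᶠ[𝓝 y] 0 := by
      filter_upwards [hV.mem_nhds hy] with z hz using (h0 z hz).2
    exact ⟨hf.eqOn_zero_of_preconnected_of_eventuallyEq_zero hconn (hVΩ hy) e1 hx,
      hg.eqOn_zero_of_preconnected_of_eventuallyEq_zero hconn (hVΩ hy) e2 hx⟩
  obtain ⟨z₁, O, U, h, hU, hzU, hz₁, hh, hloc, hz₁h, hcv, hexp⟩ := exists_exposed hΩ hb hne hbd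
  -- shrink the neighbourhood so that the boundary is strictly convex
  have hkc : Continuous (deriv (deriv h)) := by
    have h2 : ContDiff ℝ (1 + 1) h := by norm_num; exact hh
    have h3 : ContDiff ℝ 1 (deriv h) := ((contDiff_succ_iff_deriv (n := 1)).1 h2).2.2
    have h4 : ContDiff ℝ (0 + 1) (deriv h) := by norm_num; exact h3
    exact ((contDiff_succ_iff_deriv (n := 0)).1 h4).2.2.continuous
  obtain ⟨U', hU'⟩ : ∃ U' : Set P2, U' = U ∩ {z | 0 < deriv (deriv h) z.1} := ⟨_, rfl⟩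
  have hU'o : IsOpen U' := by
    rw [hU']; exact hU.inter (isOpen_lt continuous_const (hkc.comp continuous_fst))
  have hzU' : z₁ ∈ U' := by rw [hU']; exact ⟨hzU, hcv⟩
  have S3 : ∀ {F : P3 → ℝ}, ContDiff ℝ 3 F → ∀ t, ContDiff ℝ 3 (sl F t) := fun hF t =>
    sl_contDiff (n := 3) hF t
  have S2 : ∀ {F : P3 → ℝ}, ContDiff ℝ 3 F → ∀ t, ContDiff ℝ 2 (sl F t) := fun hF t =>
    (S3 hF t).of_le (by norm_num)
  have D : ∀ {F : P3 → ℝ}, ContDiff ℝ 3 F → ∀ t, Differentiable ℝ (sl F t) := fun hF t =>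
    (S3 hF t).differentiable (by norm_num)
  have K2 : ∀ {F : P3 → ℝ}, ContDiff ℝ 3 F → ∀ t, ContDiff ℝ 2 (sl (Dt F) t) := fun hF t =>
    sl_contDiff (n := 2) (Dt_contDiff (n := 3) (m := 2) hF (by norm_num)) t
  -- divergence of the time derivative
  have hdk : ∀ t, ∀ x ∈ Ω, d1 (sl (Dt w1) t) x + d2 (sl (Dt w2) t) x = 0 := by
    intro t x hx
    have h1 := (hasDerivAt_d1 (hw1.of_le (by norm_num)) t x).add
      (hasDerivAt_d2 (hw2.of_le (by norm_num)) t x)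
    have h2 : ((fun s => d1 (sl w1 s) x) + fun s => d2 (sl w2 s) x) = fun _ => (0 : ℝ) := by
      ext s
      exact hdw s x hx
    rw [h2] at h1
    exact h1.unique (hasDerivAt_const t (0 : ℝ))
  have htr := fun t => mixed_det hΩ (K2 hw1 t) (K2 hw2 t) (S3 hw1 t) (S3 hw2 t) (S3 ha1 t)
    (S3 ha2 t) (hdw t) (hda t) (hdk t) (hm1 t) (hm2 t)
  -- where the mean does not vanish, the gradient of the difference vanishes on the arc
  have hgrad : ∀ t, ¬ (∀ x ∈ Ω, a1 (t, x) = 0 ∧ a2 (t, x) = 0) → ∀ z ∈ frontier Ω, z ∈ U' →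
      (sl w1 t z = 0 ∧ d1 (sl w1 t) z = 0 ∧ d2 (sl w1 t) z = 0) ∧
      (sl w2 t z = 0 ∧ d1 (sl w2 t) z = 0 ∧ d2 (sl w2 t) z = 0) := by
    intro t hnot z hz hzU'
    rw [hU'] at hzU'
    obtain ⟨hzU, hzc⟩ := hzU'
    have hzh : z.2 = h z.1 := by
      have hhc := hh.continuous
      have h2 := level_zero hΩ hU (φ := fun p => p.2 - h p.1) (by fun_prop)
        (fun p hp => by rw [hloc p hp, sub_pos]) hzU hz
      linarith
    have hze : z = (z.1, h z.1) := by rw [← hzh]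
    have hmem : ((z.1, h z.1) : P2) ∈ U := by rw [← hze]; exact hzU
    have h2z : d2 (sl w1 t) z = 0 := by
      by_contra hne2
      obtain ⟨V, hV, hVne, hVΩ, hV0⟩ := wall (S2 hw1 t) (S2 hw2 t)
        ((S3 ha1 t).of_le (by norm_num)) ((S3 ha2 t).of_le (by norm_num)) hU hh hloc hΩ
        hmem hzc (hdw t) (hda t) (htr t) (hbw t) (hba t) (by rw [← hze]; exact hne2)
      exact hnot (hcont (haa1 t) (haa2 t) V hV hVne hVΩ hV0)
    have hhd : Differentiable ℝ h := hh.differentiable (by norm_num)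
    have t1 := tang_zero hU hhd hloc (D hw1 t) (fun x hx => (hbw t x hx).1) hmem
    have t2 := tang_zero hU hhd hloc (D hw2 t) (fun x hx => (hbw t x hx).2) hmem
    rw [← hze] at t1 t2
    have c1 : Continuous (d1 (sl w1 t)) :=
      (d1_contDiff (m := 1) (n := 2) (S2 hw1 t) (by norm_num)).continuous
    have c2 : Continuous (d2 (sl w2 t)) :=
      (d2_contDiff (m := 1) (n := 2) (S2 hw2 t) (by norm_num)).continuous
    have h3 := zero_on_frontier (c1.add c2) (hdw t) z hz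
    have h1z : d1 (sl w1 t) z = 0 := by rw [h2z, mul_zero, add_zero] at t1; exact t1
    have h4z : d2 (sl w2 t) z = 0 := by
      simp only [Pi.add_apply] at h3
      rw [h1z, zero_add] at h3; exact h3
    have h5z : d1 (sl w2 t) z = 0 := by rw [h4z, mul_zero, add_zero] at t2; exact t2
    exact ⟨⟨(hbw t z hz).1, h1z, h2z⟩, ⟨(hbw t z hz).2, h5z, h4z⟩⟩
  intro t₀
  by_cases h0 : ∀ x ∈ Ω, a1 (t₀, x) = 0 ∧ a2 (t₀, x) = 0
  · exact Or.inl h0
  right
  -- a time interval on which the mean does not vanish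
  obtain ⟨ε, hε, hT⟩ : ∃ ε > 0, ∀ t, |t - t₀| ≤ ε → ¬ (∀ x ∈ Ω, a1 (t, x) = 0 ∧ a2 (t, x) = 0) := by
    have h1 : ∃ x ∈ Ω, a1 (t₀, x) ^ 2 + a2 (t₀, x) ^ 2 ≠ 0 := by
      by_contra hcon
      push Not at hcon
      refine h0 fun x hx => ?_
      have h2 := hcon x hx
      have h3 : a1 (t₀, x) ^ 2 = 0 := by nlinarith [sq_nonneg (a1 (t₀, x)), sq_nonneg (a2 (t₀, x))]
      have h4 : a2 (t₀, x) ^ 2 = 0 := by nlinarith [sq_nonneg (a1 (t₀, x)), sq_nonneg (a2 (t₀, x))]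
      exact ⟨by simpa using h3, by simpa using h4⟩
    obtain ⟨x, hx, h2⟩ := h1
    have hc : Continuous fun t : ℝ => a1 (t, x) ^ 2 + a2 (t, x) ^ 2 := by
      have k1 := ha1.continuous
      have k2 := ha2.continuous
      fun_prop
    have h3 : ∀ᶠ t in 𝓝 t₀, a1 (t, x) ^ 2 + a2 (t, x) ^ 2 ≠ 0 :=
      hc.continuousAt.eventually (isOpen_ne.mem_nhds h2)
    obtain ⟨ε, hε, h4⟩ := Metric.eventually_nhds_iff.1 h3
    refine ⟨ε / 2, by positivity, fun t ht hall => ?_⟩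
    have h5 := @h4 t (by rw [Real.dist_eq]; linarith)
    obtain ⟨e1, e2⟩ := hall x hx
    apply h5
    rw [e1, e2]; simp
  have hK : IsCompact (Icc (t₀ - ε) (t₀ + ε) ×ˢ closure Ω) :=
    isCompact_Icc.prod hb.isCompact_closure
  obtain ⟨M1, hM1⟩ := hK.exists_bound_of_continuousOn
    (sz_cont (ha1.of_le (by norm_num))).continuousOn
  obtain ⟨M2, hM2⟩ := hK.exists_bound_of_continuousOn
    (sz_cont (ha2.of_le (by norm_num))).continuousOn
  obtain ⟨M, hM⟩ : ∃ M : ℝ, M = |M1| + |M2| := ⟨_, rfl⟩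
  have hM0 : 0 ≤ M := by rw [hM]; positivity
  have hin : ∀ t ∈ Ioo (t₀ - ε) (t₀ + ε), ∀ z ∈ Ω,
      sz (sl a1 t) z ≤ M ∧ sz (sl a2 t) z ≤ M := by
    intro t ht z hz
    have hm : ((t, z) : P3) ∈ Icc (t₀ - ε) (t₀ + ε) ×ˢ closure Ω :=
      ⟨⟨ht.1.le, ht.2.le⟩, subset_closure hz⟩
    have h1 := (le_abs_self _).trans (hM1 _ hm)
    have h2 := (le_abs_self _).trans (hM2 _ hm)
    simp only at h1 h2
    rw [hM]
    constructor
    · linarith [le_abs_self M1, abs_nonneg M2]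
    · linarith [le_abs_self M2, abs_nonneg M1]
  have halg : ∀ {a b x y p q r s S T : ℝ}, a ^ 2 ≤ T → b ^ 2 ≤ T → x ^ 2 + y ^ 2 ≤ T →
      p ^ 2 + q ^ 2 + r ^ 2 + s ^ 2 ≤ S → 0 ≤ T →
      (a * p + b * q + r * x + s * y) ^ 2 ≤ 4 * T * S := by
    intro a b x y p q r s S T h1 h2 h3 h4 h5
    have k1 : (a * p + b * q + r * x + s * y) ^ 2 ≤
        4 * ((a * p) ^ 2 + (b * q) ^ 2 + (r * x) ^ 2 + (s * y) ^ 2) := four_sq _ _ _ _
    have k2 : (a * p) ^ 2 ≤ T * p ^ 2 := by rw [mul_pow]; gcongr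
    have k3 : (b * q) ^ 2 ≤ T * q ^ 2 := by rw [mul_pow]; gcongr
    have k4 : (r * x) ^ 2 ≤ T * r ^ 2 := by
      have : x ^ 2 ≤ T := by nlinarith [sq_nonneg y]
      rw [mul_pow, mul_comm]; gcongr
    have k5 : (s * y) ^ 2 ≤ T * s ^ 2 := by
      have : y ^ 2 ≤ T := by nlinarith [sq_nonneg x]
      rw [mul_pow, mul_comm]; gcongr
    have k6 := mul_le_mul_of_nonneg_left h4 h5
    nlinarith
  have hexp' : ∀ z ∈ closure Ω, R2 z₁ z + R2 O z ≤ R2 O z₁ := by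
    intro z hz
    have := hexp z hz
    unfold R2
    nlinarith
  obtain ⟨V, hV, hVne, hVΩ, hV0⟩ := loc_ucp hΩ hb hne hw1 hw2 hν (z₁ := z₁) (O := O)
    hz₁.1 hexp' hU'o hzU' (a := t₀ - ε) (b := t₀ + ε) (K := 4 * M) (by positivity)
    (fun t ht z hz hzU => hgrad t (hT t (by
      rw [abs_le]; constructor <;> linarith [ht.1, ht.2])) z hz hzU)
    (fun t ht z hz => by
      obtain ⟨b1, b2⟩ := hin t ht z hz
      have e1 := hm1 t z hz
      have e2 := hm2 t z hz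
      unfold sz at b1 b2 ⊢
      have q1 : sl a1 t z = a1 (t, z) := rfl
      have q2 : sl a2 t z = a2 (t, z) := rfl
      have q3 : sl w1 t z = w1 (t, z) := rfl
      have q4 : sl w2 t z = w2 (t, z) := rfl
      rw [q1] at b1
      rw [q2] at b2
      rw [q3, q4]
      constructor
      · have := halg (a := a1 (t, z)) (b := a2 (t, z)) (x := d1 (sl a1 t) z)
          (y := d2 (sl a1 t) z) (p := d1 (sl w1 t) z) (q := d2 (sl w1 t) z) (r := w1 (t, z))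
          (s := w2 (t, z)) (S := w1 (t, z) ^ 2 + d1 (sl w1 t) z ^ 2 + d2 (sl w1 t) z ^ 2
            + (w2 (t, z) ^ 2 + d1 (sl w2 t) z ^ 2 + d2 (sl w2 t) z ^ 2)) (T := M)
          (by nlinarith [sq_nonneg (d1 (sl a1 t) z), sq_nonneg (d2 (sl a1 t) z)])
          (by nlinarith [sq_nonneg (d1 (sl a2 t) z), sq_nonneg (d2 (sl a2 t) z)])
          (by nlinarith [sq_nonneg (a1 (t, z))])
          (by nlinarith [sq_nonneg (d1 (sl w2 t) z), sq_nonneg (d2 (sl w2 t) z)]) hM0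
        rw [e1]
        refine le_trans (le_of_eq ?_) this
        ring
      · have := halg (a := a1 (t, z)) (b := a2 (t, z)) (x := d1 (sl a2 t) z)
          (y := d2 (sl a2 t) z) (p := d1 (sl w2 t) z) (q := d2 (sl w2 t) z) (r := w1 (t, z))
          (s := w2 (t, z)) (S := w1 (t, z) ^ 2 + d1 (sl w1 t) z ^ 2 + d2 (sl w1 t) z ^ 2
            + (w2 (t, z) ^ 2 + d1 (sl w2 t) z ^ 2 + d2 (sl w2 t) z ^ 2)) (T := M)
          (by nlinarith [sq_nonneg (d1 (sl a1 t) z), sq_nonneg (d2 (sl a1 t) z)])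
          (by nlinarith [sq_nonneg (d1 (sl a2 t) z), sq_nonneg (d2 (sl a2 t) z)])
          (by nlinarith [sq_nonneg (a2 (t, z))])
          (by nlinarith [sq_nonneg (d1 (sl w1 t) z), sq_nonneg (d2 (sl w1 t) z)]) hM0
        rw [e2]
        refine le_trans (le_of_eq ?_) this
        ring) (t₀ := t₀) ⟨by linarith, by linarith⟩
  exact hcont (haw1 t₀) (haw2 t₀) V hV hVne hVΩ hV0

end Run7.h105
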