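import Pool.Agent.Run7.h105.Hyp

/-!
# The mean field vanishes near a curved wall point where the difference has non-zero gradient
-/

set_option autoImplicit false

namespace Run7.h105

open Set Filter Topology MeasureTheory Pool.Agent.H754R3.PR

lemma wall_alg {σ h' h'' m1 m2 m1x m1y m2x m2y w1x w1y w2x w2y w1xx w1xy w1yy w2xy : ℝ}
    (h1 : m2y = -m1x) (h2 : w2y = -w1x) (h3 : w2xy = -w1xx)
    (tr : m1x * w1x + m1y * w2x + m2x * w1y + m2y * w2y = 0) :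
    (-σ * w1y) * (m2x + h' * m2y - h'' * m1 - h' * (m1x + h' * m1y))
    + (-σ * (w1xy + h' * w1yy)) * (m2 - h' * m1)
    + (σ * (w1x + h' * w1y)) * (-(m1x + h' * m1y))
    + (σ * (w1xx + h' * w1xy + (h'' * w1y + h' * (w1xy + h' * w1yy)))) * (-m1)
    + (σ * (w1x + h' * w1y)) * (m2y - h' * m1y)
    + (σ * (w1xy + h' * w1yy)) * (m2 - h' * m1)
    - (σ * (-w2x + 2 * h' * w1x + h' * h' * w1y)) * (-m1y)
    - (σ * (-w2xy + 2 * h' * w1xy + h' * h' * w1yy)) * (-m1) = 0 := by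
  subst h1 h2 h3
  linear_combination (-σ) * tr

/-- points of the graph lie on the frontier -/
lemma graph_frontier {Ω U : Set P2} (hU : IsOpen U) {h : ℝ → ℝ}
    (hloc : ∀ p ∈ U, p ∈ Ω ↔ h p.1 < p.2) {x : ℝ} (hx : ((x, h x) : P2) ∈ U) :
    ((x, h x) : P2) ∈ frontier Ω := by
  constructor
  · rw [Metric.mem_closure_iff]
    intro ε hε
    obtain ⟨δ, hδ, hball⟩ := Metric.isOpen_iff.1 hU _ hx
    have h0 : 0 < min ε δ / 2 := by positivity
    have h1 : dist ((x, h x + min ε δ / 2) : P2) (x, h x) = min ε δ / 2 := by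
      rw [Prod.dist_eq, dist_self, Real.dist_eq]
      simp only [add_sub_cancel_left]
      rw [abs_of_pos h0]
      exact max_eq_right h0.le
    refine ⟨(x, h x + min ε δ / 2), ?_, ?_⟩
    · have h2 : ((x, h x + min ε δ / 2) : P2) ∈ U := by
        apply hball
        rw [Metric.mem_ball, h1]
        linarith [min_le_right ε δ]
      rw [hloc _ h2]
      simp only
      linarith
    · rw [dist_comm, h1]
      linarith [min_le_left ε δ]
  · intro hi
    have := (hloc _ hx).1 (interior_subset hi)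
    simp only at this
    exact lt_irrefl _ this

theorem wall {Ω : Set P2} {w1 w2 m1 m2 : P2 → ℝ} (hw1 : ContDiff ℝ 2 w1)
    (hw2 : ContDiff ℝ 2 w2) (hm1 : ContDiff ℝ 1 m1) (hm2 : ContDiff ℝ 1 m2)
    {U : Set P2} (hU : IsOpen U) {h : ℝ → ℝ} (hh : ContDiff ℝ 2 h)
    (hloc : ∀ p ∈ U, p ∈ Ω ↔ h p.1 < p.2) (hΩ : IsOpen Ω)
    {x₁ : ℝ} (hx : ((x₁, h x₁) : P2) ∈ U) (hc : 0 < deriv (deriv h) x₁)
    (divw : ∀ x ∈ Ω, d1 w1 x + d2 w2 x = 0) (divm : ∀ x ∈ Ω, d1 m1 x + d2 m2 x = 0)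
    (tr : ∀ x ∈ Ω, d1 m1 x * d1 w1 x + d2 m1 x * d1 w2 x + d1 m2 x * d2 w1 x
      + d2 m2 x * d2 w2 x = 0)
    (bw : ∀ x ∈ frontier Ω, w1 x = 0 ∧ w2 x = 0) (bm : ∀ x ∈ frontier Ω, m1 x = 0 ∧ m2 x = 0)
    (hne : d2 w1 (x₁, h x₁) ≠ 0) :
    ∃ V, IsOpen V ∧ V.Nonempty ∧ V ⊆ Ω ∧ ∀ x ∈ V, m1 x = 0 ∧ m2 x = 0 := by
  have D : ∀ {F : P2 → ℝ}, ContDiff ℝ 1 F → Differentiable ℝ F := fun h =>
    h.differentiable (by norm_num)
  have dw1x : ContDiff ℝ 1 (d1 w1) := d1_contDiff (m := 1) (n := 2) hw1 (by norm_num)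
  have dw1y : ContDiff ℝ 1 (d2 w1) := d2_contDiff (m := 1) (n := 2) hw1 (by norm_num)
  have dw2x : ContDiff ℝ 1 (d1 w2) := d1_contDiff (m := 1) (n := 2) hw2 (by norm_num)
  have dw2y : ContDiff ℝ 1 (d2 w2) := d2_contDiff (m := 1) (n := 2) hw2 (by norm_num)
  obtain ⟨k, hk⟩ : ∃ k : ℝ → ℝ, k = deriv h := ⟨_, rfl⟩
  have hh1 : ∀ x, HasDerivAt h (k x) x := fun x => by
    rw [hk]; exact ((hh.differentiable (by norm_num)) x).hasDerivAt
  have hkc : ContDiff ℝ 1 k := by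
    rw [hk]
    have h2 : ContDiff ℝ (1 + 1) h := by norm_num; exact hh
    exact ((contDiff_succ_iff_deriv (n := 1)).1 h2).2.2
  have hk1 : ∀ x, HasDerivAt k (deriv k x) x := fun x =>
    ((hkc.differentiable (by norm_num)) x).hasDerivAt
  have hh1c : ContDiff ℝ 1 h := hh.of_le (by norm_num)
  -- sign
  obtain ⟨σ, hσ⟩ : ∃ σ : ℝ, 0 < -σ * d2 w1 (x₁, h x₁) := by
    exact ⟨-d2 w1 (x₁, h x₁), by rw [neg_neg]; exact mul_self_pos.2 hne⟩
  -- the size of the neighbourhood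
  obtain ⟨r₀, hr₀, hr⟩ : ∃ r₀ > 0, ∀ x ξ : ℝ, |x - x₁| < r₀ → 0 ≤ ξ → ξ < r₀ →
      ((x, h x + ξ) : P2) ∈ U := by
    have hcont : Continuous fun z : P2 => ((z.1, h z.1 + z.2) : P2) := by
      have := hh.continuous
      fun_prop
    have h1 : ((x₁, (0 : ℝ)) : P2) ∈ (fun z : P2 => ((z.1, h z.1 + z.2) : P2)) ⁻¹' U := by
      simpa using hx
    obtain ⟨δ, hδ, hb⟩ := Metric.isOpen_iff.1 (hU.preimage hcont) _ h1
    refine ⟨δ, hδ, fun x ξ h2 h3 h4 => ?_⟩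
    have h5 : ((x, ξ) : P2) ∈ Metric.ball ((x₁, (0 : ℝ)) : P2) δ := by
      rw [Metric.mem_ball, Prod.dist_eq, max_lt_iff, Real.dist_eq, Real.dist_eq]
      simp only [sub_zero]
      exact ⟨h2, by rwa [abs_of_nonneg h3]⟩
    exact hb h5
  have hfr : ∀ x, |x - x₁| < r₀ → ((x, h x) : P2) ∈ frontier Ω := by
    intro x hx'
    refine graph_frontier hU hloc ?_
    simpa using hr x 0 hx' le_rfl hr₀
  have hin : ∀ x ξ : ℝ, |x - x₁| < r₀ → 0 < ξ → ξ < r₀ → ((x, h x + ξ) : P2) ∈ Ω := by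
    intro x ξ h1 h2 h3
    rw [hloc _ (hr x ξ h1 h2.le h3)]
    simp only
    linarith
  -- the relations at the wall
  have hGc : ContDiff ℝ 1 (fun z : P2 => ((z.1, h z.1 + z.2) : P2)) :=
    contDiff_fst.prodMk ((hh1c.comp contDiff_fst).add contDiff_snd)
  have hkc1 : ContDiff ℝ 1 (fun z : P2 => k z.1) := hkc.comp contDiff_fst
  have hgraph : ∀ x, HasDerivAt (fun s : ℝ => ((s, h s) : P2)) ((1 : ℝ), k x) x := fun x =>
    (hasDerivAt_id x).prodMk (hh1 x)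
  have htan : ∀ {F : P2 → ℝ}, Differentiable ℝ F → ∀ x, HasDerivAt (fun s => F (s, h s))
      (d1 F (x, h x) + k x * d2 F (x, h x)) x := by
    intro F hF x
    have h1 : HasDerivAt (fun s => F (s, h s)) (fderiv ℝ F (x, h x) ((1 : ℝ), k x)) x :=
      (hF (x, h x)).hasFDerivAt.comp_hasDerivAt x (hgraph x)
    rw [fderiv_eq_of_d] at h1
    refine h1.congr_deriv ?_
    simp only [one_mul]
  have hzero : ∀ {F : P2 → ℝ}, Differentiable ℝ F → (∀ x ∈ frontier Ω, F x = 0) →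
      ∀ x, |x - x₁| < r₀ → d1 F (x, h x) + k x * d2 F (x, h x) = 0 := by
    intro F hF h0 x hx'
    have h1 := htan hF x
    have h2 : (fun s => F (s, h s)) =ᶠ[𝓝 x] fun _ => 0 := by
      have : {s : ℝ | |s - x₁| < r₀} ∈ 𝓝 x :=
        (isOpen_lt (by fun_prop) continuous_const).mem_nhds hx'
      filter_upwards [this] with s hs
      exact h0 _ (hfr s hs)
    have h3 := (hasDerivAt_const x (0 : ℝ)).congr_of_eventuallyEq h2
    exact h1.unique h3
  have divwb : ∀ x ∈ frontier Ω, d1 w1 x + d2 w2 x = 0 :=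
    zero_on_frontier (dw1x.continuous.add dw2y.continuous) divw
  have hxxΩ : ∀ x ∈ Ω, d1 (d1 w1) x + d2 (d1 w2) x = 0 := by
    intro x hx'
    rw [← d_comm hw2]
    have h1 : (fun y => d1 w1 y + d2 w2 y) =ᶠ[𝓝 x] fun _ => 0 := by
      filter_upwards [hΩ.mem_nhds hx'] with y hy using divw y hy
    have h2 := d1_add (D dw1x) (D dw2y) x
    rw [← h2, d1, h1.fderiv_eq]
    simp
  have hxxb : ∀ x ∈ frontier Ω, d1 (d1 w1) x + d2 (d1 w2) x = 0 :=
    zero_on_frontier ((d1_contDiff (m := 0) (n := 1) dw1x (by norm_num)).continuous.add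
      (d2_contDiff (m := 0) (n := 1) dw2x (by norm_num)).continuous) hxxΩ
  -- the gradients of the coefficients
  have gk : ∀ z : P2, Gr (fun y => k y.1) (deriv k z.1) 0 z := fun z =>
    (Gr.comp1 (hk1 z.1) Gr.fst).eq (by ring) (by ring)
  have gG : ∀ {F : P2 → ℝ}, Differentiable ℝ F → ∀ z : P2, Gr (fun y => F (y.1, h y.1 + y.2))
      (d1 F (z.1, h z.1 + z.2) + k z.1 * d2 F (z.1, h z.1 + z.2))
      (d2 F (z.1, h z.1 + z.2)) z := by
    intro F hF z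
    have g1 : Gr (fun y : P2 => h y.1 + y.2) (k z.1) 1 z :=
      ((Gr.comp1 (hh1 z.1) Gr.fst).add Gr.snd).eq (by ring) (by ring)
    exact ((Gr.of (hF (z.1, h z.1 + z.2))).comp2 (Gr.fst (x := z)) g1).eq (by ring) (by ring)
  have ga : ∀ z : P2, Gr (fun y => -σ * d2 w1 (y.1, h y.1 + y.2))
      (-σ * (d1 (d2 w1) (z.1, h z.1 + z.2) + k z.1 * d2 (d2 w1) (z.1, h z.1 + z.2)))
      (-σ * (d2 (d2 w1) (z.1, h z.1 + z.2))) z := fun z => (gG (D dw1y) z).cmul (-σ)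
  have gb : ∀ z : P2, Gr (fun y => σ * (d1 w1 (y.1, h y.1 + y.2)
      + k y.1 * d2 w1 (y.1, h y.1 + y.2)))
      (σ * ((d1 (d1 w1) (z.1, h z.1 + z.2) + k z.1 * d2 (d1 w1) (z.1, h z.1 + z.2))
        + (k z.1 * (d1 (d2 w1) (z.1, h z.1 + z.2) + k z.1 * d2 (d2 w1) (z.1, h z.1 + z.2))
          + deriv k z.1 * d2 w1 (z.1, h z.1 + z.2))))
      (σ * (d2 (d1 w1) (z.1, h z.1 + z.2) + (k z.1 * d2 (d2 w1) (z.1, h z.1 + z.2)
        + 0 * d2 w1 (z.1, h z.1 + z.2)))) z := fun z =>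
    ((gG (D dw1x) z).add ((gk z).mul (gG (D dw1y) z))).cmul σ
  have gA : ∀ z : P2, Gr (fun y => m2 (y.1, h y.1 + y.2) - k y.1 * m1 (y.1, h y.1 + y.2))
      ((d1 m2 (z.1, h z.1 + z.2) + k z.1 * d2 m2 (z.1, h z.1 + z.2))
        - (k z.1 * (d1 m1 (z.1, h z.1 + z.2) + k z.1 * d2 m1 (z.1, h z.1 + z.2))
          + deriv k z.1 * m1 (z.1, h z.1 + z.2)))
      (d2 m2 (z.1, h z.1 + z.2) - (k z.1 * d2 m1 (z.1, h z.1 + z.2)
        + 0 * m1 (z.1, h z.1 + z.2))) z := fun z =>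
    (gG (D hm2) z).sub ((gk z).mul (gG (D hm1) z))
  have gB : ∀ z : P2, Gr (fun y => (-1) * m1 (y.1, h y.1 + y.2))
      ((-1) * (d1 m1 (z.1, h z.1 + z.2) + k z.1 * d2 m1 (z.1, h z.1 + z.2)))
      ((-1) * d2 m1 (z.1, h z.1 + z.2)) z := fun z => (gG (D hm1) z).cmul (-1)
  have gd : ∀ z : P2, Gr (fun y => σ * ((k y.1 * (2 * d1 w1 (y.1, h y.1 + y.2)
      + k y.1 * d2 w1 (y.1, h y.1 + y.2))) - d1 w2 (y.1, h y.1 + y.2)))
      (d1 (fun y => σ * ((k y.1 * (2 * d1 w1 (y.1, h y.1 + y.2)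
      + k y.1 * d2 w1 (y.1, h y.1 + y.2))) - d1 w2 (y.1, h y.1 + y.2))) z)
      (σ * (2 * k z.1 * d2 (d1 w1) (z.1, h z.1 + z.2)
        + k z.1 * k z.1 * d2 (d2 w1) (z.1, h z.1 + z.2) - d2 (d1 w2) (z.1, h z.1 + z.2))) z := by
    intro z
    have g1 := (((gk z).mul (((gG (D dw1x) z).cmul 2).add ((gk z).mul (gG (D dw1y) z)))).sub
      (gG (D dw2x) z)).cmul σ
    exact g1.eq g1.d1.symm (by ring)
  have cG : ∀ {F : P2 → ℝ}, ContDiff ℝ 1 F → ContDiff ℝ 1 (fun z : P2 => F (z.1, h z.1 + z.2)) :=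
    fun hF => hF.comp hGc
  obtain ⟨r, hr, hfin⟩ := hyp (A := fun y => m2 (y.1, h y.1 + y.2) - k y.1 * m1 (y.1, h y.1 + y.2))
    (B := fun y => (-1) * m1 (y.1, h y.1 + y.2)) (a := fun y => -σ * d2 w1 (y.1, h y.1 + y.2))
    (b := fun y => σ * (d1 w1 (y.1, h y.1 + y.2) + k y.1 * d2 w1 (y.1, h y.1 + y.2)))
    (d := fun y => σ * ((k y.1 * (2 * d1 w1 (y.1, h y.1 + y.2)
      + k y.1 * d2 w1 (y.1, h y.1 + y.2))) - d1 w2 (y.1, h y.1 + y.2)))
    ((cG hm2).sub (hkc1.mul (cG hm1))) (contDiff_const.mul (cG hm1))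
    (contDiff_const.mul (cG dw1y)) (contDiff_const.mul ((cG dw1x).add (hkc1.mul (cG dw1y))))
    (contDiff_const.mul ((hkc1.mul ((contDiff_const.mul (cG dw1x)).add
      (hkc1.mul (cG dw1y)))).sub (cG dw2x))) (x₀ := x₁) (r₀ := r₀) hr₀
    (by
      intro z h1 h2 h3
      have hz := hin z.1 z.2 h1 h2 h3
      rw [(gA z).d2, (gB z).d1]
      have e1 := divm _ hz
      linear_combination e1)
    (by
      intro z h1 h2 h3
      have hz := hin z.1 z.2 h1 h2 h3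
      have e1 := divm _ hz
      have e2 := divw _ hz
      have e3 := hxxΩ _ hz
      have e4 := tr _ hz
      have e5 := d_comm hw1 (z.1, h z.1 + z.2)
      rw [(gA z).d1, (gA z).d2, (ga z).d1, (gb z).d1, (gB z).d1, (gb z).d2, (gB z).d2, (gd z).d2]
      have key := wall_alg (σ := σ) (h' := k z.1) (h'' := deriv k z.1)
        (m1 := m1 (z.1, h z.1 + z.2)) (m2 := m2 (z.1, h z.1 + z.2))
        (m1x := d1 m1 (z.1, h z.1 + z.2)) (m1y := d2 m1 (z.1, h z.1 + z.2))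
        (m2x := d1 m2 (z.1, h z.1 + z.2)) (m2y := d2 m2 (z.1, h z.1 + z.2))
        (w1x := d1 w1 (z.1, h z.1 + z.2)) (w1y := d2 w1 (z.1, h z.1 + z.2))
        (w2x := d1 w2 (z.1, h z.1 + z.2)) (w2y := d2 w2 (z.1, h z.1 + z.2))
        (w1xx := d1 (d1 w1) (z.1, h z.1 + z.2)) (w1xy := d2 (d1 w1) (z.1, h z.1 + z.2))
        (w1yy := d2 (d2 w1) (z.1, h z.1 + z.2)) (w2xy := d2 (d1 w2) (z.1, h z.1 + z.2))
        (by linarith) (by linarith) (by linarith) e4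
      rw [e5]
      linear_combination key)
    (by
      intro x h1
      have e1 := bm _ (hfr x h1)
      simp [e1.1, e1.2])
    (by
      intro x h1
      have e1 := hzero (hw1.differentiable (by norm_num)) (fun x hx => (bw x hx).1) x h1
      simp only [add_zero]
      rw [e1, mul_zero])
    (by
      intro x h1
      have e1 := hzero (hw1.differentiable (by norm_num)) (fun x hx => (bw x hx).1) x h1
      have e2 := hzero (hw2.differentiable (by norm_num)) (fun x hx => (bw x hx).2) x h1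
      have e3 := divwb _ (hfr x h1)
      simp only [add_zero]
      linear_combination σ * k x * e1 - σ * e2 + σ * k x * e3)
    (by simpa using hσ)
    (by
      rw [(gd (x₁, 0)).d2]
      simp only [add_zero]
      have h1 : |x₁ - x₁| < r₀ := by simpa using hr₀
      have e3 := hxxb _ (hfr x₁ h1)
      have e5 := d_comm hw1 (x₁, h x₁)
      -- derivative of the relation `w1x + k w1y = 0` along the graph
      have h2 := (htan (D dw1x) x₁).add ((hk1 x₁).mul (htan (D dw1y) x₁))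
      have h3 : (fun s => d1 w1 (s, h s) + k s * d2 w1 (s, h s)) =ᶠ[𝓝 x₁] fun _ => 0 := by
        have : {s : ℝ | |s - x₁| < r₀} ∈ 𝓝 x₁ :=
          (isOpen_lt (by fun_prop) continuous_const).mem_nhds h1
        filter_upwards [this] with s hs
        exact hzero (hw1.differentiable (by norm_num)) (fun x hx => (bw x hx).1) s hs
      have h4 := (hasDerivAt_const x₁ (0 : ℝ)).congr_of_eventuallyEq h3
      have h5 := h2.unique h4
      rw [hk] at h5 ⊢
      have h6 : 0 < deriv (deriv h) x₁ * (-σ * d2 w1 (x₁, h x₁)) := mul_pos hc hσ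
      have h7 : σ * (2 * deriv h x₁ * d2 (d1 w1) (x₁, h x₁)
        + deriv h x₁ * deriv h x₁ * d2 (d2 w1) (x₁, h x₁) - d2 (d1 w2) (x₁, h x₁))
        = deriv (deriv h) x₁ * (-σ * d2 w1 (x₁, h x₁)) := by
        linear_combination σ * h5 - σ * e3 - σ * deriv h x₁ * e5
      rw [h7]
      exact h6)
  refine ⟨{z : P2 | |z.1 - x₁| < min r r₀ ∧ 0 < z.2 - h z.1 ∧ z.2 - h z.1 < min r r₀}, ?_, ?_, ?_, ?_⟩
  · have := hh.continuous
    have q1 : Continuous fun z : P2 => |z.1 - x₁| := by fun_prop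
    have q2 : Continuous fun z : P2 => z.2 - h z.1 := by fun_prop
    exact (isOpen_lt q1 continuous_const).inter
      ((isOpen_lt continuous_const q2).inter (isOpen_lt q2 continuous_const))
  · refine ⟨(x₁, h x₁ + min r r₀ / 2), ?_⟩
    have : 0 < min r r₀ := by positivity
    simp only [Set.mem_ofPred_eq, sub_self, abs_zero, add_sub_cancel_left]
    exact ⟨this, by positivity, by linarith⟩
  · rintro ⟨x, y⟩ ⟨h1, h2, h3⟩
    simp only at h1 h2 h3
    have := hin x (y - h x) (h1.trans_le (min_le_right _ _)) h2 (h3.trans_le (min_le_right _ _))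
    simpa using this
  · rintro ⟨x, y⟩ ⟨h1, h2, h3⟩
    simp only at h1 h2 h3
    have h4 := hfin (x, y - h x) (h1.trans_le (min_le_left _ _)) h2 (h3.trans_le (min_le_left _ _))
    simp only [add_sub_cancel] at h4
    obtain ⟨h5, h6⟩ := h4
    have h7 : m1 (x, y) = 0 := by linarith
    rw [h7] at h5
    exact ⟨h7, by linarith⟩

end Run7.h105
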